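import Mathlib

/-!
# Rational directions next to a given angle
-/

open Real

namespace C2305bAF

/-- One number `phi0` for all small integer combinations of `pi` and `phi`. -/
theorem number_lemma (B : ℕ) : ∃ ε : ℝ, 0 < ε ∧ ε < π ∧ ∀ φ : ℝ, ∃ φ0 : ℝ, |φ0 - φ| ≤ ε ∧
    ∀ d m : ℤ, |(d : ℝ)| ≤ B → |π * m - φ * d| ≤ ε → π * m = φ0 * d := by
  have hpi := Real.pi_pos
  refine ⟨π / (2 * B + 2), by positivity, ?_, fun φ => ?_⟩
  · rw [div_lt_iff₀ (by positivity)]
    nlinarith [Nat.cast_nonneg (α := ℝ) B]
  have hB : (0 : ℝ) ≤ B := Nat.cast_nonneg B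
  have hε : 2 * (B : ℝ) * (π / (2 * B + 2)) < π := by
    rw [← mul_div_assoc, div_lt_iff₀ (by positivity)]
    nlinarith
  have hε1 : π / (2 * B + 2) < π := by
    rw [div_lt_iff₀ (by positivity)]
    nlinarith
  have hε0 : 0 < π / (2 * B + 2) := by positivity
  generalize π / (2 * (B : ℝ) + 2) = ε at *
  have hzero : ∀ m : ℤ, |π * m| < π → m = 0 := by
    intro m hm
    rw [abs_mul, abs_of_pos hpi] at hm
    have h1 : |(m : ℝ)| < 1 := by
      by_contra hcon
      push Not at hcon
      nlinarith
    have h2 : |m| < 1 := by exact_mod_cast h1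
    rw [Int.abs_lt_one_iff] at h2
    exact h2
  by_cases hex : ∃ d m : ℤ, d ≠ 0 ∧ |(d : ℝ)| ≤ B ∧ |π * m - φ * d| ≤ ε
  · obtain ⟨d, m, hd, hdB, hm⟩ := hex
    have hdR : (d : ℝ) ≠ 0 := by exact_mod_cast hd
    have hd1 : 1 ≤ |(d : ℝ)| := by
      have := Int.one_le_abs hd
      exact_mod_cast this
    refine ⟨π * m / d, ?_, fun d' m' hd' hm' => ?_⟩
    · have e : π * m / d - φ = (π * m - φ * d) / d := by
        field_simp
      rw [e, abs_div, div_le_iff₀ (by linarith)]
      nlinarith
    · have h1 : π * ((m' * d - m * d' : ℤ) : ℝ) =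
          (π * m' - φ * d') * d - (π * m - φ * d) * d' := by
        push_cast
        ring
      have h2 : |π * ((m' * d - m * d' : ℤ) : ℝ)| < π := by
        rw [h1]
        have a1 : |(π * m' - φ * d') * d| ≤ ε * B := by
          rw [abs_mul]
          exact mul_le_mul hm' hdB (abs_nonneg _) hε0.le
        have a2 : |(π * m - φ * d) * d'| ≤ ε * B := by
          rw [abs_mul]
          exact mul_le_mul hm hd' (abs_nonneg _) hε0.le
        have a3 := abs_sub ((π * m' - φ * d') * d) ((π * m - φ * d) * d')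
        nlinarith
      have h3 := hzero _ h2
      have h4 : (m' : ℝ) * d = m * d' := by
        have h5 : m' * d = m * d' := by linarith
        exact_mod_cast h5
      rw [div_mul_eq_mul_div, eq_div_iff hdR]
      linear_combination π * h4
  · push Not at hex
    refine ⟨φ, by simpa using hε0.le, fun d m hd hm => ?_⟩
    by_cases hd0 : d = 0
    · subst hd0
      have h1 : |π * (m : ℝ)| < π := by
        simp only [Int.cast_zero, mul_zero, sub_zero] at hm
        linarith
      rw [hzero m h1]
      simp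
    · exact absurd hm (not_le.2 (hex d m hd0 hd))

end C2305bAF
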