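import Pool.Agent.W_c2305b_h52.Stat3
import Pool.Agent.W_c2305b_h77.FatDefs2

/-!
# The static lemma: bodies with `t6 - t5` small are near parallelograms
-/

open MeasureTheory Set Module

namespace C2305bFat

open W82
open C2305b.TL (cr)
open C2305bH52.Dow C2305bH52.Stat

/-- THE STATIC LEMMA with constant 11, no smallness. -/
theorem static11 {K : Set V} (hconv : Convex ℝ K) (hK : IsCompact K) (hsym : ∀ v ∈ K, -v ∈ K)
    (hball : Metric.closedBall 0 1 ⊆ K) {s : ℝ} (hs : 0 ≤ s)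
    (h56 : C2305b.t6 K ≤ tm 5 K + ENNReal.ofReal s) :
    ∃ U W : V, 1 / 2 ≤ cr U W ∧ (∀ x y : ℝ, |x| ≤ 1 → |y| ≤ 1 → x • U + y • W ∈ K) ∧
      (∀ z ∈ K, ∃ x y : ℝ, |x| ≤ 1 + 11 * s ∧ |y| ≤ 1 + 11 * s ∧ z = x • U + y • W) := by
  have hint : (interior K).Nonempty := by
    refine ⟨0, interior_mono hball ?_⟩
    rw [mem_interior_iff_mem_nhds]
    exact Metric.closedBall_mem_nhds 0 one_pos
  have hN := nrm_gauge hK hconv hsym hint
  have hsig : sm (gauge K) 6 - sm (gauge K) 5 ≤ s := by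
    rw [t6_eq hsym hK hconv hint, tm_eq hsym hK hconv hint (by norm_num)] at h56
    have h5 : 0 ≤ sm (gauge K) 5 := by
      obtain ⟨⟨u, hu, huA⟩, -⟩ := sm_spec hN (show 2 ≤ 5 by norm_num)
      rw [← huA]
      have := AA_nonneg hN hu
      positivity
    rw [← ENNReal.ofReal_add h5 hs, ENNReal.ofReal_le_ofReal_iff (by linarith)] at h56
    linarith
  obtain ⟨p, hp, q, hq, hpq, hmax⟩ := exists_par hsym hK hconv hint
  have hc1 : 1 ≤ cr p q := by
    have h1 := hmax (EuclideanSpace.single 0 1) (hball (by simp)) (EuclideanSpace.single 1 1)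
      (hball (by simp))
    have e : cr (EuclideanSpace.single 0 1 : V) (EuclideanSpace.single 1 1) = 1 := by
      unfold cr
      simp
    rw [e] at h1
    exact h1
  have hNp := (gauge_le_one hK hconv hsym hint p).2 hp
  have hNq := (gauge_le_one hK hconv hsym hint q).2 hq
  have hmem : ∀ x y : ℝ, x • ((1 / 2 : ℝ) • (p - q)) + y • ((1 / 2 : ℝ) • (p + q)) =
      ((x + y) / 2) • p + ((y - x) / 2) • q := by
    intro x y
    module
  refine ⟨(1 / 2 : ℝ) • (p - q), (1 / 2 : ℝ) • (p + q), ?_, ?_, ?_⟩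
  · have e : cr ((1 / 2 : ℝ) • (p - q)) ((1 / 2 : ℝ) • (p + q)) = cr p q / 2 := by
      unfold cr
      simp only [PiLp.smul_apply, PiLp.sub_apply, PiLp.add_apply, smul_eq_mul]
      ring
    rw [e]
    linarith
  · intro x y hx hy
    rw [hmem, ← gauge_le_one hK hconv hsym hint]
    refine (hN.add _ _).trans ?_
    rw [hN.smul, hN.smul]
    have h1 : |(x + y) / 2| + |(y - x) / 2| ≤ 1 := by
      rw [abs_le] at hx hy
      rcases abs_cases ((x + y) / 2) with ⟨e1, -⟩ | ⟨e1, -⟩ <;>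
      rcases abs_cases ((y - x) / 2) with ⟨e2, -⟩ | ⟨e2, -⟩ <;> rw [e1, e2] <;> linarith
    have h2 : |(x + y) / 2| * gauge K p ≤ |(x + y) / 2| * 1 :=
      mul_le_mul_of_nonneg_left hNp (abs_nonneg _)
    have h3 : |(y - x) / 2| * gauge K q ≤ |(y - x) / 2| * 1 :=
      mul_le_mul_of_nonneg_left hNq (abs_nonneg _)
    linarith
  · intro z hz
    obtain ⟨a, b, hzab, -, -, hab⟩ := box hsym hK hconv hint hp hq hpq hmax hz
    have hle : 11 * (sm (gauge K) 6 - sm (gauge K) 5) / cr p q ≤ 11 * s := by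
      rw [div_le_iff₀ hpq]
      nlinarith
    refine ⟨a - b, a + b, ?_, ?_, ?_⟩
    · have := abs_sub a b
      linarith
    · have := abs_add_le a b
      linarith
    · rw [hmem, hzab]
      congr 1
      · congr 1; ring
      · congr 1; ring

/-- (B7), the form used by the assembly. -/
theorem static (al : ℝ) : ∃ C > (0 : ℝ), ∃ s0 > (0 : ℝ), ∀ K : Set V, Convex ℝ K → IsCompact K →
    (∀ v ∈ K, -v ∈ K) → Metric.closedBall 0 1 ⊆ K → K ⊆ Metric.closedBall 0 al →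
    ∀ s : ℝ, 0 ≤ s → s ≤ s0 → C2305b.t6 K ≤ tm 5 K + ENNReal.ofReal s →
    ∃ U W : V, 0 < cr U W ∧ (∀ x y : ℝ, |x| ≤ 1 → |y| ≤ 1 → x • U + y • W ∈ K) ∧
      (∀ z ∈ K, ∃ x y : ℝ, |x| ≤ 1 + C * s ∧ |y| ≤ 1 + C * s ∧ z = x • U + y • W) := by
  refine ⟨11, by norm_num, 1, one_pos, fun K hconv hK hsym hball _ s hs _ h56 => ?_⟩
  obtain ⟨U, W, h1, h2, h3⟩ := static11 hconv hK hsym hball hs h56
  exact ⟨U, W, by linarith, h2, h3⟩

end C2305bFat
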