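import Pool.Agent.W_c2305b_h68.Tri
import Pool.Agent.W82_c2305b.Gap

/-!
# The gap hypothesis for the unit disc

`gap_disc : W82.Gap (closedBall 0 1) (3 √3 / 2) (√3 / 4 - π / 12) (1 / 250)`.
The convex hull of `m` points of the unit disc is covered by the triangles cut off by the
consecutive directions; the angles of these triangles sum up to `2 π`.
-/

open MeasureTheory Set Real

namespace C2305bH52.DiscGap

open C2305b.TL (V cr)

/-! ## The numerical inequality -/

/-- area of the triangle `0, e^(i a), e^(i (a + φ))`, zero if `π ≤ φ` -/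
noncomputable def hh (φ : ℝ) : ℝ := if φ < π then sin φ / 2 else 0

theorem sqrt3_sq : (√3 : ℝ) ^ 2 = 3 := Real.sq_sqrt (by norm_num)

theorem sqrt3_bounds : (1.73 : ℝ) < √3 ∧ √3 < 1.74 := by
  constructor
  · rw [Real.lt_sqrt (by norm_num)]; norm_num
  · rw [Real.sqrt_lt' (by norm_num)]; norm_num

theorem key_pos {x : ℝ} (hx : |x| ≤ π) : x ^ 2 * (0.087) ≤ √3 / 4 * (1 - cos x) := by
  have h1 := Real.cos_le_one_sub_mul_cos_sq hx
  have h3 := sqrt3_bounds.1
  have h2 : 0 ≤ 1 - cos x := by linarith [Real.cos_le_one x]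
  have hpi := Real.pi_pos
  have hpi2 : π < 3.15 := Real.pi_lt_d2
  have h4 : 2 / π ^ 2 * x ^ 2 ≤ 1 - cos x := by linarith
  have h5 : (0.2015 : ℝ) ≤ 2 / π ^ 2 := by
    rw [le_div_iff₀ (by positivity)]
    nlinarith
  have h6 : 0.2015 * x ^ 2 ≤ 1 - cos x := by
    have := mul_le_mul_of_nonneg_right h5 (sq_nonneg x)
    linarith
  have h7 : √3 / 4 * (0.2015 * x ^ 2) ≤ √3 / 4 * (1 - cos x) :=
    mul_le_mul_of_nonneg_left h6 (by positivity)
  nlinarith [sq_nonneg x]

theorem hh_le {φ : ℝ} (h0 : 0 ≤ φ) (h1 : φ ≤ 2 * π) :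
    hh φ ≤ √3 / 4 + (φ - π / 3) / 4 - (φ - π / 3) ^ 2 / 30 := by
  have hpi := Real.pi_pos
  have hpi2 : π < 3.15 := Real.pi_lt_d2
  have hpi3 : 3.14 < π := Real.pi_gt_d2
  have hs := sqrt3_bounds.1
  unfold hh
  split_ifs with hφ
  · set x := φ - π / 3 with hx
    have hφx : φ = x + π / 3 := by rw [hx]; ring
    have hsin : sin φ = sin x / 2 + √3 / 2 * cos x := by
      rw [hφx, sin_add, cos_pi_div_three, sin_pi_div_three]; ring
    have habs : |x| ≤ π := by rw [abs_le]; constructor <;> linarith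
    have hk := key_pos habs
    rw [hsin]
    rcases le_total 0 x with hx0 | hx0
    · have h2 := Real.sin_le hx0
      nlinarith [sq_nonneg x]
    · have h2 := Real.sin_ge_sub_cube (x := -x) (by linarith)
      rw [Real.sin_neg] at h2
      have h3 : -x ≤ 1.05 := by linarith
      have h4 : (-x) ^ 3 ≤ 1.05 * x ^ 2 := by nlinarith [sq_nonneg x]
      nlinarith [sq_nonneg x]
  · push Not at hφ
    have h2 : 0 ≤ φ - π / 3 := by linarith
    have h3 : φ - π / 3 ≤ 7 := by linarith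
    nlinarith

/-- the sum over `n` angles of total `2 π` -/
theorem sum_hh_le {n : ℕ} (hn : 1 ≤ n) (φ : ℕ → ℝ) (h0 : ∀ k < n, 0 ≤ φ k)
    (hsum : ∑ k ∈ Finset.range n, φ k = 2 * π) :
    ∑ k ∈ Finset.range n, hh (φ k) ≤
      π / 2 + n * (√3 / 4 - π / 12) - (6 - n) ^ 2 * (9 / 270) / n := by
  have hpi3 : 3 < π := Real.pi_gt_three
  have hle : ∀ k < n, φ k ≤ 2 * π := by
    intro k hk
    rw [← hsum]
    exact Finset.single_le_sum (fun j hj => h0 j (Finset.mem_range.1 hj)) (Finset.mem_range.2 hk)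
  have h1 : ∑ k ∈ Finset.range n, hh (φ k) ≤
      ∑ k ∈ Finset.range n, (√3 / 4 + (φ k - π / 3) / 4 - (φ k - π / 3) ^ 2 / 30) :=
    Finset.sum_le_sum fun k hk => hh_le (h0 k (Finset.mem_range.1 hk)) (hle k (Finset.mem_range.1 hk))
  have hsum2 : ∑ k ∈ Finset.range n, (φ k - π / 3) = (6 - n) * (π / 3) := by
    rw [Finset.sum_sub_distrib, hsum, Finset.sum_const, Finset.card_range, nsmul_eq_mul]
    ring
  have h2 : ∑ k ∈ Finset.range n, (√3 / 4 + (φ k - π / 3) / 4 - (φ k - π / 3) ^ 2 / 30) =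
      n * (√3 / 4) + (6 - n) * (π / 3) / 4 - (∑ k ∈ Finset.range n, (φ k - π / 3) ^ 2) / 30 := by
    rw [Finset.sum_sub_distrib, Finset.sum_add_distrib, Finset.sum_const, Finset.card_range,
      nsmul_eq_mul, ← Finset.sum_div, hsum2, ← Finset.sum_div]
  have hcs := sq_sum_le_card_mul_sum_sq (s := Finset.range n) (f := fun k => φ k - π / 3)
  rw [Finset.card_range, hsum2] at hcs
  have hn0 : (0 : ℝ) < n := by exact_mod_cast hn
  have h3 : (6 - n : ℝ) ^ 2 / n ≤ ∑ k ∈ Finset.range n, (φ k - π / 3) ^ 2 := by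
    rw [div_le_iff₀ hn0]
    have : (6 - n : ℝ) ^ 2 ≤ ((6 - n) * (π / 3)) ^ 2 := by
      have h4 : 1 ≤ (π / 3) ^ 2 := by nlinarith
      have : ((6 - n : ℝ) * (π / 3)) ^ 2 = (6 - n) ^ 2 * (π / 3) ^ 2 := by ring
      rw [this]
      nlinarith [sq_nonneg (6 - n : ℝ)]
    linarith
  have h5 : (6 - n : ℝ) ^ 2 * (9 / 270) / n = (6 - n : ℝ) ^ 2 / n / 30 := by ring
  rw [h5]
  linarith

/-! ## Covering by triangles -/

/-- unit vector -/
noncomputable def uv (t : ℝ) : V := !₂[cos t, sin t]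

@[simp] theorem uv_zero (t : ℝ) : uv t 0 = cos t := by simp [uv]
@[simp] theorem uv_one (t : ℝ) : uv t 1 = sin t := by simp [uv]

theorem cr_uv (s t : ℝ) : cr (uv s) (uv t) = sin (t - s) := by
  unfold cr
  rw [uv_zero, uv_one, uv_zero, uv_one, sin_sub]
  ring

/-- `cos` far from `0` modulo `2 π` -/
theorem cos_le_of {y p : ℝ} (hp0 : 0 ≤ p) (h1 : p ≤ y) (h2 : y ≤ 2 * π - p) :
    cos y ≤ cos p := by
  rcases le_total y π with h | h
  · exact Real.cos_le_cos_of_nonneg_of_le_pi hp0 h h1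
  · have : cos y = cos (2 * π - y) := by rw [Real.cos_two_pi_sub]
    rw [this]
    exact Real.cos_le_cos_of_nonneg_of_le_pi hp0 (by linarith) (by linarith)

section cover

variable {n : ℕ} (θ : ℕ → ℝ)

theorem theta_mono (hmono : ∀ k < n, θ k ≤ θ (k + 1)) {j k : ℕ} (hjk : j ≤ k) (hk : k ≤ n) :
    θ j ≤ θ k := by
  induction k, hjk using Nat.le_induction with
  | base => exact le_rfl
  | succ m hm ih => exact (ih (by omega)).trans (hmono m (by omega))

theorem cos_le_gap (hmono : ∀ k < n, θ k ≤ θ (k + 1)) (hend : θ n = θ 0 + 2 * π)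
    {k : ℕ} (hk : k < n) {j : ℕ} (hj : j < n) {s p : ℝ} (hp : 0 ≤ p)
    (h1 : θ k + p ≤ s) (h2 : s ≤ θ (k + 1) - p) : cos (s - θ j) ≤ cos p := by
  have a1 : θ 0 ≤ θ j := theta_mono θ hmono (Nat.zero_le _) hj.le
  have a2 : θ 0 ≤ θ k := theta_mono θ hmono (Nat.zero_le _) hk.le
  have a3 : θ j ≤ θ n := theta_mono θ hmono hj.le le_rfl
  have a4 : θ (k + 1) ≤ θ n := theta_mono θ hmono hk le_rfl
  rcases Nat.lt_or_ge k j with h | h
  · have a5 : θ (k + 1) ≤ θ j := theta_mono θ hmono h hj.le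
    rw [← Real.cos_neg, neg_sub]
    exact cos_le_of hp (by linarith) (by linarith)
  · have a5 : θ j ≤ θ k := theta_mono θ hmono h hk.le
    exact cos_le_of hp (by linarith) (by linarith)

/-- second vertex of the triangle `k` -/
noncomputable def ww (k : ℕ) : V := if θ (k + 1) - θ k < π then uv (θ (k + 1)) else uv (θ k)

open C2305bH68.Tri in
/-- the triangle `k` -/
noncomputable def TT (k : ℕ) : Set V := lmap (uv (θ k)) (ww θ k) '' std

theorem volume_TT {k : ℕ} (h0 : θ k ≤ θ (k + 1)) :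
    volume (TT θ k) = ENNReal.ofReal (hh (θ (k + 1) - θ k)) := by
  unfold TT
  rw [Measure.addHaar_image_linearMap, C2305bH68.Tri.det_lmap, C2305bH68.Tri.volume_std,
    ← ENNReal.ofReal_mul (abs_nonneg _)]
  congr 1
  unfold ww hh
  split_ifs with h
  · rw [cr_uv, abs_of_nonneg (Real.sin_nonneg_of_nonneg_of_le_pi (by linarith) h.le)]
    ring
  · rw [cr_uv, sub_self, sin_zero, abs_zero, zero_mul]

theorem exists_polar (x : V) (a : ℝ) : ∃ t ∈ Ico a (a + 2 * π), ∃ r : ℝ, 0 ≤ r ∧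
    r ^ 2 = x 0 ^ 2 + x 1 ^ 2 ∧ x = r • uv t := by
  let c : ℂ := ⟨x 0, x 1⟩
  have h2pi : (0 : ℝ) < 2 * π := by positivity
  have hcre : c.re = x 0 := rfl
  have hcim : c.im = x 1 := rfl
  refine ⟨toIcoMod h2pi a c.arg, toIcoMod_mem_Ico h2pi a c.arg, ‖c‖, norm_nonneg _, ?_, ?_⟩
  · rw [Complex.sq_norm, Complex.normSq_apply, hcre, hcim]; ring
  · have h1 : toIcoMod h2pi a c.arg = c.arg - (toIcoDiv h2pi a c.arg : ℝ) * (2 * π) := by
      rw [toIcoMod, zsmul_eq_mul]
    have hcos : cos (toIcoMod h2pi a c.arg) = cos c.arg := by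
      rw [h1, Real.cos_sub_int_mul_two_pi]
    have hsin : sin (toIcoMod h2pi a c.arg) = sin c.arg := by
      rw [h1, Real.sin_sub_int_mul_two_pi]
    ext i
    fin_cases i
    · simp only [Fin.zero_eta, PiLp.smul_apply, smul_eq_mul, uv_zero, hcos]
      rw [Complex.norm_mul_cos_arg]
    · simp only [Fin.mk_one, PiLp.smul_apply, smul_eq_mul, uv_one, hsin]
      rw [Complex.norm_mul_sin_arg]

theorem exists_interval {t : ℝ} (h0 : θ 0 ≤ t) (h1 : t < θ n) :
    ∃ k < n, θ k ≤ t ∧ t < θ (k + 1) := by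
  classical
  have hex : ∃ m, t < θ m := ⟨n, h1⟩
  have hs := Nat.find_spec hex
  have hmin : Nat.find hex ≤ n := Nat.find_min' hex h1
  have hne : Nat.find hex ≠ 0 := by
    intro h
    rw [h] at hs
    linarith
  have e : Nat.find hex = (Nat.find hex - 1) + 1 := by omega
  refine ⟨Nat.find hex - 1, by omega, ?_, by rw [← e]; exact hs⟩
  have := Nat.find_min hex (m := Nat.find hex - 1) (by omega)
  push Not at this
  exact this

theorem halfplane {S : Set V} (hmono : ∀ k < n, θ k ≤ θ (k + 1)) (hend : θ n = θ 0 + 2 * π)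
    (hS : ∀ z ∈ S, ∃ j < n, ∃ ρ : ℝ, 0 ≤ ρ ∧ ρ ≤ 1 ∧ z = ρ • uv (θ j))
    {k : ℕ} (hk : k < n) {s p : ℝ} (hp : 0 ≤ p) (hp2 : p ≤ π / 2)
    (h1 : θ k + p ≤ s) (h2 : s ≤ θ (k + 1) - p) {x : V} (hx : x ∈ convexHull ℝ S) :
    cos s * x 0 + sin s * x 1 ≤ cos p := by
  have hcp : 0 ≤ cos p := Real.cos_nonneg_of_mem_Icc ⟨by linarith [Real.pi_pos], hp2⟩
  have hconv : Convex ℝ {x : V | cos s * x 0 + sin s * x 1 ≤ cos p} := by
    intro y hy z hz a b ha hb hab
    simp only [Set.mem_setOf_eq, PiLp.add_apply, PiLp.smul_apply, smul_eq_mul] at *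
    have e : cos s * (a * y 0 + b * z 0) + sin s * (a * y 1 + b * z 1) =
      a * (cos s * y 0 + sin s * y 1) + b * (cos s * z 0 + sin s * z 1) := by ring
    rw [e]
    have e2 : cos p = a * cos p + b * cos p := by rw [← add_mul, hab, one_mul]
    rw [e2]
    have := mul_le_mul_of_nonneg_left hy ha
    have := mul_le_mul_of_nonneg_left hz hb
    linarith
  refine convexHull_min ?_ hconv hx
  intro z hz
  obtain ⟨j, hj, ρ, hρ0, hρ1, rfl⟩ := hS z hz
  simp only [Set.mem_setOf_eq, PiLp.smul_apply, smul_eq_mul, uv_zero, uv_one]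
  have h3 := cos_le_gap θ hmono hend hk hj hp h1 h2
  rw [cos_sub] at h3
  have e : cos s * (ρ * cos (θ j)) + sin s * (ρ * sin (θ j)) =
    ρ * (cos s * cos (θ j) + sin s * sin (θ j)) := by ring
  rw [e]
  calc ρ * (cos s * cos (θ j) + sin s * sin (θ j)) ≤ ρ * cos p :=
        mul_le_mul_of_nonneg_left h3 hρ0
    _ ≤ 1 * cos p := mul_le_mul_of_nonneg_right hρ1 hcp
    _ = cos p := one_mul _

theorem norm_le_of_hull {S : Set V}
    (hS : ∀ z ∈ S, ∃ j < n, ∃ ρ : ℝ, 0 ≤ ρ ∧ ρ ≤ 1 ∧ z = ρ • uv (θ j))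
    {x : V} (hx : x ∈ convexHull ℝ S) : x 0 ^ 2 + x 1 ^ 2 ≤ 1 := by
  have hsub : S ⊆ Metric.closedBall (0 : V) 1 := by
    intro z hz
    obtain ⟨j, -, ρ, hρ0, hρ1, rfl⟩ := hS z hz
    rw [mem_closedBall_zero_iff, norm_smul, Real.norm_eq_abs, abs_of_nonneg hρ0]
    have : ‖uv (θ j)‖ = 1 := by
      rw [EuclideanSpace.norm_eq]
      simp [Fin.sum_univ_two]
    rw [this, mul_one]
    exact hρ1
  have h1 := convexHull_min hsub (convex_closedBall (0 : V) 1) hx
  rw [mem_closedBall_zero_iff, EuclideanSpace.norm_eq] at h1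
  have h2 : √(∑ i, ‖x i‖ ^ 2) ^ 2 ≤ 1 ^ 2 := by
    apply pow_le_pow_left₀ (Real.sqrt_nonneg _) h1
  rw [Real.sq_sqrt (by positivity)] at h2
  simpa [Fin.sum_univ_two] using h2

theorem hull_cover {S : Set V} (hn : 1 ≤ n) (hmono : ∀ k < n, θ k ≤ θ (k + 1))
    (hend : θ n = θ 0 + 2 * π)
    (hS : ∀ z ∈ S, ∃ j < n, ∃ ρ : ℝ, 0 ≤ ρ ∧ ρ ≤ 1 ∧ z = ρ • uv (θ j)) :
    convexHull ℝ S ⊆ ⋃ k ∈ Finset.range n, TT θ k := by
  intro x hx
  have hpi := Real.pi_pos
  obtain ⟨t, ht, r, hr0, hr2, hxr⟩ := exists_polar x (θ 0)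
  have hr1 : r ≤ 1 := by
    have := norm_le_of_hull θ hS hx
    rw [← hr2] at this
    nlinarith
  rw [mem_iUnion₂]
  rcases hr0.eq_or_lt with h0 | hrpos
  · -- the centre
    refine ⟨0, Finset.mem_range.2 hn, 0, ⟨?_, ?_, ?_⟩, ?_⟩
    · simp
    · simp
    · simp
    · rw [map_zero, hxr, ← h0, zero_smul]
  obtain ⟨k, hk, hk1, hk2⟩ := exists_interval θ (n := n) ht.1 (by rw [hend]; exact ht.2)
  refine ⟨k, Finset.mem_range.2 hk, ?_⟩
  have hx0 : x 0 = r * cos t := by rw [hxr]; simp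
  have hx1 : x 1 = r * sin t := by rw [hxr]; simp
  by_cases hφ : θ (k + 1) - θ k < π
  · -- a proper triangle
    set φ := θ (k + 1) - θ k with hφdef
    have hφ0 : 0 < φ := by rw [hφdef]; linarith
    have hhp := halfplane θ hmono hend hS hk (s := (θ k + θ (k + 1)) / 2) (p := φ / 2)
      (by linarith) (by linarith) (by rw [hφdef]; linarith) (by rw [hφdef]; linarith) hx
    have hsφ : 0 < sin φ := Real.sin_pos_of_pos_of_lt_pi hφ0 hφ
    have hcφ : 0 < cos (φ / 2) := Real.cos_pos_of_mem_Ioo ⟨by linarith, by linarith⟩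
    set μ := (θ k + θ (k + 1)) / 2 with hμ
    set α := r * sin (θ (k + 1) - t) / sin φ with hα
    set β := r * sin (t - θ k) / sin φ with hβ
    have hα0 : 0 ≤ α := by
      have : 0 ≤ sin (θ (k + 1) - t) :=
        Real.sin_nonneg_of_nonneg_of_le_pi (by linarith) (by rw [hφdef] at hφ; linarith)
      positivity
    have hβ0 : 0 ≤ β := by
      have : 0 ≤ sin (t - θ k) :=
        Real.sin_nonneg_of_nonneg_of_le_pi (by linarith) (by rw [hφdef] at hφ; linarith)
      positivity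
    have e0 : x 0 = α * cos (θ k) + β * cos (θ (k + 1)) := by
      rw [hx0, hα, hβ]
      field_simp
      rw [hφdef, sin_sub, sin_sub, sin_sub]
      ring
    have e1 : x 1 = α * sin (θ k) + β * sin (θ (k + 1)) := by
      rw [hx1, hα, hβ]
      field_simp
      rw [hφdef, sin_sub, sin_sub, sin_sub]
      ring
    have hsum : α + β ≤ 1 := by
      have hu : cos μ * cos (θ k) + sin μ * sin (θ k) = cos (φ / 2) := by
        rw [← cos_sub]; congr 1; rw [hμ, hφdef]; ring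
      have hv : cos μ * cos (θ (k + 1)) + sin μ * sin (θ (k + 1)) = cos (φ / 2) := by
        rw [← cos_sub, ← Real.cos_neg]; congr 1; rw [hμ, hφdef]; ring
      have h3 : cos μ * x 0 + sin μ * x 1 = (α + β) * cos (φ / 2) := by
        rw [e0, e1]
        linear_combination α * hu + β * hv
      rw [h3] at hhp
      by_contra hc
      push Not at hc
      nlinarith
    let y : V := !₂[α, β]
    have hy0 : y 0 = α := by simp [y]
    have hy1 : y 1 = β := by simp [y]
    refine ⟨y, ⟨by rw [hy0]; exact hα0, by rw [hy1]; exact hβ0, by rw [hy0, hy1]; exact hsum⟩, ?_⟩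
    rw [C2305bH68.Tri.lmap_apply, hy0, hy1]
    have hw : ww θ k = uv (θ (k + 1)) := by unfold ww; rw [if_pos hφ]
    rw [hw]
    ext i
    fin_cases i
    · simp only [Fin.zero_eta, PiLp.add_apply, PiLp.smul_apply, smul_eq_mul, uv_zero]
      exact e0.symm
    · simp only [Fin.mk_one, PiLp.add_apply, PiLp.smul_apply, smul_eq_mul, uv_one]
      exact e1.symm
  · push Not at hφ
    rcases hk1.eq_or_lt with hkt | hkt
    · -- on the ray
      let y : V := !₂[r, 0]
      have hy0 : y 0 = r := by simp [y]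
      have hy1 : y 1 = 0 := by simp [y]
      refine ⟨y, ⟨by rw [hy0]; exact hrpos.le, by rw [hy1], by rw [hy0, hy1]; linarith⟩, ?_⟩
      rw [C2305bH68.Tri.lmap_apply, hy0, hy1, zero_smul, add_zero, hkt, ← hxr]
    · exfalso
      set s := max (θ k + π / 2) (min t (θ (k + 1) - π / 2)) with hs
      have hs1 : θ k + π / 2 ≤ s := le_max_left _ _
      have hs2 : s ≤ θ (k + 1) - π / 2 := max_le (by linarith) (min_le_right _ _)
      have hhp := halfplane θ hmono hend hS hk (s := s) (p := π / 2) (by linarith) le_rfl hs1 hs2 hx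
      rw [Real.cos_pi_div_two, hx0, hx1] at hhp
      have h3 : cos (t - s) ≤ 0 := by
        rw [cos_sub]
        by_contra hc
        push Not at hc
        nlinarith
      have h4 : 0 < cos (t - s) := by
        apply Real.cos_pos_of_mem_Ioo
        constructor
        · have : s < t + π / 2 := by
            apply max_lt (by linarith)
            exact (min_le_left _ _).trans_lt (by linarith)
          linarith
        · have : t - π / 2 < s := by
            apply lt_of_lt_of_le _ (le_max_right _ _)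
            apply lt_min <;> linarith
          linarith
      linarith

theorem volume_hull_le {S : Set V} (hn : 1 ≤ n) (hmono : ∀ k < n, θ k ≤ θ (k + 1))
    (hend : θ n = θ 0 + 2 * π)
    (hS : ∀ z ∈ S, ∃ j < n, ∃ ρ : ℝ, 0 ≤ ρ ∧ ρ ≤ 1 ∧ z = ρ • uv (θ j)) :
    (volume (convexHull ℝ S)).toReal ≤
      π / 2 + n * (√3 / 4 - π / 12) - (6 - n) ^ 2 * (9 / 270) / n := by
  have h0 : ∀ k < n, 0 ≤ θ (k + 1) - θ k := fun k hk => sub_nonneg.2 (hmono k hk)
  have hsum : ∑ k ∈ Finset.range n, (θ (k + 1) - θ k) = 2 * π := by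
    rw [Finset.sum_range_sub, hend]; ring
  refine le_trans ?_ (sum_hh_le hn (fun k => θ (k + 1) - θ k) h0 hsum)
  have hnn : ∀ k ∈ Finset.range n, 0 ≤ hh (θ (k + 1) - θ k) := by
    intro k hk
    unfold hh
    split_ifs with h
    · have := Real.sin_nonneg_of_nonneg_of_le_pi (h0 k (Finset.mem_range.1 hk)) h.le
      positivity
    · exact le_rfl
  have h1 : volume (convexHull ℝ S) ≤
      ENNReal.ofReal (∑ k ∈ Finset.range n, hh (θ (k + 1) - θ k)) := by
    calc volume (convexHull ℝ S) ≤ volume (⋃ k ∈ Finset.range n, TT θ k) :=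
          measure_mono (hull_cover θ hn hmono hend hS)
      _ ≤ ∑ k ∈ Finset.range n, volume (TT θ k) := measure_biUnion_finset_le _ _
      _ = ∑ k ∈ Finset.range n, ENNReal.ofReal (hh (θ (k + 1) - θ k)) :=
          Finset.sum_congr rfl fun k hk => volume_TT θ (hmono k (Finset.mem_range.1 hk))
      _ = ENNReal.ofReal (∑ k ∈ Finset.range n, hh (θ (k + 1) - θ k)) :=
          (ENNReal.ofReal_sum_of_nonneg hnn).symm
  have h2 := ENNReal.toReal_mono ENNReal.ofReal_ne_top h1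
  rwa [ENNReal.toReal_ofReal (Finset.sum_nonneg hnn)] at h2

end cover

/-! ## The theorem -/

theorem nat_ineq (n : ℕ) (h6 : n ≠ 6) : (n : ℝ) ≤ 7 * (6 - n) ^ 2 := by
  rcases Nat.lt_or_ge n 6 with h | h
  · interval_cases n <;> norm_num
  · have h5 : 7 ≤ n := by omega
    have h5' : (7 : ℝ) ≤ n := by exact_mod_cast h5
    nlinarith

/-- The area bound for `m` points, `m ≠ 6`. -/
theorem area_le {S : Finset V} (hS : (S : Set V) ⊆ Metric.closedBall 0 1) (h6 : S.card ≠ 6) :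
    (volume (convexHull ℝ (S : Set V))).toReal ≤
      3 * √3 / 2 + (√3 / 4 - π / 12) * ((S.card : ℝ) - 6) - 1 / 250 := by
  classical
  have hpi := Real.pi_pos
  have hpi2 : π < 3.15 := Real.pi_lt_d2
  have hs3 := sqrt3_bounds.1
  have hrw : 3 * √3 / 2 + (√3 / 4 - π / 12) * ((S.card : ℝ) - 6) =
      π / 2 + S.card * (√3 / 4 - π / 12) := by ring
  rw [hrw]
  rcases S.eq_empty_or_nonempty with he | hne
  · rw [he]
    have hpi3 : 3 < π := Real.pi_gt_three
    simp
    linarith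
  let g : V → ℝ := fun z => Complex.arg ⟨z 0, z 1⟩
  let A : Finset ℝ := S.image g
  have hAne : A.Nonempty := hne.image g
  set n := A.card with hn
  have hn1 : 1 ≤ n := Finset.card_pos.2 hAne
  have hnm : n ≤ S.card := Finset.card_image_le
  let σ : Fin n ↪o ℝ := A.orderEmbOfFin hn.symm
  have hσmem : ∀ k, σ k ∈ A := fun k => Finset.orderEmbOfFin_mem A hn.symm k
  have hA : ∀ a ∈ A, -π < a ∧ a ≤ π := by
    intro a ha
    obtain ⟨z, -, rfl⟩ := Finset.mem_image.1 ha
    exact ⟨Complex.neg_pi_lt_arg _, Complex.arg_le_pi _⟩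
  let θ : ℕ → ℝ := fun k => if h : k < n then σ ⟨k, h⟩ else σ ⟨0, hn1⟩ + 2 * π
  have hθ : ∀ k (h : k < n), θ k = σ ⟨k, h⟩ := fun k h => by simp only [θ, dif_pos h]
  have hθn : θ n = θ 0 + 2 * π := by
    rw [hθ 0 hn1]
    simp only [θ, dif_neg (lt_irrefl n)]
  have hmono : ∀ k < n, θ k ≤ θ (k + 1) := by
    intro k hk
    rcases Nat.lt_or_ge (k + 1) n with h | h
    · rw [hθ k hk, hθ (k + 1) h]
      exact σ.monotone (Fin.mk_le_mk.2 (Nat.le_succ k))
    · have e : k + 1 = n := by omega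
      rw [e, hθn, hθ k hk, hθ 0 hn1]
      have h1 := (hA _ (hσmem ⟨k, hk⟩)).2
      have h2 := (hA _ (hσmem ⟨0, hn1⟩)).1
      linarith
  have hSθ : ∀ z ∈ (S : Set V), ∃ j < n, ∃ ρ : ℝ, 0 ≤ ρ ∧ ρ ≤ 1 ∧ z = ρ • uv (θ j) := by
    intro z hz
    have hgA : g z ∈ A := Finset.mem_image_of_mem g hz
    have hrange : g z ∈ Set.range σ := by
      rw [Finset.range_orderEmbOfFin]; exact hgA
    obtain ⟨j, hj⟩ := hrange
    refine ⟨j.1, j.2, ‖(⟨z 0, z 1⟩ : ℂ)‖, norm_nonneg _, ?_, ?_⟩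
    · have h1 := hS hz
      rw [mem_closedBall_zero_iff, EuclideanSpace.norm_eq] at h1
      have h2 : ‖(⟨z 0, z 1⟩ : ℂ)‖ ^ 2 ≤ 1 := by
        have h3 : √(∑ i, ‖z i‖ ^ 2) ^ 2 ≤ 1 ^ 2 := by
          apply pow_le_pow_left₀ (Real.sqrt_nonneg _) h1
        rw [Real.sq_sqrt (by positivity)] at h3
        rw [Complex.sq_norm, Complex.normSq_apply]
        have h4 : ∑ i, ‖z i‖ ^ 2 = z 0 * z 0 + z 1 * z 1 := by
          rw [Fin.sum_univ_two]
          simp [sq]
        rw [h4] at h3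
        linarith
      nlinarith [norm_nonneg (⟨z 0, z 1⟩ : ℂ)]
    · have hθj : θ j.1 = Complex.arg ⟨z 0, z 1⟩ := by
        rw [hθ j.1 j.2]
        exact hj
      rw [hθj]
      ext i
      fin_cases i
      · simp only [Fin.zero_eta, PiLp.smul_apply, smul_eq_mul, uv_zero]
        rw [Complex.norm_mul_cos_arg]
      · simp only [Fin.mk_one, PiLp.smul_apply, smul_eq_mul, uv_one]
        rw [Complex.norm_mul_sin_arg]
  have key := volume_hull_le θ hn1 hmono hθn hSθ
  have hn0 : (0 : ℝ) < n := by exact_mod_cast hn1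
  have hτ : (0.17 : ℝ) ≤ √3 / 4 - π / 12 := by
    have : π < 3.1416 := Real.pi_lt_d4
    have h3 : (1.732 : ℝ) < √3 := by rw [Real.lt_sqrt (by norm_num)]; norm_num
    linarith
  rcases hnm.lt_or_eq with hlt | heq
  · have h1 : (n : ℝ) + 1 ≤ S.card := by exact_mod_cast hlt
    have h2 : 0 ≤ (6 - n : ℝ) ^ 2 * (9 / 270) / n := by positivity
    nlinarith
  · have h6' : n ≠ 6 := by rw [heq]; exact h6
    rw [← heq]
    have h3 : (1 : ℝ) / 250 ≤ (6 - n : ℝ) ^ 2 * (9 / 270) / n := by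
      rw [le_div_iff₀ hn0]
      have h4 : (n : ℝ) ≤ 7 * (6 - n) ^ 2 := nat_ineq n h6'
      nlinarith
    linarith

/-- GAP FOR THE DISC. -/
theorem gap_disc : W82.Gap (Metric.closedBall (0 : V) 1) (3 * √3 / 2) (√3 / 4 - π / 12) (1 / 250) where
  tau := by
    have : π < 3.1416 := Real.pi_lt_d4
    have h3 : (1.732 : ℝ) < √3 := by rw [Real.lt_sqrt (by norm_num)]; norm_num
    linarith
  pos := by norm_num
  ne6 := fun _ hS _ h6 => area_le hS h6

end C2305bH52.DiscGap
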