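import Mathlib
import Pool.Agent.W_c2305b_h19.Frame
import Pool.Agent.W_c2305b_h35.Tiling

/-!
# Good sides (row 545, section 4)

A cap of area at least `tau / 2` beyond a side of a flat chain forces a long side and a definite
drop of the slope.
-/

open MeasureTheory

namespace C2305bH52

open C2305bB

/-- The plane. -/
abbrev V := EuclideanSpace ℝ (Fin 2)

/-! ### Area of a sheared box -/

/-- The sheared box over `[a, b]` below the line `x ↦ k x + m`, of height `H`. -/
def sbox (a b k m H : ℝ) : Set V :=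
  {v | a ≤ v 0 ∧ v 0 ≤ b ∧ k * v 0 + m - H ≤ v 1 ∧ v 1 ≤ k * v 0 + m}

/-- The plane as a product, measure preserving. -/
noncomputable def toProd : V ≃ᵐ ℝ × ℝ :=
  (MeasurableEquiv.toLp 2 (Fin 2 → ℝ)).symm.trans MeasurableEquiv.finTwoArrow

theorem toProd_apply (v : V) : toProd v = (v 0, v 1) := rfl

theorem toProd_mp : MeasurePreserving toProd (volume : Measure V) volume :=
  (EuclideanSpace.volume_preserving_symm_measurableEquiv_toLp (Fin 2)).trans
    (volume_preserving_finTwoArrow ℝ)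

theorem volume_sbox {a b k m H : ℝ} (hH : 0 ≤ H) :
    volume (sbox a b k m H) = ENNReal.ofReal ((b - a) * H) := by
  set W : Set (ℝ × ℝ) :=
    {p | a ≤ p.1 ∧ p.1 ≤ b ∧ k * p.1 + m - H ≤ p.2 ∧ p.2 ≤ k * p.1 + m} with hW
  have hpre : sbox a b k m H = toProd ⁻¹' W := by
    ext v
    simp only [sbox, hW, Set.mem_ofPred_eq, Set.mem_preimage, toProd_apply]
  have hclosed : IsClosed W := by
    refine ((isClosed_le continuous_const continuous_fst).inter
      ((isClosed_le continuous_fst continuous_const).inter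
      ((isClosed_le ?_ continuous_snd).inter (isClosed_le continuous_snd ?_))))
    · fun_prop
    · fun_prop
  have hmeas : MeasurableSet W := hclosed.measurableSet
  rw [hpre, toProd_mp.measure_preimage_equiv, Measure.volume_eq_prod, Measure.prod_apply hmeas]
  have hsec : ∀ x : ℝ, volume (Prod.mk x ⁻¹' W) =
      (Set.Icc a b).indicator (fun _ => ENNReal.ofReal H) x := by
    intro x
    by_cases hx : x ∈ Set.Icc a b
    · rw [Set.indicator_of_mem hx]
      have : Prod.mk x ⁻¹' W = Set.Icc (k * x + m - H) (k * x + m) := by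
        ext y
        simp only [hW, Set.mem_preimage, Set.mem_ofPred_eq, Set.mem_Icc]
        constructor
        · rintro ⟨_, _, h1, h2⟩; exact ⟨h1, h2⟩
        · rintro ⟨h1, h2⟩; exact ⟨hx.1, hx.2, h1, h2⟩
      rw [this, Real.volume_Icc]
      congr 1
      ring
    · rw [Set.indicator_of_notMem hx]
      have : Prod.mk x ⁻¹' W = ∅ := by
        ext y
        simp only [hW, Set.mem_preimage, Set.mem_ofPred_eq, Set.mem_empty_iff_false, iff_false]
        rintro ⟨h1, h2, _, _⟩
        exact hx ⟨h1, h2⟩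
      rw [this, measure_empty]
  simp_rw [hsec]
  rw [lintegral_indicator measurableSet_Icc, setLIntegral_const, Real.volume_Icc,
    ← ENNReal.ofReal_mul hH]
  congr 1
  ring

theorem toReal_volume_le_sbox {a b k m H : ℝ} (hab : a ≤ b) (hH : 0 ≤ H) {S : Set V}
    (hS : S ⊆ sbox a b k m H) : (volume S).toReal ≤ (b - a) * H := by
  have h1 : volume S ≤ volume (sbox a b k m H) := measure_mono hS
  rw [volume_sbox hH] at h1
  have h2 := ENNReal.toReal_mono ENNReal.ofReal_ne_top h1
  rwa [ENNReal.toReal_ofReal (mul_nonneg (by linarith) hH)] at h2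

/-! ### Frames -/

/-- A vertical difference inside a frame. -/
theorem Fits.vert_le {L R h : ℝ} {F : Fr} (hR : 0 ≤ R) (hc : 1 / 2 ≤ F.c)
    (hf : Fits L F R 0 h) : |h| ≤ 2 * R := by
  unfold Fits at hf
  apply abs_le_of_sq_le_sq _ (by linarith)
  have h1 : (F.c * h - L * F.S * 0) ^ 2 ≤ R ^ 2 := by
    nlinarith [sq_nonneg (F.c * 0 + F.S * h / L)]
  have h2 : F.c ^ 2 * h ^ 2 ≤ R ^ 2 := by
    have : (F.c * h - L * F.S * 0) ^ 2 = F.c ^ 2 * h ^ 2 := by ring
    linarith
  have h3 : (1 / 2 : ℝ) ^ 2 ≤ F.c ^ 2 := by nlinarith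
  nlinarith [sq_nonneg h]

/-- The first coordinate of a vector that fits a frame. -/
theorem Fits.abs_x_le {L R x y : ℝ} {F : Fr} (hL : 1 ≤ L) (hR : 0 ≤ R)
    (hf : Fits L F R x y) : |x| ≤ R := by
  unfold Fits at hf
  apply abs_le_of_sq_le_sq _ hR
  set a := F.c * x + F.S * y / L with ha
  set b := F.c * y - L * F.S * x with hb
  have hL0 : (0 : ℝ) < L := by linarith
  have hx : x = F.c * a - F.S / L * b := by
    rw [ha, hb]
    have h1 : F.S / L * (L * F.S * x) = F.S ^ 2 * x := by field_simp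
    linear_combination (-x) * F.nrm - h1
  have h1 : x ^ 2 ≤ (F.c ^ 2 + (F.S / L) ^ 2) * (a ^ 2 + b ^ 2) := by
    rw [hx]
    nlinarith [sq_nonneg (F.c * b + F.S / L * a)]
  have h2 : (F.S / L) ^ 2 ≤ F.S ^ 2 := by
    rw [div_pow]
    apply div_le_self (sq_nonneg _)
    nlinarith
  have h3 : F.c ^ 2 + (F.S / L) ^ 2 ≤ 1 := by linarith [F.nrm]
  have h4 : 0 ≤ a ^ 2 + b ^ 2 := by positivity
  calc x ^ 2 ≤ (F.c ^ 2 + (F.S / L) ^ 2) * (a ^ 2 + b ^ 2) := h1
    _ ≤ 1 * (a ^ 2 + b ^ 2) := mul_le_mul_of_nonneg_right h3 h4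
    _ ≤ R ^ 2 := by linarith

/-- A vector of small slope that fits a steep frame is short. -/
theorem Fits.steep_x_le {L R X s : ℝ} {F : Fr} (hL : 1 ≤ L) (hX : 0 ≤ X)
    (hR : 0 ≤ R) (hc : F.c < 1 / 2) (hs : |s| ≤ L / 10) (hf : Fits L F R X (s * X)) :
    X * (4 / 5 * L) ≤ R := by
  unfold Fits at hf
  have h1 : (F.c * (s * X) - L * F.S * X) ^ 2 ≤ R ^ 2 := by
    nlinarith [sq_nonneg (F.c * X + F.S * (s * X) / L)]
  have h2 := abs_le_of_sq_le_sq h1 hR
  have hS : 4 / 5 + 1 / 20 ≤ |F.S| := by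
    have h3 : (4 / 5 + 1 / 20 : ℝ) ^ 2 ≤ |F.S| ^ 2 := by
      rw [sq_abs]
      nlinarith [F.nrm, F.c0]
    exact abs_le_of_sq_le_sq' h3 (abs_nonneg _) |>.2
  have h3 : |F.c * (s * X) - L * F.S * X| = X * |F.c * s - L * F.S| := by
    rw [← abs_of_nonneg hX, ← abs_mul]
    congr 1
    rw [abs_of_nonneg hX]
    ring
  have h4 : L * |F.S| - F.c * |s| ≤ |F.c * s - L * F.S| := by
    have e1 : |L * F.S| = L * |F.S| := by rw [abs_mul, abs_of_nonneg (by linarith)]
    have e2 : |F.c * s| = F.c * |s| := by rw [abs_mul, abs_of_nonneg F.c0]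
    have e3 := abs_sub_abs_le_abs_sub (L * F.S) (F.c * s)
    rw [e1, e2, abs_sub_comm] at e3
    exact e3
  have h5 : 4 / 5 * L ≤ L * |F.S| - F.c * |s| := by
    have e4 : F.c * |s| ≤ 1 / 2 * (L / 10) :=
      mul_le_mul hc.le hs (abs_nonneg _) (by norm_num)
    nlinarith
  rw [h3] at h2
  calc X * (4 / 5 * L) ≤ X * |F.c * s - L * F.S| :=
        mul_le_mul_of_nonneg_left (h5.trans h4) hX
    _ ≤ R := h2

/-! ### The main statement -/

/-- Vertical sections between a side and the lines of the two neighbour sides. -/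
theorem min_sec {a b u v : ℝ} (ha : 0 ≤ a) (hb : 0 ≤ b) (hu : 0 < u) (hv : 0 < v) {h : ℝ}
    (h1 : h ≤ a * u) (h2 : h ≤ b * v) : h ≤ (a + b) * (u + v) / 4 := by
  have h3 : h * (u + v) ≤ (a + b) * (u * v) := by nlinarith
  have h4 : (a + b) * (u * v) ≤ (a + b) * ((u + v) ^ 2 / 4) :=
    mul_le_mul_of_nonneg_left (by nlinarith [sq_nonneg (u - v)]) (by linarith)
  have h5 : h * (u + v) ≤ (a + b) * (u + v) / 4 * (u + v) := by
    calc h * (u + v) ≤ (a + b) * ((u + v) ^ 2 / 4) := h3.trans h4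
      _ = (a + b) * (u + v) / 4 * (u + v) := by ring
  exact le_of_mul_le_mul_right h5 (by linarith)

/-- The needle of a frame with centre `o` and radius `ρ`. -/
def needle (L : ℝ) (F : Fr) (o : V) (ρ : ℝ) : Set V :=
  {z | Fits L F ρ ((z - o) 0) ((z - o) 1)}

theorem Fits.sub {L ρ x y x' y' : ℝ} {F : Fr} (h : Fits L F ρ x y)
    (h' : Fits L F ρ x' y') : Fits L F (2 * ρ) (x - x') (y - y') := by
  unfold Fits at *
  set a := F.c * x + F.S * y / L with ha
  set b := F.c * y - L * F.S * x with hb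
  set a' := F.c * x' + F.S * y' / L with ha'
  set b' := F.c * y' - L * F.S * x' with hb'
  have e1 : F.c * (x - x') + F.S * (y - y') / L = a - a' := by rw [ha, ha']; ring
  have e2 : F.c * (y - y') - L * F.S * (x - x') = b - b' := by rw [hb, hb']; ring
  rw [e1, e2]
  nlinarith [sq_nonneg (a + a'), sq_nonneg (b + b')]

theorem needle_sub {L ρ : ℝ} {F : Fr} {o z w : V} (hz : z ∈ needle L F o ρ)
    (hw : w ∈ needle L F o ρ) : Fits L F (2 * ρ) (z 0 - w 0) (z 1 - w 1) := by
  have h := Fits.sub hz hw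
  have e0 : (z - o) 0 - (w - o) 0 = z 0 - w 0 := by simp
  have e1 : (z - o) 1 - (w - o) 1 = z 1 - w 1 := by simp
  rw [e0, e1] at h
  exact h

theorem Fits.convex_comb {L ρ x y x' y' s t : ℝ} {F : Fr} (hs : 0 ≤ s) (ht : 0 ≤ t)
    (hst : s + t = 1) (h : Fits L F ρ x y) (h' : Fits L F ρ x' y') :
    Fits L F ρ (s * x + t * x') (s * y + t * y') := by
  unfold Fits at *
  set a := F.c * x + F.S * y / L with ha
  set b := F.c * y - L * F.S * x with hb
  set a' := F.c * x' + F.S * y' / L with ha'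
  set b' := F.c * y' - L * F.S * x' with hb'
  have e1 : F.c * (s * x + t * x') + F.S * (s * y + t * y') / L = s * a + t * a' := by
    rw [ha, ha']; ring
  have e2 : F.c * (s * y + t * y') - L * F.S * (s * x + t * x') = s * b + t * b' := by
    rw [hb, hb']; ring
  rw [e1, e2]
  have hs' : s = 1 - t := by linarith
  subst hs'
  have k1 : ((1 - t) * a + t * a') ^ 2 ≤ (1 - t) * a ^ 2 + t * a' ^ 2 := by
    nlinarith [mul_nonneg (mul_nonneg hs ht) (sq_nonneg (a - a'))]
  have k2 : ((1 - t) * b + t * b') ^ 2 ≤ (1 - t) * b ^ 2 + t * b' ^ 2 := by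
    nlinarith [mul_nonneg (mul_nonneg hs ht) (sq_nonneg (b - b'))]
  nlinarith

theorem needle_convex (L : ℝ) (F : Fr) (o : V) (ρ : ℝ) : Convex ℝ (needle L F o ρ) := by
  intro z hz w hw s t hs ht hst
  have h := Fits.convex_comb hs ht hst hz hw
  show Fits L F ρ ((s • z + t • w - o) 0) ((s • z + t • w - o) 1)
  have e : ∀ i, (s • z + t • w - o) i = s * (z - o) i + t * (w - o) i := by
    intro i
    have : o i = s * o i + t * o i := by rw [← add_mul, hst, one_mul]
    simp only [PiLp.sub_apply, PiLp.add_apply, PiLp.smul_apply, smul_eq_mul]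
    linarith
  rw [e 0, e 1]
  exact h

/-- GOOD SIDES, numbers: `q r` is the side, `p q` and `r t` the neighbour sides. -/
theorem good_side_aux {L R τ : ℝ} {F : Fr} {o p q r t : V} {S : Set V}
    (hL : 1 ≤ L) (hR : 0 < R) (hτ : 0 < τ)
    (hpq : p 0 < q 0) (hqr : q 0 < r 0) (hrt : r 0 < t 0)
    (hs01 : (q 1 - p 1) / (q 0 - p 0) ≤ (r 1 - q 1) / (r 0 - q 0))
    (hs12 : (r 1 - q 1) / (r 0 - q 0) ≤ (t 1 - r 1) / (t 0 - r 0))
    (hη0 : |(q 1 - p 1) / (q 0 - p 0)| ≤ L * min (1 / 10) (τ / (2 * R ^ 2)))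
    (hη2 : |(t 1 - r 1) / (t 0 - r 0)| ≤ L * min (1 / 10) (τ / (2 * R ^ 2)))
    (hS0 : ∀ z ∈ S, 0 ≤ C2305b.TL.cr (q - p) (z - p))
    (hS1 : ∀ z ∈ S, C2305b.TL.cr (r - q) (z - q) < 0)
    (hS2 : ∀ z ∈ S, 0 ≤ C2305b.TL.cr (t - r) (z - r))
    (hSn : S ⊆ needle L F o (R / 2)) (hq : q ∈ needle L F o (R / 2))
    (hr : r ∈ needle L F o (R / 2)) (hvol : τ / 2 ≤ (volume S).toReal) :
    τ / (4 * R) ≤ r 0 - q 0 ∧
      2 * τ / R ^ 2 ≤ (t 1 - r 1) / (t 0 - r 0) - (q 1 - p 1) / (q 0 - p 0) := by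
  set s0 := (q 1 - p 1) / (q 0 - p 0) with hs0
  set s1 := (r 1 - q 1) / (r 0 - q 0) with hs1
  set s2 := (t 1 - r 1) / (t 0 - r 0) with hs2
  have e0 : q 1 - p 1 = s0 * (q 0 - p 0) := by
    rw [hs0, div_mul_cancel₀]; linarith
  have e1 : r 1 - q 1 = s1 * (r 0 - q 0) := by
    rw [hs1, div_mul_cancel₀]; linarith
  have e2 : t 1 - r 1 = s2 * (t 0 - r 0) := by
    rw [hs2, div_mul_cancel₀]; linarith
  set X := r 0 - q 0 with hX
  have hX0 : 0 < X := by rw [hX]; linarith
  -- the three lines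
  have l0 : ∀ z ∈ S, q 1 + s0 * (z 0 - q 0) ≤ z 1 := by
    intro z hz
    have h := hS0 z hz
    unfold C2305b.TL.cr at h
    simp only [PiLp.sub_apply] at h
    rw [e0] at h
    have hpos : 0 < q 0 - p 0 := by linarith
    have h' : 0 ≤ (q 0 - p 0) * ((z 1 - p 1) - s0 * (z 0 - p 0)) := by nlinarith
    have h'' := nonneg_of_mul_nonneg_right h' hpos
    nlinarith
  have l1 : ∀ z ∈ S, z 1 < q 1 + s1 * (z 0 - q 0) := by
    intro z hz
    have h := hS1 z hz
    unfold C2305b.TL.cr at h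
    simp only [PiLp.sub_apply] at h
    rw [e1] at h
    have h' : X * ((z 1 - q 1) - s1 * (z 0 - q 0)) < X * 0 := by rw [hX] at *; nlinarith
    have h'' := lt_of_mul_lt_mul_left h' hX0.le
    linarith
  have l2 : ∀ z ∈ S, r 1 + s2 * (z 0 - r 0) ≤ z 1 := by
    intro z hz
    have h := hS2 z hz
    unfold C2305b.TL.cr at h
    simp only [PiLp.sub_apply] at h
    rw [e2] at h
    have hpos : 0 < t 0 - r 0 := by linarith
    have h' : 0 ≤ (t 0 - r 0) * ((z 1 - r 1) - s2 * (z 0 - r 0)) := by nlinarith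
    have h'' := nonneg_of_mul_nonneg_right h' hpos
    linarith
  have hz0 : ∀ z ∈ S, q 0 < z 0 := by
    intro z hz
    by_contra hcon
    push Not at hcon
    have h0 := l0 z hz
    have h1 := l1 z hz
    nlinarith
  have hz1 : ∀ z ∈ S, z 0 < r 0 := by
    intro z hz
    by_contra hcon
    push Not at hcon
    have h0 := l2 z hz
    have h1 := l1 z hz
    have h2 : q 1 + s1 * (z 0 - q 0) = r 1 + s1 * (z 0 - r 0) := by
      have : r 1 = q 1 + s1 * (r 0 - q 0) := by linarith
      rw [this]; ring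
    nlinarith
  -- first box: neighbour lines
  have hd : 0 ≤ s2 - s0 := by linarith
  have box1 : S ⊆ sbox (q 0) (r 0) s1 (q 1 - s1 * q 0) ((s2 - s0) * X / 4) := by
    intro z hz
    have h0 := l0 z hz
    have h1 := l1 z hz
    have h2 := l2 z hz
    have hu : 0 < z 0 - q 0 := by linarith [hz0 z hz]
    have hv : 0 < r 0 - z 0 := by linarith [hz1 z hz]
    have hm := min_sec (a := s1 - s0) (b := s2 - s1) (u := z 0 - q 0) (v := r 0 - z 0)
      (h := q 1 + s1 * (z 0 - q 0) - z 1) (by linarith) (by linarith) hu hv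
      (by nlinarith) (by
        have : r 1 = q 1 + s1 * (r 0 - q 0) := by linarith
        nlinarith)
    have e3 : (s1 - s0 + (s2 - s1)) * (z 0 - q 0 + (r 0 - z 0)) / 4 = (s2 - s0) * X / 4 := by
      rw [hX]; ring
    rw [e3] at hm
    refine ⟨(hz0 z hz).le, (hz1 z hz).le, ?_, ?_⟩
    · linarith
    · linarith
  have vol1 : (volume S).toReal ≤ X * ((s2 - s0) * X / 4) := by
    have := toReal_volume_le_sbox (by linarith) (by positivity) box1
    rwa [← hX] at this
  have hXR : X ≤ R := by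
    have h := needle_sub hr hq
    have h' := Fits.abs_x_le hL (by positivity) h
    have h'' := (abs_le.1 h').2
    rw [hX]; linarith
  by_cases hc : 1 / 2 ≤ F.c
  · -- flat frame
    have box2 : S ⊆ sbox (q 0) (r 0) s1 (q 1 - s1 * q 0) (2 * R) := by
      intro z hz
      have h1 := l1 z hz
      have hu : 0 < z 0 - q 0 := by linarith [hz0 z hz]
      have hv : 0 < r 0 - z 0 := by linarith [hz1 z hz]
      -- the point of the segment above `z`
      set θ := (z 0 - q 0) / X with hθ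
      have hθ0 : 0 ≤ θ := by positivity
      have hθ1 : 0 ≤ 1 - θ := by
        rw [hθ, sub_nonneg, div_le_one hX0, hX]; linarith
      have hθX : θ * X = z 0 - q 0 := by rw [hθ, div_mul_cancel₀ _ hX0.ne']
      have hm : (1 - θ) • q + θ • r ∈ needle L F o (R / 2) :=
        needle_convex L F o (R / 2) hq hr hθ1 hθ0 (by ring)
      have hf := needle_sub (hSn hz) hm
      have f0 : z 0 - ((1 - θ) • q + θ • r) 0 = 0 := by
        simp only [PiLp.add_apply, PiLp.smul_apply, smul_eq_mul]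
        have : r 0 = q 0 + X := by rw [hX]; ring
        rw [this]
        nlinarith
      have f1 : ((1 - θ) • q + θ • r) 1 = q 1 + s1 * (z 0 - q 0) := by
        simp only [PiLp.add_apply, PiLp.smul_apply, smul_eq_mul]
        have : r 1 = q 1 + s1 * X := by rw [hX]; linarith
        rw [this, ← hθX]
        ring
      rw [f0, f1] at hf
      have hv := Fits.vert_le (by positivity) hc hf
      have hv' := (abs_le.1 hv).1
      refine ⟨(hz0 z hz).le, (hz1 z hz).le, ?_, ?_⟩
      · linarith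
      · linarith
    have vol2 : (volume S).toReal ≤ X * (2 * R) := by
      have := toReal_volume_le_sbox (by linarith) (by positivity) box2
      rwa [← hX] at this
    constructor
    · rw [div_le_iff₀ (by positivity)]
      nlinarith
    · rw [div_le_iff₀ (by positivity)]
      have h1 : X * ((s2 - s0) * X / 4) ≤ (s2 - s0) * R ^ 2 / 4 := by
        have h2 : X ^ 2 ≤ R ^ 2 := by nlinarith
        nlinarith
      linarith
  · -- steep frame: impossible
    exfalso
    push Not at hc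
    have hη1 : |s1| ≤ L / 10 := by
      have a1 : L * min (1 / 10) (τ / (2 * R ^ 2)) ≤ L * (1 / 10) :=
        mul_le_mul_of_nonneg_left (min_le_left _ _) (by linarith)
      rw [abs_le] at hη0 hη2 ⊢
      constructor <;> linarith
    have hfit : Fits L F R X (s1 * X) := by
      have h := needle_sub hr hq
      have g1 : r 0 - q 0 = X := rfl
      have g2 : r 1 - q 1 = s1 * X := e1
      rw [g1, g2] at h
      have g3 : 2 * (R / 2) = R := by ring
      rwa [g3] at h
    have hst := Fits.steep_x_le hL hX0.le hR.le hc hη1 hfit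
    have hdrop : s2 - s0 ≤ L * (τ / R ^ 2) := by
      have a1 : L * min (1 / 10) (τ / (2 * R ^ 2)) ≤ L * (τ / (2 * R ^ 2)) :=
        mul_le_mul_of_nonneg_left (min_le_right _ _) (by linarith)
      have a2 := (abs_le.1 hη2).2
      have a3 := (abs_le.1 hη0).1
      have a4 : L * (τ / R ^ 2) = L * (τ / (2 * R ^ 2)) + L * (τ / (2 * R ^ 2)) := by
        field_simp; ring
      linarith
    have hXX : X ^ 2 * L ≤ 25 / 16 * R ^ 2 := by
      have b1 : (X * (4 / 5 * L)) ^ 2 ≤ R ^ 2 := by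
        apply pow_le_pow_left₀ (by positivity) hst
      have b2 : X ^ 2 * L ≤ X ^ 2 * L ^ 2 := by
        apply mul_le_mul_of_nonneg_left _ (sq_nonneg _)
        nlinarith
      nlinarith
    have c1 : X * ((s2 - s0) * X / 4) ≤ X ^ 2 * L * (τ / R ^ 2) / 4 := by
      have : X * ((s2 - s0) * X / 4) = X ^ 2 * (s2 - s0) / 4 := by ring
      rw [this]
      have c2 : X ^ 2 * (s2 - s0) ≤ X ^ 2 * (L * (τ / R ^ 2)) :=
        mul_le_mul_of_nonneg_left hdrop (sq_nonneg _)
      linarith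
    have c3 : X ^ 2 * L * (τ / R ^ 2) / 4 ≤ 25 / 64 * τ := by
      have c4 : X ^ 2 * L * (τ / R ^ 2) ≤ 25 / 16 * R ^ 2 * (τ / R ^ 2) :=
        mul_le_mul_of_nonneg_right hXX (by positivity)
      have c5 : 25 / 16 * R ^ 2 * (τ / R ^ 2) = 25 / 16 * τ := by field_simp
      linarith
    linarith

/-! ### Disjoint caps from convexity -/

open C2305b.TL in
theorem support_core {a b c d : V} {α β : ℝ} (ha : 0 < a 0) (hb : 0 < b 0)
    (hab : 0 ≤ cr a b) (hac : cr a c < 0) (hbc : cr b c < 0) (hd : 0 < cr a d ∨ 0 < cr b d)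
    (fa : 0 ≤ α * a 0 + β * a 1) (fb : α * b 0 + β * b 1 ≤ 0)
    (fc : α * c 0 + β * c 1 ≤ 0) (fd : α * d 0 + β * d 1 ≤ 0) : α = 0 ∧ β = 0 := by
  unfold cr at hab hac hbc hd
  have k1 : β * (a 0 * b 1 - a 1 * b 0) =
      a 0 * (α * b 0 + β * b 1) - b 0 * (α * a 0 + β * a 1) := by ring
  have k2 : a 0 * (α * c 0 + β * c 1) =
      c 0 * (α * a 0 + β * a 1) + β * (a 0 * c 1 - a 1 * c 0) := by ring
  have k3 : b 0 * (α * c 0 + β * c 1) =
      c 0 * (α * b 0 + β * b 1) + β * (b 0 * c 1 - b 1 * c 0) := by ring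
  have u1 : a 0 * (α * b 0 + β * b 1) ≤ 0 := mul_nonpos_of_nonneg_of_nonpos ha.le fb
  have u2 : 0 ≤ b 0 * (α * a 0 + β * a 1) := mul_nonneg hb.le fa
  have u3 : a 0 * (α * c 0 + β * c 1) ≤ 0 := mul_nonpos_of_nonneg_of_nonpos ha.le fc
  have u4 : b 0 * (α * c 0 + β * c 1) ≤ 0 := mul_nonpos_of_nonneg_of_nonpos hb.le fc
  have fin : β = 0 → α = 0 ∧ β = 0 := by
    intro h0
    subst h0
    refine ⟨?_, rfl⟩
    have v1 : 0 ≤ α * a 0 := by linarith
    have v2 : α * b 0 ≤ 0 := by linarith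
    have v3 : 0 ≤ α := nonneg_of_mul_nonneg_left v1 ha
    by_contra hne
    have v4 : 0 < α := lt_of_le_of_ne v3 (Ne.symm hne)
    have := mul_pos v4 hb
    linarith
  rcases hab.lt_or_eq with h | h
  · have hβ : β ≤ 0 := by
      by_contra hcon
      push Not at hcon
      have := mul_pos hcon h
      linarith
    rcases le_or_gt 0 (c 0) with hc | hc
    · have w1 : 0 ≤ c 0 * (α * a 0 + β * a 1) := mul_nonneg hc fa
      have w2 : 0 ≤ β * (a 0 * c 1 - a 1 * c 0) := mul_nonneg_of_nonpos_of_nonpos hβ hac.le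
      have w3 : β * (a 0 * c 1 - a 1 * c 0) = 0 := by linarith
      rcases mul_eq_zero.1 w3 with h' | h'
      · exact fin h'
      · exact absurd h' hac.ne
    · have w1 : 0 ≤ c 0 * (α * b 0 + β * b 1) := mul_nonneg_of_nonpos_of_nonpos hc.le fb
      have w2 : 0 ≤ β * (b 0 * c 1 - b 1 * c 0) := mul_nonneg_of_nonpos_of_nonpos hβ hbc.le
      have w3 : β * (b 0 * c 1 - b 1 * c 0) = 0 := by linarith
      rcases mul_eq_zero.1 w3 with h' | h'
      · exact fin h'
      · exact absurd h' hbc.ne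
  · rw [← h] at k1
    have x1 : a 0 * (α * b 0 + β * b 1) = 0 := by linarith
    have x2 : b 0 * (α * a 0 + β * a 1) = 0 := by linarith
    have x3 : α * a 0 + β * a 1 = 0 := by
      rcases mul_eq_zero.1 x2 with h' | h'
      · exact absurd h' hb.ne'
      · exact h'
    have x4 : α * b 0 + β * b 1 = 0 := by
      rcases mul_eq_zero.1 x1 with h' | h'
      · exact absurd h' ha.ne'
      · exact h'
    have k4 : a 0 * (α * d 0 + β * d 1) =
        d 0 * (α * a 0 + β * a 1) + β * (a 0 * d 1 - a 1 * d 0) := by ring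
    have k5 : b 0 * (α * d 0 + β * d 1) =
        d 0 * (α * b 0 + β * b 1) + β * (b 0 * d 1 - b 1 * d 0) := by ring
    have u5 : a 0 * (α * d 0 + β * d 1) ≤ 0 := mul_nonpos_of_nonneg_of_nonpos ha.le fd
    have u6 : b 0 * (α * d 0 + β * d 1) ≤ 0 := mul_nonpos_of_nonneg_of_nonpos hb.le fd
    rw [x3] at k2 k4
    rw [x4] at k5
    have y1 : 0 ≤ β := by
      by_contra hcon
      push Not at hcon
      have := mul_pos_of_neg_of_neg hcon hac
      linarith
    have y2 : β ≤ 0 := by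
      by_contra hcon
      push Not at hcon
      rcases hd with h' | h'
      · have := mul_pos hcon h'
        linarith
      · have := mul_pos hcon h'
        linarith
    exact fin (le_antisymm y2 y1)

/-- A boundary point of a convex body in the plane has a supporting functional. -/
theorem exists_support {D : Set V} (hD : Convex ℝ D) (hi : (interior D).Nonempty) {q : V}
    (hq : q ∉ interior D) : ∃ α β : ℝ, ¬ (α = 0 ∧ β = 0) ∧
      ∀ z ∈ D, α * (z - q) 0 + β * (z - q) 1 ≤ 0 := by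
  obtain ⟨f, hf⟩ := geometric_hahn_banach_open_point hD.interior isOpen_interior hq
  have hfe : ∀ v : V, f v = f (EuclideanSpace.single 0 1) * v 0 +
      f (EuclideanSpace.single 1 1) * v 1 := by
    intro v
    have hv : v = v 0 • EuclideanSpace.single 0 (1 : ℝ) + v 1 • EuclideanSpace.single 1 (1 : ℝ) := by
      ext i
      fin_cases i <;> simp
    conv_lhs => rw [hv]
    rw [map_add, map_smul, map_smul, smul_eq_mul, smul_eq_mul]
    ring
  refine ⟨f (EuclideanSpace.single 0 1), f (EuclideanSpace.single 1 1), ?_, ?_⟩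
  · rintro ⟨h0, h1⟩
    obtain ⟨x, hx⟩ := hi
    have := hf x hx
    rw [hfe x, hfe q, h0, h1] at this
    simp at this
  · intro z hz
    rw [← hfe (z - q), map_sub, sub_nonpos]
    have hcl : z ∈ closure (interior D) := by
      rw [hD.closure_interior_eq_closure_of_nonempty_interior hi]
      exact subset_closure hz
    have hle : closure (interior D) ⊆ {x | f x ≤ f q} := by
      apply closure_minimal
      · intro x hx
        exact (hf x hx).le
      · exact isClosed_le f.continuous continuous_const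
    exact hle hcl

open C2305b.TL in
/-- The open caps of two consecutive sides of a lower chain of boundary points are disjoint
(the point `q` is the common end point). -/
theorem cap_disjoint {D : Set V} (hD : Convex ℝ D) (hi : (interior D).Nonempty)
    {p q r z w : V} (hq : q ∉ interior D) (hpD : p ∈ D) (hrD : r ∈ D) (hzD : z ∈ D) (hwD : w ∈ D)
    (hpq : p 0 < q 0) (hqr : q 0 < r 0) (hpr : 0 ≤ cr (q - p) (r - q))
    (hw : 0 < cr (q - p) (w - q) ∨ 0 < cr (r - q) (w - q))
    (hz : cr (r - q) (z - q) < 0) : 0 ≤ cr (q - p) (z - p) := by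
  by_contra hcon
  push Not at hcon
  obtain ⟨α, β, hne, hsup⟩ := exists_support hD hi hq
  apply hne
  have e1 : cr (q - p) (z - q) < 0 := by
    have : cr (q - p) (z - p) = cr (q - p) (z - q) + cr (q - p) (q - p) := by
      rw [← cr_add_right]; congr 1; abel
    rw [this, cr_self, add_zero] at hcon
    exact hcon
  refine support_core (a := q - p) (b := r - q) (c := z - q) (d := w - q) ?_ ?_ hpr e1 hz hw
    ?_ (hsup r hrD) (hsup z hzD) (hsup w hwD)
  · simp only [PiLp.sub_apply]; linarith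
  · simp only [PiLp.sub_apply]; linarith
  · have := hsup p hpD
    simp only [PiLp.sub_apply] at this ⊢
    linarith

open C2305b.TL in
/-- The same with the roles of the two sides exchanged. -/
theorem cap_disjoint' {D : Set V} (hD : Convex ℝ D) (hi : (interior D).Nonempty)
    {p q r z w : V} (hq : q ∉ interior D) (hpD : p ∈ D) (hrD : r ∈ D) (hzD : z ∈ D) (hwD : w ∈ D)
    (hpq : p 0 < q 0) (hqr : q 0 < r 0) (hpr : 0 ≤ cr (q - p) (r - q))
    (hw : 0 < cr (q - p) (w - q) ∨ 0 < cr (r - q) (w - q))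
    (hz : cr (q - p) (z - q) < 0) : 0 ≤ cr (r - q) (z - q) := by
  by_contra hcon
  push Not at hcon
  have h := cap_disjoint hD hi hq hpD hrD hzD hwD hpq hqr hpr hw hcon
  have : cr (q - p) (z - p) = cr (q - p) (z - q) + cr (q - p) (q - p) := by
    rw [← cr_add_right]; congr 1; abel
  rw [this, cr_self, add_zero] at h
  linarith

theorem cr_nonneg_of_slope {p q r : V} (hpq : p 0 < q 0) (hqr : q 0 < r 0)
    (hs : (q 1 - p 1) / (q 0 - p 0) ≤ (r 1 - q 1) / (r 0 - q 0)) :
    0 ≤ C2305b.TL.cr (q - p) (r - q) := by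
  unfold C2305b.TL.cr
  simp only [PiLp.sub_apply]
  rw [div_le_div_iff₀ (by linarith) (by linarith)] at hs
  linarith

/-- GOOD SIDES (row 545, section 4).  `D` convex with interior, `q r` boundary points, `p, t ∈ D`,
some point of `D` strictly above the line `q r`; the open cap beyond `q r` and the points `q, r` lie
in one needle of radius `R / 2`. -/
theorem good_side {L R τ : ℝ} {F : Fr} {o p q r t w : V} {D : Set V}
    (hD : Convex ℝ D) (hi : (interior D).Nonempty)
    (hq : q ∉ interior D) (hr : r ∉ interior D) (hpD : p ∈ D) (hqD : q ∈ D) (hrD : r ∈ D)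
    (htD : t ∈ D) (hwD : w ∈ D) (hw : 0 < C2305b.TL.cr (r - q) (w - q))
    (hL : 1 ≤ L) (hR : 0 < R) (hτ : 0 < τ)
    (hpq : p 0 < q 0) (hqr : q 0 < r 0) (hrt : r 0 < t 0)
    (hs01 : (q 1 - p 1) / (q 0 - p 0) ≤ (r 1 - q 1) / (r 0 - q 0))
    (hs12 : (r 1 - q 1) / (r 0 - q 0) ≤ (t 1 - r 1) / (t 0 - r 0))
    (hη0 : |(q 1 - p 1) / (q 0 - p 0)| ≤ L * min (1 / 10) (τ / (2 * R ^ 2)))
    (hη2 : |(t 1 - r 1) / (t 0 - r 0)| ≤ L * min (1 / 10) (τ / (2 * R ^ 2)))
    (hSn : {z ∈ D | C2305b.TL.cr (r - q) (z - q) < 0} ⊆ needle L F o (R / 2))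
    (hqn : q ∈ needle L F o (R / 2)) (hrn : r ∈ needle L F o (R / 2))
    (hvol : τ / 2 ≤ (volume {z ∈ D | C2305b.TL.cr (r - q) (z - q) < 0}).toReal) :
    τ / (4 * R) ≤ r 0 - q 0 ∧
      2 * τ / R ^ 2 ≤ (t 1 - r 1) / (t 0 - r 0) - (q 1 - p 1) / (q 0 - p 0) := by
  refine good_side_aux (S := {z ∈ D | C2305b.TL.cr (r - q) (z - q) < 0}) hL hR hτ hpq hqr hrt
    hs01 hs12 hη0 hη2 ?_ (fun z hz => hz.2) ?_ hSn hqn hrn hvol
  · rintro z ⟨hzD, hz⟩
    exact cap_disjoint hD hi hq hpD hrD hzD hwD hpq hqr (cr_nonneg_of_slope hpq hqr hs01)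
      (Or.inr hw) hz
  · rintro z ⟨hzD, hz⟩
    have e : ∀ v : V, C2305b.TL.cr (r - q) (v - r) = C2305b.TL.cr (r - q) (v - q) := by
      intro v
      have : v - q = (v - r) + (r - q) := by abel
      rw [this, C2305b.TL.cr_add_right, C2305b.TL.cr_self, add_zero]
    refine cap_disjoint' hD hi hr hqD htD hzD hwD hqr hrt (cr_nonneg_of_slope hqr hrt hs12)
      (Or.inl ?_) ?_
    · rw [e]; exact hw
    · rw [e]; exact hz

end C2305bH52
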