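import Mathlib
import Pool.Agent.W_c2305b_h52.Good

/-!
# Open caps beyond two different sides are disjoint (6a)
-/

namespace C2305bH52

open C2305b.TL (cr cr_self cr_add_right cr_smul_right cr_sub_right cr_neg_left
  exists_smul_of_cr_eq_zero)

/-- A boundary point `B` of `D` is not strictly between two points of `D` on a line which has
points of `D` strictly on both sides. -/
theorem not_between_aux {D : Set V} (hD : Convex ℝ D) (hi : (interior D).Nonempty) {B d w z : V}
    {a b : ℝ} (hd : d ≠ 0) (ha : 0 < a) (hb : 0 < b)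
    (hB : B ∉ interior D) (h1 : B + a • d ∈ D) (h2 : B - b • d ∈ D)
    (hw : w ∈ D) (hz : z ∈ D) (hwc : 0 < cr d (w - B)) (hzc : cr d (z - B) < 0) : False := by
  obtain ⟨α, β, hne, hsup⟩ := exists_support hD hi hB
  have s1 := hsup _ h1
  have s2 := hsup _ h2
  have s3 := hsup _ hw
  have s4 := hsup _ hz
  simp only [PiLp.sub_apply, PiLp.add_apply, PiLp.smul_apply, smul_eq_mul] at s1 s2
  have t1 : a * (α * d 0 + β * d 1) ≤ 0 := by linarith
  have t2 : 0 ≤ b * (α * d 0 + β * d 1) := by linarith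
  have t3 : 0 ≤ α * d 0 + β * d 1 := nonneg_of_mul_nonneg_right t2 hb
  have t4 : α * d 0 + β * d 1 ≤ 0 := nonpos_of_mul_nonpos_right t1 ha
  have t5 : α * d 0 + β * d 1 = 0 := le_antisymm t4 t3
  have hdd : 0 < d 0 ^ 2 + d 1 ^ 2 := by
    by_contra hcon
    have h0 : d 0 = 0 := by nlinarith [sq_nonneg (d 0), sq_nonneg (d 1)]
    have h1' : d 1 = 0 := by nlinarith [sq_nonneg (d 0), sq_nonneg (d 1)]
    apply hd
    ext i
    fin_cases i
    · exact h0
    · exact h1'
  -- the functional is a multiple of `cr d`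
  set l := (β * d 0 - α * d 1) / (d 0 ^ 2 + d 1 ^ 2) with hl
  have hα : α = - l * d 1 := by
    have : α * (d 0 ^ 2 + d 1 ^ 2) = - (β * d 0 - α * d 1) * d 1 := by
      linear_combination d 0 * t5
    rw [hl]
    field_simp
    linarith
  have hβ : β = l * d 0 := by
    have : β * (d 0 ^ 2 + d 1 ^ 2) = (β * d 0 - α * d 1) * d 0 := by
      linear_combination d 1 * t5
    rw [hl]
    field_simp
    linarith
  have hform : ∀ v : V, α * v 0 + β * v 1 = l * cr d v := by
    intro v
    unfold cr
    rw [hα, hβ]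
    ring
  rw [hform] at s3 s4
  have l1 : l ≤ 0 := nonpos_of_mul_nonpos_left s3 hwc
  have l2 : 0 ≤ l := by
    by_contra hcon
    push Not at hcon
    have := mul_pos_of_neg_of_neg hcon hzc
    linarith
  have l3 : l = 0 := le_antisymm l1 l2
  apply hne
  rw [hα, hβ, l3]
  simp

/-- Points of `D` on the line of a side belong to the side. -/
theorem line_inter_side {D : Set V} (hD : Convex ℝ D) (hi : (interior D).Nonempty) {A B w z X : V}
    (hA : A ∈ D) (hB : B ∈ D) (hAi : A ∉ interior D) (hBi : B ∉ interior D) (hAB : A ≠ B)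
    (hw : w ∈ D) (hz : z ∈ D) (hwc : 0 < cr (B - A) (w - A)) (hzc : cr (B - A) (z - A) < 0)
    (hX : X ∈ D) (hXc : cr (B - A) (X - A) = 0) :
    ∃ t : ℝ, 0 ≤ t ∧ t ≤ 1 ∧ X = A + t • (B - A) := by
  have hd : B - A ≠ 0 := sub_ne_zero.2 (Ne.symm hAB)
  obtain ⟨t, ht⟩ := exists_smul_of_cr_eq_zero hd hXc
  have hXe : X = A + t • (B - A) := by rw [← ht]; abel
  refine ⟨t, ?_, ?_, hXe⟩
  · by_contra hcon
    push Not at hcon
    -- `A` strictly between `X` and `B`
    have h1 : A + (1 : ℝ) • (B - A) ∈ D := by simpa using hB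
    have h2 : A - (-t) • (B - A) ∈ D := by
      have : A - (-t) • (B - A) = X := by rw [hXe, neg_smul, sub_neg_eq_add]
      rw [this]; exact hX
    exact not_between_aux hD hi hd one_pos (neg_pos.2 hcon) hAi h1 h2 hw hz hwc hzc
  · by_contra hcon
    push Not at hcon
    have h1 : B + (t - 1) • (B - A) ∈ D := by
      have : B + (t - 1) • (B - A) = X := by rw [hXe, sub_smul, one_smul]; abel
      rw [this]; exact hX
    have h2 : B - (1 : ℝ) • (B - A) ∈ D := by simpa using hA
    have e : ∀ v : V, cr (B - A) (v - B) = cr (B - A) (v - A) := by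
      intro v
      have : v - A = (v - B) + (B - A) := by abel
      rw [this, cr_add_right, cr_self, add_zero]
    exact not_between_aux hD hi hd (by linarith) one_pos hBi h1 h2 hw hz
      (by rw [e]; exact hwc) (by rw [e]; exact hzc)

/-- One half of the argument: the ends of the second side lie on the first side. -/
theorem end_mem_side {D : Set V} (hD : Convex ℝ D) (hi : (interior D).Nonempty)
    {A B A' B' w z E : V}
    (hA : A ∈ D) (hB : B ∈ D) (hAi : A ∉ interior D) (hBi : B ∉ interior D) (hAB : A ≠ B)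
    (hw : w ∈ D) (hz : z ∈ D) (hwc : 0 < cr (B - A) (w - A)) (hzc : cr (B - A) (z - A) < 0)
    (hE : E ∈ D) (hEc : 0 ≤ cr (B - A) (E - A)) (hEl : cr (B' - A') (E - A') = 0)
    (hA'c : 0 ≤ cr (B' - A') (A - A')) (hB'c : 0 ≤ cr (B' - A') (B - A'))
    (hz'c : cr (B' - A') (z - A') < 0) :
    ∃ t : ℝ, 0 ≤ t ∧ t ≤ 1 ∧ E = A + t • (B - A) := by
  -- the point of the segment `[E, z]` on the line `A B`
  set g := cr (B - A) (E - A) with hg
  set h := cr (B - A) (z - A) with hh
  set s := g / (g - h) with hs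
  have hgh : 0 < g - h := by linarith
  have hs0 : 0 ≤ s := div_nonneg hEc hgh.le
  have hs1 : s < 1 := by rw [hs, div_lt_one hgh]; linarith
  set X : V := E + s • (z - E) with hXdef
  have hX : X ∈ D := by
    have : X = (1 - s) • E + s • z := by
      rw [hXdef, smul_sub, sub_smul, one_smul]; abel
    rw [this]
    exact hD hE hz (by linarith) hs0 (by ring)
  have hXc : cr (B - A) (X - A) = 0 := by
    have e1 : X - A = (1 - s) • (E - A) + s • (z - A) := by
      rw [hXdef, smul_sub, smul_sub, smul_sub, sub_smul, sub_smul, one_smul, one_smul]; abel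
    rw [e1, cr_add_right, cr_smul_right, cr_smul_right, ← hg, ← hh, hs]
    field_simp
    ring
  obtain ⟨t, ht0, ht1, htX⟩ := line_inter_side hD hi hA hB hAi hBi hAB hw hz hwc hzc hX hXc
  -- `X` is on the closed left side of the second line
  have hXl : 0 ≤ cr (B' - A') (X - A') := by
    have e2 : X - A' = (1 - t) • (A - A') + t • (B - A') := by
      rw [htX, smul_sub, smul_sub, smul_sub, sub_smul, sub_smul, one_smul, one_smul]; abel
    rw [e2, cr_add_right, cr_smul_right, cr_smul_right]
    exact add_nonneg (mul_nonneg (by linarith) hA'c) (mul_nonneg ht0 hB'c)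
  have hXs : cr (B' - A') (X - A') = s * cr (B' - A') (z - A') := by
    have e3 : X - A' = (1 - s) • (E - A') + s • (z - A') := by
      rw [hXdef, smul_sub, smul_sub, smul_sub, sub_smul, sub_smul, one_smul, one_smul]; abel
    rw [e3, cr_add_right, cr_smul_right, cr_smul_right, hEl]
    ring
  rw [hXs] at hXl
  have hs00 : s = 0 := by
    by_contra hne
    have hpos : 0 < s := lt_of_le_of_ne hs0 (Ne.symm hne)
    have := mul_neg_of_pos_of_neg hpos hz'c
    linarith
  refine ⟨t, ht0, ht1, ?_⟩
  rw [← htX, hXdef, hs00, zero_smul, add_zero]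

/-- (6a) The open caps beyond two different sides are disjoint. -/
theorem caps_disjoint {D : Set V} (hD : Convex ℝ D) (hi : (interior D).Nonempty)
    {A B A' B' w w' z : V}
    (hA : A ∈ D) (hB : B ∈ D) (hA' : A' ∈ D) (hB' : B' ∈ D)
    (hAi : A ∉ interior D) (hBi : B ∉ interior D) (hA'i : A' ∉ interior D) (hB'i : B' ∉ interior D)
    (hAB : A ≠ B) (hAB' : A' ≠ B') (hne : (A, B) ≠ (A', B'))
    (c1 : 0 ≤ cr (B - A) (A' - A)) (c2 : 0 ≤ cr (B - A) (B' - A))
    (c3 : 0 ≤ cr (B' - A') (A - A')) (c4 : 0 ≤ cr (B' - A') (B - A'))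
    (hw : w ∈ D) (hw' : w' ∈ D) (hwc : 0 < cr (B - A) (w - A))
    (hwc' : 0 < cr (B' - A') (w' - A'))
    (hz : z ∈ D) (hz1 : cr (B - A) (z - A) < 0) (hz2 : cr (B' - A') (z - A') < 0) : False := by
  have self1 : cr (B' - A') (A' - A') = 0 := by rw [sub_self, C2305b.TL.cr_zero_right]
  have self2 : cr (B' - A') (B' - A') = 0 := cr_self _
  have self3 : cr (B - A) (A - A) = 0 := by rw [sub_self, C2305b.TL.cr_zero_right]
  have self4 : cr (B - A) (B - A) = 0 := cr_self _
  obtain ⟨t, t0, t1, ht⟩ := end_mem_side hD hi hA hB hAi hBi hAB hw hz hwc hz1 hA' c1 self1 c3 c4 hz2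
  obtain ⟨u, u0, u1, hu⟩ := end_mem_side hD hi hA hB hAi hBi hAB hw hz hwc hz1 hB' c2 self2 c3 c4 hz2
  obtain ⟨t', t0', t1', ht'⟩ :=
    end_mem_side hD hi hA' hB' hA'i hB'i hAB' hw' hz hwc' hz2 hA c3 self3 c1 c2 hz1
  obtain ⟨u', u0', u1', hu'⟩ :=
    end_mem_side hD hi hA' hB' hA'i hB'i hAB' hw' hz hwc' hz2 hB c4 self4 c1 c2 hz1
  have hd : B - A ≠ 0 := sub_ne_zero.2 (Ne.symm hAB)
  -- B' - A' = (u - t) (B - A)
  have e1 : B' - A' = (u - t) • (B - A) := by
    have : B' - A' = (A + u • (B - A)) - (A + t • (B - A)) := by rw [← hu, ← ht]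
    rw [this, sub_smul]; abel
  -- A = A + (t + t' (u - t)) (B - A)
  have e2 : (t + t' * (u - t)) • (B - A) = 0 := by
    have h := ht'
    rw [e1, smul_smul] at h
    have h2 : A = A + (t • (B - A) + (t' * (u - t)) • (B - A)) := by
      calc A = A' + (t' * (u - t)) • (B - A) := h
        _ = A + t • (B - A) + (t' * (u - t)) • (B - A) := by rw [← ht]
        _ = A + (t • (B - A) + (t' * (u - t)) • (B - A)) := by abel
    rw [add_smul]
    exact left_eq_add.1 h2
  have e3 : (t + u' * (u - t)) • (B - A) = (1 : ℝ) • (B - A) := by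
    have h := hu'
    rw [e1, smul_smul] at h
    have h2 : B = A + (t • (B - A) + (u' * (u - t)) • (B - A)) := by
      calc B = A' + (u' * (u - t)) • (B - A) := h
        _ = A + t • (B - A) + (u' * (u - t)) • (B - A) := by rw [← ht]
        _ = A + (t • (B - A) + (u' * (u - t)) • (B - A)) := by abel
    rw [add_smul, one_smul]
    have h3 : t • (B - A) + (u' * (u - t)) • (B - A) = B - A := by
      have h4 := congrArg (fun x => x - A) h2
      simp only [add_sub_cancel_left] at h4
      exact h4.symm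
    exact h3
  have f2 : t + t' * (u - t) = 0 := by
    rcases smul_eq_zero.1 e2 with h | h
    · exact h
    · exact absurd h hd
  have f3 : t + u' * (u - t) = 1 := smul_left_injective ℝ hd e3
  -- so {t, u} = {0, 1}
  have hcase : (t = 0 ∧ u = 1) ∨ (t = 1 ∧ u = 0) := by
    rcases le_total t u with h | h
    · left
      have h1 : 0 ≤ t' * (u - t) := mul_nonneg t0' (by linarith)
      have h2 : t = 0 := by linarith
      have h3 : u' * (u - t) ≤ 1 * (u - t) := mul_le_mul_of_nonneg_right u1' (by linarith)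
      exact ⟨h2, by linarith⟩
    · right
      have h1 : u' * (u - t) ≤ 0 := mul_nonpos_of_nonneg_of_nonpos u0' (by linarith)
      have h2 : t = 1 := by linarith
      have h3 : 1 * (u - t) ≤ t' * (u - t) := mul_le_mul_of_nonpos_right t1' (by linarith)
      exact ⟨h2, by linarith⟩
  rcases hcase with ⟨h1, h2⟩ | ⟨h1, h2⟩
  · apply hne
    rw [ht, hu, h1, h2]
    simp
  · have hA'B : A' = B := by rw [ht, h1]; simp
    have hB'A : B' = A := by rw [hu, h2]; simp
    rw [hA'B, hB'A] at hz2
    have e : cr (A - B) (z - B) = - cr (B - A) (z - A) := by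
      have a1 : A - B = -(B - A) := by abel
      have a2 : z - B = (z - A) - (B - A) := by abel
      rw [a1, cr_neg_left, a2, cr_sub_right, cr_self, sub_zero]
    rw [e] at hz2
    linarith

end C2305bH52
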