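import Pool.Agent.W_c2305b_h52.C1c

/-!
# The supporting line of the concave sequence of areas
-/

open MeasureTheory Set Real Filter Topology

namespace C2305bH52.Dow

open C2305b.TL (V cr)

/-- `t m <= t 6 + (m - 6) (t 6 - t 5)` -/
theorem sm_le_line {N : V → ℝ} (hN : Nrm N) {m : ℕ} (hm : 2 ≤ m) :
    sm N m ≤ sm N 6 + ((m : ℝ) - 6) * (sm N 6 - sm N 5) := by
  have hup : ∀ n : ℕ, sm N (5 + n + 1) - sm N (5 + n) ≤ sm N 6 - sm N 5 := by
    intro n
    induction n with
    | zero => simp
    | succ n ih =>
      have h := dowker hN (n := 5 + n) (by omega)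
      have e1 : 5 + (n + 1) + 1 = 5 + n + 2 := by ring
      have e2 : 5 + (n + 1) = 5 + n + 1 := by ring
      rw [e1, e2]
      linarith
  have h1 : ∀ n : ℕ, sm N (5 + n) ≤ sm N 5 + (n : ℝ) * (sm N 6 - sm N 5) := by
    intro n
    induction n with
    | zero => simp
    | succ n ih =>
      have h := hup n
      have e : 5 + (n + 1) = 5 + n + 1 := by ring
      rw [e]
      push_cast
      linarith
  rcases le_or_gt 5 m with h | h
  · obtain ⟨n, rfl⟩ : ∃ n, m = 5 + n := ⟨m - 5, by omega⟩
    have := h1 n
    push_cast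
    linarith
  · have d2 := dowker hN (n := 2) (by norm_num)
    have d3 := dowker hN (n := 3) (by norm_num)
    have d4 := dowker hN (n := 4) (by norm_num)
    norm_num at d2 d3 d4
    interval_cases m
    · push_cast; linarith
    · push_cast; linarith
    · push_cast; linarith

section body

variable {K0 : Set V} (hsym : ∀ v ∈ K0, -v ∈ K0) (hK : IsCompact K0)
  (hconv : Convex ℝ K0) (hint : (interior K0).Nonempty)

include hsym hK hconv hint

/-- polygons with `m` corners in the body -/
theorem vol_le_line {S : Finset V} (hS : ∀ s ∈ S, s ∈ K0) (h2 : 2 ≤ S.card) :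
    (volume (convexHull ℝ (S : Set V))).toReal ≤
      sm (gauge K0) 6 + ((S.card : ℝ) - 6) * (sm (gauge K0) 6 - sm (gauge K0) 5) := by
  have hN := nrm_gauge hK hconv hsym hint
  exact (area_le_sm hN h2 (fun s hs => (gauge_le_one hK hconv hsym hint _).2 (hS s hs))
    le_rfl).trans (sm_le_line hN h2)

theorem sig_nonneg : 0 ≤ sm (gauge K0) 6 - sm (gauge K0) 5 := by
  have := sm_mono (nrm_gauge hK hconv hsym hint) (show 2 ≤ 5 by norm_num)
  norm_num at this
  linarith

end body

end C2305bH52.Dow
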