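import Pool.Agent.W_c2305b_h52.Smooth4

/-!
# Natural forms: areas of inscribed polygons as suprema, bodies with one maximal hexagon
-/

open MeasureTheory Set Real Filter Topology

namespace C2305bH52.Dow

open C2305b.TL (V cr)
open C2305b.Rig (Conv6 ar6 LeMax UniqHex edge)

/-- strict inequality if the maximal hexagons have their corners in a set of six points -/
theorem lt_of_finite {N : V → ℝ} (hN : Nrm N) {R : Finset V} (hR : R.card ≤ 6)
    (hall : ∀ u, Cyc 6 u → AA N 6 u / 2 = sm N 6 → ∀ k : ℕ, k < 6 → gam N (u k) ∈ R)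
    (h56 : sm N 5 < sm N 6) : sm N 5 + sm N 7 < 2 * sm N 6 := by
  classical
  have hpi := Real.pi_pos
  by_contra hcon
  push Not at hcon
  obtain ⟨⟨x, hx, hxA⟩, -⟩ := sm_spec hN (show 2 ≤ 5 by norm_num)
  obtain ⟨⟨y, hy, hyA⟩, -⟩ := sm_spec hN (show 2 ≤ 7 by norm_num)
  obtain ⟨-, hle6⟩ := sm_spec hN (show 2 ≤ 6 by norm_num)
  obtain ⟨P, Q, hP, hQ, hA, k0, c, hmem, -⟩ := exchange hN hx hy
  have hP1 : AA N 6 P / 2 ≤ sm N 6 := hle6 P hP
  have hQ1 : AA N 6 Q / 2 ≤ sm N 6 := hle6 Q hQ
  have hA' : AA N 5 x + AA N 7 y ≤ AA N 6 P + AA N 6 Q := hA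
  have hPe : AA N 6 P / 2 = sm N 6 := by linarith
  have hQe : AA N 6 Q / 2 = sm N 6 := by linarith
  have hyH : ∀ j : Fin 7, gam N (y ((j : ℕ) + k0)) ∈ R := by
    intro j
    obtain ⟨l, hl, hor⟩ := hmem j (by have := j.isLt; omega)
    have hg := gam_add_int hN (y ((j : ℕ) + k0)) c
    rcases hor with hor | hor
    · rw [← hg, ← hor]
      exact hall P hP hPe l hl
    · rw [← hg, ← hor]
      exact hall Q hQ hQe l hl
  let f : Fin 7 → R := fun j => ⟨_, hyH j⟩
  obtain ⟨j1, j2, hne, hfe⟩ := Fintype.exists_ne_map_eq_of_card_lt f (by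
    rw [Fintype.card_coe, Fintype.card_fin]; omega)
  obtain ⟨i, hi⟩ : ∃ i, y i = y (i + 1) := by
    have key : ∀ a b : Fin 7, a < b → f a = f b → ∃ i, y i = y (i + 1) := by
      intro a b hab hfab
      have hg : gam N (y ((a : ℕ) + k0)) = gam N (y ((b : ℕ) + k0)) :=
        congrArg Subtype.val hfab
      have hab' : (a : ℕ) < b := Fin.lt_def.1 hab
      have hb := b.isLt
      have h1 : y ((a : ℕ) + k0) ≤ y ((a : ℕ) + k0 + 1) := hy.mono _
      have h2 : y ((a : ℕ) + k0 + 1) ≤ y ((b : ℕ) + k0) := hy.le (by omega)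
      have h3 : y ((b : ℕ) + k0) ≤ y ((b : ℕ) + k0 + 1) := hy.mono _
      have h4 : y ((b : ℕ) + k0 + 1) ≤ y ((a : ℕ) + k0 + 7) := hy.le (by omega)
      have h5 : y ((a : ℕ) + k0 + 7) = y ((a : ℕ) + k0) + 2 * π := hy.per _
      rcases lt_or_ge (y ((b : ℕ) + k0)) (y ((a : ℕ) + k0) + 2 * π) with h6 | h6
      · have h7 := eq_of_gam hN hg (by linarith) h6
        exact ⟨(a : ℕ) + k0, by linarith⟩
      · exact ⟨(b : ℕ) + k0, by linarith⟩
    rcases lt_or_gt_of_ne hne with h | h
    · exact key j1 j2 h hfe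
    · exact key j2 j1 h hfe.symm
  have hys := hy.shift i
  obtain ⟨v, hv, hvA⟩ := del (N := N) (m := 6) (by norm_num) (u := fun j => y (j + i)) hys
    (by
      have e0 : y (0 + i) = y (1 + i) := by
        rw [zero_add, add_comm 1 i]; exact hi
      have h2 := hys.arc 1
      show y (2 + i) ≤ y (0 + i) + π
      rw [e0]
      exact h2)
  have hv7 : AA N 6 v = AA N 7 y := by
    rw [hvA]
    have e1 : AA N (6 + 1) (fun j => y (j + i)) = AA N 7 y := AA_shift hN hy i
    rw [e1]
    have e0 : y (0 + i) = y (1 + i) := by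
      rw [zero_add, add_comm 1 i]; exact hi
    show AA N 7 y - FF N (y (0 + i)) (y (1 + i)) -
      FF N (y (1 + i)) (y (2 + i)) + FF N (y (0 + i)) (y (2 + i)) = _
    rw [e0, FF_self]
    ring
  have hv6 := hle6 v hv
  rw [hv7, hyA] at hv6
  linarith

/-! ### the area of a cyclic polygon is at most the area of its hull -/

/-- fan triangles -/
noncomputable def fanN (N : V → ℝ) (u : ℕ → ℝ) (i : ℕ) : Set V :=
  convexHull ℝ {gam N (u 0), gam N (u (i + 1)), gam N (u (i + 2))}

theorem fanN_null {N : V → ℝ} (hN : Nrm N) {m : ℕ} {u : ℕ → ℝ} (h : Cyc m u) {i j : ℕ}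
    (hij : i < j) (hj : j + 2 ≤ m) : volume (fanN N u i ∩ fanN N u j) = 0 := by
  set p := fun k => gam N (u k) with hp
  set w := p (i + 2) - p 0 with hw
  have hor : ∀ a b, a ≤ b → b ≤ m → 0 ≤ cr (p a - p 0) (p b - p 0) := by
    intro a b hab hb
    refine orient_cr hN (h.le (Nat.zero_le a)) (h.le hab) ?_
    have h1 := h.le hb
    have h2 := h.per 0
    rw [zero_add] at h2
    linarith
  have hcv : ∀ x y : V, ∀ a b : ℝ, a + b = 1 →
      cr w (a • x + b • y - p 0) = a * cr w (x - p 0) + b * cr w (y - p 0) := by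
    intro x y a b hab
    have hb' : b = 1 - a := by linarith
    subst hb'
    unfold cr
    simp only [PiLp.sub_apply, PiLp.add_apply, PiLp.smul_apply, smul_eq_mul]
    ring
  have h1 : ∀ x ∈ fanN N u i, cr w (x - p 0) ≤ 0 := by
    have hsub : fanN N u i ⊆ {x | cr w (x - p 0) ≤ 0} := by
      refine convexHull_min ?_ ?_
      · intro x hx
        simp only [mem_insert_iff, mem_singleton_iff] at hx
        simp only [mem_setOf_eq]
        rcases hx with rfl | rfl | rfl
        · show cr w (p 0 - p 0) ≤ 0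
          rw [sub_self, C2305b.TL.cr_zero_right]
        · show cr w (p (i + 1) - p 0) ≤ 0
          rw [C2305b.TL.cr_swap]
          have := hor (i + 1) (i + 2) (by omega) (by omega)
          rw [← hw] at this
          linarith
        · show cr w (p (i + 2) - p 0) ≤ 0
          rw [← hw, C2305b.TL.cr_self]
      · intro x hx y hy a b ha hb hab
        simp only [mem_setOf_eq] at hx hy ⊢
        rw [hcv x y a b hab]
        have := mul_nonneg ha (neg_nonneg.2 hx)
        have := mul_nonneg hb (neg_nonneg.2 hy)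
        linarith
    exact fun x hx => hsub hx
  have h2 : ∀ x ∈ fanN N u j, 0 ≤ cr w (x - p 0) := by
    have hsub : fanN N u j ⊆ {x | 0 ≤ cr w (x - p 0)} := by
      refine convexHull_min ?_ ?_
      · intro x hx
        simp only [mem_insert_iff, mem_singleton_iff] at hx
        simp only [mem_setOf_eq]
        rcases hx with rfl | rfl | rfl
        · show 0 ≤ cr w (p 0 - p 0)
          rw [sub_self, C2305b.TL.cr_zero_right]
        · exact hor _ _ (by omega) (by omega)
        · exact hor _ _ (by omega) (by omega)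
      · intro x hx y hy a b ha hb hab
        simp only [mem_setOf_eq] at hx hy ⊢
        rw [hcv x y a b hab]
        have := mul_nonneg ha hx
        have := mul_nonneg hb hy
        linarith
    exact fun x hx => hsub hx
  by_cases hw0 : w = 0
  · refine measure_mono_null inter_subset_left ?_
    have h3 := C2305b.TL.volume_triangle (p 0) (p (i + 1)) (p (i + 2))
    rw [← hw, hw0, C2305b.TL.cr_zero_right, abs_zero, zero_div,
      ENNReal.toReal_eq_zero_iff] at h3
    exact h3.resolve_right (C2305b.TL.volume_triangle_ne_top _ _ _)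
  · refine measure_mono_null ?_ (C2305bH68.Tri.null_line hw0 (p 0))
    rintro x ⟨hx1, hx2⟩
    exact le_antisymm (h1 x hx1) (h2 x hx2)

theorem AA_le_volume {N : V → ℝ} (hN : Nrm N) {m : ℕ} {u : ℕ → ℝ} (h : Cyc m u) :
    AA N m u / 2 ≤ (volume (convexHull ℝ (range fun k : Fin m => gam N (u k)))).toReal := by
  have hm2 := h.two_le
  obtain ⟨n, rfl⟩ : ∃ n, m = n + 2 := ⟨m - 2, by omega⟩
  have hm : ∀ i : Fin n, MeasurableSet (fanN N u i) := fun i =>
    ((Set.toFinite _).isCompact_convexHull ℝ).isClosed.measurableSet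
  have hpw : Pairwise (Function.onFun (AEDisjoint volume) fun i : Fin n => fanN N u i) := by
    intro i j hij
    have hi := i.isLt
    have hj := j.isLt
    rcases lt_or_gt_of_ne hij with h' | h'
    · exact fanN_null hN h h' (by omega)
    · have := fanN_null hN h h' (by omega)
      rw [inter_comm] at this
      exact this
  have h1 : volume (⋃ i : Fin n, fanN N u i) = ∑' i : Fin n, volume (fanN N u i) :=
    measure_iUnion₀ hpw fun i => (hm i).nullMeasurableSet
  have h2 : (⋃ i : Fin n, fanN N u i) ⊆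
      convexHull ℝ (range fun k : Fin (n + 2) => gam N (u k)) := by
    refine iUnion_subset fun i => convexHull_mono ?_
    have hi := i.isLt
    intro x hx
    simp only [mem_insert_iff, mem_singleton_iff] at hx
    rcases hx with rfl | rfl | rfl
    · exact ⟨⟨0, by omega⟩, rfl⟩
    · exact ⟨⟨i + 1, by omega⟩, rfl⟩
    · exact ⟨⟨i + 2, by omega⟩, rfl⟩
  have hfin : volume (convexHull ℝ (range fun k : Fin (n + 2) => gam N (u k))) ≠ ⊤ :=
    ((Set.finite_range _).isCompact_convexHull ℝ).measure_lt_top.ne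
  have h3 : (∑' i : Fin n, volume (fanN N u i)).toReal ≤
      (volume (convexHull ℝ (range fun k : Fin (n + 2) => gam N (u k)))).toReal := by
    rw [← h1]
    exact ENNReal.toReal_mono hfin (measure_mono h2)
  have hft : ∀ i ∈ (Finset.univ : Finset (Fin n)), volume (fanN N u i) ≠ ⊤ :=
    fun i _ => C2305b.TL.volume_triangle_ne_top _ _ _
  rw [tsum_fintype, ENNReal.toReal_sum hft] at h3
  have hper0 : u (n + 2) = u 0 + 2 * π := by
    have := h.per 0
    rwa [zero_add] at this
  have h4 : ∀ i : Fin n, (volume (fanN N u i)).toReal =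
      cr (gam N (u (i + 1)) - gam N (u 0)) (gam N (u (i + 2)) - gam N (u 0)) / 2 := by
    intro i
    have hi := i.isLt
    unfold fanN
    rw [C2305b.TL.volume_triangle]
    congr 1
    refine abs_of_nonneg (orient_cr hN (h.le (Nat.zero_le _)) (h.le (by omega)) ?_)
    have h5 : u (i + 2) ≤ u (n + 2) := h.le (by omega)
    linarith
  simp only [h4] at h3
  rw [← Finset.sum_div, ← Finset.sum_range (fun i =>
    cr (gam N (u (i + 1)) - gam N (u 0)) (gam N (u (i + 2)) - gam N (u 0)))] at h3
  have h5 : ∀ k, ∑ i ∈ Finset.range k,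
      cr (gam N (u (i + 1)) - gam N (u 0)) (gam N (u (i + 2)) - gam N (u 0)) =
      ∑ i ∈ Finset.range k, FF N (u (i + 1)) (u (i + 2)) + FF N (u 0) (u 1) -
        FF N (u 0) (u (k + 1)) := by
    intro k
    induction k with
    | zero => simp
    | succ k ih =>
      rw [Finset.sum_range_succ, Finset.sum_range_succ, ih]
      unfold FF cr
      simp only [PiLp.sub_apply]
      have e : k + 1 + 1 = k + 2 := rfl
      rw [e]
      ring
  rw [h5 n] at h3
  have h6 : AA N (n + 2) u = ∑ i ∈ Finset.range n, FF N (u (i + 1)) (u (i + 2)) +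
      FF N (u 0) (u 1) - FF N (u 0) (u (n + 1)) := by
    unfold AA
    have a1 := Finset.sum_range_succ' (fun j => FF N (u j) (u (j + 1))) (n + 1)
    have a2 := Finset.sum_range_succ (fun j => FF N (u (j + 1)) (u (j + 1 + 1))) n
    have a3 : FF N (u (n + 1)) (u (n + 1 + 1)) = -FF N (u 0) (u (n + 1)) := by
      have e : n + 1 + 1 = n + 2 := rfl
      rw [e, hper0, FF_right hN, FF_anti (u 0) (u (n + 1))]
    simp only [zero_add] at a1
    have e : n + 1 + 1 = n + 2 := rfl
    rw [e] at a1
    rw [a3] at a2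
    have a4 : ∑ j ∈ Finset.range n, FF N (u (j + 1)) (u (j + 1 + 1)) =
      ∑ i ∈ Finset.range n, FF N (u (i + 1)) (u (i + 2)) := rfl
    linarith
  rw [h6]
  exact h3

/-- Supremum of the areas of the convex hulls of `m` points of `K`. -/
noncomputable def tm (m : ℕ) (K : Set V) : ENNReal :=
  ⨆ (p : Fin m → V) (_ : ∀ k, p k ∈ K), volume (convexHull ℝ (range p))

section body

variable {K0 : Set V} (hsym : ∀ v ∈ K0, -v ∈ K0) (hK : IsCompact K0)
  (hconv : Convex ℝ K0) (hint : (interior K0).Nonempty)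

include hsym hK hconv hint

theorem tm_eq {m : ℕ} (hm : 2 ≤ m) : tm m K0 = ENNReal.ofReal (sm (gauge K0) m) := by
  classical
  have hN := nrm_gauge hK hconv hsym hint
  apply le_antisymm
  · refine iSup_le fun p => iSup_le fun hp => ?_
    have hfin : volume (convexHull ℝ (range p)) ≠ ⊤ :=
      ((Set.finite_range p).isCompact_convexHull ℝ).measure_lt_top.ne
    rw [← ENNReal.ofReal_toReal hfin]
    apply ENNReal.ofReal_le_ofReal
    have hcard : (Finset.univ.image p).card ≤ m := by
      refine Finset.card_image_le.trans ?_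
      simp
    have := area_le_sm hN hm (S := Finset.univ.image p) (by
      intro s hs
      obtain ⟨k, -, rfl⟩ := Finset.mem_image.1 hs
      exact (gauge_le_one hK hconv hsym hint _).2 (hp k)) hcard
    rw [Finset.coe_image, Finset.coe_univ, image_univ] at this
    exact this
  · obtain ⟨⟨u, hu, huA⟩, -⟩ := sm_spec hN hm
    have hfin : volume (convexHull ℝ (range fun k : Fin m => gam (gauge K0) (u k))) ≠ ⊤ :=
      ((Set.finite_range _).isCompact_convexHull ℝ).measure_lt_top.ne
    have h1 : volume (convexHull ℝ (range fun k : Fin m => gam (gauge K0) (u k))) ≤ tm m K0 :=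
      le_iSup₂ (f := fun (p : Fin m → V) (_ : ∀ k, p k ∈ K0) => volume (convexHull ℝ (range p)))
        (fun k : Fin m => gam (gauge K0) (u k)) (fun k => by
          rw [← gauge_le_one hK hconv hsym hint]
          exact (N_gam hN _).le)
    refine le_trans ?_ h1
    rw [← huA, ← ENNReal.ofReal_toReal hfin]
    exact ENNReal.ofReal_le_ofReal (AA_le_volume hN hu)

theorem lt_iff_tm : sm (gauge K0) 5 + sm (gauge K0) 7 < 2 * sm (gauge K0) 6 ↔
    tm 5 K0 + tm 7 K0 < 2 * tm 6 K0 := by
  have hN := nrm_gauge hK hconv hsym hint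
  have hnn : ∀ m, 2 ≤ m → 0 ≤ sm (gauge K0) m := by
    intro m hm
    obtain ⟨⟨u, hu, huA⟩, -⟩ := sm_spec hN hm
    rw [← huA]
    have := AA_nonneg hN hu
    positivity
  rw [tm_eq hsym hK hconv hint (by norm_num), tm_eq hsym hK hconv hint (by norm_num),
    tm_eq hsym hK hconv hint (by norm_num), ← ENNReal.ofReal_add (hnn 5 (by norm_num))
    (hnn 7 (by norm_num))]
  have e : (2 : ENNReal) * ENNReal.ofReal (sm (gauge K0) 6) =
      ENNReal.ofReal (2 * sm (gauge K0) 6) := by
    rw [ENNReal.ofReal_mul (by norm_num)]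
    simp
  rw [e, ENNReal.ofReal_lt_ofReal_iff]
  have := sm_pos hsym hK hconv hint
  positivity

/-- THE GAP from the strict inequality between the suprema of areas. -/
theorem gap_of_tm (h : tm 5 K0 + tm 7 K0 < 2 * tm 6 K0) :
    ∃ τ g, W82.Gap K0 (sm (gauge K0) 6) τ g :=
  gap_of_lt hsym hK hconv hint ((lt_iff_tm hsym hK hconv hint).2 h)

variable {H : Fin 6 → V} (hH : ∀ k, H k ∈ K0)
  (hU : ∀ G : Fin 6 → V, (∀ k, G k ∈ K0) →
    volume (convexHull ℝ (range H)) ≤ volume (convexHull ℝ (range G)) → range G = range H)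

include hH hU

theorem range_eq {q : Fin 6 → V} (hq : Conv6 q) (hqK : ∀ k, q k ∈ K0)
    (hqA : ar6 q = sm (gauge K0) 6) : range q = range H := by
  apply hU q hqK
  have h1 : volume (convexHull ℝ (range H)) ≤ C2305b.t6 K0 := C2305b.le_t6 hH
  rw [t6_eq hsym hK hconv hint, ← hqA] at h1
  have hfin : volume (convexHull ℝ (range q)) ≠ ⊤ :=
    ((Set.finite_range q).isCompact_convexHull ℝ).measure_lt_top.ne
  refine h1.trans ?_
  rw [← ENNReal.ofReal_toReal hfin]
  exact ENNReal.ofReal_le_ofReal (ar6_le_volume hq)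

theorem lt56 : sm (gauge K0) 5 < sm (gauge K0) 6 := by
  classical
  have hN := nrm_gauge hK hconv hsym hint
  by_contra hcon
  push Not at hcon
  obtain ⟨⟨x, hx, hxA⟩, -⟩ := sm_spec hN (show 2 ≤ 5 by norm_num)
  have hfin : (range H).Finite := Set.finite_range H
  have hsub : K0 ⊆ range H := by
    intro p hp
    let G : Fin 6 → V := Fin.cons p fun j : Fin 5 => gam (gauge K0) (x j)
    have hG : ∀ k, G k ∈ K0 := by
      intro k
      refine Fin.cases ?_ (fun j => ?_) k
      · exact hp
      · show gam (gauge K0) (x j) ∈ K0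
        rw [← gauge_le_one hK hconv hsym hint]
        exact (N_gam hN _).le
    have h1 : range (fun j : Fin 5 => gam (gauge K0) (x j)) ⊆ range G := by
      rintro _ ⟨j, rfl⟩
      exact ⟨j.succ, rfl⟩
    have hfin5 : volume (convexHull ℝ (range fun j : Fin 5 => gam (gauge K0) (x j))) ≠ ⊤ :=
      ((Set.finite_range _).isCompact_convexHull ℝ).measure_lt_top.ne
    have h2 : volume (convexHull ℝ (range H)) ≤ volume (convexHull ℝ (range G)) := by
      calc volume (convexHull ℝ (range H)) ≤ C2305b.t6 K0 := C2305b.le_t6 hH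
        _ = ENNReal.ofReal (sm (gauge K0) 6) := t6_eq hsym hK hconv hint
        _ ≤ ENNReal.ofReal (sm (gauge K0) 5) := ENNReal.ofReal_le_ofReal hcon
        _ = ENNReal.ofReal (AA (gauge K0) 5 x / 2) := by rw [hxA]
        _ ≤ ENNReal.ofReal
            (volume (convexHull ℝ (range fun j : Fin 5 => gam (gauge K0) (x j)))).toReal :=
            ENNReal.ofReal_le_ofReal (AA_le_volume hN hx)
        _ = volume (convexHull ℝ (range fun j : Fin 5 => gam (gauge K0) (x j))) :=
            ENNReal.ofReal_toReal hfin5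
        _ ≤ volume (convexHull ℝ (range G)) := measure_mono (convexHull_mono h1)
    have h3 := hU G hG h2
    rw [← h3]
    exact ⟨0, rfl⟩
  obtain ⟨y, hy⟩ := hint
  have h1 : (interior K0).Finite := (hfin.subset hsub).subset interior_subset
  have h2 := isOpen_interior.measure_pos (volume : Measure V) ⟨y, hy⟩
  rw [h1.measure_zero] at h2
  exact lt_irrefl _ h2

/-- ONE MAXIMAL HEXAGON (as a set of six points): gap and symmetry. -/
theorem gap_of_unique :
    (∃ τ g, W82.Gap K0 (sm (gauge K0) 6) τ g) ∧ C2305b.Rig.Sym6 K0 (sm (gauge K0) 6) ∧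
      LeMax K0 (sm (gauge K0) 6) := by
  classical
  have hN := nrm_gauge hK hconv hsym hint
  have h56 := lt56 hsym hK hconv hint hH hU
  have hlt : sm (gauge K0) 5 + sm (gauge K0) 7 < 2 * sm (gauge K0) 6 := by
    refine lt_of_finite hN (R := Finset.univ.image H) ?_ ?_ h56
    · refine Finset.card_image_le.trans ?_
      simp
    · intro u hu huA k hk
      have hK' : ∀ k : Fin 6, gam (gauge K0) (u k) ∈ K0 := fun k => by
        rw [← gauge_le_one hK hconv hsym hint]
        exact (N_gam hN _).le
      have h1 := range_eq hsym hK hconv hint hH hU (conv6_gam hN hu) hK'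
        (by rw [ar6_gam hN hu]; exact huA)
      have h2 : gam (gauge K0) (u k) ∈ range H := by
        rw [← h1]
        exact ⟨⟨k, hk⟩, rfl⟩
      obtain ⟨j, hj⟩ := h2
      exact Finset.mem_image.2 ⟨j, Finset.mem_univ _, hj⟩
  refine ⟨gap_of_lt hsym hK hconv hint hlt, ?_, ?_⟩
  · intro q hq hqK hqA
    have hinj := q_inj hsym hK hconv hint h56 hq hqK hqA
    have hcr : ∀ i j k : Fin 6, C2305b.Rig.cr (-q j - -q i) (-q k - -q i) =
        C2305b.Rig.cr (q j - q i) (q k - q i) := by
      intro i j k
      simp only [C2305b.Rig.cr, PiLp.sub_apply, PiLp.neg_apply]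
      ring
    have hn : Conv6 (fun k => -q k) := fun i j k hij hjk => by
      rw [hcr]; exact hq i j k hij hjk
    have hnA : ar6 (fun k => -q k) = sm (gauge K0) 6 := by
      rw [C2305b.Rig.O74.ar6_congr hcr, hqA]
    have r1 := range_eq hsym hK hconv hint hH hU hq hqK hqA
    have r2 := range_eq hsym hK hconv hint hH hU hn (fun k => hsym _ (hqK k)) hnA
    obtain ⟨m, hm⟩ := C2305b.Nat73.shift_of_range hq hn hinj
      (fun i j k hij hik hjk => q_cr_ne hsym hK hconv hint h56 hq hqK hqA hij hik hjk)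
      (by rw [r1, r2])
    have hm2 : m + m = 0 := by
      have h1 := hm 0
      have h2 := hm (0 + m)
      have h3 : q (0 + m + m) = q 0 := by
        rw [← h2]
        show -q (0 + m) = q 0
        rw [← h1]
        show -(-q 0) = q 0
        rw [neg_neg]
      have h4 := hinj h3
      rw [zero_add] at h4
      exact h4
    rcases C2305b.Nat73.fin6_double m hm2 with h0 | h3
    · exfalso
      rw [h0] at hm
      have e0 : q 0 = 0 := by
        have := hm 0
        simp only [add_zero] at this
        exact C2305b.Nat73.eq_zero_of_neg this.symm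
      have e1 : q 1 = 0 := by
        have := hm 1
        simp only [add_zero] at this
        exact C2305b.Nat73.eq_zero_of_neg this.symm
      have := hinj (e0.trans e1.symm)
      exact absurd this (by decide)
    · intro k
      have := hm k
      rw [h3] at this
      exact this.symm
  · intro q hq hqK
    exact ar6_le_sm hsym hK hconv hint hq hqK

end body

end C2305bH52.Dow
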