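import Pool.Agent.W_c2305b_h52.Smooth5

/-!
# All smooth bodies, part 1 (idea of helper91): maximal polygons of a body with unique supporting
lines are determined by two consecutive corners; no strict convexity.
-/

open MeasureTheory Set Real

namespace C2305bH52.C1

open C2305b.TL (V cr)
open C2305b.Rig (Conv6 ar6 LeMax UniqHex edge)
open C2305bH52.DiscGap (uv uv_zero uv_one cr_uv exists_polar)
open C2305bH52.Dow
open C2305bH68.Ord (Corners)

section norm

variable {N : V → ℝ} (hN : Nrm N)
include hN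

/-- a point strictly inside a side of a nondegenerate triangle, seen from the centre on the wrong
side, is interior -/
theorem three' {a b p : V} (ha : N a ≤ 1) (hb : N b ≤ 1) (hp : N p ≤ 1)
    (hcr : 0 < cr (b - a) (p - a)) {t : ℝ} (ht0 : 0 < t) (ht1 : t < 1)
    (h0 : 0 ≤ cr (b - a) (a + t • (b - a))) : N (a + t • (b - a)) < 1 := by
  set z := a + t • (b - a) with hz
  set B := cr (b - a) (p - a) with hB
  set C := cr z (p - a) / B with hC
  set D := cr (b - a) z / B with hD
  have hD0 : 0 ≤ D := by positivity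
  -- a small parameter
  set e := min t (1 - t) / (1 + |C| + |C + D|) with he
  have hden : 0 < 1 + |C| + |C + D| := by positivity
  have hmin : 0 < min t (1 - t) := lt_min ht0 (by linarith)
  have he0 : 0 < e := by positivity
  have he1 : e * (1 + |C| + |C + D|) = min t (1 - t) := by rw [he]; field_simp
  have hmt : min t (1 - t) ≤ t := min_le_left _ _
  have hm1 : min t (1 - t) ≤ 1 - t := min_le_right _ _
  have i1 : e * |C| ≤ t := by
    have := abs_nonneg (C + D)
    nlinarith
  have i2 : e * |C + D| ≤ 1 - t := by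
    have := abs_nonneg C
    nlinarith
  have i3 : -(e * C) ≤ e * |C| := by
    have := neg_abs_le C
    nlinarith
  have i4 : e * (C + D) ≤ e * |C + D| := by
    have := le_abs_self (C + D)
    nlinarith
  set β := t + e * C with hβ
  set γ := e * D with hγ
  have hβ0 : 0 ≤ β := by rw [hβ]; linarith
  have hγ0 : 0 ≤ γ := by positivity
  have hα0 : 0 ≤ 1 - β - γ := by rw [hβ, hγ]; linarith
  have hBne : B ≠ 0 := hcr.ne'
  have hrep : (1 + e) • z = (1 - β - γ) • a + β • b + γ • p := by
    have key : B • ((1 + e) • z) = B • ((1 - β - γ) • a + β • b + γ • p) := by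
      have hβB : B * β = B * t + e * cr z (p - a) := by
        rw [hβ, hC]; field_simp
      have hγB : B * γ = e * cr (b - a) z := by
        rw [hγ, hD]; field_simp
      have e1 : B • ((1 - β - γ) • a + β • b + γ • p) =
          B • a + (B * β) • (b - a) + (B * γ) • (p - a) := by module
      rw [e1, hβB, hγB]
      ext i
      fin_cases i
      · simp only [Fin.zero_eta, PiLp.add_apply, PiLp.smul_apply, smul_eq_mul, PiLp.sub_apply, hz,
          hB, cr]
        ring
      · simp only [Fin.mk_one, PiLp.add_apply, PiLp.smul_apply, smul_eq_mul, PiLp.sub_apply, hz,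
          hB, cr]
        ring
    have h2 := congrArg (fun v : V => B⁻¹ • v) key
    simp only [smul_smul, inv_mul_cancel₀ hBne, one_smul] at h2
    rw [← mul_assoc, inv_mul_cancel₀ hBne, one_mul] at h2
    exact h2
  have h1 : N ((1 + e) • z) ≤ 1 := by
    rw [hrep]
    calc N ((1 - β - γ) • a + β • b + γ • p)
        ≤ N ((1 - β - γ) • a + β • b) + N (γ • p) := hN.add _ _
      _ ≤ N ((1 - β - γ) • a) + N (β • b) + N (γ • p) := by
          have := hN.add ((1 - β - γ) • a) (β • b)
          linarith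
      _ = (1 - β - γ) * N a + β * N b + γ * N p := by
          rw [hN.smul, hN.smul, hN.smul, abs_of_nonneg hα0, abs_of_nonneg hβ0, abs_of_nonneg hγ0]
      _ ≤ (1 - β - γ) * 1 + β * 1 + γ * 1 := by
          have := mul_le_mul_of_nonneg_left ha hα0
          have := mul_le_mul_of_nonneg_left hb hβ0
          have := mul_le_mul_of_nonneg_left hp hγ0
          linarith
      _ = 1 := by ring
  rw [hN.smul, abs_of_pos (by linarith)] at h1
  by_contra hcon
  push Not at hcon
  nlinarith

/-- a point strictly inside a segment with body points strictly on both sides is interior -/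
theorem three {a b p p' : V} (ha : N a ≤ 1) (hb : N b ≤ 1) (hp : N p ≤ 1) (hp' : N p' ≤ 1)
    (hcr : 0 < cr (b - a) (p - a)) (hcr' : cr (b - a) (p' - a) < 0) {t : ℝ} (ht0 : 0 < t)
    (ht1 : t < 1) : N (a + t • (b - a)) < 1 := by
  rcases le_or_gt 0 (cr (b - a) (a + t • (b - a))) with h | h
  · exact three' hN ha hb hp hcr ht0 ht1 h
  · have e1 : a + t • (b - a) = b + (1 - t) • (a - b) := by module
    rw [e1]
    refine three' hN hb ha hp' ?_ (by linarith) (by linarith) ?_
    · have : cr (a - b) (p' - b) = -cr (b - a) (p' - a) := by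
        unfold cr; simp only [PiLp.sub_apply]; ring
      rw [this]; linarith
    · rw [← e1]
      have : cr (a - b) (a + t • (b - a)) = -cr (b - a) (a + t • (b - a)) := by
        unfold cr; simp only [PiLp.sub_apply]; ring
      rw [this]; linarith

/-! ### strict position of the corners of a maximal polygon -/

section strict

variable {n : ℕ} (hn : 2 ≤ n) (hlt : sm N n < sm N (n + 1)) {u : ℕ → ℝ} (h : Cyc (n + 1) u)
  (hA : AA N (n + 1) u / 2 = sm N (n + 1))

include hn hlt h hA

theorem mx_lt (k : ℕ) : u k < u (k + 1) := by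
  refine lt_of_le_of_ne (h.mono k) fun hcon => ?_
  have hs := h.shift k
  obtain ⟨v, hv, hvA⟩ := del (N := N) (m := n) hn (u := fun j => u (j + k)) hs
    (by
      have e0 : u (0 + k) = u (1 + k) := by rw [zero_add, add_comm 1 k]; exact hcon
      have h2 := hs.arc 1
      show u (2 + k) ≤ u (0 + k) + π
      rw [e0]
      exact h2)
  have hv7 : AA N n v = AA N (n + 1) u := by
    rw [hvA, AA_shift hN h k]
    have e0 : u (0 + k) = u (1 + k) := by
      rw [zero_add, add_comm 1 k]; exact hcon
    show AA N (n + 1) u - FF N (u (0 + k)) (u (1 + k)) -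
      FF N (u (1 + k)) (u (2 + k)) + FF N (u (0 + k)) (u (2 + k)) = _
    rw [e0, FF_self]
    ring
  have h1 := (sm_spec hN hn).2 v hv
  rw [hv7, hA] at h1
  linarith

/-- the corners are in strictly convex position -/
theorem mx_cr {i j l : ℕ} (hij : i < j) (hjl : j < l) (hl : l < n + 1) :
    0 < cr (gam N (u j) - gam N (u i)) (gam N (u l) - gam N (u i)) := by
  classical
  let p : Fin (n + 1) → V := fun k => gam N (u k)
  have hvol := AA_le_volume hN h
  have hnm : ∀ k, p k ∉ convexHull ℝ (p '' {k}ᶜ) := by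
    intro k hk
    have hcoe : (((Finset.univ.erase k).image p : Finset V) : Set V) = p '' {k}ᶜ := by
      rw [Finset.coe_image, Finset.coe_erase, Finset.coe_univ]
      congr 1
      ext x; simp
    have h1 := area_le_sm hN hn (S := (Finset.univ.erase k).image p) (by
      intro s hs
      obtain ⟨k, -, rfl⟩ := Finset.mem_image.1 hs
      exact (N_gam hN _).le) (by
      refine Finset.card_image_le.trans ?_
      rw [Finset.card_erase_of_mem (Finset.mem_univ k)]
      simp)
    rw [hcoe] at h1
    have h2 : convexHull ℝ (range p) ⊆ convexHull ℝ (p '' {k}ᶜ) := by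
      refine convexHull_min ?_ (convex_convexHull ℝ _)
      rintro _ ⟨j, rfl⟩
      by_cases hj : j = k
      · rw [hj]; exact hk
      · exact subset_convexHull ℝ _ ⟨j, hj, rfl⟩
    have hfin : volume (convexHull ℝ (p '' {k}ᶜ)) ≠ ⊤ :=
      (((Set.toFinite _).image p).isCompact_convexHull ℝ).measure_lt_top.ne
    have h3 := ENNReal.toReal_mono hfin (measure_mono h2 : volume _ ≤ volume _)
    have h4 : AA N (n + 1) u / 2 ≤ (volume (convexHull ℝ (range p))).toReal := hvol
    linarith
  have hinj : Function.Injective p := by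
    intro i j hij
    by_contra hne
    apply hnm i
    rw [hij]
    exact subset_convexHull ℝ _ ⟨j, fun h => hne h.symm, rfl⟩
  have hcorn : Corners (Finset.univ.image p) := by
    intro x hx
    rw [Finset.mem_image] at hx
    obtain ⟨k, _, rfl⟩ := hx
    intro hcon
    apply hnm k
    refine convexHull_mono ?_ hcon
    rintro x ⟨hx, hxk⟩
    rw [Finset.coe_image, Finset.coe_univ, image_univ] at hx
    obtain ⟨j, rfl⟩ := hx
    exact ⟨j, fun h => hxk (by rw [mem_singleton_iff.1 h]; rfl), rfl⟩
  have hne := hcorn.cr_ne (a := p ⟨i, by omega⟩) (b := p ⟨j, by omega⟩) (c := p ⟨l, hl⟩)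
    (Finset.mem_image_of_mem _ (Finset.mem_univ _))
    (Finset.mem_image_of_mem _ (Finset.mem_univ _)) (Finset.mem_image_of_mem _ (Finset.mem_univ _))
    (fun h => by have := Fin.mk.inj_iff.1 (hinj h); omega)
    (fun h => by have := Fin.mk.inj_iff.1 (hinj h); omega)
    (fun h => by have := Fin.mk.inj_iff.1 (hinj h); omega)
  have hge : 0 ≤ cr (gam N (u j) - gam N (u i)) (gam N (u l) - gam N (u i)) := by
    refine orient_cr hN (h.le hij.le) (h.le hjl.le) ?_
    have h3 : u l ≤ u (n + 1) := h.le hl.le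
    have h4 : u 0 ≤ u i := h.le (Nat.zero_le _)
    have h5 := h.per 0
    rw [zero_add] at h5
    linarith
  exact lt_of_le_of_ne hge (Ne.symm hne)

/-- strict position of four consecutive corners -/
theorem mx_four (hn3 : 3 ≤ n) (k : ℕ) :
    cr (gam N (u (k + 2)) - gam N (u k)) (gam N (u (k + 1)) - gam N (u k)) < 0 ∧
    0 < cr (gam N (u (k + 2)) - gam N (u k)) (gam N (u (k + 3)) - gam N (u k)) := by
  have hs := h.shift k
  have hsA : AA N (n + 1) (fun j => u (j + k)) / 2 = sm N (n + 1) := by
    rw [AA_shift hN h k]; exact hA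
  have h1 := mx_cr hN hn hlt hs hsA (i := 0) (j := 1) (l := 2) (by norm_num) (by norm_num)
    (by omega)
  have h2 := mx_cr hN hn hlt hs hsA (i := 0) (j := 2) (l := 3) (by norm_num) (by norm_num)
    (by omega)
  have e0 : 0 + k = k := zero_add k
  have e1 : 1 + k = k + 1 := add_comm 1 k
  have e2 : 2 + k = k + 2 := add_comm 2 k
  have e3 : 3 + k = k + 3 := add_comm 3 k
  simp only [e0, e1, e2, e3] at h1 h2
  refine ⟨?_, h2⟩
  rw [C2305b.TL.cr_swap]
  linarith

theorem mx_ne (k : ℕ) : u k < u (k + 2) ∧ u (k + 2) < u k + 2 * π ∧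
      gam N (u (k + 2)) - gam N (u k) ≠ 0 := by
  have h1 := mx_lt hN hn hlt h hA k
  have h2 := mx_lt hN hn hlt h hA (k + 1)
  have h3 := mx_lt hN hn hlt h hA (k + 2)
  have h4 : u (k + 2 + 1) ≤ u (k + (n + 1)) := h.le (by omega)
  have h5 := h.per k
  have e1 : k + 1 + 1 = k + 2 := rfl
  rw [e1] at h2
  refine ⟨by linarith, by linarith, ?_⟩
  intro hc
  have := eq_of_gam hN (sub_eq_zero.1 hc) (by linarith) (by linarith)
  linarith

end strict

variable (hM : Smo N)
include hM

/-- DETERMINISM: two maximal polygons with two common consecutive corners agree afterwards. -/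
theorem det {n n' : ℕ} (hn : 3 ≤ n) (hn' : 3 ≤ n') (hlt : sm N n < sm N (n + 1))
    (hlt' : sm N n' < sm N (n' + 1)) {x y : ℕ → ℝ} (hx : Cyc (n + 1) x) (hy : Cyc (n' + 1) y)
    (hxA : AA N (n + 1) x / 2 = sm N (n + 1)) (hyA : AA N (n' + 1) y / 2 = sm N (n' + 1))
    {i j : ℕ} (h0 : x i = y j) (h1 : x (i + 1) = y (j + 1)) : x (i + 2) = y (j + 2) := by
  obtain ⟨x1, x2, x3⟩ := mx_ne hN (by omega) hlt hx hxA i
  obtain ⟨y1, y2, y3⟩ := mx_ne hN (by omega) hlt' hy hyA j
  obtain ⟨px1, px3⟩ := mx_four hN (by omega) hlt hx hxA hn i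
  obtain ⟨py1, py3⟩ := mx_four hN (by omega) hlt' hy hyA hn' j
  have sx : Sup N (gam N (x (i + 1))) (gam N (x (i + 2)) - gam N (x i)) :=
    ⟨x3, fun z hz => foc hN (by omega) hx hxA i hz⟩
  have sy : Sup N (gam N (x (i + 1))) (gam N (y (j + 2)) - gam N (y j)) := by
    rw [h1]
    exact ⟨y3, fun z hz => foc hN (by omega) hy hyA j hz⟩
  obtain ⟨c, hc, hcw⟩ := hM _ _ _ (N_gam hN _) sx sy
  rw [← h0] at hcw y1 y2 y3 py1 py3
  set a := gam N (x i) with ha
  set p := gam N (x (i + 2)) with hp
  set q := gam N (y (j + 2)) with hq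
  have hNa : N a = 1 := N_gam hN _
  have hNp : N p = 1 := N_gam hN _
  have hNq : N q = 1 := N_gam hN _
  have hpq : p = q := by
    rcases lt_trichotomy c 1 with h | h | h
    · exfalso
      have := three hN hNa.le hNp.le (N_gam hN (x (i + 3))).le (N_gam hN (x (i + 1))).le px3 px1
        hc h
      have e : a + c • (p - a) = q := by rw [← hcw]; abel
      rw [e, hNq] at this
      exact lt_irrefl _ this
    · rw [h, one_smul] at hcw
      have : q = p := by
        have := congrArg (fun v => v + a) hcw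
        simpa using this
      exact this.symm
    · exfalso
      have := three hN hNa.le hNq.le (N_gam hN (y (j + 3))).le (N_gam hN (y (j + 1))).le py3 py1
        (t := c⁻¹) (by positivity) (inv_lt_one_of_one_lt₀ h)
      have e : a + c⁻¹ • (q - a) = p := by
        rw [hcw, smul_smul, inv_mul_cancel₀ hc.ne', one_smul]; abel
      rw [e, hNp] at this
      exact lt_irrefl _ this
  exact eq_of_gam hN hpq (by linarith) (by linarith)

theorem det_all {n n' : ℕ} (hn : 3 ≤ n) (hn' : 3 ≤ n') (hlt : sm N n < sm N (n + 1))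
    (hlt' : sm N n' < sm N (n' + 1)) {x y : ℕ → ℝ} (hx : Cyc (n + 1) x) (hy : Cyc (n' + 1) y)
    (hxA : AA N (n + 1) x / 2 = sm N (n + 1)) (hyA : AA N (n' + 1) y / 2 = sm N (n' + 1))
    {i j : ℕ} (h0 : x i = y j) (h1 : x (i + 1) = y (j + 1)) (l : ℕ) :
    x (i + l) = y (j + l) ∧ x (i + l + 1) = y (j + l + 1) := by
  induction l with
  | zero => exact ⟨h0, h1⟩
  | succ l ih =>
    refine ⟨ih.2, ?_⟩
    exact det hN hM hn hn' hlt hlt' hx hy hxA hyA ih.1 ih.2

/-- the maximal area increases strictly with the number of corners -/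
theorem sm_lt {m : ℕ} (hm : 2 ≤ m) : sm N m < sm N (m + 1) := by
  have hpi := Real.pi_pos
  by_contra hcon
  push Not at hcon
  obtain ⟨⟨x0, hx0, hxA0⟩, -⟩ := sm_spec hN hm
  obtain ⟨-, hle1⟩ := sm_spec hN (show 2 ≤ m + 1 by omega)
  -- a proper arc, shifted to the start
  obtain ⟨k, hk⟩ : ∃ k, x0 k < x0 (k + 1) := by
    by_contra hcon
    push Not at hcon
    have hle : ∀ j, x0 j ≤ x0 0 := by
      intro j
      induction j with
      | zero => exact le_rfl
      | succ j ih => exact (hcon j).trans ih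
    have h1 := hx0.per 0
    have h2 := hle (0 + m)
    linarith
  have hx := hx0.shift k
  have hxA : AA N m (fun j => x0 (j + k)) / 2 = sm N m := by
    rw [AA_shift hN hx0 k]; exact hxA0
  set x : ℕ → ℝ := fun j => x0 (j + k) with hxdef
  have h01 : x 0 < x 1 := by
    show x0 (0 + k) < x0 (1 + k)
    rw [zero_add, add_comm 1 k]; exact hk
  -- insertion does not increase the area
  have hins : ∀ j t, x j ≤ t → t ≤ x (j + 1) →
      FF N (x j) t + FF N t (x (j + 1)) ≤ FF N (x j) (x (j + 1)) := by
    intro j t ht0 ht1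
    have hxs := hx.shift j
    obtain ⟨u, hu, huA, hu0, hu1, hus⟩ := pad (N := N) hxs
    have e2 : u 2 = x (1 + j) := hus 1 (by omega)
    have e0 : u 0 = x j := by rw [hu0]; simp
    have e1 : u 1 = x j := by rw [hu1]; simp
    have hk1 : x (1 + j) = x (j + 1) := by rw [add_comm]
    rw [hk1] at e2
    have harc := hx.arc j
    obtain ⟨v, hv, hvA⟩ := repl (N := N) (show 2 ≤ m + 1 by omega) hu (t := t)
      (by rw [e0]; linarith) (by rw [e2]; linarith) (by rw [e0]; linarith) (by rw [e2]; linarith)
    rw [huA, AA_shift hN hx j, e0, e1, e2, FF_self] at hvA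
    have h2 := hle1 v hv
    linarith
  -- every edge supports the body
  have hedge : ∀ j, ∀ y, N y ≤ 1 →
      0 ≤ cr (gam N (x (j + 1)) - gam N (x j)) (y - gam N (x j)) := by
    intro j y hy
    obtain ⟨t, ht, r, hr0, -, hyr⟩ := exists_polar y (x j)
    have hNt := uv_pos hN t
    have hyg : y = (r * N (uv t)) • gam N t := by
      rw [hyr]
      unfold gam
      rw [smul_smul]
      congr 1
      field_simp
    have hρ0 : 0 ≤ r * N (uv t) := by positivity
    have hρ1 : r * N (uv t) ≤ 1 := by
      rw [hyg, hN.smul, N_gam hN, abs_of_nonneg hρ0, mul_one] at hy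
      exact hy
    have hg : 0 ≤ cr (gam N (x (j + 1)) - gam N (x j)) (gam N t - gam N (x j)) := by
      rcases le_or_gt t (x (j + 1)) with h3 | h3
      · have h4 := hins j t ht.1 h3
        have e : cr (gam N (x (j + 1)) - gam N (x j)) (gam N t - gam N (x j)) =
            FF N (x j) (x (j + 1)) - FF N (x j) t - FF N t (x (j + 1)) := by
          unfold FF cr
          simp only [PiLp.sub_apply]
          ring
        rw [e]; linarith
      · exact orient_cr hN (hx.mono j) h3.le ht.2.le
    have hF := FF_nonneg hN (hx.mono j) (hx.arc j)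
    set ρ := r * N (uv t) with hρ
    rw [hyg]
    have e : cr (gam N (x (j + 1)) - gam N (x j)) (ρ • gam N t - gam N (x j)) =
        (1 - ρ) * FF N (x j) (x (j + 1)) +
        ρ * cr (gam N (x (j + 1)) - gam N (x j)) (gam N t - gam N (x j)) := by
      unfold FF cr
      simp only [PiLp.sub_apply, PiLp.smul_apply, smul_eq_mul]
      ring
    rw [e]
    have : 0 ≤ 1 - ρ := by linarith
    positivity
  set w := gam N (x 1) - gam N (x 0) with hw
  have hw0 : w ≠ 0 := by
    intro hc
    have h1 := hx.arc 0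
    rw [zero_add] at h1
    have := eq_of_gam hN (sub_eq_zero.1 hc) (by linarith) (by linarith)
    linarith
  -- all edges are multiples of the first one
  have hind : ∀ j, ∃ C : ℝ, 1 ≤ C ∧ gam N (x (j + 1)) - gam N (x 0) = C • w ∧
      Sup N (gam N (x (j + 1))) w := by
    intro j
    induction j with
    | zero =>
      refine ⟨1, le_rfl, by rw [one_smul, zero_add], hw0, ?_⟩
      intro y hy
      have h1 := hedge 0 y hy
      rw [zero_add] at h1 ⊢
      rw [← hw] at h1
      have e : cr w (y - gam N (x 1)) = cr w (y - gam N (x 0)) := by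
        rw [hw]; unfold cr; simp only [PiLp.sub_apply]; ring
      rw [e]; exact h1
    | succ j ih =>
      obtain ⟨C, hC, hCw, hS⟩ := ih
      by_cases hz : gam N (x (j + 1 + 1)) - gam N (x (j + 1)) = 0
      · have : gam N (x (j + 1 + 1)) = gam N (x (j + 1)) := sub_eq_zero.1 hz
        rw [this]
        exact ⟨C, hC, hCw, hS⟩
      · obtain ⟨c, hc, hcw⟩ := hM _ _ _ (N_gam hN _) hS ⟨hz, fun y hy => hedge (j + 1) y hy⟩
        refine ⟨C + c, by linarith, ?_, hw0, ?_⟩
        · have : gam N (x (j + 1 + 1)) - gam N (x 0) =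
            (gam N (x (j + 1)) - gam N (x 0)) +
              (gam N (x (j + 1 + 1)) - gam N (x (j + 1))) := by abel
          rw [this, hCw, hcw, add_smul]
        · intro y hy
          have h1 := hedge (j + 1) y hy
          have e1 : cr w (y - gam N (x (j + 1 + 1))) = cr w (y - gam N (x (j + 1))) := by
            have : gam N (x (j + 1 + 1)) = gam N (x (j + 1)) + c • w := by rw [← hcw]; abel
            rw [this]
            unfold cr
            simp only [PiLp.sub_apply, PiLp.add_apply, PiLp.smul_apply, smul_eq_mul]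
            ring
          rw [e1]
          exact hS.2 y hy
  obtain ⟨n, rfl⟩ : ∃ n, m = n + 1 := ⟨m - 1, by omega⟩
  obtain ⟨C, hC, hCw, -⟩ := hind n
  have hper := hx.per 0
  rw [zero_add] at hper
  rw [hper, gam_add_two_pi hN, sub_self] at hCw
  rcases smul_eq_zero.1 hCw.symm with h | h
  · linarith
  · exact hw0 h

/-- STRICT DOWKER INEQUALITY for smooth bodies. -/
theorem dowker_lt {n : ℕ} (hn : 3 ≤ n) : sm N n + sm N (n + 2) < 2 * sm N (n + 1) := by
  by_contra hcon
  push Not at hcon
  obtain ⟨⟨x, hx, hxA⟩, -⟩ := sm_spec hN (show 2 ≤ n by omega)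
  obtain ⟨⟨y, hy, hyA⟩, -⟩ := sm_spec hN (show 2 ≤ n + 2 by omega)
  obtain ⟨-, hle⟩ := sm_spec hN (show 2 ≤ n + 1 by omega)
  obtain ⟨P, Q, hP, hQ, hA, k, c, -, j, l, hsh⟩ := exchange hN hx hy
  have h1 := hle P hP
  have h2 := hle Q hQ
  have hPA : AA N (n + 1) P / 2 = sm N (n + 1) := by linarith
  have hQA : AA N (n + 1) Q / 2 = sm N (n + 1) := by linarith
  have hy' : Cyc (n + 2) (fun j => y (j + k) + 2 * π * c) := (hy.shift k).add _
  have hyA' : AA N (n + 2) (fun j => y (j + k) + 2 * π * c) / 2 = sm N (n + 2) := by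
    have e1 : AA N (n + 2) (fun j => y (j + k) + 2 * π * c) = AA N (n + 2) y := by
      rw [← AA_shift hN hy k]
      exact AA_add hN (u := fun j => y (j + k)) c
    rw [e1, hyA]
  set y' : ℕ → ℝ := fun j => y (j + k) + 2 * π * c with hy'def
  have hlt1 : sm N n < sm N (n + 1) := sm_lt hN hM (by omega)
  have hlt2 : sm N (n + 1) < sm N (n + 1 + 1) := sm_lt hN hM (by omega)
  have key : ∀ R, Cyc (n + 1) R → AA N (n + 1) R / 2 = sm N (n + 1) → R l = y' j →
      R (l + 1) = y' (j + 1) → False := by
    intro R hR hRA h0 h1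
    have h3 := (det_all hN hM (show 3 ≤ n by omega) (show 3 ≤ n + 1 by omega) hlt1 hlt2 hR hy' hRA
      hyA' h0 h1 (n + 1)).1
    have h4 := hR.per l
    have h5 := hy'.per j
    have h6 := mx_lt hN (show 2 ≤ n + 1 by omega) hlt2 hy' hyA' (j + (n + 1))
    have e : j + (n + 1) + 1 = j + (n + 2) := by ring
    rw [e, h5, ← h3, h4, h0] at h6
    exact lt_irrefl _ h6
  rcases hsh with ⟨a, b⟩ | ⟨a, b⟩
  · exact key P hP hPA a b
  · exact key Q hQ hQA a b

/-- CENTRAL SYMMETRY of the maximal hexagons of a smooth body, aligned form. -/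
theorem max_symm_aux {u : ℕ → ℝ} (hu : Cyc 6 u) (huA : AA N 6 u / 2 = sm N 6)
    (h0 : u 0 + π ≤ u 3) (h1 : u 4 ≤ u 1 + π) (k : ℕ) : u (k + 4) = u (k + 1) + π := by
  have hpi := Real.pi_pos
  have hper := hu.per 0
  rw [zero_add] at hper
  have m0 := hu.mono 0
  have m1 := hu.mono 1
  have m2 := hu.mono 2
  have m3 := hu.mono 3
  have m4 := hu.mono 4
  have m5 := hu.mono 5
  have a0 := hu.arc 0
  have a1 := hu.arc 1
  have a2 := hu.arc 2
  have a4 := hu.arc 4
  have a5 := hu.arc 5
  norm_num at m0 m1 m2 m3 m4 m5 a0 a1 a2 a4 a5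
  -- the two symmetric hexagons
  let P : ℕ → ℝ := fun j => match j with
    | 0 => u 1
    | 1 => u 2
    | 2 => u 3
    | 3 => u 1 + π
    | 4 => u 2 + π
    | 5 => u 3 + π
    | _ => u 1 + 2 * π
  let Q : ℕ → ℝ := fun j => match j with
    | 0 => u 4
    | 1 => u 5
    | 2 => u 6
    | 3 => u 4 + π
    | 4 => u 5 + π
    | 5 => u 6 + π
    | _ => u 4 + 2 * π
  obtain ⟨x, hx, hxP, hxA⟩ := exists_ext' (N := N) (m := 6) (by norm_num) (p := P)
    (fun j hj => by interval_cases j <;> simp only [P] <;> linarith)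
    (fun j hj => by interval_cases j <;> simp only [P] <;> linarith)
    (by simp only [P])
  obtain ⟨y, hy, hyQ, hyA⟩ := exists_ext' (N := N) (m := 6) (by norm_num) (p := Q)
    (fun j hj => by interval_cases j <;> simp only [Q] <;> linarith)
    (fun j hj => by interval_cases j <;> simp only [Q] <;> linarith)
    (by simp only [Q])
  have hxA' : AA N 6 x = 2 * (FF N (u 1) (u 2) + FF N (u 2) (u 3) + FF N (u 3) (u 1 + π)) := by
    rw [hxA]
    simp only [Finset.sum_range_succ, Finset.sum_range_zero, P]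
    norm_num
    rw [FF_pi_pi hN, FF_pi_pi hN]
    have e : u 1 + 2 * π = (u 1 + π) + π := by ring
    rw [e, FF_pi_pi hN]
    ring
  have hyA' : AA N 6 y = 2 * (FF N (u 4) (u 5) + FF N (u 5) (u 6) + FF N (u 6) (u 4 + π)) := by
    rw [hyA]
    simp only [Finset.sum_range_succ, Finset.sum_range_zero, Q]
    norm_num
    rw [FF_pi_pi hN, FF_pi_pi hN]
    have e : u 4 + 2 * π = (u 4 + π) + π := by ring
    rw [e, FF_pi_pi hN]
    ring
  have huA' : AA N 6 u = FF N (u 0) (u 1) + FF N (u 1) (u 2) + FF N (u 2) (u 3) +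
      FF N (u 3) (u 4) + FF N (u 4) (u 5) + FF N (u 5) (u 6) := by
    unfold AA
    simp only [Finset.sum_range_succ, Finset.sum_range_zero]
    norm_num
  have hmonge := monge hN (u := u 0) (v := u 3 - π) (w := u 4 - π) (z := u 1) (by linarith)
    (by linarith) (by linarith) a0
  have f1 : FF N (u 3 - π) (u 4 - π) = FF N (u 3) (u 4) := by
    rw [← FF_pi_pi hN]; simp
  have f2 : FF N (u 3 - π) (u 1) = FF N (u 3) (u 1 + π) := by
    rw [← FF_pi_pi hN]; simp
  have f3 : FF N (u 0) (u 4 - π) = FF N (u 6) (u 4 + π) := by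
    rw [hper, ← FF_both hN]
    congr 1
    ring
  rw [f1, f2, f3] at hmonge
  obtain ⟨-, hle⟩ := sm_spec hN (show 2 ≤ 6 by norm_num)
  have i1 := hle x hx
  have i2 := hle y hy
  have hxm : AA N 6 x / 2 = sm N 6 := by linarith
  have hlt : sm N 5 < sm N (5 + 1) := sm_lt hN hM (by norm_num)
  have x0 : x 0 = u 1 := hxP 0 (by norm_num)
  have x1 : x 1 = u 2 := hxP 1 (by norm_num)
  have x2 : x 2 = u 3 := hxP 2 (by norm_num)
  have x3 : x 3 = u 1 + π := hxP 3 (by norm_num)
  have x4 : x 4 = u 2 + π := hxP 4 (by norm_num)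
  have x5 : x 5 = u 3 + π := hxP 5 (by norm_num)
  have hall := fun l => (det_all hN hM (show 3 ≤ 5 by norm_num) (show 3 ≤ 5 by norm_num) hlt hlt
    hx hu hxm huA (i := 0) (j := 1) x0 x1 l).1
  have hx3 : ∀ j, x (j + 3) = x j + π := by
    have hdec : ∀ j, x (j + 3) = x j + π ∧ x (j + 1 + 3) = x (j + 1) + π ∧
        x (j + 2 + 3) = x (j + 2) + π := by
      intro j
      induction j with
      | zero =>
        refine ⟨?_, ?_, ?_⟩
        · show x 3 = x 0 + π
          rw [x0, x3]
        · show x 4 = x 1 + π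
          rw [x1, x4]
        · show x 5 = x 2 + π
          rw [x2, x5]
      | succ j ih =>
        obtain ⟨i1, i2, i3⟩ := ih
        refine ⟨i2, i3, ?_⟩
        have e1 : j + 1 + 2 + 3 = j + 6 := by ring
        have e2 : j + 1 + 2 = j + 3 := by ring
        rw [e1, e2, hx.per, i1]
        ring
    exact fun j => (hdec j).1
  have e1 := hall k
  have e2 := hall (k + 3)
  have e3 : 0 + (k + 3) = (0 + k) + 3 := by ring
  have e4 : 1 + (k + 3) = k + 4 := by ring
  have e5 : 1 + k = k + 1 := by ring
  rw [e3, hx3, e1, e4, e5] at e2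
  exact e2.symm

/-- CENTRAL SYMMETRY of the maximal hexagons of a smooth body. -/
theorem max_symm {u : ℕ → ℝ} (hu : Cyc 6 u) (huA : AA N 6 u / 2 = sm N 6) (k : ℕ) :
    u (k + 3) = u k + π := by
  -- a sign change
  obtain ⟨i, hi1, hi2⟩ : ∃ i, u i + π ≤ u (i + 3) ∧ u (i + 4) ≤ u (i + 1) + π := by
    by_contra hcon
    push Not at hcon
    have hstep : ∀ i, u i + π ≤ u (i + 3) → u (i + 1) + π < u (i + 4) := hcon
    have hgo : ∀ i, u i + π ≤ u (i + 3) → False := by
      intro i hi
      have h1 := hstep i hi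
      have h2 := hstep (i + 1) h1.le
      have h3 := hstep (i + 2) h2.le
      have e1 : u (i + 2 + 4) = u i + 2 * π := hu.per i
      have e2 : u (i + 2 + 1) = u (i + 3) := rfl
      rw [e1, e2] at h3
      linarith
    have h0 : u 3 < u 0 + π := by
      by_contra hc
      push Not at hc
      exact hgo 0 (by rw [zero_add]; exact hc)
    apply hgo 3
    have e1 : u (3 + 3) = u 0 + 2 * π := hu.per 0
    rw [e1]
    linarith
  have hs := hu.shift i
  have hsA : AA N 6 (fun j => u (j + i)) / 2 = sm N 6 := by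
    rw [AA_shift hN hu i]; exact huA
  have haux := max_symm_aux hN hM hs hsA
    (by
      show u (0 + i) + π ≤ u (3 + i)
      rw [zero_add, add_comm 3 i]; exact hi1)
    (by
      show u (4 + i) ≤ u (1 + i) + π
      rw [add_comm 4 i, add_comm 1 i]; exact hi2)
  -- transfer to the index k
  have h1 := haux (k + 5 * i + 5)
  have hper : ∀ a n, u (a + 6 * n) = u a + 2 * π * n := by
    intro a n
    induction n with
    | zero => simp
    | succ n ih =>
      have e : a + 6 * (n + 1) = a + 6 * n + 6 := by ring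
      rw [e, hu.per, ih]
      push_cast; ring
  have h2 : u (k + 5 * i + 5 + 4 + i) = u (k + 5 * i + 5 + 1 + i) + π := h1
  have e1 : k + 5 * i + 5 + 4 + i = (k + 3) + 6 * (i + 1) := by ring
  have e2 : k + 5 * i + 5 + 1 + i = k + 6 * (i + 1) := by ring
  rw [e1, e2, hper, hper] at h2
  linarith

end norm

end C2305bH52.C1
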