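import Pool.Agent.W_c2305b_h52.C1a

/-!
# All smooth bodies, part 2: maximal convex sextuples of a symmetric body with `t5 < t6`;
gap and central symmetry for all smooth bodies.
-/

open MeasureTheory Set Real Filter Topology

namespace C2305bH52.C1

open C2305b.TL (V cr)
open C2305b.Rig (Conv6 ar6 LeMax UniqHex edge)
open C2305bH52.Dow
open C2305bH68.Ord (Corners)

section body

variable {K0 : Set V} (hsym : ∀ v ∈ K0, -v ∈ K0) (hK : IsCompact K0)
  (hconv : Convex ℝ K0) (hint : (interior K0).Nonempty)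
  (h56 : sm (gauge K0) 5 < sm (gauge K0) 6)

include hsym hK hconv hint h56

/-- FIRST ORDER CONDITION at the corners of a maximal convex sextuple -/
theorem q_foc {q : Fin 6 → V} (hq : Conv6 q) (hqK : ∀ k, q k ∈ K0)
    (hqA : ar6 q = sm (gauge K0) 6) (k : Fin 6) {y : V} (hy : y ∈ K0) :
    0 ≤ C2305b.Rig.cr (q (k + 1) - q (k - 1)) (y - q k) := by
  classical
  by_contra hcon
  push Not at hcon
  set w := q (k - 1) - q (k + 1) with hw
  set v := y - q k with hvdef
  have hv : 0 < C2305b.Rig.cr w v := by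
    have e : C2305b.Rig.cr w v = -C2305b.Rig.cr (q (k + 1) - q (k - 1)) v := by
      rw [hw]; unfold C2305b.Rig.cr; simp only [PiLp.sub_apply]; ring
    rw [e]; linarith
  let Q : ℝ → Fin 6 → V := fun ε j => if j = k then q k + ε • v else q j
  have hQ0 : ∀ j, Q 0 j = q j := by
    intro j
    simp only [Q]
    split_ifs with h
    · rw [h, zero_smul, add_zero]
    · rfl
  have hQc : ∀ j, Continuous fun ε => Q ε j := by
    intro j
    simp only [Q]
    split_ifs
    · fun_prop
    · fun_prop
  have hcr : ∀ᶠ ε in 𝓝 (0 : ℝ), ∀ a b c : Fin 6, a < b → b < c →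
      0 < C2305b.Rig.cr (Q ε b - Q ε a) (Q ε c - Q ε a) := by
    rw [eventually_all]
    intro a
    rw [eventually_all]
    intro b
    rw [eventually_all]
    intro c
    by_cases hab : a < b
    · by_cases hbc : b < c
      · have hc : Continuous fun ε => C2305b.Rig.cr (Q ε b - Q ε a) (Q ε c - Q ε a) := by
          have e : ∀ i : Fin 2, Continuous fun v : V => v i := fun i => by fun_prop
          unfold C2305b.Rig.cr
          exact (((e 0).comp ((hQc b).sub (hQc a))).mul ((e 1).comp ((hQc c).sub (hQc a)))).sub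
            (((e 1).comp ((hQc b).sub (hQc a))).mul ((e 0).comp ((hQc c).sub (hQc a))))
        have h1 := hc.tendsto 0
        simp only [hQ0] at h1
        have h2 := h1.eventually_const_lt (q_cr_pos hsym hK hconv hint h56 hq hqK hqA hab hbc)
        filter_upwards [h2] with ε hε _ _
        exact hε
      · exact Eventually.of_forall fun ε _ h => absurd h hbc
    · exact Eventually.of_forall fun ε h => absurd h hab
  have hone : ∀ᶠ ε in 𝓝 (0 : ℝ), ε < 1 := eventually_lt_nhds (by norm_num)
  obtain ⟨ε, ⟨h1, h2⟩, h3⟩ := (((hone.and hcr).filter_mono nhdsWithin_le_nhds).and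
    (self_mem_nhdsWithin : Ioi (0 : ℝ) ∈ 𝓝[>] 0)).exists
  have h3' : 0 < ε := h3
  have hQconv : Conv6 (Q ε) := fun a b c hab hbc => (h2 a b c hab hbc).le
  have hQK : ∀ j, Q ε j ∈ K0 := by
    intro j
    by_cases hj : j = k
    · have e : Q ε j = (1 - ε) • q k + ε • y := by
        simp only [Q, if_pos hj, hvdef]; module
      rw [e]
      exact hconv (hqK k) hy (by linarith) h3'.le (by ring)
    · have : Q ε j = q j := by simp only [Q, if_neg hj]
      rw [this]; exact hqK j
  have h4 := ar6_le_sm hsym hK hconv hint hQconv hQK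
  have h5 : ar6 (Q ε) = ar6 q + ε * C2305b.Rig.cr w v / 2 := by
    have e0 : (0 : Fin 6) + 1 = 1 := by decide
    have e1 : (1 : Fin 6) + 1 = 2 := by decide
    have e2 : (2 : Fin 6) + 1 = 3 := by decide
    have e3 : (3 : Fin 6) + 1 = 4 := by decide
    have e4 : (4 : Fin 6) + 1 = 5 := by decide
    have e5 : (5 : Fin 6) + 1 = 0 := by decide
    have hQk : Q ε k = q k + ε • v := by simp only [Q, if_pos]
    have hQj : ∀ j, j ≠ k → Q ε j = q j := fun j hj => by simp only [Q, if_neg hj]
    clear_value Q v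
    unfold ar6
    rw [Fin.sum_univ_six, Fin.sum_univ_six, e0, e1, e2, e3, e4, e5, hw]
    fin_cases k
    · rw [hQj 1 (by decide), hQj 2 (by decide), hQj 3 (by decide), hQj 4 (by decide),
        hQj 5 (by decide)]
      have : Q ε 0 = q 0 + ε • v := hQk
      have m : (0 : Fin 6) - 1 = 5 := by decide
      simp only [Fin.zero_eta]
      rw [this, m, e0]
      simp only [C2305b.Rig.cr, PiLp.sub_apply, PiLp.add_apply, PiLp.smul_apply, smul_eq_mul]
      ring
    · rw [hQj 0 (by decide), hQj 2 (by decide), hQj 3 (by decide), hQj 4 (by decide),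
        hQj 5 (by decide)]
      have : Q ε 1 = q 1 + ε • v := hQk
      have m : (1 : Fin 6) - 1 = 0 := by decide
      simp only [Fin.mk_one]
      rw [this, m, e1]
      simp only [C2305b.Rig.cr, PiLp.sub_apply, PiLp.add_apply, PiLp.smul_apply, smul_eq_mul]
      ring
    · rw [hQj 0 (by decide), hQj 1 (by decide), hQj 3 (by decide), hQj 4 (by decide),
        hQj 5 (by decide)]
      have : Q ε 2 = q 2 + ε • v := hQk
      have m : (2 : Fin 6) - 1 = 1 := by decide
      simp only [Fin.reduceFinMk]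
      rw [this, m, e2]
      simp only [C2305b.Rig.cr, PiLp.sub_apply, PiLp.add_apply, PiLp.smul_apply, smul_eq_mul]
      ring
    · rw [hQj 0 (by decide), hQj 1 (by decide), hQj 2 (by decide), hQj 4 (by decide),
        hQj 5 (by decide)]
      have : Q ε 3 = q 3 + ε • v := hQk
      have m : (3 : Fin 6) - 1 = 2 := by decide
      simp only [Fin.reduceFinMk]
      rw [this, m, e3]
      simp only [C2305b.Rig.cr, PiLp.sub_apply, PiLp.add_apply, PiLp.smul_apply, smul_eq_mul]
      ring
    · rw [hQj 0 (by decide), hQj 1 (by decide), hQj 2 (by decide), hQj 3 (by decide),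
        hQj 5 (by decide)]
      have : Q ε 4 = q 4 + ε • v := hQk
      have m : (4 : Fin 6) - 1 = 3 := by decide
      simp only [Fin.reduceFinMk]
      rw [this, m, e4]
      simp only [C2305b.Rig.cr, PiLp.sub_apply, PiLp.add_apply, PiLp.smul_apply, smul_eq_mul]
      ring
    · rw [hQj 0 (by decide), hQj 1 (by decide), hQj 2 (by decide), hQj 3 (by decide),
        hQj 4 (by decide)]
      have : Q ε 5 = q 5 + ε • v := hQk
      have m : (5 : Fin 6) - 1 = 4 := by decide
      simp only [Fin.reduceFinMk]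
      rw [this, m, e5]
      simp only [C2305b.Rig.cr, PiLp.sub_apply, PiLp.add_apply, PiLp.smul_apply, smul_eq_mul]
      ring
  have h6 : 0 < ε * C2305b.Rig.cr w v / 2 := by positivity
  linarith

/-- a maximal convex sextuple cannot be translated inside the body -/
theorem q_rigid {q : Fin 6 → V} (hq : Conv6 q) (hqK : ∀ k, q k ∈ K0)
    (hqA : ar6 q = sm (gauge K0) 6) {s : V} (hs : ∀ k, q k - s ∈ K0) : s = 0 := by
  by_contra h0
  have hcr : ∀ i j k : Fin 6, C2305b.Rig.cr ((q j - s) - (q i - s)) ((q k - s) - (q i - s)) =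
      C2305b.Rig.cr (q j - q i) (q k - q i) := by
    intro i j k
    rw [sub_sub_sub_cancel_right, sub_sub_sub_cancel_right]
  have hq' : Conv6 (fun k => q k - s) := fun i j k hij hjk => by
    rw [hcr]; exact hq i j k hij hjk
  have hqA' : ar6 (fun k => q k - s) = sm (gauge K0) 6 := by
    rw [C2305b.Rig.O74.ar6_congr hcr, hqA]
  have hz : ∀ k, C2305b.Rig.cr (q (k + 1) - q (k - 1)) s = 0 := by
    intro k
    have h1 := q_foc hsym hK hconv hint h56 hq hqK hqA k (hs k)
    have h2 := q_foc hsym hK hconv hint h56 hq' hs hqA' k (hqK k)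
    have e1 : C2305b.Rig.cr (q (k + 1) - q (k - 1)) (q k - s - q k) =
        -C2305b.Rig.cr (q (k + 1) - q (k - 1)) s := by
      have : q k - s - q k = -s := by abel
      rw [this, C2305b.Rig.O74.cr_neg_right]
    have e2 : C2305b.Rig.cr ((q (k + 1) - s) - (q (k - 1) - s)) (q k - (q k - s)) =
        C2305b.Rig.cr (q (k + 1) - q (k - 1)) s := by
      rw [sub_sub_sub_cancel_right]
      congr 1
      abel
    rw [e1] at h1
    have h2' : 0 ≤ C2305b.Rig.cr ((q (k + 1) - s) - (q (k - 1) - s)) (q k - (q k - s)) := h2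
    rw [e2] at h2'
    linarith
  have z1 := hz 1
  have z3 := hz 3
  have m1 : (1 : Fin 6) + 1 = 2 := by decide
  have m2 : (1 : Fin 6) - 1 = 0 := by decide
  have m3 : (3 : Fin 6) + 1 = 4 := by decide
  have m4 : (3 : Fin 6) - 1 = 2 := by decide
  rw [m1, m2, C2305b.Rig.O74.cr_anti, neg_eq_zero] at z1
  rw [m3, m4, C2305b.Rig.O74.cr_anti, neg_eq_zero] at z3
  obtain ⟨α, hα⟩ := C2305b.Rig.O74.exists_smul_of_cr_zero h0 z1
  obtain ⟨β, hβ⟩ := C2305b.Rig.O74.exists_smul_of_cr_zero h0 z3
  have hne := q_cr_ne hsym hK hconv hint h56 hq hqK hqA (i := 0) (j := 2) (k := 4)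
    (by decide) (by decide) (by decide)
  apply hne
  have e : q 4 - q 0 = (q 2 - q 0) + (q 4 - q 2) := by abel
  rw [e, hα, hβ, ← add_smul, C2305b.Rig.O74.cr_smul_left, C2305b.Rig.O74.cr_smul_right,
    C2305b.Rig.O74.cr_self]
  ring

/-- the centre is in the hull of a maximal convex sextuple -/
theorem q_centre {q : Fin 6 → V} (hq : Conv6 q) (hqK : ∀ k, q k ∈ K0)
    (hqA : ar6 q = sm (gauge K0) 6) : (0 : V) ∈ convexHull ℝ (range q) := by
  classical
  have hN := nrm_gauge hK hconv hsym hint
  obtain ⟨s0, hs0, hs1⟩ := exists_centre hN (S := Finset.univ.image q)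
    ⟨q 0, Finset.mem_image_of_mem _ (Finset.mem_univ _)⟩ (by
      intro s hs
      obtain ⟨k, -, rfl⟩ := Finset.mem_image.1 hs
      exact (gauge_le_one hK hconv hsym hint _).2 (hqK k))
  rw [Finset.coe_image, Finset.coe_univ, image_univ] at hs0
  have h0 : s0 = 0 := q_rigid hsym hK hconv hint h56 hq hqK hqA fun k =>
    (gauge_le_one hK hconv hsym hint _).1 (hs1 _ (Finset.mem_image_of_mem _ (Finset.mem_univ _)))
  rw [h0] at hs0
  exact hs0

/-- MAXIMAL CONVEX SEXTUPLES ARE CYCLIC: they are given by a maximal cyclic sequence of angles. -/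
theorem q_cyc {q : Fin 6 → V} (hq : Conv6 q) (hqK : ∀ k, q k ∈ K0)
    (hqA : ar6 q = sm (gauge K0) 6) : ∃ u, Cyc 6 u ∧ AA (gauge K0) 6 u / 2 = sm (gauge K0) 6 ∧
      ∃ m : Fin 6, ∀ k : Fin 6, gam (gauge K0) (u k) = q (k + m) := by
  classical
  have hN := nrm_gauge hK hconv hsym hint
  have hinj := q_inj hsym hK hconv hint h56 hq hqK hqA
  have h0 := q_centre hsym hK hconv hint h56 hq hqK hqA
  have hcard : (Finset.univ.image q).card ≤ 6 := by
    refine Finset.card_image_le.trans ?_
    simp
  have hcoe : ((Finset.univ.image q : Finset V) : Set V) = range q := by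
    rw [Finset.coe_image, Finset.coe_univ, image_univ]
  obtain ⟨u, hu, huv, hrad⟩ := area_le_cyc0 hN (show 2 ≤ 6 by norm_num)
    (S := Finset.univ.image q) (by
      intro s hs
      obtain ⟨k, -, rfl⟩ := Finset.mem_image.1 hs
      exact (gauge_le_one hK hconv hsym hint _).2 (hqK k)) (by rw [hcoe]; exact h0) hcard
  rw [hcoe] at huv hrad
  have huA : AA (gauge K0) 6 u / 2 = sm (gauge K0) 6 := by
    apply le_antisymm ((sm_spec hN (show 2 ≤ 6 by norm_num)).2 u hu)
    rw [← hqA]
    exact (ar6_le_volume hq).trans huv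
  have hcor : ∀ i : Fin 6, ∃ j : Fin 6, gam (gauge K0) (u j) = q i := by
    intro i
    obtain ⟨j, hj, ρ, hρ0, -, hρ⟩ := hrad (q i) (mem_range_self i)
    have h1 := q_bdry hsym hK hconv hint h56 hq hqK hqA i
    rw [hρ, hN.smul, N_gam hN, mul_one, abs_of_nonneg hρ0] at h1
    refine ⟨⟨j, hj⟩, ?_⟩
    rw [hρ, h1, one_smul]
  let p : Fin 6 → V := fun j => gam (gauge K0) (u j)
  have hrange : range p = range q := by
    have h2 : (Finset.univ.image q) ⊆ (Finset.univ.image p) := by
      intro x hx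
      obtain ⟨i, -, rfl⟩ := Finset.mem_image.1 hx
      obtain ⟨j, hj⟩ := hcor i
      exact Finset.mem_image.2 ⟨j, Finset.mem_univ _, hj⟩
    have h3 : (Finset.univ.image p).card ≤ (Finset.univ.image q).card := by
      rw [Finset.card_image_of_injective _ hinj]
      exact Finset.card_image_le
    have h4 := Finset.eq_of_subset_of_card_le h2 h3
    have h5 : ((Finset.univ.image p : Finset V) : Set V) = range p := by
      rw [Finset.coe_image, Finset.coe_univ, image_univ]
    rw [← h5, ← hcoe, h4]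
  obtain ⟨m, hm⟩ := C2305b.Nat73.shift_of_range hq (conv6_gam hN hu) hinj
    (fun i j k hij hik hjk => q_cr_ne hsym hK hconv hint h56 hq hqK hqA hij hik hjk) hrange
  exact ⟨u, hu, huA, m, hm⟩

omit h56 in
/-- CENTRAL SYMMETRY of all maximal convex sextuples of a smooth body. -/
theorem sym6 (hsm : SmoothBody K0) : C2305b.Rig.Sym6 K0 (sm (gauge K0) 6) := by
  intro q hq hqK hqA k
  have hN := nrm_gauge hK hconv hsym hint
  have hM := smo_gauge hsym hK hconv hint hsm
  have h56 : sm (gauge K0) 5 < sm (gauge K0) 6 := sm_lt hN hM (by norm_num)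
  obtain ⟨u, hu, huA, m, hm⟩ := q_cyc hsym hK hconv hint h56 hq hqK hqA
  have hps : ∀ k : Fin 6, q (k + 3 + m) = -q (k + m) := by
    have hs := max_symm hN hM hu huA
    have h0 : ∀ j, gam (gauge K0) (u (j + 3)) = -gam (gauge K0) (u j) := fun j => by
      rw [hs j, gam_add_pi hN]
    intro k
    rw [← hm, ← hm]
    fin_cases k
    · exact h0 0
    · exact h0 1
    · exact h0 2
    · show gam (gauge K0) (u 0) = -gam (gauge K0) (u 3)
      rw [h0 0, neg_neg]
    · show gam (gauge K0) (u 1) = -gam (gauge K0) (u 4)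
      rw [h0 1, neg_neg]
    · show gam (gauge K0) (u 2) = -gam (gauge K0) (u 5)
      rw [h0 2, neg_neg]
  have h1 := hps (k - m)
  have e1 : k - m + m = k := sub_add_cancel k m
  have e2 : k - m + 3 + m = k + 3 := by
    rw [add_right_comm, e1]
  rw [e1, e2] at h1
  exact h1

omit h56 in
/-- ALL SMOOTH SYMMETRIC CONVEX BODIES: gap and central symmetry. -/
theorem gap_of_C1 (hsm : SmoothBody K0) :
    (∃ τ g, W82.Gap K0 (sm (gauge K0) 6) τ g) ∧ C2305b.Rig.Sym6 K0 (sm (gauge K0) 6) ∧
      LeMax K0 (sm (gauge K0) 6) := by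
  have hN := nrm_gauge hK hconv hsym hint
  have hM := smo_gauge hsym hK hconv hint hsm
  refine ⟨gap_of_lt hsym hK hconv hint (dowker_lt hN hM (by norm_num)),
    sym6 hsym hK hconv hint hsm, ?_⟩
  intro q hq hqK
  exact ar6_le_sm hsym hK hconv hint hq hqK

end body

end C2305bH52.C1
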