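import Pool.Agent.W_c2305b_h52.C1b

/-!
# Consequences of the gap: `t5 < t6`, strictness of the corners of maximal sextuples
-/

open MeasureTheory Set Real Filter Topology

namespace C2305bH52.C1

open C2305b.TL (V cr)
open C2305b.Rig (Conv6 ar6 LeMax UniqHex edge StrictMax InBody)
open C2305bH52.Dow
open C2305bH68.Ord (Corners)

/-- a finite set contains the corners of its hull -/
theorem exists_corners (S : Finset V) : ∃ S' ⊆ S, Corners S' ∧
    convexHull ℝ (S' : Set V) = convexHull ℝ (S : Set V) := by
  classical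
  induction S using Finset.strongInduction with
  | H S ih =>
    by_cases h : Corners S
    · exact ⟨S, Finset.Subset.refl _, h, rfl⟩
    · unfold Corners at h
      push Not at h
      obtain ⟨p, hp, hpS⟩ := h
      obtain ⟨S', h1, h2, h3⟩ := ih (S.erase p) (Finset.erase_ssubset hp)
      refine ⟨S', h1.trans (Finset.erase_subset _ _), h2, ?_⟩
      rw [h3, Finset.coe_erase]
      refine Subset.antisymm (convexHull_mono diff_subset) (convexHull_min ?_ (convex_convexHull ℝ _))
      intro x hx
      by_cases hxp : x = p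
      · rw [hxp]; exact hpS
      · exact subset_convexHull ℝ _ ⟨hx, hxp⟩

/-- maximal convex sextuples are strictly convex if there is a gap (any body) -/
theorem cr_ne_of_gap {K0 : Set V} {T6 τ g : ℝ} (G : W82.Gap K0 T6 τ g) {q : Fin 6 → V}
    (hq : Conv6 q) (hqK : ∀ k, q k ∈ K0) (hqA : ar6 q = T6) {i j k : Fin 6} (hij : i ≠ j)
    (hik : i ≠ k) (hjk : j ≠ k) : C2305b.Rig.cr (q j - q i) (q k - q i) ≠ 0 := by
  classical
  obtain ⟨S, hS1, hS2, hS3⟩ := exists_corners (Finset.univ.image q)
  have hcoe : ((Finset.univ.image q : Finset V) : Set V) = range q := by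
    rw [Finset.coe_image, Finset.coe_univ, image_univ]
  rw [hcoe] at hS3
  have hSK : (S : Set V) ⊆ K0 := by
    intro s hs
    obtain ⟨k, -, rfl⟩ := Finset.mem_image.1 (hS1 hs)
    exact hqK k
  have hcard : 6 ≤ S.card := by
    by_contra hc
    push Not at hc
    have h1 := G.ne6 S hSK hS2 (by omega)
    rw [hS3] at h1
    have h2 : (S.card : ℝ) ≤ 5 := by exact_mod_cast (show S.card ≤ 5 by omega)
    have h3 := G.tau
    have h4 := G.pos
    have h5 := ar6_le_volume hq
    rw [hqA] at h5
    nlinarith
  have hle : (Finset.univ.image q).card ≤ 6 := by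
    refine Finset.card_image_le.trans ?_
    simp
  have heq : S = Finset.univ.image q := Finset.eq_of_subset_of_card_le hS1 (by omega)
  have hinj : Function.Injective q := by
    have h6 : (Finset.univ.image q).card = (Finset.univ : Finset (Fin 6)).card := by
      rw [Finset.card_univ, Fintype.card_fin]
      rw [heq] at hcard
      omega
    have := Finset.card_image_iff.1 h6
    rw [Finset.coe_univ] at this
    exact injOn_univ.1 this
  rw [heq] at hS2
  exact hS2.cr_ne (Finset.mem_image_of_mem _ (Finset.mem_univ _))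
    (Finset.mem_image_of_mem _ (Finset.mem_univ _)) (Finset.mem_image_of_mem _ (Finset.mem_univ _))
    (fun h => hij (hinj h)) (fun h => hik (hinj h)) (fun h => hjk (hinj h))

/-- strictness of the corner `0` of maximal sextuples in the local bodies, from the gap -/
theorem strictMax_of_gap {K0 : Set V} {T6 τ g : ℝ} (G : W82.Gap K0 T6 τ g) :
    StrictMax K0 T6 := by
  intro a b t q hab hq hin har
  have h1 := C2305b.Rig.O74.conv6_toK hab t hq
  have h2 := C2305b.Rig.O74.toK_mem hin
  have h3 : ar6 (C2305b.Rig.O74.toK a b t q) = T6 := by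
    rw [C2305b.Rig.O74.ar6_toK hab]; exact har
  have h4 := lt_of_le_of_ne (h1 0 1 5 (by decide) (by decide))
    (Ne.symm (cr_ne_of_gap G h1 h2 h3 (i := 0) (j := 1) (k := 5) (by decide) (by decide)
      (by decide)))
  cases t
  · rw [C2305b.Rig.O74.toK_false a b q 0 1 5 hab] at h4
    exact h4
  · rw [C2305b.Rig.O74.toK_true a b q 0 1 5 hab] at h4
    have e0 : -(0 : Fin 6) = 0 := by decide
    have e1 : -(1 : Fin 6) = 5 := by decide
    have e5 : -(5 : Fin 6) = 1 := by decide
    rw [e0, e1, e5, C2305b.Rig.O74.cr_anti, neg_neg] at h4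
    exact h4

section body

variable {K0 : Set V} (hsym : ∀ v ∈ K0, -v ∈ K0) (hK : IsCompact K0)
  (hconv : Convex ℝ K0) (hint : (interior K0).Nonempty)

include hsym hK hconv hint

/-- the gap gives `t5 < t6` -/
theorem lt56_of_gap {T τ g : ℝ} (hT : T ≤ sm (gauge K0) 6) (G : W82.Gap K0 T τ g) :
    sm (gauge K0) 5 < sm (gauge K0) 6 := by
  classical
  have hN := nrm_gauge hK hconv hsym hint
  obtain ⟨⟨x, hx, hxA⟩, -⟩ := sm_spec hN (show 2 ≤ 5 by norm_num)
  have hvol := AA_le_volume hN hx
  obtain ⟨S, hS1, hS2, hS3⟩ := exists_corners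
    (Finset.univ.image fun k : Fin 5 => gam (gauge K0) (x k))
  have hcoe : ((Finset.univ.image fun k : Fin 5 => gam (gauge K0) (x k) : Finset V) : Set V) =
      range fun k : Fin 5 => gam (gauge K0) (x k) := by
    rw [Finset.coe_image, Finset.coe_univ, image_univ]
  rw [hcoe] at hS3
  have hcard : S.card ≤ 5 := by
    refine (Finset.card_le_card hS1).trans (Finset.card_image_le.trans ?_)
    simp
  have hSK : (S : Set V) ⊆ K0 := by
    intro s hs
    obtain ⟨k, -, rfl⟩ := Finset.mem_image.1 (hS1 hs)
    rw [← gauge_le_one hK hconv hsym hint]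
    exact (N_gam hN _).le
  have h1 := G.ne6 S hSK hS2 (by omega)
  rw [hS3] at h1
  have h2 : (S.card : ℝ) ≤ 5 := by exact_mod_cast hcard
  have h3 := G.tau
  have h4 := G.pos
  nlinarith

omit hK hconv hint in
/-- strictness of the corner `0` of maximal sextuples in the local bodies -/
theorem strictMax_of (hK : IsCompact K0) (hconv : Convex ℝ K0) (hint : (interior K0).Nonempty)
    (h56 : sm (gauge K0) 5 < sm (gauge K0) 6) : StrictMax K0 (sm (gauge K0) 6) := by
  intro a b t q hab hq hin har
  have h1 := C2305b.Rig.O74.conv6_toK hab t hq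
  have h2 := C2305b.Rig.O74.toK_mem hin
  have h3 : ar6 (C2305b.Rig.O74.toK a b t q) = sm (gauge K0) 6 := by
    rw [C2305b.Rig.O74.ar6_toK hab]; exact har
  have h4 := q_cr_pos hsym hK hconv hint h56 h1 h2 h3 (i := 0) (j := 1) (k := 5) (by decide)
    (by decide)
  cases t
  · rw [C2305b.Rig.O74.toK_false a b q 0 1 5 hab] at h4
    exact h4
  · rw [C2305b.Rig.O74.toK_true a b q 0 1 5 hab] at h4
    have e0 : -(0 : Fin 6) = 0 := by decide
    have e1 : -(1 : Fin 6) = 5 := by decide
    have e5 : -(5 : Fin 6) = 1 := by decide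
    rw [e0, e1, e5, C2305b.Rig.O74.cr_anti, neg_neg] at h4
    exact h4

end body

end C2305bH52.C1
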