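import Pool.Agent.W_c2305b_h52.C1c

/-!
# Natural wording: central symmetry about some point
-/

open MeasureTheory Set Real Filter Topology

namespace C2305bH52.C1

open C2305b.TL (V cr)
open C2305b.Rig (Conv6 ar6 LeMax UniqHex edge StrictMax InBody)
open C2305bH52.Dow
open C2305bH68.Ord (Corners)

/-- a point of a finite set outside the hull of the others is an extreme point of the hull -/
theorem extreme_of_not_mem {q : Fin 6 → V} {k : Fin 6} (hk : q k ∉ convexHull ℝ (q '' {k}ᶜ)) :
    q k ∈ (convexHull ℝ (range q)).extremePoints ℝ := by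
  by_contra hcon
  have hfin : (range q).Finite := Set.finite_range q
  have hsub : (convexHull ℝ (range q)).extremePoints ℝ ⊆ range q := extremePoints_convexHull_subset
  have hsub' : (convexHull ℝ (range q)).extremePoints ℝ ⊆ q '' {k}ᶜ := by
    intro x hx
    obtain ⟨j, rfl⟩ := hsub hx
    exact ⟨j, fun h => hcon (by rw [mem_singleton_iff.1 h] at hx; exact hx), rfl⟩
  have hcomp : IsCompact (convexHull ℝ (range q)) := hfin.isCompact_convexHull ℝ
  have h1 := closure_convexHull_extremePoints hcomp (convex_convexHull ℝ _)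
  have h2 : IsClosed (convexHull ℝ ((convexHull ℝ (range q)).extremePoints ℝ)) :=
    ((hfin.subset hsub).isCompact_convexHull ℝ).isClosed
  rw [h2.closure_eq] at h1
  have h3 : q k ∈ convexHull ℝ (range q) := subset_convexHull ℝ _ (mem_range_self k)
  rw [← h1] at h3
  exact hk (convexHull_mono hsub' h3)

section body

variable {K0 : Set V} (hsym : ∀ v ∈ K0, -v ∈ K0) (hK : IsCompact K0)
  (hconv : Convex ℝ K0) (hint : (interior K0).Nonempty)

include hsym hK hconv hint

/-- `Sym6` from central symmetry about arbitrary points -/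
theorem sym6_of_nat (h56 : sm (gauge K0) 5 < sm (gauge K0) 6)
    (hn : ∀ p : Fin 6 → V, (∀ k, p k ∈ K0) → volume (convexHull ℝ (range p)) = tm 6 K0 →
      ∃ z : V, ∀ x ∈ convexHull ℝ (range p), (2 : ℝ) • z - x ∈ convexHull ℝ (range p)) :
    C2305b.Rig.Sym6 K0 (sm (gauge K0) 6) := by
  intro q hq hqK hqA
  have hN := nrm_gauge hK hconv hsym hint
  have hvol : volume (convexHull ℝ (range q)) = tm 6 K0 := by
    apply le_antisymm
    · exact le_iSup₂ (f := fun (p : Fin 6 → V) (_ : ∀ k, p k ∈ K0) =>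
        volume (convexHull ℝ (range p))) q hqK
    · rw [tm_eq hsym hK hconv hint (by norm_num), ← hqA]
      have hfin : volume (convexHull ℝ (range q)) ≠ ⊤ :=
        ((Set.finite_range q).isCompact_convexHull ℝ).measure_lt_top.ne
      rw [← ENNReal.ofReal_toReal hfin]
      exact ENNReal.ofReal_le_ofReal (ar6_le_volume hq)
  obtain ⟨z, hz⟩ := hn q hqK hvol
  have hinj := q_inj hsym hK hconv hint h56 hq hqK hqA
  have hext : ∀ k, q k ∈ (convexHull ℝ (range q)).extremePoints ℝ := fun k =>
    extreme_of_not_mem (not_mem_hull hsym hK hconv hint h56 hq hqK hqA k)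
  -- the reflected points are corners
  have hmem : ∀ k, (2 : ℝ) • z - q k ∈ range q := by
    intro k
    apply (extremePoints_convexHull_subset : (convexHull ℝ (range q)).extremePoints ℝ ⊆ range q)
    rw [mem_extremePoints]
    refine ⟨hz _ (subset_convexHull ℝ _ (mem_range_self k)), ?_⟩
    intro x1 hx1 x2 hx2 hseg
    obtain ⟨a, b, ha, hb, hab, he⟩ := hseg
    have hk := (mem_extremePoints.1 (hext k)).2 _ (hz x1 hx1) _ (hz x2 hx2) (by
      refine ⟨a, b, ha, hb, hab, ?_⟩
      have e : a • ((2 : ℝ) • z - x1) + b • ((2 : ℝ) • z - x2) =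
          (a + b) • ((2 : ℝ) • z) - (a • x1 + b • x2) := by module
      rw [e, hab, one_smul, he]
      abel)
    constructor
    · rw [← hk.1]; abel
    · rw [← hk.2]; abel
  have hcr : ∀ i j k : Fin 6, C2305b.Rig.cr (((2 : ℝ) • z - q j) - ((2 : ℝ) • z - q i))
      (((2 : ℝ) • z - q k) - ((2 : ℝ) • z - q i)) =
      C2305b.Rig.cr (q j - q i) (q k - q i) := by
    intro i j k
    simp only [C2305b.Rig.cr, PiLp.sub_apply]
    ring
  have hn6 : Conv6 (fun k => (2 : ℝ) • z - q k) := fun i j k hij hjk => by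
    rw [hcr]; exact hq i j k hij hjk
  have hrange : range (fun k => (2 : ℝ) • z - q k) = range q := by
    apply Subset.antisymm
    · rintro _ ⟨k, rfl⟩
      exact hmem k
    · rintro _ ⟨k, rfl⟩
      obtain ⟨j, hj⟩ := hmem k
      refine ⟨j, ?_⟩
      show (2 : ℝ) • z - q j = q k
      rw [hj]; abel
  obtain ⟨m, hm⟩ := C2305b.Nat73.shift_of_range hq hn6 hinj
    (fun i j k hij hik hjk => q_cr_ne hsym hK hconv hint h56 hq hqK hqA hij hik hjk) hrange
  have hm' : ∀ k, (2 : ℝ) • z - q k = q (k + m) := hm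
  have hm2 : m + m = 0 := by
    have h1 := hm' 0
    have h2 := hm' (0 + m)
    have h3 : q (0 + m + m) = q 0 := by
      rw [← h2, ← h1]; abel
    have h4 := hinj h3
    rw [zero_add] at h4
    exact h4
  rcases C2305b.Nat73.fin6_double m hm2 with h0 | h3
  · exfalso
    have e : ∀ k, q k = z := by
      intro k
      have h1 := hm' k
      rw [h0, add_zero] at h1
      have h2 : (2 : ℝ) • z = (2 : ℝ) • q k := by
        rw [two_smul ℝ (q k)]
        nth_rewrite 2 [← h1]
        abel
      have h4 := congrArg (fun v : V => (2 : ℝ)⁻¹ • v) h2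
      simp only [smul_smul] at h4
      norm_num at h4
      exact h4.symm
    have := hinj ((e 0).trans (e 1).symm)
    exact absurd this (by decide)
  · have hs : ∀ k, q (k + 3) = (2 : ℝ) • z - q k := fun k => by rw [hm' k, h3]
    have h33 : ∀ k : Fin 6, k + 3 + 3 = k := by decide
    have hz0 : (2 : ℝ) • z = 0 := by
      refine q_rigid hsym hK hconv hint h56 hq hqK hqA fun k => ?_
      have h1 := hs (k + 3)
      rw [h33] at h1
      rw [h1]
      have e : (2 : ℝ) • z - q (k + 3) - (2 : ℝ) • z = -q (k + 3) := by abel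
      rw [e]
      exact hsym _ (hqK _)
    intro k
    rw [hs k, hz0, zero_sub]

/-- `t5 < t6` from `t5 + t7 < 2 t6` -/
theorem lt56_of_tm (h : tm 5 K0 + tm 7 K0 < 2 * tm 6 K0) :
    sm (gauge K0) 5 < sm (gauge K0) 6 := by
  have h1 := (lt_iff_tm hsym hK hconv hint).2 h
  have h2 := sm_mono (nrm_gauge hK hconv hsym hint) (show 2 ≤ 6 by norm_num)
  norm_num at h2
  linarith

/-- THE NATURAL CLASS: `t5 + t7 < 2 t6` and all maximal hexagons centrally symmetric. -/
theorem data_of_nat (h : tm 5 K0 + tm 7 K0 < 2 * tm 6 K0)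
    (hn : ∀ p : Fin 6 → V, (∀ k, p k ∈ K0) → volume (convexHull ℝ (range p)) = tm 6 K0 →
      ∃ z : V, ∀ x ∈ convexHull ℝ (range p), (2 : ℝ) • z - x ∈ convexHull ℝ (range p)) :
    (∃ τ g, W82.Gap K0 (sm (gauge K0) 6) τ g) ∧ C2305b.Rig.Sym6 K0 (sm (gauge K0) 6) ∧
      LeMax K0 (sm (gauge K0) 6) :=
  ⟨gap_of_tm hsym hK hconv hint h,
    sym6_of_nat hsym hK hconv hint (lt56_of_tm hsym hK hconv hint h) hn,
    fun _ hq hqK => ar6_le_sm hsym hK hconv hint hq hqK⟩

end body

end C2305bH52.C1
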