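import Pool.Agent.W_c2305b_h52.C1d

/-!
# Members of the natural class

A body is good if `t5 + t7 < 2 t6` and all maximal hexagons (convex hulls of six points of the
largest possible area) have a centre of symmetry. Smooth bodies are good, and so are bodies with
only one maximal hexagon.
-/

open MeasureTheory Set Real Filter Topology

namespace C2305bH52.C1

open C2305b.TL (V cr)
open C2305b.Rig (Conv6 ar6 LeMax UniqHex edge StrictMax InBody)
open C2305bH52.Dow
open C2305bH68.Ord (Corners)
open C2305b.Rig.O74 (conv6_of_strict)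

/-- All convex hulls of six points of largest area have a centre of symmetry. -/
def SymHex (K : Set V) : Prop :=
  ∀ p : Fin 6 → V, (∀ k, p k ∈ K) → volume (convexHull ℝ (range p)) = tm 6 K →
    ∃ z : V, ∀ x ∈ convexHull ℝ (range p), (2 : ℝ) • z - x ∈ convexHull ℝ (range p)

section body

variable {K0 : Set V} (hsym : ∀ v ∈ K0, -v ∈ K0) (hK : IsCompact K0)
  (hconv : Convex ℝ K0) (hint : (interior K0).Nonempty)

include hsym hK hconv hint

theorem vol_le_of_card {m : ℕ} (hm : 2 ≤ m) {S : Finset V} (hS : ∀ s ∈ S, s ∈ K0)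
    (hc : S.card ≤ m) : volume (convexHull ℝ (S : Set V)) ≤ tm m K0 := by
  have hN := nrm_gauge hK hconv hsym hint
  rw [tm_eq hsym hK hconv hint hm]
  have hfin : volume (convexHull ℝ (S : Set V)) ≠ ⊤ :=
    (S.finite_toSet.isCompact_convexHull ℝ).measure_lt_top.ne
  rw [← ENNReal.ofReal_toReal hfin]
  exact ENNReal.ofReal_le_ofReal (area_le_sm hN hm
    (fun s hs => (gauge_le_one hK hconv hsym hint _).2 (hS s hs)) hc)

theorem tm_lt (h56 : sm (gauge K0) 5 < sm (gauge K0) 6) : tm 5 K0 < tm 6 K0 := by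
  rw [tm_eq hsym hK hconv hint (by norm_num), tm_eq hsym hK hconv hint (by norm_num),
    ENNReal.ofReal_lt_ofReal_iff (sm_pos hsym hK hconv hint)]
  exact h56

/-- the corners of a maximal hexagon -/
theorem not_mem_of_max (h56 : sm (gauge K0) 5 < sm (gauge K0) 6) {p : Fin 6 → V}
    (hp : ∀ k, p k ∈ K0) (hv : volume (convexHull ℝ (range p)) = tm 6 K0) (k : Fin 6) :
    p k ∉ convexHull ℝ (p '' {k}ᶜ) := by
  classical
  intro hk
  have hcoe : (((Finset.univ.erase k).image p : Finset V) : Set V) = p '' {k}ᶜ := by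
    rw [Finset.coe_image]
    congr 1
    ext j
    simp
  have hsub : convexHull ℝ (range p) ⊆
      convexHull ℝ (((Finset.univ.erase k).image p : Finset V) : Set V) := by
    rw [hcoe]
    refine convexHull_min ?_ (convex_convexHull ℝ _)
    rintro _ ⟨j, rfl⟩
    by_cases hj : j = k
    · rw [hj]; exact hk
    · exact subset_convexHull ℝ _ ⟨j, hj, rfl⟩
  have hc : ((Finset.univ.erase k).image p).card ≤ 5 := by
    refine Finset.card_image_le.trans ?_
    rw [Finset.card_erase_of_mem (Finset.mem_univ _), Finset.card_univ, Fintype.card_fin]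
  have h1 : volume (convexHull ℝ (range p)) ≤ tm 5 K0 :=
    (measure_mono hsub).trans (vol_le_of_card hsym hK hconv hint (by norm_num) (by
      intro s hs
      obtain ⟨j, -, rfl⟩ := Finset.mem_image.1 hs
      exact hp j) hc)
  rw [hv] at h1
  exact absurd (tm_lt hsym hK hconv hint h56) (not_lt.2 h1)

/-- a maximal hexagon in counterclockwise order -/
theorem exists_conv6 (h56 : sm (gauge K0) 5 < sm (gauge K0) 6) {p : Fin 6 → V}
    (hp : ∀ k, p k ∈ K0) (hv : volume (convexHull ℝ (range p)) = tm 6 K0) :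
    ∃ q : Fin 6 → V, Conv6 q ∧ range q = range p ∧ ar6 q = sm (gauge K0) 6 := by
  classical
  have hnm := not_mem_of_max hsym hK hconv hint h56 hp hv
  have hinj : Function.Injective p := by
    intro i j hij
    by_contra hne
    apply hnm i
    rw [hij]
    exact subset_convexHull ℝ _ ⟨j, fun h => hne h.symm, rfl⟩
  have hcor : Corners (Finset.univ.image p) := by
    intro x hx
    rw [Finset.mem_image] at hx
    obtain ⟨k, _, rfl⟩ := hx
    intro hcon
    apply hnm k
    refine convexHull_mono ?_ hcon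
    rintro x ⟨hx, hxk⟩
    rw [Finset.coe_image, Finset.coe_univ, image_univ] at hx
    obtain ⟨j, rfl⟩ := hx
    exact ⟨j, fun h => hxk (by rw [mem_singleton_iff.1 h]; rfl), rfl⟩
  have hcard : (Finset.univ.image p).card = 6 := by
    rw [Finset.card_image_of_injective _ hinj, Finset.card_univ, Fintype.card_fin]
  obtain ⟨q, -, hqinj, hqr, hq1, hq2, hq3⟩ := C2305bH68.Ord.exists_cyclic_six hcor hcard
    (p := p 0) (Finset.mem_image_of_mem _ (Finset.mem_univ _))
  obtain ⟨r, hr⟩ : ∃ r : Fin 6 → V, r = q := ⟨q, rfl⟩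
  have hcoe : ((Finset.univ.image p : Finset V) : Set V) = range p := by
    rw [Finset.coe_image, Finset.coe_univ, image_univ]
  have hrinj : Function.Injective r := by rw [hr]; exact hqinj
  have hrr : range r = range p := by rw [hr, ← hcoe]; exact hqr
  have hrmem : ∀ k, r k ∈ Finset.univ.image p := by
    intro k
    have : r k ∈ ((Finset.univ.image p : Finset V) : Set V) := by
      rw [hcoe, ← hrr]; exact mem_range_self k
    exact_mod_cast this
  have hr2 : ∀ k l, l ≠ k → l ≠ k + 1 → 0 < C2305b.Rig.cr (r (k + 1) - r k) (r l - r k) := by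
    intro k l h1 h2
    have h3 := hq2 k (r l) (hrmem l) (by rw [← hr]; exact fun h => h1 (hrinj h))
      (by rw [← hr]; exact fun h => h2 (hrinj h))
    rw [← hr] at h3
    exact h3
  refine ⟨r, conv6_of_strict r hrinj hr2, hrr, ?_⟩
  have harea : ar6 r = (volume (convexHull ℝ (range p))).toReal := by
    rw [← hcoe, hq3, ← hr]; rfl
  rw [harea, hv, tm_eq hsym hK hconv hint (by norm_num),
    ENNReal.toReal_ofReal (sm_pos hsym hK hconv hint).le]

/-- `Sym6` gives the natural symmetry statement -/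
theorem nat_of_sym6 (h56 : sm (gauge K0) 5 < sm (gauge K0) 6)
    (hs : C2305b.Rig.Sym6 K0 (sm (gauge K0) 6)) : SymHex K0 := by
  intro p hp hv
  obtain ⟨q, hq, hr, hA⟩ := exists_conv6 hsym hK hconv hint h56 hp hv
  have hqK : ∀ k, q k ∈ K0 := by
    intro k
    have : q k ∈ range p := by rw [← hr]; exact mem_range_self k
    obtain ⟨j, hj⟩ := this
    rw [← hj]; exact hp j
  have h3 := hs q hq hqK hA
  refine ⟨0, fun x hx => ?_⟩
  rw [smul_zero, zero_sub]
  rw [← hr] at hx ⊢
  have hsub : convexHull ℝ (range q) ⊆ {x | -x ∈ convexHull ℝ (range q)} := by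
    refine convexHull_min ?_ ?_
    · rintro _ ⟨k, rfl⟩
      show -q k ∈ convexHull ℝ (range q)
      rw [← h3 k]
      exact subset_convexHull ℝ _ (mem_range_self _)
    · intro x hx y hy a b ha hb hab
      show -(a • x + b • y) ∈ convexHull ℝ (range q)
      have e : -(a • x + b • y) = a • (-x) + b • (-y) := by module
      rw [e]
      exact convex_convexHull ℝ _ hx hy ha hb hab
  exact hsub hx

/-- SMOOTH BODIES ARE GOOD. -/
theorem good_of_C1 (hsm : SmoothBody K0) : tm 5 K0 + tm 7 K0 < 2 * tm 6 K0 ∧ SymHex K0 := by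
  have hN := nrm_gauge hK hconv hsym hint
  have hM := smo_gauge hsym hK hconv hint hsm
  refine ⟨(lt_iff_tm hsym hK hconv hint).1 (dowker_lt hN hM (by norm_num)), ?_⟩
  exact nat_of_sym6 hsym hK hconv hint (sm_lt hN hM (by norm_num))
    (gap_of_C1 hsym hK hconv hint hsm).2.1

/-- BODIES WITH ONLY ONE MAXIMAL HEXAGON ARE GOOD. -/
theorem good_of_unique {H : Fin 6 → V} (hH : ∀ k, H k ∈ K0)
    (hU : ∀ G : Fin 6 → V, (∀ k, G k ∈ K0) →
      volume (convexHull ℝ (range H)) ≤ volume (convexHull ℝ (range G)) → range G = range H) :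
    tm 5 K0 + tm 7 K0 < 2 * tm 6 K0 ∧ SymHex K0 := by
  classical
  have hN := nrm_gauge hK hconv hsym hint
  have h56 := lt56 hsym hK hconv hint hH hU
  have hlt : sm (gauge K0) 5 + sm (gauge K0) 7 < 2 * sm (gauge K0) 6 := by
    refine lt_of_finite hN (R := Finset.univ.image H) ?_ ?_ h56
    · refine Finset.card_image_le.trans ?_
      simp
    · intro u hu huA k hk
      have hK' : ∀ k : Fin 6, gam (gauge K0) (u k) ∈ K0 := fun k => by
        rw [← gauge_le_one hK hconv hsym hint]
        exact (N_gam hN _).le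
      have h1 := range_eq hsym hK hconv hint hH hU (conv6_gam hN hu) hK'
        (by rw [ar6_gam hN hu]; exact huA)
      have h2 : gam (gauge K0) (u k) ∈ range H := by
        rw [← h1]
        exact ⟨⟨k, hk⟩, rfl⟩
      obtain ⟨j, hj⟩ := h2
      exact Finset.mem_image.2 ⟨j, Finset.mem_univ _, hj⟩
  exact ⟨(lt_iff_tm hsym hK hconv hint).1 hlt, nat_of_sym6 hsym hK hconv hint h56
    (gap_of_unique hsym hK hconv hint hH hU).2.1⟩

/-- good bodies as used by the tiling argument -/
theorem data_of_good (h : tm 5 K0 + tm 7 K0 < 2 * tm 6 K0 ∧ SymHex K0) :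
    (∃ τ g, W82.Gap K0 (sm (gauge K0) 6) τ g) ∧ C2305b.Rig.Sym6 K0 (sm (gauge K0) 6) ∧
      LeMax K0 (sm (gauge K0) 6) :=
  data_of_nat hsym hK hconv hint h.1 h.2

end body

end C2305bH52.C1
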