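import Mathlib
import Pool.Agent.W_c2305b_h89.Defs

/-!
# The disc: maximal convex sextuples are regular hexagons, rigidity (brick R3 of row 547)

The key identity: for six points `z_k` of the plane,
`4 √3 ∑ cr z_k z_(k+1) = 6 ∑ |z_k|² - |z_0+z_2+z_4|² - |z_1+z_3+z_5|² - ∑ |z_(k+2) - z_k - √3 J z_(k+1)|²`.
-/

namespace C2305bH52.Disc

open C2305b.Rig

noncomputable section

/-- squared length -/
def nq (v : Pl) : ℝ := v 0 ^ 2 + v 1 ^ 2

theorem nq_eq_norm (v : Pl) : nq v = ‖v‖ ^ 2 := by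
  rw [EuclideanSpace.norm_eq, Real.sq_sqrt (by positivity)]
  simp [nq, Fin.sum_univ_two]

theorem nq_le_one {v : Pl} (h : ‖v‖ ≤ 1) : nq v ≤ 1 := by
  rw [nq_eq_norm]
  nlinarith [norm_nonneg v]

/-- the defect of three consecutive points -/
def dfc (s : ℝ) (u v w : Pl) : ℝ :=
  (w 0 - u 0 + s * v 1) ^ 2 + (w 1 - u 1 - s * v 0) ^ 2

theorem dfc_nonneg (s : ℝ) (u v w : Pl) : 0 ≤ dfc s u v w := by
  unfold dfc; positivity

theorem key_identity {s : ℝ} (hs : s ^ 2 = 3) (z : Fin 6 → Pl) :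
    4 * s * (2 * ar6 z) = 6 * (nq (z 0) + nq (z 1) + nq (z 2) + nq (z 3) + nq (z 4) + nq (z 5))
      - ((z 0 0 + z 2 0 + z 4 0) ^ 2 + (z 0 1 + z 2 1 + z 4 1) ^ 2)
      - ((z 1 0 + z 3 0 + z 5 0) ^ 2 + (z 1 1 + z 3 1 + z 5 1) ^ 2)
      - (dfc s (z 0) (z 1) (z 2) + dfc s (z 1) (z 2) (z 3) + dfc s (z 2) (z 3) (z 4)
        + dfc s (z 3) (z 4) (z 5) + dfc s (z 4) (z 5) (z 0) + dfc s (z 5) (z 0) (z 1)) := by
  unfold ar6 cr dfc nq
  rw [Fin.sum_univ_six]
  have e1 : (0 : Fin 6) + 1 = 1 := rfl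
  have e2 : (1 : Fin 6) + 1 = 2 := rfl
  have e3 : (2 : Fin 6) + 1 = 3 := rfl
  have e4 : (3 : Fin 6) + 1 = 4 := rfl
  have e5 : (4 : Fin 6) + 1 = 5 := rfl
  have e6 : (5 : Fin 6) + 1 = 0 := rfl
  rw [e1, e2, e3, e4, e5, e6]
  linear_combination (z 0 0 ^ 2 + z 0 1 ^ 2 + z 1 0 ^ 2 + z 1 1 ^ 2 + z 2 0 ^ 2 + z 2 1 ^ 2
    + z 3 0 ^ 2 + z 3 1 ^ 2 + z 4 0 ^ 2 + z 4 1 ^ 2 + z 5 0 ^ 2 + z 5 1 ^ 2) * hs

theorem sqrt3_sq : (Real.sqrt 3) ^ 2 = 3 := Real.sq_sqrt (by norm_num)

theorem sqrt3_pos : 0 < Real.sqrt 3 := Real.sqrt_pos.2 (by norm_num)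

/-- Six points of the unit disc: the shoelace area is at most `3 √3 / 2` (no convexity needed). -/
theorem ar6_le {z : Fin 6 → Pl} (h : ∀ k, nq (z k) ≤ 1) : ar6 z ≤ 3 * Real.sqrt 3 / 2 := by
  have hk := key_identity sqrt3_sq z
  have hs := sqrt3_pos
  have hs2 := sqrt3_sq
  have h0 := h 0
  have h1 := h 1
  have h2 := h 2
  have h3 := h 3
  have h4 := h 4
  have h5 := h 5
  have d1 := dfc_nonneg (Real.sqrt 3) (z 0) (z 1) (z 2)
  have d2 := dfc_nonneg (Real.sqrt 3) (z 1) (z 2) (z 3)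
  have d3 := dfc_nonneg (Real.sqrt 3) (z 2) (z 3) (z 4)
  have d4 := dfc_nonneg (Real.sqrt 3) (z 3) (z 4) (z 5)
  have d5 := dfc_nonneg (Real.sqrt 3) (z 4) (z 5) (z 0)
  have d6 := dfc_nonneg (Real.sqrt 3) (z 5) (z 0) (z 1)
  have q1 : 0 ≤ (z 0 0 + z 2 0 + z 4 0) ^ 2 + (z 0 1 + z 2 1 + z 4 1) ^ 2 := by positivity
  have q2 : 0 ≤ (z 1 0 + z 3 0 + z 5 0) ^ 2 + (z 1 1 + z 3 1 + z 5 1) ^ 2 := by positivity
  have hle : 4 * Real.sqrt 3 * (2 * ar6 z) ≤ 36 := by linarith
  have h36 : (36 : ℝ) = 4 * Real.sqrt 3 * (2 * (3 * Real.sqrt 3 / 2)) := by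
    linear_combination (-12) * hs2
  rw [h36] at hle
  have := le_of_mul_le_mul_left hle (by positivity)
  linarith

/-- The structure of a maximal sextuple. -/
structure Regular (z : Fin 6 → Pl) : Prop where
  unit : ∀ k, nq (z k) = 1
  u1 : nq (z 1 - z 0) = 1
  w1 : nq (z 5 - z 0) = 1
  uw : nq ((z 1 - z 0) + (z 5 - z 0)) = 1
  crs : cr (z 1 - z 0) (z 5 - z 0) = Real.sqrt 3 / 2

theorem regular_of_max {z : Fin 6 → Pl} (hc : Conv6 z) (h : ∀ k, nq (z k) ≤ 1)
    (hmax : ar6 z = 3 * Real.sqrt 3 / 2) : Regular z := by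
  have hk := key_identity sqrt3_sq z
  set s := Real.sqrt 3 with hsdef
  have hs : 0 < s := sqrt3_pos
  have hs2 : s ^ 2 = 3 := sqrt3_sq
  have h0 := h 0
  have h1 := h 1
  have h2 := h 2
  have h3 := h 3
  have h4 := h 4
  have h5 := h 5
  have d1 := dfc_nonneg s (z 0) (z 1) (z 2)
  have d2 := dfc_nonneg s (z 1) (z 2) (z 3)
  have d3 := dfc_nonneg s (z 2) (z 3) (z 4)
  have d4 := dfc_nonneg s (z 3) (z 4) (z 5)
  have d5 := dfc_nonneg s (z 4) (z 5) (z 0)
  have d6 := dfc_nonneg s (z 5) (z 0) (z 1)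
  have q1 : 0 ≤ (z 0 0 + z 2 0 + z 4 0) ^ 2 + (z 0 1 + z 2 1 + z 4 1) ^ 2 := by positivity
  have q2 : 0 ≤ (z 1 0 + z 3 0 + z 5 0) ^ 2 + (z 1 1 + z 3 1 + z 5 1) ^ 2 := by positivity
  have h36 : 4 * s * (2 * ar6 z) = 36 := by rw [hmax]; linear_combination 12 * hs2
  have n0 : nq (z 0) = 1 := by linarith
  have n1 : nq (z 1) = 1 := by linarith
  have n2 : nq (z 2) = 1 := by linarith
  have n3 : nq (z 3) = 1 := by linarith
  have n4 : nq (z 4) = 1 := by linarith
  have n5 : nq (z 5) = 1 := by linarith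
  have z1 : dfc s (z 0) (z 1) (z 2) = 0 := by linarith
  have z2 : dfc s (z 1) (z 2) (z 3) = 0 := by linarith
  have z3 : dfc s (z 2) (z 3) (z 4) = 0 := by linarith
  have z4 : dfc s (z 3) (z 4) (z 5) = 0 := by linarith
  have split : ∀ u v w : Pl, dfc s u v w = 0 → w 0 = u 0 - s * v 1 ∧ w 1 = u 1 + s * v 0 := by
    intro u v w hd
    unfold dfc at hd
    have a1 : (w 0 - u 0 + s * v 1) ^ 2 = 0 :=
      le_antisymm (by linarith [sq_nonneg (w 1 - u 1 - s * v 0)]) (sq_nonneg _)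
    have a2 : (w 1 - u 1 - s * v 0) ^ 2 = 0 :=
      le_antisymm (by linarith [sq_nonneg (w 0 - u 0 + s * v 1)]) (sq_nonneg _)
    have b1 := pow_eq_zero_iff (two_ne_zero) |>.1 a1
    have b2 := pow_eq_zero_iff (two_ne_zero) |>.1 a2
    constructor <;> linarith
  obtain ⟨x2, y2⟩ := split _ _ _ z1
  obtain ⟨x3, y3⟩ := split _ _ _ z2
  obtain ⟨x4, y4⟩ := split _ _ _ z3
  obtain ⟨x5, y5⟩ := split _ _ _ z4
  -- coordinates in terms of z 0, z 1
  set a := z 0 0 with ha
  set b := z 0 1 with hb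
  set c := z 1 0 with hcc
  set d := z 1 1 with hd
  have X3 : z 3 0 = -s * b - 2 * c := by rw [x3, y2]; linear_combination (-c) * hs2
  have Y3 : z 3 1 = s * a - 2 * d := by rw [y3, x2]; linear_combination (-d) * hs2
  have X4 : z 4 0 = -2 * a + s * d := by rw [x4, x2, Y3]; linear_combination (-a) * hs2
  have Y4 : z 4 1 = -2 * b - s * c := by rw [y4, y2, X3]; linear_combination (-b) * hs2
  have X5 : z 5 0 = c + s * b := by rw [x5, X3, Y4]; linear_combination c * hs2
  have Y5 : z 5 1 = d - s * a := by rw [y5, Y3, X4]; linear_combination d * hs2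
  have m0 : a ^ 2 + b ^ 2 = 1 := n0
  have m1 : c ^ 2 + d ^ 2 = 1 := n1
  have m2 : (a - s * d) ^ 2 + (b + s * c) ^ 2 = 1 := by
    have : nq (z 2) = (a - s * d) ^ 2 + (b + s * c) ^ 2 := by unfold nq; rw [x2, y2]
    rw [← this]; exact n2
  -- the cross product of z 0 and z 1
  have k1 : 2 * s * (a * d - b * c) = 3 := by
    linear_combination (-1) * m2 + m0 + s ^ 2 * m1 + hs2
  have k2 : a * d - b * c = s / 2 := by
    have : 2 * s * (a * d - b * c) = 2 * s * (s / 2) := by rw [k1]; linear_combination (-1) * hs2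
    exact mul_left_cancel₀ (by positivity) this
  -- the inner product
  have k3 : (a * c + b * d) ^ 2 = 1 / 4 := by
    have : (a * c + b * d) ^ 2 = (a ^ 2 + b ^ 2) * (c ^ 2 + d ^ 2) - (a * d - b * c) ^ 2 := by ring
    rw [this, m0, m1, k2]
    linear_combination (-1 / 4) * hs2
  have k4 : 0 ≤ a * c + b * d := by
    have hcv := hc 0 2 4 (by decide) (by decide)
    unfold cr at hcv
    simp only [PiLp.sub_apply] at hcv
    rw [x2, y2, X4, Y4] at hcv
    have e : (a - s * d - a) * (-2 * b - s * c - b) - (b + s * c - b) * (-2 * a + s * d - a)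
        = 3 * s * (a * c + b * d) := by ring
    change 0 ≤ (a - s * d - a) * (-2 * b - s * c - b) - (b + s * c - b) * (-2 * a + s * d - a)
      at hcv
    rw [e] at hcv
    exact nonneg_of_mul_nonneg_right hcv (by positivity)
  have k5 : a * c + b * d = 1 / 2 := by
    have h6 : (a * c + b * d - 1 / 2) * (a * c + b * d + 1 / 2) = 0 := by
      linear_combination k3
    rcases mul_eq_zero.1 h6 with h7 | h7
    · linarith
    · linarith
  refine ⟨?_, ?_, ?_, ?_, ?_⟩
  · intro k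
    fin_cases k
    · exact n0
    · exact n1
    · exact n2
    · exact n3
    · exact n4
    · exact n5
  · have : nq (z 1 - z 0) = (c - a) ^ 2 + (d - b) ^ 2 := by
      unfold nq; simp only [PiLp.sub_apply]; rfl
    rw [this]; linear_combination m0 + m1 - 2 * k5
  · have : nq (z 5 - z 0) = (c + s * b - a) ^ 2 + (d - s * a - b) ^ 2 := by
      unfold nq; simp only [PiLp.sub_apply]; rw [X5, Y5]
    rw [this]
    linear_combination m1 + (s ^ 2 + 1) * m0 - 2 * s * k2 - 2 * k5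
  · have : nq ((z 1 - z 0) + (z 5 - z 0)) =
        (c - a + (c + s * b - a)) ^ 2 + (d - b + (d - s * a - b)) ^ 2 := by
      unfold nq; simp only [PiLp.sub_apply, PiLp.add_apply]; rw [X5, Y5]
    rw [this]
    linear_combination 4 * m1 + (4 + s ^ 2) * m0 - 8 * k5 - 4 * s * k2 - hs2
  · have : cr (z 1 - z 0) (z 5 - z 0) = (c - a) * (d - s * a - b) - (d - b) * (c + s * b - a) := by
      unfold cr; simp only [PiLp.sub_apply]; rw [X5, Y5]
    rw [this]
    linear_combination s * m0 - s * k5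

/-! ### The three statements of brick R3 -/

theorem mem_ball_iff (v : Pl) : v ∈ Metric.closedBall (0 : Pl) 1 ↔ nq v ≤ 1 := by
  rw [mem_closedBall_zero_iff, nq_eq_norm]
  constructor
  · intro h
    nlinarith [norm_nonneg v]
  · intro h
    by_contra hcon
    push Not at hcon
    nlinarith

theorem nq_Am {a b : ℝ} (hab : a ^ 2 + b ^ 2 = 1) (v : Pl) : nq (Am 1 a (-b) v) = nq v := by
  unfold nq Am
  simp only [Matrix.cons_val_zero, Matrix.cons_val_one]
  linear_combination (v 0 ^ 2 + v 1 ^ 2) * hab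

theorem nq_Jt (t : Bool) (v : Pl) : nq (Jt t v) = nq v := by
  unfold nq Jt
  cases t <;> simp

theorem inBody_disc {a b : ℝ} (hab : a ^ 2 + b ^ 2 = 1) {t : Bool} {q : Pl}
    (h : InBody (Metric.closedBall (0 : Pl) 1) a b t q) : nq q ≤ 1 := by
  unfold InBody at h
  rw [mem_ball_iff, nq_Am hab, nq_Jt] at h
  exact h

theorem leMax_disc : LeMax (Metric.closedBall (0 : Pl) 1) (3 * Real.sqrt 3 / 2) := by
  intro q _ hq
  exact ar6_le fun k => (mem_ball_iff _).1 (hq k)

theorem strictMax_disc : StrictMax (Metric.closedBall (0 : Pl) 1) (3 * Real.sqrt 3 / 2) := by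
  intro a b t q hab hc hq har
  have h := regular_of_max hc (fun k => inBody_disc hab (hq k)) har
  rw [h.crs]
  have := sqrt3_pos
  positivity

theorem cr_Sh (e : ℝ) (u v : Pl) : cr (Sh e u) (Sh e v) = cr u v := by
  unfold cr Sh
  simp only [Matrix.cons_val_zero, Matrix.cons_val_one]
  ring

/-- the value of the inverse shear form -/
def fe (e : ℝ) (z : Pl) : ℝ := z 0 ^ 2 + (z 1 - e * z 0) ^ 2

theorem fe_Sh (e : ℝ) (v : Pl) : fe e (Sh e v) = nq v := by
  unfold fe nq Sh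
  simp only [Matrix.cons_val_zero, Matrix.cons_val_one]
  ring

theorem Sh_add (e : ℝ) (u v : Pl) : Sh e (u + v) = Sh e u + Sh e v := by
  ext i
  fin_cases i
  · simp [Sh]
  · simp [Sh]; ring

theorem fe_neg (e : ℝ) (z : Pl) : fe e (-z) = fe e z := by
  unfold fe
  simp only [PiLp.neg_apply]
  ring

/-- Three vectors with equal cyclic cross products sum to zero. -/
theorem sum_zero {c : ℝ} (hc : c ≠ 0) {u v w : Pl} (h1 : cr u v = c) (h2 : cr v w = c)
    (h3 : cr w u = c) : u + v = -w := by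
  unfold cr at h1 h2 h3
  ext i
  fin_cases i
  · change u 0 + v 0 = - w 0
    apply mul_left_cancel₀ hc
    linear_combination (- u 0) * h2 - v 0 * h3 - w 0 * h1
  · change u 1 + v 1 = - w 1
    apply mul_left_cancel₀ hc
    linear_combination (- u 1) * h2 - v 1 * h3 - w 1 * h1

/-- Two different unit shear forms cannot agree at three pairwise independent vectors. -/
theorem shear_eq {e f c : ℝ} (hc : c ≠ 0) {u v w : Pl} (h1 : cr u v = c) (h2 : cr v w = c)
    (h3 : cr w u = c) (hu : fe e u = fe f u) (hv : fe e v = fe f v) (hw : fe e w = fe f w) :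
    e = f := by
  by_contra hne
  have hd : e - f ≠ 0 := sub_ne_zero.2 hne
  have split : ∀ z : Pl, fe e z = fe f z → z 0 = 0 ∨ (e + f) * z 0 = 2 * z 1 := by
    intro z hz
    unfold fe at hz
    have h : (e - f) * (z 0 * ((e + f) * z 0 - 2 * z 1)) = 0 := by linear_combination hz
    rcases mul_eq_zero.1 h with h' | h'
    · exact absurd h' hd
    · rcases mul_eq_zero.1 h' with h'' | h''
      · exact Or.inl h''
      · exact Or.inr (by linarith)
  unfold cr at h1 h2 h3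
  have z1 : u 0 * v 1 - u 1 * v 0 ≠ 0 := by rw [h1]; exact hc
  have z2 : v 0 * w 1 - v 1 * w 0 ≠ 0 := by rw [h2]; exact hc
  have z3 : w 0 * u 1 - w 1 * u 0 ≠ 0 := by rw [h3]; exact hc
  rcases split u hu with a | a <;> rcases split v hv with b | b <;> rcases split w hw with d | d
  · exact z1 (by rw [a, b]; ring)
  · exact z1 (by rw [a, b]; ring)
  · exact z3 (by rw [a, d]; ring)
  · exact z2 (by linear_combination (w 0 / 2) * b - (v 0 / 2) * d)
  · exact z2 (by rw [b, d]; ring)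
  · exact z3 (by linear_combination (u 0 / 2) * d - (w 0 / 2) * a)
  · exact z1 (by linear_combination (v 0 / 2) * a - (u 0 / 2) * b)
  · exact z1 (by linear_combination (v 0 / 2) * a - (u 0 / 2) * b)

theorem rigidLim_disc : RigidLim (Metric.closedBall (0 : Pl) 1) (3 * Real.sqrt 3 / 2) := by
  refine ⟨0, le_rfl, ?_⟩
  intro a b hab
  refine ⟨0, by simp, ?_⟩
  intro t e q hc hq har hsh
  have hreg : ∀ i, Regular (q i) := fun i =>
    regular_of_max (hc i) (fun k => inBody_disc hab (hq i k)) (har i)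
  have hs := sqrt3_pos
  -- the rays
  set R : Fin 3 → Pl := fun i => Sh (e i) (q i 1 - q i 0) with hR
  have hnext : ∀ i, Sh (e i) (q i 5 - q i 0) = R (i + 1) := fun i => hsh i
  have hcr : ∀ i, cr (R i) (R (i + 1)) = Real.sqrt 3 / 2 := by
    intro i
    rw [← hnext i, hR]
    simp only
    rw [cr_Sh]
    exact (hreg i).crs
  have c0 := hcr 0
  have c1 := hcr 1
  have c2 := hcr 2
  have e01 : (0 : Fin 3) + 1 = 1 := rfl
  have e12 : (1 : Fin 3) + 1 = 2 := rfl
  have e20 : (2 : Fin 3) + 1 = 0 := rfl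
  rw [e01] at c0
  rw [e12] at c1
  rw [e20] at c2
  have hne : Real.sqrt 3 / 2 ≠ 0 := by positivity
  -- each form is `1` at all three rays
  have hself : ∀ i, fe (e i) (R i) = 1 := by
    intro i
    rw [hR]
    simp only
    rw [fe_Sh]
    exact (hreg i).u1
  have hnx : ∀ i, fe (e i) (R (i + 1)) = 1 := by
    intro i
    rw [← hnext i, fe_Sh]
    exact (hreg i).w1
  have hsum : ∀ i, fe (e i) (R i + R (i + 1)) = 1 := by
    intro i
    rw [← hnext i, hR]
    simp only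
    rw [← Sh_add, fe_Sh]
    exact (hreg i).uw
  have s0 : R 0 + R 1 = - R 2 := sum_zero hne c0 c1 c2
  have s1 : R 1 + R 2 = - R 0 := sum_zero hne c1 c2 c0
  have s2 : R 2 + R 0 = - R 1 := sum_zero hne c2 c0 c1
  have all : ∀ i j, fe (e i) (R j) = 1 := by
    intro i j
    have g1 := hself i
    have g2 := hnx i
    have g3 := hsum i
    fin_cases i
    · change fe (e 0) (R 0 + R 1) = 1 at g3
      rw [s0, fe_neg] at g3
      fin_cases j
      · exact g1
      · exact g2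
      · exact g3
    · change fe (e 1) (R 1 + R 2) = 1 at g3
      rw [s1, fe_neg] at g3
      fin_cases j
      · exact g3
      · exact g1
      · exact g2
    · change fe (e 2) (R 2 + R 0) = 1 at g3
      rw [s2, fe_neg] at g3
      fin_cases j
      · exact g2
      · exact g3
      · exact g1
  intro i j
  have hij : e i = e j :=
    shear_eq hne c0 c1 c2 ((all i 0).trans (all j 0).symm) ((all i 1).trans (all j 1).symm)
      ((all i 2).trans (all j 2).symm)
  rw [hij]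
  simp

end

end C2305bH52.Disc
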