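import Pool.Agent.W_c2305b_h52.DiscGap

/-!
# Dowker's inequality, part 1: the boundary of a symmetric convex body by angles, Monge inequality
-/

open Set Real

namespace C2305bH52.Dow

open C2305b.TL (V cr)
open C2305bH52.DiscGap (uv uv_zero uv_one cr_uv)

/-- a norm on the plane, as a function -/
structure Nrm (N : V → ℝ) : Prop where
  pos : ∀ x, x ≠ 0 → 0 < N x
  add : ∀ x y, N (x + y) ≤ N x + N y
  smul : ∀ (c : ℝ) (x : V), N (c • x) = |c| * N x
  cont : Continuous N

theorem uv_ne_zero (t : ℝ) : uv t ≠ 0 := by
  intro h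
  have h0 := congrArg (fun v : V => v 0) h
  have h1 := congrArg (fun v : V => v 1) h
  simp only [uv_zero, uv_one, PiLp.zero_apply] at h0 h1
  have := Real.sin_sq_add_cos_sq t
  rw [h0, h1] at this
  norm_num at this

theorem uv_add_pi (t : ℝ) : uv (t + π) = -uv t := by
  ext i
  fin_cases i
  · simp [Real.cos_add_pi]
  · simp [Real.sin_add_pi]

theorem continuous_uv : Continuous uv := by
  unfold uv
  fun_prop

section norm

variable {N : V → ℝ} (hN : Nrm N)

include hN in
theorem Nrm.neg (x : V) : N (-x) = N x := by
  have := hN.smul (-1) x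
  simpa using this

include hN in
theorem Nrm.zero : N 0 = 0 := by
  have := hN.smul 0 0
  simpa using this

include hN in
theorem Nrm.nonneg (x : V) : 0 ≤ N x := by
  by_cases h : x = 0
  · rw [h, hN.zero]
  · exact (hN.pos x h).le

/-- boundary point in the direction `t` -/
noncomputable def gam (N : V → ℝ) (t : ℝ) : V := (N (uv t))⁻¹ • uv t

/-- twice the area of the triangle `0, gam s, gam t` -/
noncomputable def FF (N : V → ℝ) (s t : ℝ) : ℝ := cr (gam N s) (gam N t)

include hN

theorem uv_pos (t : ℝ) : 0 < N (uv t) := hN.pos _ (uv_ne_zero t)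

theorem N_gam (t : ℝ) : N (gam N t) = 1 := by
  have h := uv_pos hN t
  unfold gam
  rw [hN.smul, abs_of_pos (inv_pos.2 h), inv_mul_cancel₀ h.ne']

theorem gam_add_pi (t : ℝ) : gam N (t + π) = -gam N t := by
  unfold gam
  rw [uv_add_pi, hN.neg, smul_neg]

theorem gam_add_two_pi (t : ℝ) : gam N (t + 2 * π) = gam N t := by
  have : t + 2 * π = (t + π) + π := by ring
  rw [this, gam_add_pi hN, gam_add_pi hN, neg_neg]

theorem gam_ne_zero (t : ℝ) : gam N t ≠ 0 := by
  intro h
  have := N_gam hN t
  rw [h, hN.zero] at this
  norm_num at this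

theorem continuous_gam : Continuous (gam N) := by
  unfold gam
  have h1 : Continuous fun t => N (uv t) := hN.cont.comp continuous_uv
  exact (h1.inv₀ fun t => (uv_pos hN t).ne').smul continuous_uv

theorem FF_eq (s t : ℝ) : FF N s t = sin (t - s) * ((N (uv s))⁻¹ * (N (uv t))⁻¹) := by
  unfold FF gam
  rw [C2305b.TL.cr_smul_left, C2305b.TL.cr_smul_right, cr_uv]
  ring

theorem FF_nonneg {s t : ℝ} (h1 : s ≤ t) (h2 : t ≤ s + π) : 0 ≤ FF N s t := by
  rw [FF_eq hN]
  have h3 := uv_pos hN s
  have h4 := uv_pos hN t
  have h5 : 0 ≤ sin (t - s) := Real.sin_nonneg_of_nonneg_of_le_pi (by linarith) (by linarith)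
  positivity

omit hN in
theorem FF_self (s : ℝ) : FF N s s = 0 := C2305b.TL.cr_self _

omit hN in
theorem FF_anti (s t : ℝ) : FF N t s = -FF N s t := C2305b.TL.cr_swap _ _

theorem FF_right (s t : ℝ) : FF N s (t + 2 * π) = FF N s t := by
  unfold FF; rw [gam_add_two_pi hN]

theorem FF_left (s t : ℝ) : FF N (s + 2 * π) t = FF N s t := by
  unfold FF; rw [gam_add_two_pi hN]

theorem FF_pi (s : ℝ) : FF N s (s + π) = 0 := by
  unfold FF
  rw [gam_add_pi hN, C2305b.TL.cr_neg_right, C2305b.TL.cr_self, neg_zero]

theorem FF_pi_pi (s t : ℝ) : FF N (s + π) (t + π) = FF N s t := by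
  unfold FF
  rw [gam_add_pi hN, gam_add_pi hN, C2305b.TL.cr_neg_left, C2305b.TL.cr_neg_right, neg_neg]

theorem FF_right_pi (s t : ℝ) : FF N s (t + π) = -FF N s t := by
  unfold FF
  rw [gam_add_pi hN, C2305b.TL.cr_neg_right]

/-- a point of the unit sphere is outside the opposite chord -/
theorem tri {p q r : V} (hp : N p ≤ 1) (hr : N r ≤ 1) (hq : 1 ≤ N q) (h1 : 0 ≤ cr p q)
    (h2 : 0 ≤ cr q r) : cr p r ≤ cr p q + cr q r := by
  rcases le_or_gt (cr p r) 0 with h | h
  · linarith
  have hid : cr p r • q = cr q r • p + cr p q • r := by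
    ext i
    fin_cases i
    · simp only [Fin.zero_eta, PiLp.add_apply, PiLp.smul_apply, smul_eq_mul, cr]; ring
    · simp only [Fin.mk_one, PiLp.add_apply, PiLp.smul_apply, smul_eq_mul, cr]; ring
  have h3 : N (cr p r • q) ≤ N (cr q r • p) + N (cr p q • r) := by
    rw [hid]; exact hN.add _ _
  rw [hN.smul, hN.smul, hN.smul, abs_of_pos h, abs_of_nonneg h1, abs_of_nonneg h2] at h3
  have h4 : cr p r ≤ cr p r * N q := by nlinarith
  have h5 : cr q r * N p ≤ cr q r := by nlinarith
  have h6 : cr p q * N r ≤ cr p q := by nlinarith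
  linarith

theorem triA {a b c : ℝ} (h1 : a ≤ b) (h2 : b ≤ a + π) (h3 : b ≤ c) (h4 : c ≤ b + π) :
    FF N a c ≤ FF N a b + FF N b c :=
  tri hN (N_gam hN a).le (N_gam hN c).le (N_gam hN b).ge (FF_nonneg hN h1 h2)
    (FF_nonneg hN h3 h4)

/-- three boundary points in cyclic order form a positively oriented triangle -/
theorem orient {a b c : ℝ} (h1 : a ≤ b) (h2 : b ≤ c) (h3 : c ≤ a + 2 * π) :
    0 ≤ FF N a b + FF N b c + FF N c a := by
  have hpi := Real.pi_pos
  rcases le_or_gt b (a + π) with k1 | k1
  · rcases le_or_gt c (b + π) with k2 | k2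
    · rcases le_or_gt (a + 2 * π) (c + π) with k3 | k3
      · have e1 := FF_nonneg hN h1 k1
        have e2 := FF_nonneg hN h2 k2
        have e3 := FF_nonneg hN h3 k3
        rw [FF_right hN] at e3
        linarith
      · have e1 := triA hN h1 k1 h2 k2
        rw [FF_anti a c]
        linarith
    · have e1 := triA hN (a := c) (b := a + 2 * π) (c := b + 2 * π) h3 (by linarith)
        (by linarith) (by linarith)
      rw [FF_right hN, FF_right hN, FF_right hN, FF_left hN] at e1
      rw [FF_anti c b]
      linarith
  · have e1 := triA hN (a := b) (b := c) (c := a + 2 * π) h2 (by linarith) h3 (by linarith)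
    rw [FF_right hN, FF_right hN] at e1
    rw [FF_anti b a]
    linarith

theorem orient_cr {a b c : ℝ} (h1 : a ≤ b) (h2 : b ≤ c) (h3 : c ≤ a + 2 * π) :
    0 ≤ cr (gam N b - gam N a) (gam N c - gam N a) := by
  have h := orient hN h1 h2 h3
  have e : cr (gam N b - gam N a) (gam N c - gam N a) = FF N a b + FF N b c + FF N c a := by
    unfold FF cr
    simp only [PiLp.sub_apply]
    ring
  rw [e]; exact h

/-- MONGE inequality on a half turn. -/
theorem monge {u v w z : ℝ} (h1 : u ≤ v) (h2 : v ≤ w) (h3 : w ≤ z) (h4 : z ≤ u + π) :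
    FF N u z + FF N v w ≤ FF N u w + FF N v z := by
  have hab := FF_nonneg hN h1 (by linarith)
  have hac := FF_nonneg hN (h1.trans h2) (show w ≤ u + π by linarith)
  have had := FF_nonneg hN (h1.trans (h2.trans h3)) h4
  have hbc := FF_nonneg hN h2 (show w ≤ v + π by linarith)
  have hbd := FF_nonneg hN (h2.trans h3) (show z ≤ v + π by linarith)
  have hcd := FF_nonneg hN h3 (show z ≤ w + π by linarith)
  -- height of -a is at least the height of c
  have i1 : FF N v w ≤ FF N u w + FF N u v := by
    have := triA hN (a := w) (b := u + π) (c := v + π) (by linarith) (by linarith) (by linarith)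
      (by linarith)
    rw [FF_right_pi hN, FF_right_pi hN, FF_pi_pi hN] at this
    rw [FF_anti v w, FF_anti u w] at this
    linarith
  have i2 : FF N u z ≤ FF N u v + FF N v z := triA hN h1 (by linarith) (by linarith) (by linarith)
  have i3 : FF N u w ≤ FF N w z + FF N u z := by
    have := triA hN (a := w) (b := z) (c := u + π) h3 (by linarith) h4 (by linarith)
    rw [FF_right_pi hN, FF_right_pi hN] at this
    rw [FF_anti u w, FF_anti u z] at this
    linarith
  have i4 : FF N v z ≤ FF N v w + FF N w z := triA hN h2 (by linarith) h3 (by linarith)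
  -- algebraic identities
  have P1 : FF N u w * (FF N v z - FF N u z) =
      FF N u z * (FF N v w - FF N u w) + FF N w z * FF N u v := by
    unfold FF cr; ring
  have P2 : FF N v z * (FF N v w - FF N u w) =
      -(FF N w z * FF N u v) + FF N v w * (FF N v z - FF N u z) := by
    unfold FF cr; ring
  rcases le_or_gt 0 (FF N v w - FF N u w) with hc | hc
  · rcases hac.lt_or_eq with hD | hD
    · have k1 : FF N u w * (FF N v w - FF N u w) ≤ FF N u w * (FF N v z - FF N u z) := by
        rw [P1]
        have k2 : FF N w z * (FF N v w - FF N u w) ≤ FF N w z * FF N u v :=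
          mul_le_mul_of_nonneg_left (by linarith) hcd
        have k3 : FF N u w * (FF N v w - FF N u w) ≤
            (FF N w z + FF N u z) * (FF N v w - FF N u w) :=
          mul_le_mul_of_nonneg_right i3 hc
        nlinarith
      have := le_of_mul_le_mul_left k1 hD
      linarith
    · -- `w = u` or `w = u + π`
      rw [FF_eq hN] at hD
      have k1 := uv_pos hN u
      have k2 := uv_pos hN w
      have k3 : 0 < (N (uv u))⁻¹ * (N (uv w))⁻¹ := by positivity
      have k4 : sin (w - u) = 0 := by
        rcases mul_eq_zero.1 hD.symm with h | h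
        · exact h
        · exact absurd h k3.ne'
      by_cases hwu : w = u
      · have : v = u := by linarith
        rw [this, hwu]
        linarith
      · have hpos : 0 < w - u := by
          have : u < w := lt_of_le_of_ne (h1.trans h2) (Ne.symm hwu)
          linarith
        have hwp : w - u = π := by
          by_contra hne
          have : w - u < π := lt_of_le_of_ne (by linarith) hne
          have := Real.sin_pos_of_pos_of_lt_pi hpos this
          linarith
        have hzw : z = w := by linarith
        rw [hzw]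
  · rcases le_or_gt 0 (FF N v z - FF N u z) with hd | hd
    · linarith
    rcases hbd.lt_or_eq with hD | hD
    · have k1 : FF N v z * (FF N v w - FF N u w) ≤ FF N v z * (FF N v z - FF N u z) := by
        rw [P2]
        have k2 : -(FF N w z * FF N u v) ≤ FF N w z * (FF N v z - FF N u z) := by
          have : FF N w z * (-(FF N u v)) ≤ FF N w z * (FF N v z - FF N u z) :=
            mul_le_mul_of_nonneg_left (by linarith) hcd
          linarith
        have k3 : (FF N v w + FF N w z) * (FF N v z - FF N u z) ≤
            FF N v z * (FF N v z - FF N u z) :=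
          mul_le_mul_of_nonpos_right i4 hd.le
        nlinarith
      have := le_of_mul_le_mul_left k1 hD
      linarith
    · rw [FF_eq hN] at hD
      have k1 := uv_pos hN v
      have k2 := uv_pos hN z
      have k3 : 0 < (N (uv v))⁻¹ * (N (uv z))⁻¹ := by positivity
      have k4 : sin (z - v) = 0 := by
        rcases mul_eq_zero.1 hD.symm with h | h
        · exact h
        · exact absurd h k3.ne'
      by_cases hzv : z = v
      · have hw : w = v := by linarith
        rw [hzv, hw]
      · have hpos : 0 < z - v := by
          have : v < z := lt_of_le_of_ne (h2.trans h3) (Ne.symm hzv)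
          linarith
        have hzp : z - v = π := by
          by_contra hne
          have : z - v < π := lt_of_le_of_ne (by linarith) hne
          have := Real.sin_pos_of_pos_of_lt_pi hpos this
          linarith
        have huv : u = v := by linarith
        rw [huv]
        linarith

end norm

end C2305bH52.Dow
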