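import Pool.Agent.W_c2305b_h52.Dow1

/-!
# Dowker's inequality, part 2: cyclic angle sequences and the exchange
-/

open Set Real Finset

namespace C2305bH52.Dow

open C2305b.TL (V cr)

/-- `u` is a cyclic sequence of `m` angles with arcs at most `π` -/
structure Cyc (m : ℕ) (u : ℕ → ℝ) : Prop where
  mono : ∀ j, u j ≤ u (j + 1)
  arc : ∀ j, u (j + 1) ≤ u j + π
  per : ∀ j, u (j + m) = u j + 2 * π

/-- twice the area of the polygon -/
noncomputable def AA (N : V → ℝ) (m : ℕ) (u : ℕ → ℝ) : ℝ := ∑ j ∈ range m, FF N (u j) (u (j + 1))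

theorem Cyc.le {m : ℕ} {u : ℕ → ℝ} (h : Cyc m u) {i j : ℕ} (hij : i ≤ j) : u i ≤ u j := by
  induction j, hij using Nat.le_induction with
  | base => exact le_rfl
  | succ n _ ih => exact ih.trans (h.mono n)

theorem Cyc.shift {m : ℕ} {u : ℕ → ℝ} (h : Cyc m u) (k : ℕ) : Cyc m (fun j => u (j + k)) where
  mono j := by
    have := h.mono (j + k)
    have e : j + k + 1 = j + 1 + k := by ring
    rwa [e] at this
  arc j := by
    have := h.arc (j + k)
    have e : j + k + 1 = j + 1 + k := by ring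
    rwa [e] at this
  per j := by
    have := h.per (j + k)
    have e : j + k + m = j + m + k := by ring
    rwa [e] at this

theorem Cyc.add {m : ℕ} {u : ℕ → ℝ} (h : Cyc m u) (c : ℝ) : Cyc m (fun j => u j + c) where
  mono j := by have := h.mono j; linarith
  arc j := by have := h.arc j; linarith
  per j := by have := h.per j; linarith

theorem Cyc.two_le {m : ℕ} {u : ℕ → ℝ} (h : Cyc m u) : 2 ≤ m := by
  have hpi := Real.pi_pos
  by_contra hc
  have : m = 0 ∨ m = 1 := by omega
  rcases this with rfl | rfl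
  · have := h.per 0
    simp at this
  · have h1 := h.per 0
    have h2 := h.arc 0
    rw [h1] at h2
    linarith

section

variable {N : V → ℝ} (hN : Nrm N)
include hN

theorem FF_both (s t : ℝ) : FF N (s + 2 * π) (t + 2 * π) = FF N s t := by
  rw [FF_left hN, FF_right hN]

theorem FF_both_nat (k : ℤ) (s t : ℝ) : FF N (s + 2 * π * k) (t + 2 * π * k) = FF N s t := by
  induction k using Int.induction_on with
  | zero => simp
  | succ n ih =>
    rw [← ih]
    have e1 : s + 2 * π * ((n : ℤ) + 1 : ℤ) = (s + 2 * π * (n : ℤ)) + 2 * π := by push_cast; ring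
    have e2 : t + 2 * π * ((n : ℤ) + 1 : ℤ) = (t + 2 * π * (n : ℤ)) + 2 * π := by push_cast; ring
    rw [e1, e2, FF_both hN]
  | pred n ih =>
    rw [← ih]
    have e1 : s + 2 * π * (-(n : ℤ) : ℤ) = (s + 2 * π * (-(n : ℤ) - 1 : ℤ)) + 2 * π := by
      push_cast; ring
    have e2 : t + 2 * π * (-(n : ℤ) : ℤ) = (t + 2 * π * (-(n : ℤ) - 1 : ℤ)) + 2 * π := by
      push_cast; ring
    rw [e1, e2, FF_both hN]

theorem AA_shift {m : ℕ} {u : ℕ → ℝ} (h : Cyc m u) (k : ℕ) :
    AA N m (fun j => u (j + k)) = AA N m u := by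
  induction k with
  | zero => rfl
  | succ k ih =>
    rw [← ih]
    unfold AA
    have h1 := Finset.sum_range_succ (fun j => FF N (u (j + k)) (u (j + 1 + k))) m
    have h2 := Finset.sum_range_succ' (fun j => FF N (u (j + k)) (u (j + 1 + k))) m
    have h3 : FF N (u (m + k)) (u (m + 1 + k)) = FF N (u (0 + k)) (u (0 + 1 + k)) := by
      have e1 : u (m + k) = u (0 + k) + 2 * π := by
        rw [← h.per]; congr 1; ring
      have e2 : u (m + 1 + k) = u (0 + 1 + k) + 2 * π := by
        rw [← h.per]; congr 1; ring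
      rw [e1, e2, FF_both hN]
    have h4 : ∑ j ∈ range m, FF N (u (j + (k + 1))) (u (j + 1 + (k + 1))) =
        ∑ j ∈ range m, FF N (u (j + 1 + k)) (u (j + 1 + 1 + k)) := by
      apply Finset.sum_congr rfl
      intro j _
      have e1 : j + (k + 1) = j + 1 + k := by ring
      have e2 : j + 1 + (k + 1) = j + 1 + 1 + k := by ring
      rw [e1, e2]
    rw [h4]
    linarith

theorem AA_add {m : ℕ} {u : ℕ → ℝ} (k : ℤ) :
    AA N m (fun j => u j + 2 * π * k) = AA N m u := by
  unfold AA
  apply Finset.sum_congr rfl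
  intro j _
  exact FF_both_nat hN k _ _

end

/-- periodic extension of a finite sequence -/
theorem exists_ext {m : ℕ} (hm : 1 ≤ m) {p : ℕ → ℝ} (h1 : ∀ j < m, p j ≤ p (j + 1))
    (h2 : ∀ j < m, p (j + 1) ≤ p j + π) (h3 : p m = p 0 + 2 * π) :
    ∃ u, Cyc m u ∧ ∀ j ≤ m, u j = p j := by
  let u : ℕ → ℝ := fun j => p (j % m) + 2 * π * (j / m : ℕ)
  have hu : ∀ q r, r < m → u (r + m * q) = p r + 2 * π * q := by
    intro q r hr
    simp only [u]
    rw [Nat.add_mul_mod_self_left, Nat.mod_eq_of_lt hr, Nat.add_mul_div_left _ _ (by omega),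
      Nat.div_eq_of_lt hr, zero_add]
  have hu1 : ∀ q r, r < m → u (r + m * q + 1) = p (r + 1) + 2 * π * q := by
    intro q r hr
    rcases Nat.lt_or_ge (r + 1) m with h | h
    · have e : r + m * q + 1 = (r + 1) + m * q := by ring
      rw [e, hu q (r + 1) h]
    · have e : r + m * q + 1 = 0 + m * (q + 1) := by
        have : m = r + 1 := by omega
        rw [this]; ring
      have e2 : r + 1 = m := by omega
      rw [e, hu (q + 1) 0 (by omega), e2, h3]
      push_cast; ring
  have hdec : ∀ j, j = j % m + m * (j / m) := fun j => (Nat.mod_add_div j m).symm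
  refine ⟨u, ⟨?_, ?_, ?_⟩, ?_⟩
  · intro j
    have hr := Nat.mod_lt j (show 0 < m by omega)
    rw [hdec j, hu _ _ hr, hu1 _ _ hr]
    have := h1 _ hr
    linarith
  · intro j
    have hr := Nat.mod_lt j (show 0 < m by omega)
    rw [hdec j, hu _ _ hr, hu1 _ _ hr]
    have := h2 _ hr
    linarith
  · intro j
    simp only [u]
    rw [Nat.add_mod_right, Nat.add_div_right _ (by omega)]
    push_cast; ring
  · intro j hj
    rcases Nat.lt_or_ge j m with h | h
    · have := hu 0 j h
      simpa using this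
    · have e : j = m := by omega
      have := hu 1 0 (by omega)
      rw [e, h3]
      simpa using this

/-- a finite sequence gives a cyclic one with the same sum -/
theorem exists_ext' {N : V → ℝ} {m : ℕ} (hm : 1 ≤ m) {p : ℕ → ℝ} (h1 : ∀ j < m, p j ≤ p (j + 1))
    (h2 : ∀ j < m, p (j + 1) ≤ p j + π) (h3 : p m = p 0 + 2 * π) :
    ∃ u, Cyc m u ∧ (∀ j ≤ m, u j = p j) ∧
      AA N m u = ∑ j ∈ range m, FF N (p j) (p (j + 1)) := by
  obtain ⟨u, hu, hup⟩ := exists_ext hm h1 h2 h3
  refine ⟨u, hu, hup, ?_⟩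
  unfold AA
  apply Finset.sum_congr rfl
  intro j hj
  rw [Finset.mem_range] at hj
  rw [hup j hj.le, hup (j + 1) hj]

/-- choose the starting point of `y` just after `x₀` -/
theorem exists_start {m : ℕ} {y : ℕ → ℝ} (h : Cyc m y) (x0 : ℝ) :
    ∃ (k : ℕ) (c : ℤ), x0 ≤ y (k + 1) + 2 * π * c ∧ y k + 2 * π * c < x0 := by
  have hpi := Real.pi_pos
  obtain ⟨c, hc⟩ : ∃ c : ℤ, y 0 + 2 * π * c < x0 := by
    obtain ⟨n, hn⟩ := exists_nat_gt ((y 0 - x0) / (2 * π))
    refine ⟨-n, ?_⟩
    rw [div_lt_iff₀ (by positivity)] at hn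
    push_cast
    nlinarith
  have hex : ∃ j, x0 ≤ y j + 2 * π * c := by
    obtain ⟨n, hn⟩ := exists_nat_gt ((x0 - (y 0 + 2 * π * c)) / (2 * π))
    rw [div_lt_iff₀ (by positivity)] at hn
    have hy : ∀ n : ℕ, y (0 + m * n) = y 0 + 2 * π * n := by
      intro n
      induction n with
      | zero => simp
      | succ n ih =>
        have e : 0 + m * (n + 1) = (0 + m * n) + m := by ring
        rw [e, h.per, ih]
        push_cast; ring
    refine ⟨0 + m * n, ?_⟩
    rw [hy]
    nlinarith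
  classical
  have hs := Nat.find_spec hex
  have hne : Nat.find hex ≠ 0 := by
    intro h0
    rw [h0] at hs
    linarith
  refine ⟨Nat.find hex - 1, c, ?_, ?_⟩
  · have e : Nat.find hex - 1 + 1 = Nat.find hex := by omega
    rw [e]; exact hs
  · have := Nat.find_min hex (m := Nat.find hex - 1) (by omega)
    push Not at this
    exact this

/-- THE EXCHANGE, aligned sequences. -/
theorem exchange_aux {N : V → ℝ} (hN : Nrm N) {n : ℕ} {x y : ℕ → ℝ} (hx : Cyc n x)
    (hy : Cyc (n + 2) y) (h0 : x 0 ≤ y 0) (h1 : y (n + 1) < x n) :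
    ∃ P Q, Cyc (n + 1) P ∧ Cyc (n + 1) Q ∧
      AA N n x + AA N (n + 2) y ≤ AA N (n + 1) P + AA N (n + 1) Q ∧
      (∀ j < n + 2, ∃ l < n + 1, P l = y j ∨ Q l = y j) ∧
      ∃ j l, (P l = y j ∧ P (l + 1) = y (j + 1)) ∨ (Q l = y j ∧ Q (l + 1) = y (j + 1)) := by
  classical
  have hpi := Real.pi_pos
  have hyn : y n ≤ y (n + 1) := hy.mono n
  have hex : ∃ j, y j < x j := ⟨n, by linarith⟩
  have hex' : ∃ j, y (j + 1) < x j := ⟨n, h1⟩
  -- the two crossings
  obtain ⟨i, hi1, hi2, himin⟩ : ∃ i, x i ≤ y i ∧ y (i + 1) < x (i + 1) ∧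
      ∀ j ≤ i, x j ≤ y j := by
    have hs := Nat.find_spec hex
    have hne : Nat.find hex ≠ 0 := by
      intro h; rw [h] at hs; linarith
    have e : Nat.find hex - 1 + 1 = Nat.find hex := by omega
    have hm : ∀ j ≤ Nat.find hex - 1, x j ≤ y j := by
      intro j hj
      have := Nat.find_min hex (m := j) (by omega)
      push Not at this
      exact this
    exact ⟨Nat.find hex - 1, hm _ le_rfl, by rw [e]; exact hs, hm⟩
  obtain ⟨i', hi1', hi2', hin⟩ : ∃ i', x i' ≤ y (i' + 1) ∧ y (i' + 2) < x (i' + 1) ∧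
      i' + 1 ≤ n := by
    have hs := Nat.find_spec hex'
    have hne : Nat.find hex' ≠ 0 := by
      intro h; rw [h] at hs
      have := hy.mono 0
      linarith
    have hle : Nat.find hex' ≤ n := Nat.find_min' hex' h1
    have e : Nat.find hex' - 1 + 1 = Nat.find hex' := by omega
    have hm := Nat.find_min hex' (m := Nat.find hex' - 1) (by omega)
    push Not at hm
    refine ⟨Nat.find hex' - 1, hm, ?_, by omega⟩
    have e2 : Nat.find hex' - 1 + 2 = Nat.find hex' + 1 := by omega
    rw [e2, e]; exact hs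
  have hii : i ≤ i' := by
    by_contra hc
    push Not at hc
    have h2 := himin (i' + 1) (by omega)
    have h3 := hy.mono (i' + 1)
    have e : i' + 1 + 1 = i' + 2 := rfl
    rw [e] at h3
    linarith
  let P : ℕ → ℝ := fun j => if j ≤ i then x j else if j ≤ i' + 1 then y j else x (j - 1)
  let Q : ℕ → ℝ := fun j => if j ≤ i then y j else if j ≤ i' then x j else y (j + 1)
  have P1 : ∀ j, j ≤ i → P j = x j := fun j hj => by simp only [P, if_pos hj]
  have P2 : ∀ j, i < j → j ≤ i' + 1 → P j = y j := fun j hj hj' => by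
    simp only [P, if_neg (not_le.2 hj), if_pos hj']
  have P3 : ∀ j, i' + 1 ≤ j → P (j + 1) = x j := fun j hj => by
    have a1 : ¬ (j + 1 ≤ i) := by omega
    have a2 : ¬ (j + 1 ≤ i' + 1) := by omega
    simp only [P, if_neg a1, if_neg a2, Nat.add_sub_cancel]
  have Q1 : ∀ j, j ≤ i → Q j = y j := fun j hj => by simp only [Q, if_pos hj]
  have Q2 : ∀ j, i < j → j ≤ i' → Q j = x j := fun j hj hj' => by
    simp only [Q, if_neg (not_le.2 hj), if_pos hj']
  have Q3 : ∀ j, i' + 1 ≤ j → Q j = y (j + 1) := fun j hj => by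
    have a1 : ¬ (j ≤ i) := by omega
    have a2 : ¬ (j ≤ i') := by omega
    simp only [Q, if_neg a1, if_neg a2]
  have yi : y i ≤ y (i + 1) := hy.mono i
  have yi' : y (i' + 1) ≤ y (i' + 2) := hy.mono (i' + 1)
  have xi := hx.arc i
  have xi' := hx.arc i'
  -- steps of P
  have Pstep : ∀ j < n + 1, P j ≤ P (j + 1) ∧ P (j + 1) ≤ P j + π := by
    intro j _
    rcases Nat.lt_trichotomy j i with h | h | h
    · rw [P1 j h.le, P1 (j + 1) h]
      exact ⟨hx.mono j, hx.arc j⟩
    · rw [h, P1 i le_rfl, P2 (i + 1) (by omega) (by omega)]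
      exact ⟨by linarith, by linarith⟩
    · rcases Nat.lt_trichotomy j (i' + 1) with h' | h' | h'
      · rw [P2 j h h'.le, P2 (j + 1) (by omega) h']
        exact ⟨hy.mono j, hy.arc j⟩
      · rw [h', P2 (i' + 1) (by omega) le_rfl, P3 (i' + 1) le_rfl]
        exact ⟨by linarith, by linarith⟩
      · obtain ⟨l, rfl⟩ : ∃ l, j = l + 1 := ⟨j - 1, by omega⟩
        rw [P3 l (by omega), P3 (l + 1) (by omega)]
        exact ⟨hx.mono l, hx.arc l⟩
  have Qstep : ∀ j < n + 1, Q j ≤ Q (j + 1) ∧ Q (j + 1) ≤ Q j + π := by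
    intro j _
    rcases Nat.lt_trichotomy j i with h | h | h
    · rw [Q1 j h.le, Q1 (j + 1) h]
      exact ⟨hy.mono j, hy.arc j⟩
    · rcases hii.lt_or_eq with h' | h'
      · rw [h, Q1 i le_rfl, Q2 (i + 1) (by omega) (by omega)]
        exact ⟨by linarith, by linarith⟩
      · rw [h, Q1 i le_rfl, Q3 (i + 1) (by omega)]
        have e : i + 1 + 1 = i' + 2 := by omega
        rw [e]
        subst h'
        exact ⟨by linarith, by linarith⟩
    · rcases Nat.lt_trichotomy j i' with h' | h' | h'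
      · rw [Q2 j h h'.le, Q2 (j + 1) (by omega) h']
        exact ⟨hx.mono j, hx.arc j⟩
      · rw [h', Q2 i' (by omega) le_rfl, Q3 (i' + 1) le_rfl]
        have e : i' + 1 + 1 = i' + 2 := rfl
        rw [e]
        exact ⟨by linarith, by linarith⟩
      · rw [Q3 j h', Q3 (j + 1) (by omega)]
        exact ⟨hy.mono (j + 1), hy.arc (j + 1)⟩
  have PE : P (n + 1) = P 0 + 2 * π := by
    rw [P3 n hin, P1 0 (Nat.zero_le _)]
    have := hx.per 0
    rwa [zero_add] at this
  have QE : Q (n + 1) = Q 0 + 2 * π := by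
    rw [Q3 (n + 1) (by omega), Q1 0 (Nat.zero_le _)]
    have := hy.per 0
    rwa [zero_add] at this
  obtain ⟨P', hP', hPP', hPA⟩ := exists_ext' (N := N) (show 1 ≤ n + 1 by omega)
    (fun j hj => (Pstep j hj).1) (fun j hj => (Pstep j hj).2) PE
  obtain ⟨Q', hQ', hQQ', hQA⟩ := exists_ext' (N := N) (show 1 ≤ n + 1 by omega)
    (fun j hj => (Qstep j hj).1) (fun j hj => (Qstep j hj).2) QE
  refine ⟨P', Q', hP', hQ', ?_, ?_, ?_⟩
  · rw [hPA, hQA]
    -- partial sums
    have L1 : ∀ t ≤ i, ∑ j ∈ range t, FF N (P j) (P (j + 1)) = ∑ j ∈ range t, FF N (x j) (x (j + 1)) ∧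
        ∑ j ∈ range t, FF N (Q j) (Q (j + 1)) = ∑ j ∈ range t, FF N (y j) (y (j + 1)) := by
      intro t ht
      constructor
      · apply Finset.sum_congr rfl
        intro j hj
        rw [Finset.mem_range] at hj
        rw [P1 j (by omega), P1 (j + 1) (by omega)]
      · apply Finset.sum_congr rfl
        intro j hj
        rw [Finset.mem_range] at hj
        rw [Q1 j (by omega), Q1 (j + 1) (by omega)]
    have L2 : ∀ t, i + 1 ≤ t → t ≤ i' →
        ∑ j ∈ range t, FF N (x j) (x (j + 1)) + ∑ j ∈ range t, FF N (y j) (y (j + 1)) ≤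
        ∑ j ∈ range t, FF N (P j) (P (j + 1)) + ∑ j ∈ range t, FF N (Q j) (Q (j + 1)) := by
      intro t ht
      induction t, ht using Nat.le_induction with
      | base =>
        intro hti
        rw [Finset.sum_range_succ, Finset.sum_range_succ, Finset.sum_range_succ,
          Finset.sum_range_succ, (L1 i le_rfl).1, (L1 i le_rfl).2, P1 i le_rfl,
          P2 (i + 1) (by omega) (by omega), Q1 i le_rfl, Q2 (i + 1) (by omega) (by omega)]
        have := monge hN hi1 yi hi2.le xi
        linarith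
      | succ t ht ih =>
        intro hti
        have := ih (by omega)
        rw [Finset.sum_range_succ, Finset.sum_range_succ _ t, Finset.sum_range_succ _ t,
          Finset.sum_range_succ _ t, P2 t (by omega) (by omega),
          P2 (t + 1) (by omega) (by omega), Q2 t (by omega) (by omega),
          Q2 (t + 1) (by omega) (by omega)]
        linarith
    have L3 : ∀ t, i' + 1 ≤ t →
        ∑ j ∈ range t, FF N (x j) (x (j + 1)) + ∑ j ∈ range (t + 1), FF N (y j) (y (j + 1)) ≤
        ∑ j ∈ range (t + 1), FF N (P j) (P (j + 1)) + ∑ j ∈ range t, FF N (Q j) (Q (j + 1)) := by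
      intro t ht
      induction t, ht using Nat.le_induction with
      | base =>
        rw [Finset.sum_range_succ _ i', Finset.sum_range_succ _ (i' + 1),
          Finset.sum_range_succ _ i', Finset.sum_range_succ _ (i' + 1),
          Finset.sum_range_succ _ i', Finset.sum_range_succ _ i',
          P2 (i' + 1) (by omega) le_rfl, P3 (i' + 1) le_rfl, Q3 (i' + 1) le_rfl]
        have e : i' + 1 + 1 = i' + 2 := rfl
        rw [e]
        rcases hii.lt_or_eq with h | h
        · have h2 := L2 i' (by omega) le_rfl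
          rw [P2 i' (by omega) (by omega), Q2 i' h le_rfl]
          have := monge hN hi1' yi' hi2'.le xi'
          linarith
        · rw [← h, (L1 i le_rfl).1, (L1 i le_rfl).2, P1 i le_rfl, Q1 i le_rfl]
          rw [← h] at yi' hi2'
          have m1 := monge hN hi1 yi hi2.le xi
          have m2 := monge hN yi yi' hi2'.le (show x (i + 1) ≤ y i + π by linarith)
          linarith
      | succ t ht ih =>
        have s1 := Finset.sum_range_succ (fun j => FF N (x j) (x (j + 1))) t
        have s2 := Finset.sum_range_succ (fun j => FF N (y j) (y (j + 1))) (t + 1)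
        have s3 := Finset.sum_range_succ (fun j => FF N (P j) (P (j + 1))) (t + 1)
        have s4 := Finset.sum_range_succ (fun j => FF N (Q j) (Q (j + 1))) t
        rw [P3 t ht, P3 (t + 1) (by omega)] at s3
        rw [Q3 t ht, Q3 (t + 1) (by omega)] at s4
        linarith
    have h3 := L3 n hin
    have h4 := Finset.sum_range_succ (fun j => FF N (Q j) (Q (j + 1))) n
    have h5 := Finset.sum_range_succ (fun j => FF N (y j) (y (j + 1))) (n + 1)
    rw [Q3 n hin, Q3 (n + 1) (by omega)] at h4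
    unfold AA
    have e : n + 1 + 1 = n + 2 := rfl
    rw [e] at h4 h5
    linarith
  · intro j hj
    rcases Nat.lt_or_ge i j with h | h
    · rcases Nat.lt_or_ge (i' + 1) j with h' | h'
      · refine ⟨j - 1, by omega, Or.inr ?_⟩
        rw [hQQ' (j - 1) (by omega), Q3 (j - 1) (by omega)]
        congr 1; omega
      · refine ⟨j, by omega, Or.inl ?_⟩
        rw [hPP' j (by omega), P2 j h h']
    · refine ⟨j, by omega, Or.inr ?_⟩
      rw [hQQ' j (by omega), Q1 j h]
  · rcases Nat.eq_zero_or_pos i with h | h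
    · rcases Nat.eq_zero_or_pos i' with h' | h'
      · refine ⟨2, 1, Or.inr ⟨?_, ?_⟩⟩
        · rw [hQQ' 1 (by omega), Q3 1 (by omega)]
        · rw [hQQ' 2 (by omega), Q3 2 (by omega)]
      · refine ⟨1, 1, Or.inl ⟨?_, ?_⟩⟩
        · rw [hPP' 1 (by omega), P2 1 (by omega) (by omega)]
        · rw [hPP' 2 (by omega), P2 2 (by omega) (by omega)]
    · refine ⟨0, 0, Or.inr ⟨?_, ?_⟩⟩
      · rw [hQQ' 0 (by omega), Q1 0 (by omega)]
      · rw [hQQ' 1 (by omega), Q1 1 (by omega)]

/-- THE EXCHANGE (Dowker): two polygons with `n` and `n + 2` corners against two polygons with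
`n + 1` corners. -/
theorem exchange {N : V → ℝ} (hN : Nrm N) {n : ℕ} {x y : ℕ → ℝ} (hx : Cyc n x)
    (hy : Cyc (n + 2) y) :
    ∃ P Q, Cyc (n + 1) P ∧ Cyc (n + 1) Q ∧
      AA N n x + AA N (n + 2) y ≤ AA N (n + 1) P + AA N (n + 1) Q ∧
      ∃ (k : ℕ) (c : ℤ), (∀ j < n + 2, ∃ l < n + 1,
        P l = y (j + k) + 2 * π * c ∨ Q l = y (j + k) + 2 * π * c) ∧
      ∃ j l, (P l = y (j + k) + 2 * π * c ∧ P (l + 1) = y (j + 1 + k) + 2 * π * c) ∨
        (Q l = y (j + k) + 2 * π * c ∧ Q (l + 1) = y (j + 1 + k) + 2 * π * c) := by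
  obtain ⟨k, c, hk1, hk2⟩ := exists_start hy (x 0)
  have hy' : Cyc (n + 2) (fun j => y (j + (k + 1)) + 2 * π * c) := (hy.shift (k + 1)).add _
  have h0 : x 0 ≤ y (0 + (k + 1)) + 2 * π * c := by
    rw [zero_add]; exact hk1
  have h1 : y (n + 1 + (k + 1)) + 2 * π * c < x n := by
    have e : n + 1 + (k + 1) = k + (n + 2) := by ring
    have e2 := hx.per 0
    rw [zero_add] at e2
    rw [e, hy.per, e2]
    linarith
  obtain ⟨P, Q, hP, hQ, hA, hmem, hsh⟩ := exchange_aux hN hx hy' h0 h1
  refine ⟨P, Q, hP, hQ, ?_, k + 1, c, hmem, hsh⟩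
  have e1 : AA N (n + 2) (fun j => y (j + (k + 1)) + 2 * π * c) = AA N (n + 2) y := by
    rw [← AA_shift hN hy (k + 1)]
    exact AA_add hN (u := fun j => y (j + (k + 1))) c
  rw [e1] at hA
  exact hA

end C2305bH52.Dow
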