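import Pool.Agent.W_c2305b_h52.Dow2

/-!
# Dowker's inequality, part 3: every finite set in the body has area at most that of a cyclic
sequence of boundary angles
-/

open MeasureTheory Set Real

namespace C2305bH52.Dow

open C2305b.TL (V cr)
open C2305bH52.DiscGap (uv uv_zero uv_one cr_uv exists_polar exists_interval cos_le_gap)

theorem AA_nonneg {N : V → ℝ} (hN : Nrm N) {m : ℕ} {u : ℕ → ℝ} (h : Cyc m u) : 0 ≤ AA N m u :=
  Finset.sum_nonneg fun j _ => FF_nonneg hN (h.mono j) (h.arc j)

theorem exists_cyc {m : ℕ} (hm : 2 ≤ m) : ∃ u, Cyc m u := by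
  have hpi := Real.pi_pos
  have hm0 : (0 : ℝ) < m := by positivity
  have hm2 : (2 : ℝ) ≤ m := by exact_mod_cast hm
  refine ⟨fun j => j * (2 * π / m), ?_, ?_, ?_⟩
  · intro j
    have : 0 ≤ 2 * π / m := by positivity
    push_cast
    nlinarith
  · intro j
    have : 2 * π / m ≤ π := by
      rw [div_le_iff₀ hm0]; nlinarith
    push_cast
    nlinarith
  · intro j
    push_cast
    field_simp

theorem pad {N : V → ℝ} {m : ℕ} {u : ℕ → ℝ} (h : Cyc m u) :
    ∃ u', Cyc (m + 1) u' ∧ AA N (m + 1) u' = AA N m u ∧ u' 0 = u 0 ∧ u' 1 = u 0 ∧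
      ∀ j < m, u' (j + 1) = u j := by
  have hm := h.two_le
  have hpi := Real.pi_pos
  obtain ⟨u', h1, h2, h3⟩ := exists_ext' (N := N) (m := m + 1) (by omega) (p := fun j => u (j - 1))
    (by
      intro j _
      rcases Nat.eq_zero_or_pos j with rfl | hj
      · exact le_rfl
      · have e : j + 1 - 1 = (j - 1) + 1 := by omega
        show u (j - 1) ≤ u (j + 1 - 1)
        rw [e]; exact h.mono _)
    (by
      intro j _
      rcases Nat.eq_zero_or_pos j with rfl | hj
      · simp only [zero_add, Nat.sub_self, Nat.zero_sub]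
        linarith
      · have e : j + 1 - 1 = (j - 1) + 1 := by omega
        show u (j + 1 - 1) ≤ u (j - 1) + π
        rw [e]; exact h.arc _)
    (by
      have := h.per 0
      rw [zero_add] at this
      simpa using this)
  refine ⟨u', h1, ?_, ?_, ?_, ?_⟩
  · rw [h3, Finset.sum_range_succ']
    simp only [Nat.add_sub_cancel, Nat.zero_sub, Nat.sub_self, zero_add]
    rw [FF_self, add_zero]
    rfl
  · have := h2 0 (by omega)
    simpa using this
  · have := h2 1 (by omega)
    simpa using this
  · intro j hj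
    have := h2 (j + 1) (by omega)
    simpa using this

theorem pad_to {N : V → ℝ} {n m : ℕ} (hnm : n ≤ m) {u : ℕ → ℝ} (h : Cyc n u) :
    ∃ u', Cyc m u' ∧ AA N m u' = AA N n u ∧ ∀ j < n, ∃ j' < m, u' j' = u j := by
  induction m, hnm using Nat.le_induction with
  | base => exact ⟨u, h, rfl, fun j hj => ⟨j, hj, rfl⟩⟩
  | succ m _ ih =>
    obtain ⟨u1, h1, h2, h2'⟩ := ih
    obtain ⟨u2, h3, h4, -, -, h5⟩ := pad (N := N) h1
    refine ⟨u2, h3, by rw [h4, h2], fun j hj => ?_⟩
    obtain ⟨j', hj', he⟩ := h2' j hj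
    exact ⟨j' + 1, by omega, by rw [h5 j' hj', he]⟩

theorem decomp {p q x : V} (h : cr p q ≠ 0) :
    (cr x q / cr p q) • p + (cr p x / cr p q) • q = x := by
  have hid : cr x q • p + cr p x • q = cr p q • x := by
    ext i
    fin_cases i
    · simp only [Fin.zero_eta, PiLp.add_apply, PiLp.smul_apply, smul_eq_mul, cr]
      ring
    · simp only [Fin.mk_one, PiLp.add_apply, PiLp.smul_apply, smul_eq_mul, cr]
      ring
  rw [div_eq_inv_mul, div_eq_inv_mul, mul_smul, mul_smul, ← smul_add, hid, smul_smul,
    inv_mul_cancel₀ h, one_smul]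

/-- the triangle `k` -/
noncomputable def TG (N : V → ℝ) (u : ℕ → ℝ) (k : ℕ) : Set V :=
  C2305bH68.Tri.lmap (gam N (u k)) (gam N (u (k + 1))) '' C2305bH68.Tri.std

theorem volume_TG {N : V → ℝ} (hN : Nrm N) {m : ℕ} {u : ℕ → ℝ} (h : Cyc m u) (k : ℕ) :
    volume (TG N u k) = ENNReal.ofReal (FF N (u k) (u (k + 1)) / 2) := by
  unfold TG
  rw [Measure.addHaar_image_linearMap, C2305bH68.Tri.det_lmap, C2305bH68.Tri.volume_std,
    ← ENNReal.ofReal_mul (abs_nonneg _)]
  congr 1
  have := FF_nonneg hN (h.mono k) (h.arc k)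
  unfold FF at *
  rw [abs_of_nonneg this]
  ring

theorem convex_ball {N : V → ℝ} (hN : Nrm N) : Convex ℝ {x : V | N x ≤ 1} := by
  intro x hx y hy a b ha hb hab
  simp only [Set.mem_setOf_eq] at *
  calc N (a • x + b • y) ≤ N (a • x) + N (b • y) := hN.add _ _
    _ = a * N x + b * N y := by rw [hN.smul, hN.smul, abs_of_nonneg ha, abs_of_nonneg hb]
    _ ≤ a * 1 + b * 1 := by
        have := mul_le_mul_of_nonneg_left hx ha
        have := mul_le_mul_of_nonneg_left hy hb
        linarith
    _ = 1 := by linarith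

/-- radial points of the sequence -/
def Rad (N : V → ℝ) (n : ℕ) (u : ℕ → ℝ) (S : Set V) : Prop :=
  ∀ z ∈ S, ∃ j < n, ∃ ρ : ℝ, 0 ≤ ρ ∧ ρ ≤ 1 ∧ z = ρ • gam N (u j)

theorem side {N : V → ℝ} (hN : Nrm N) {n : ℕ} {u : ℕ → ℝ} (h : Cyc n u) {S : Set V}
    (hS : Rad N n u S) {k : ℕ} (hk : k < n) {x : V} (hx : x ∈ convexHull ℝ S) :
    0 ≤ cr (gam N (u (k + 1)) - gam N (u k)) (x - gam N (u k)) := by
  set p := gam N (u k) with hp
  set q := gam N (u (k + 1)) with hq
  have hconv : Convex ℝ {x : V | 0 ≤ cr (q - p) (x - p)} := by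
    intro y hy z hz a b ha hb hab
    simp only [Set.mem_setOf_eq] at *
    have e : cr (q - p) (a • y + b • z - p) = a * cr (q - p) (y - p) + b * cr (q - p) (z - p) := by
      have hb' : b = 1 - a := by linarith
      subst hb'
      simp only [cr, PiLp.sub_apply, PiLp.add_apply, PiLp.smul_apply, smul_eq_mul]
      ring
    rw [e]
    positivity
  refine convexHull_min ?_ hconv hx
  intro z hz
  obtain ⟨j, hj, ρ, hρ0, hρ1, rfl⟩ := hS z hz
  have hpq : 0 ≤ cr p q := FF_nonneg hN (h.mono k) (h.arc k)
  have hor : 0 ≤ cr (q - p) (gam N (u j) - p) := by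
    have hper0 : u n = u 0 + 2 * π := by
      have := h.per 0
      rwa [zero_add] at this
    rcases Nat.lt_or_ge k j with hkj | hkj
    · have a1 : u j ≤ u k + 2 * π := by
        have := h.le hj.le
        have := h.le (Nat.zero_le k)
        linarith
      exact orient_cr hN (h.mono k) (h.le hkj) a1
    · have a1 : u (k + 1) ≤ u j + 2 * π := by
        have := h.le (show k + 1 ≤ n from hk)
        have := h.le (Nat.zero_le j)
        linarith
      have a2 : u j + 2 * π ≤ u k + 2 * π := by
        have := h.le hkj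
        linarith
      have := orient_cr hN (h.mono k) a1 a2
      rwa [gam_add_two_pi hN] at this
  have e : cr (q - p) (ρ • gam N (u j) - p) =
      (1 - ρ) * cr p q + ρ * cr (q - p) (gam N (u j) - p) := by
    simp only [cr, PiLp.sub_apply, PiLp.smul_apply, smul_eq_mul]
    ring
  show 0 ≤ cr (q - p) (ρ • gam N (u j) - p)
  rw [e]
  have : 0 ≤ 1 - ρ := by linarith
  positivity

theorem hull_cover {N : V → ℝ} (hN : Nrm N) {n : ℕ} {u : ℕ → ℝ} (h : Cyc n u) {S : Set V}
    (hS : Rad N n u S) : convexHull ℝ S ⊆ ⋃ k ∈ Finset.range n, TG N u k := by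
  intro x hx
  have hpi := Real.pi_pos
  have hn := h.two_le
  have hper0 : u n = u 0 + 2 * π := by
    have := h.per 0
    rwa [zero_add] at this
  obtain ⟨t, ht, r, hr0, hr2, hxr⟩ := exists_polar x (u 0)
  rw [mem_iUnion₂]
  rcases hr0.eq_or_lt with h0 | hrpos
  · refine ⟨0, Finset.mem_range.2 (by omega), 0, ⟨?_, ?_, ?_⟩, ?_⟩
    · simp
    · simp
    · simp
    · rw [map_zero, hxr, ← h0, zero_smul]
  obtain ⟨k, hk, hk1, hk2⟩ := exists_interval u (n := n) ht.1 (by rw [hper0]; exact ht.2)
  refine ⟨k, Finset.mem_range.2 hk, ?_⟩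
  have hside := side hN h hS hk hx
  have harc := h.arc k
  have Np := uv_pos hN (u k)
  have Nq := uv_pos hN (u (k + 1))
  have hcp : cr (gam N (u k)) x = r * (N (uv (u k)))⁻¹ * sin (t - u k) := by
    rw [hxr]
    unfold gam
    rw [C2305b.TL.cr_smul_left, C2305b.TL.cr_smul_right, cr_uv]
    ring
  have hcq : cr x (gam N (u (k + 1))) = r * (N (uv (u (k + 1))))⁻¹ * sin (u (k + 1) - t) := by
    rw [hxr]
    unfold gam
    rw [C2305b.TL.cr_smul_left, C2305b.TL.cr_smul_right, cr_uv]
    ring
  have hcp0 : 0 ≤ cr (gam N (u k)) x := by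
    rw [hcp]
    have : 0 ≤ sin (t - u k) := Real.sin_nonneg_of_nonneg_of_le_pi (by linarith) (by linarith)
    positivity
  have hcq0 : 0 ≤ cr x (gam N (u (k + 1))) := by
    rw [hcq]
    have : 0 ≤ sin (u (k + 1) - t) :=
      Real.sin_nonneg_of_nonneg_of_le_pi (by linarith) (by linarith)
    positivity
  rcases harc.lt_or_eq with hlt | heq
  · -- proper triangle
    have hpq : 0 < cr (gam N (u k)) (gam N (u (k + 1))) := by
      have e := FF_eq hN (u k) (u (k + 1))
      unfold FF at e
      rw [e]
      have : 0 < sin (u (k + 1) - u k) := Real.sin_pos_of_pos_of_lt_pi (by linarith) (by linarith)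
      positivity
    set p := gam N (u k) with hp
    set q := gam N (u (k + 1)) with hq
    let y : V := !₂[cr x q / cr p q, cr p x / cr p q]
    have hy0 : y 0 = cr x q / cr p q := by simp [y]
    have hy1 : y 1 = cr p x / cr p q := by simp [y]
    have hsum : cr x q / cr p q + cr p x / cr p q ≤ 1 := by
      rw [← add_div, div_le_one hpq]
      have e : cr (q - p) (x - p) = cr p q - cr x q - cr p x := by
        simp only [cr, PiLp.sub_apply]; ring
      rw [e] at hside
      linarith
    refine ⟨y, ⟨by rw [hy0]; positivity, by rw [hy1]; positivity, by rw [hy0, hy1]; exact hsum⟩, ?_⟩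
    rw [C2305bH68.Tri.lmap_apply, hy0, hy1]
    exact decomp hpq.ne'
  · -- opposite points
    have hq : gam N (u (k + 1)) = -gam N (u k) := by rw [heq, gam_add_pi hN]
    have h3 : cr (gam N (u k)) x ≤ 0 := by
      rw [hq] at hside
      have e : cr (-gam N (u k) - gam N (u k)) (x - gam N (u k)) = -2 * cr (gam N (u k)) x := by
        simp only [cr, PiLp.sub_apply, PiLp.neg_apply]; ring
      rw [e] at hside
      linarith
    have h4 : sin (t - u k) = 0 := by
      have h5 : r * (N (uv (u k)))⁻¹ * sin (t - u k) = 0 := by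
        rw [← hcp]; exact le_antisymm h3 hcp0
      rcases mul_eq_zero.1 h5 with h6 | h6
      · exfalso
        have : 0 < r * (N (uv (u k)))⁻¹ := by positivity
        linarith
      · exact h6
    have h5 : t = u k := by
      by_contra hne
      have hpos : 0 < t - u k := by
        have : u k < t := lt_of_le_of_ne hk1 (Ne.symm hne)
        linarith
      have := Real.sin_pos_of_pos_of_lt_pi hpos (by linarith)
      linarith
    have hx' : x = (r * N (uv (u k))) • gam N (u k) := by
      rw [hxr, h5]
      unfold gam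
      rw [smul_smul]
      congr 1
      field_simp
    have hNx : N x ≤ 1 := by
      have hsub : S ⊆ {x : V | N x ≤ 1} := by
        intro z hz
        obtain ⟨j, -, ρ, hρ0, hρ1, rfl⟩ := hS z hz
        show N (ρ • gam N (u j)) ≤ 1
        rw [hN.smul, N_gam hN, abs_of_nonneg hρ0, mul_one]
        exact hρ1
      exact convexHull_min hsub (convex_ball hN) hx
    have hρ1 : r * N (uv (u k)) ≤ 1 := by
      rw [hx', hN.smul, N_gam hN, abs_of_nonneg (by positivity), mul_one] at hNx
      exact hNx
    let y : V := !₂[r * N (uv (u k)), 0]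
    have hy0 : y 0 = r * N (uv (u k)) := by simp [y]
    have hy1 : y 1 = 0 := by simp [y]
    refine ⟨y, ⟨by rw [hy0]; positivity, by rw [hy1], by rw [hy0, hy1]; linarith⟩, ?_⟩
    rw [C2305bH68.Tri.lmap_apply, hy0, hy1, zero_smul, add_zero]
    exact hx'.symm

theorem volume_le {N : V → ℝ} (hN : Nrm N) {n : ℕ} {u : ℕ → ℝ} (h : Cyc n u) {S : Set V}
    (hS : Rad N n u S) : (volume (convexHull ℝ S)).toReal ≤ AA N n u / 2 := by
  have hnn : ∀ k ∈ Finset.range n, 0 ≤ FF N (u k) (u (k + 1)) / 2 := by
    intro k _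
    have := FF_nonneg hN (h.mono k) (h.arc k)
    positivity
  have h1 : volume (convexHull ℝ S) ≤
      ENNReal.ofReal (∑ k ∈ Finset.range n, FF N (u k) (u (k + 1)) / 2) := by
    calc volume (convexHull ℝ S) ≤ volume (⋃ k ∈ Finset.range n, TG N u k) :=
          measure_mono (hull_cover hN h hS)
      _ ≤ ∑ k ∈ Finset.range n, volume (TG N u k) := measure_biUnion_finset_le _ _
      _ = ∑ k ∈ Finset.range n, ENNReal.ofReal (FF N (u k) (u (k + 1)) / 2) :=
          Finset.sum_congr rfl fun k _ => volume_TG hN h k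
      _ = ENNReal.ofReal (∑ k ∈ Finset.range n, FF N (u k) (u (k + 1)) / 2) :=
          (ENNReal.ofReal_sum_of_nonneg hnn).symm
  have h2 := ENNReal.toReal_mono ENNReal.ofReal_ne_top h1
  rw [ENNReal.toReal_ofReal (Finset.sum_nonneg hnn)] at h2
  rw [← Finset.sum_div] at h2
  exact h2

/-- HELLY: a finite set in the ball can be translated so that its hull contains the centre. -/
theorem exists_centre {N : V → ℝ} (hN : Nrm N) {S : Finset V} (hne : S.Nonempty)
    (hS : ∀ s ∈ S, N s ≤ 1) : ∃ s0 ∈ convexHull ℝ (S : Set V), ∀ s ∈ S, N (s - s0) ≤ 1 := by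
  classical
  let F : Option V → Set V := fun o => match o with
    | none => convexHull ℝ (S : Set V)
    | some s => {y | N (s - y) ≤ 1}
  have hconv : ∀ o ∈ Finset.insertNone S, Convex ℝ (F o) := by
    intro o _
    match o with
    | none => exact convex_convexHull ℝ _
    | some s =>
      intro x hx y hy a b ha hb hab
      have hx' : N (s - x) ≤ 1 := hx
      have hy' : N (s - y) ≤ 1 := hy
      show N (s - (a • x + b • y)) ≤ 1
      have e : s - (a • x + b • y) = a • (s - x) + b • (s - y) := by
        have hb' : b = 1 - a := by linarith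
        subst hb'
        module
      rw [e]
      exact convex_ball hN hx' hy' ha hb hab
  have hfin : Module.finrank ℝ V = 2 := by simp
  have hinter : ∀ I ⊆ Finset.insertNone S, I.card ≤ Module.finrank ℝ V + 1 →
      (⋂ o ∈ I, F o).Nonempty := by
    intro I hI hcard
    rw [hfin] at hcard
    by_cases hnone : none ∈ I
    · -- the points of S in I
      have hTcard : (Finset.eraseNone I).card ≤ 2 := by
        have h1 : (Finset.eraseNone I).card ≤ (I.erase none).card := by
          rw [← Finset.card_map Function.Embedding.some, Finset.map_some_eraseNone]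
        rw [Finset.card_erase_of_mem hnone] at h1
        omega
      have hTS : ∀ s ∈ Finset.eraseNone I, s ∈ S := by
        intro s hs
        have := hI (Finset.mem_eraseNone.1 hs)
        exact Finset.some_mem_insertNone.1 this
      obtain ⟨a, ha, b, hb, hab⟩ : ∃ a ∈ S, ∃ b ∈ S, ∀ s ∈ Finset.eraseNone I, s = a ∨ s = b := by
        obtain ⟨w, hw⟩ := hne
        rcases Nat.lt_or_ge 1 (Finset.eraseNone I).card with h | h
        · have h2 : (Finset.eraseNone I).card = 2 := by omega
          obtain ⟨a, b, -, hT⟩ := Finset.card_eq_two.1 h2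
          refine ⟨a, hTS a (by rw [hT]; simp), b, hTS b (by rw [hT]; simp), ?_⟩
          intro s hs
          rw [hT] at hs
          simpa using hs
        · rcases Nat.lt_or_ge 0 (Finset.eraseNone I).card with h' | h'
          · have h2 : (Finset.eraseNone I).card = 1 := by omega
            obtain ⟨a, hT⟩ := Finset.card_eq_one.1 h2
            have haS := hTS a (by rw [hT]; simp)
            refine ⟨a, haS, a, haS, ?_⟩
            intro s hs
            rw [hT] at hs
            left
            simpa using hs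
          · have h2 : Finset.eraseNone I = ∅ := Finset.card_eq_zero.1 (by omega)
            refine ⟨w, hw, w, hw, ?_⟩
            intro s hs
            rw [h2] at hs
            simp at hs
      refine ⟨(1 / 2 : ℝ) • a + (1 / 2 : ℝ) • b, ?_⟩
      rw [mem_iInter₂]
      intro o ho
      match o with
      | none =>
        exact convex_convexHull ℝ _ (subset_convexHull ℝ _ ha) (subset_convexHull ℝ _ hb)
          (by norm_num) (by norm_num) (by norm_num)
      | some s =>
        show N (s - ((1 / 2 : ℝ) • a + (1 / 2 : ℝ) • b)) ≤ 1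
        have hmid : ∀ c d : V, N c ≤ 1 → N d ≤ 1 →
            N (c - ((1 / 2 : ℝ) • c + (1 / 2 : ℝ) • d)) ≤ 1 := by
          intro c d hc hd
          have e : c - ((1 / 2 : ℝ) • c + (1 / 2 : ℝ) • d) =
              (1 / 2 : ℝ) • c + (1 / 2 : ℝ) • (-d) := by module
          rw [e]
          exact convex_ball hN hc (show N (-d) ≤ 1 by rw [hN.neg]; exact hd) (by norm_num)
            (by norm_num) (by norm_num)
        rcases hab s (Finset.mem_eraseNone.2 ho) with rfl | rfl
        · exact hmid _ _ (hS _ ha) (hS _ hb)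
        · rw [add_comm]
          exact hmid _ _ (hS _ hb) (hS _ ha)
    · refine ⟨0, ?_⟩
      rw [mem_iInter₂]
      intro o ho
      match o with
      | none => exact absurd ho hnone
      | some s =>
        show N (s - 0) ≤ 1
        rw [sub_zero]
        exact hS s (Finset.some_mem_insertNone.1 (hI ho))
  obtain ⟨s0, hs0⟩ := Convex.helly_theorem' hconv hinter
  rw [mem_iInter₂] at hs0
  refine ⟨s0, hs0 none (Finset.none_mem_insertNone), ?_⟩
  intro s hs
  exact hs0 (some s) (Finset.some_mem_insertNone.2 hs)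

end C2305bH52.Dow
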