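import Pool.Agent.W_c2305b_h52.Dow3

/-!
# Dowker's inequality, part 4: a finite set of at most `m` points has area at most that of a
cyclic sequence with `m` angles
-/

open MeasureTheory Set Real

namespace C2305bH52.Dow

open C2305b.TL (V cr)
open C2305bH52.DiscGap (uv uv_zero uv_one cr_uv exists_polar exists_interval cos_le_gap)

/-- polar angle -/
noncomputable def ang (z : V) : ℝ := Complex.arg ⟨z 0, z 1⟩

theorem eq_ang (z : V) : z = ‖(⟨z 0, z 1⟩ : ℂ)‖ • uv (ang z) := by
  ext i
  fin_cases i
  · simp only [Fin.zero_eta, PiLp.smul_apply, smul_eq_mul, uv_zero, ang]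
    rw [Complex.norm_mul_cos_arg]
  · simp only [Fin.mk_one, PiLp.smul_apply, smul_eq_mul, uv_one, ang]
    rw [Complex.norm_mul_sin_arg]

theorem eq_gam {N : V → ℝ} (hN : Nrm N) (z : V) : z = N z • gam N (ang z) := by
  have h := eq_ang z
  have hp := uv_pos hN (ang z)
  have h1 : N z = ‖(⟨z 0, z 1⟩ : ℂ)‖ * N (uv (ang z)) := by
    conv_lhs => rw [h]
    rw [hN.smul, abs_of_nonneg (norm_nonneg _)]
  conv_lhs => rw [h]
  unfold gam
  rw [h1, smul_smul]
  congr 1
  field_simp

theorem volume_small {S : Finset V} (h : S.erase 0 = ∅) :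
    (volume (convexHull ℝ (S : Set V))).toReal = 0 := by
  classical
  have hsub : convexHull ℝ (S : Set V) ⊆ {0} := by
    refine convexHull_min ?_ (convex_singleton 0)
    intro z hz
    by_contra hne
    have : z ∈ S.erase 0 := Finset.mem_erase.2 ⟨hne, hz⟩
    rw [h] at this
    simp at this
  have h0 : volume (convexHull ℝ (S : Set V)) = 0 := by
    refine measure_mono_null hsub ?_
    simp
  rw [h0]
  rfl

theorem area_le_cyc0 {N : V → ℝ} (hN : Nrm N) {m : ℕ} (hm : 2 ≤ m) {S : Finset V}
    (hS : ∀ s ∈ S, N s ≤ 1) (h0 : (0 : V) ∈ convexHull ℝ (S : Set V)) (hcard : S.card ≤ m) :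
    ∃ u, Cyc m u ∧ (volume (convexHull ℝ (S : Set V))).toReal ≤ AA N m u / 2 ∧
      Rad N m u (S : Set V) := by
  classical
  have hpi := Real.pi_pos
  rcases (S.erase 0).eq_empty_or_nonempty with he | hne
  · obtain ⟨u, hu⟩ := exists_cyc hm
    refine ⟨u, hu, ?_, ?_⟩
    · rw [volume_small he]
      have := AA_nonneg hN hu
      positivity
    · intro z hz
      refine ⟨0, by omega, 0, le_rfl, zero_le_one, ?_⟩
      rw [zero_smul]
      by_contra hne
      have : z ∈ S.erase 0 := Finset.mem_erase.2 ⟨hne, hz⟩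
      rw [he] at this
      simp at this
  obtain ⟨z0, hz0⟩ := hne
  let anti : ℝ → ℝ := fun a => if a ≤ 0 then a + π else a - π
  let A0 : Finset ℝ := (S.erase 0).image ang
  let A : Finset ℝ := if (0 : V) ∈ S then insert (anti (ang z0)) A0 else A0
  have hA0A : A0 ⊆ A := by
    simp only [A]
    split_ifs
    · exact Finset.subset_insert _ _
    · exact Finset.Subset.refl _
  have hmemA : ∀ z ∈ S, z ≠ 0 → ang z ∈ A := fun z hz hz0 =>
    hA0A (Finset.mem_image_of_mem ang (Finset.mem_erase.2 ⟨hz0, hz⟩))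
  have hang : ∀ z, -π < ang z ∧ ang z ≤ π := fun z =>
    ⟨Complex.neg_pi_lt_arg _, Complex.arg_le_pi _⟩
  have hArange : ∀ a ∈ A, -π < a ∧ a ≤ π := by
    intro a ha
    have hA0r : a ∈ A0 → -π < a ∧ a ≤ π := by
      intro h
      obtain ⟨z, -, rfl⟩ := Finset.mem_image.1 h
      exact hang z
    simp only [A] at ha
    split_ifs at ha with hs
    · rcases Finset.mem_insert.1 ha with rfl | h
      · have := hang z0
        simp only [anti]
        split_ifs with h1
        · constructor <;> linarith [this.1, this.2]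
        · push Not at h1
          constructor <;> linarith [this.1, this.2]
      · exact hA0r h
    · exact hA0r ha
  have hAcard : A.card ≤ S.card := by
    have h1 : A0.card ≤ (S.erase 0).card := Finset.card_image_le
    simp only [A]
    split_ifs with hs
    · have h2 := Finset.card_insert_le (anti (ang z0)) A0
      have h3 := Finset.card_erase_of_mem hs
      have h4 : 1 ≤ S.card := Finset.card_pos.2 ⟨0, hs⟩
      omega
    · rw [Finset.erase_eq_of_notMem hs] at h1
      exact h1
  have hAne : A.Nonempty := ⟨ang z0, hA0A (Finset.mem_image_of_mem ang hz0)⟩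
  set n := A.card with hn
  have hn1 : 1 ≤ n := Finset.card_pos.2 hAne
  let σ : Fin n ↪o ℝ := A.orderEmbOfFin hn.symm
  have hσmem : ∀ k, σ k ∈ A := fun k => Finset.orderEmbOfFin_mem A hn.symm k
  let θ : ℕ → ℝ := fun k => if h : k < n then σ ⟨k, h⟩ else σ ⟨0, hn1⟩ + 2 * π
  have hθ : ∀ k (h : k < n), θ k = σ ⟨k, h⟩ := fun k h => by simp only [θ, dif_pos h]
  have hθn : θ n = θ 0 + 2 * π := by
    rw [hθ 0 hn1]
    simp only [θ, dif_neg (lt_irrefl n)]
  have hmono : ∀ k < n, θ k ≤ θ (k + 1) := by
    intro k hk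
    rcases Nat.lt_or_ge (k + 1) n with h | h
    · rw [hθ k hk, hθ (k + 1) h]
      exact σ.monotone (Fin.mk_le_mk.2 (Nat.le_succ k))
    · have e : k + 1 = n := by omega
      rw [e, hθn, hθ k hk, hθ 0 hn1]
      have h1 := (hArange _ (hσmem ⟨k, hk⟩)).2
      have h2 := (hArange _ (hσmem ⟨0, hn1⟩)).1
      linarith
  have hAθ : ∀ a ∈ A, ∃ j < n, θ j = a := by
    intro a ha
    have hrange : a ∈ Set.range σ := by
      rw [Finset.range_orderEmbOfFin]; exact ha
    obtain ⟨j, hj⟩ := hrange
    exact ⟨j.1, j.2, by rw [hθ j.1 j.2]; exact hj⟩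
  have harc : ∀ k < n, θ (k + 1) ≤ θ k + π := by
    intro k hk
    by_contra hc
    push Not at hc
    have a2 : θ 0 ≤ θ k := C2305bH52.DiscGap.theta_mono θ hmono (Nat.zero_le _) hk.le
    have a4 : θ (k + 1) ≤ θ n := C2305bH52.DiscGap.theta_mono θ hmono hk le_rfl
    set s := (θ k + θ (k + 1)) / 2 with hs
    set p := (θ (k + 1) - θ k) / 2 with hp
    have hp1 : π / 2 < p := by rw [hp]; linarith
    have hp2 : p ≤ π := by rw [hp]; linarith
    have hcp : cos p < 0 := Real.cos_neg_of_pi_div_two_lt_of_lt hp1 (by linarith)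
    have hall : ∀ a ∈ A, cos (s - a) < 0 := by
      intro a ha
      obtain ⟨j, hj, rfl⟩ := hAθ a ha
      have := cos_le_gap θ hmono hθn hk hj (s := s) (p := p) (by linarith)
        (by rw [hs, hp]; linarith) (by rw [hs, hp]; linarith)
      linarith
    have hA0' : ang z0 ∈ A := hA0A (Finset.mem_image_of_mem ang hz0)
    by_cases hzero : (0 : V) ∈ S
    · have h1 : anti (ang z0) ∈ A := by
        simp only [A, if_pos hzero]
        exact Finset.mem_insert_self _ _
      have h2 := hall _ h1
      have h3 := hall _ hA0'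
      simp only [anti] at h2
      split_ifs at h2 with h4
      · have e : s - (ang z0 + π) = (s - ang z0) - π := by ring
        rw [e, Real.cos_sub_pi] at h2
        linarith
      · have e : s - (ang z0 - π) = (s - ang z0) + π := by ring
        rw [e, Real.cos_add_pi] at h2
        linarith
    · have hconv : Convex ℝ {x : V | cos s * x 0 + sin s * x 1 < 0} := by
        intro y hy z hz a b ha hb hab
        simp only [Set.mem_setOf_eq, PiLp.add_apply, PiLp.smul_apply, smul_eq_mul] at *
        have e : cos s * (a * y 0 + b * z 0) + sin s * (a * y 1 + b * z 1) =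
          a * (cos s * y 0 + sin s * y 1) + b * (cos s * z 0 + sin s * z 1) := by ring
        rw [e]
        rcases ha.eq_or_lt with h | h
        · have hb1 : b = 1 := by linarith
          rw [← h, hb1]; linarith
        · have k1 := mul_neg_of_pos_of_neg h hy
          have k2 := mul_nonpos_of_nonneg_of_nonpos hb hz.le
          linarith
      have hsub : (S : Set V) ⊆ {x : V | cos s * x 0 + sin s * x 1 < 0} := by
        intro z hz
        have hz0 : z ≠ 0 := by
          rintro rfl
          exact hzero hz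
        have h1 := hall _ (hmemA z hz hz0)
        have h2 := eq_ang z
        have hnorm : 0 < ‖(⟨z 0, z 1⟩ : ℂ)‖ := by
          rw [norm_pos_iff]
          intro hc
          apply hz0
          rw [h2, hc, norm_zero, zero_smul]
        show cos s * z 0 + sin s * z 1 < 0
        have e0 : z 0 = ‖(⟨z 0, z 1⟩ : ℂ)‖ * cos (ang z) := by
          have := congrArg (fun v : V => v 0) h2
          simpa using this
        have e1 : z 1 = ‖(⟨z 0, z 1⟩ : ℂ)‖ * sin (ang z) := by
          have := congrArg (fun v : V => v 1) h2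
          simpa using this
        rw [cos_sub] at h1
        have e : cos s * z 0 + sin s * z 1 =
            ‖(⟨z 0, z 1⟩ : ℂ)‖ * (cos s * cos (ang z) + sin s * sin (ang z)) := by
          set r := ‖(⟨z 0, z 1⟩ : ℂ)‖
          rw [e0, e1]; ring
        rw [e]
        exact mul_neg_of_pos_of_neg hnorm h1
      have := convexHull_min hsub hconv h0
      simp at this
  obtain ⟨u, hu, huθ, -⟩ := exists_ext' (N := N) hn1 hmono harc hθn
  have hrad : Rad N n u (S : Set V) := by
    intro z hz
    by_cases hz0 : z = 0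
    · exact ⟨0, hn1, 0, le_rfl, zero_le_one, by rw [hz0, zero_smul]⟩
    · obtain ⟨j, hj, hja⟩ := hAθ _ (hmemA z hz hz0)
      refine ⟨j, hj, N z, hN.nonneg z, hS z hz, ?_⟩
      rw [huθ j hj.le, hja]
      exact eq_gam hN z
  have hvol := volume_le hN hu hrad
  obtain ⟨u', hu', hAA, hpad⟩ := pad_to (N := N) (hAcard.trans hcard) hu
  refine ⟨u', hu', by rw [hAA]; exact hvol, ?_⟩
  intro z hz
  obtain ⟨j, hj, ρ, h1, h2, h3⟩ := hrad z hz
  obtain ⟨j', hj', he⟩ := hpad j hj
  exact ⟨j', hj', ρ, h1, h2, by rw [he]; exact h3⟩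

/-- (3): a finite set with at most `m` points in the ball. -/
theorem area_le_cyc {N : V → ℝ} (hN : Nrm N) {m : ℕ} (hm : 2 ≤ m) {S : Finset V}
    (hS : ∀ s ∈ S, N s ≤ 1) (hcard : S.card ≤ m) :
    ∃ u, Cyc m u ∧ (volume (convexHull ℝ (S : Set V))).toReal ≤ AA N m u / 2 := by
  classical
  rcases S.eq_empty_or_nonempty with he | hne
  · obtain ⟨u, hu⟩ := exists_cyc hm
    refine ⟨u, hu, ?_⟩
    rw [he]
    have := AA_nonneg hN hu
    simp
    positivity
  obtain ⟨s0, hs0, hs0'⟩ := exists_centre hN hne hS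
  let f : V →ᵃ[ℝ] V := AffineMap.const ℝ V (-s0) + (LinearMap.id : V →ₗ[ℝ] V).toAffineMap
  have hf : ∀ x, f x = -s0 + x := fun x => by simp [f]
  let S' : Finset V := S.image f
  have hS'hull : convexHull ℝ (S' : Set V) = f '' convexHull ℝ (S : Set V) := by
    rw [AffineMap.image_convexHull, Finset.coe_image]
  have hS' : ∀ s ∈ S', N s ≤ 1 := by
    intro s hs
    obtain ⟨x, hx, rfl⟩ := Finset.mem_image.1 hs
    rw [hf]
    have := hs0' x hx
    have e : -s0 + x = x - s0 := by abel
    rw [e]; exact this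
  have h0 : (0 : V) ∈ convexHull ℝ (S' : Set V) := by
    rw [hS'hull]
    exact ⟨s0, hs0, by rw [hf]; abel⟩
  have hc : S'.card ≤ m := Finset.card_image_le.trans hcard
  obtain ⟨u, hu, hv, -⟩ := area_le_cyc0 hN hm hS' h0 hc
  refine ⟨u, hu, ?_⟩
  have hvol : volume (convexHull ℝ (S' : Set V)) = volume (convexHull ℝ (S : Set V)) := by
    rw [hS'hull]
    have e : (f '' convexHull ℝ (S : Set V)) = (fun x => -s0 + x) '' convexHull ℝ (S : Set V) := by
      apply Set.image_congr
      intro x _
      exact hf x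
    rw [e, Set.image_add_left, measure_preimage_add]
  rwa [hvol] at hv

end C2305bH52.Dow
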