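import Pool.Agent.W_c2305b_h52.Dow4

/-!
# Dowker's inequality, part 5: maximisers, Dowker's inequality, deletion of a corner
-/

open MeasureTheory Set Real

namespace C2305bH52.Dow

open C2305b.TL (V cr)
open C2305bH52.DiscGap (uv uv_zero uv_one cr_uv)

/-- normalised finite angle sequences -/
def PS (m : ℕ) : Set (Fin (m + 1) → ℝ) :=
  {p | 0 ≤ p 0 ∧ p 0 ≤ 2 * π ∧ (∀ j : Fin m, p j.castSucc ≤ p j.succ) ∧
    (∀ j : Fin m, p j.succ ≤ p j.castSucc + π) ∧ p (Fin.last m) = p 0 + 2 * π}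

theorem PS_compact (m : ℕ) : IsCompact (PS m) := by
  have hclosed : IsClosed (PS m) := by
    unfold PS
    simp only [Set.setOf_and]
    refine IsClosed.inter ?_ (IsClosed.inter ?_ (IsClosed.inter ?_ (IsClosed.inter ?_ ?_)))
    · exact isClosed_le continuous_const (continuous_apply 0)
    · exact isClosed_le (continuous_apply 0) continuous_const
    · simp only [Set.setOf_forall]
      exact isClosed_iInter fun j => isClosed_le (continuous_apply _) (continuous_apply _)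
    · simp only [Set.setOf_forall]
      exact isClosed_iInter fun j => isClosed_le (continuous_apply _)
        ((continuous_apply _).add continuous_const)
    · exact isClosed_eq (continuous_apply _) ((continuous_apply _).add continuous_const)
  refine IsCompact.of_isClosed_subset (isCompact_Icc (a := fun _ : Fin (m + 1) => (0 : ℝ))
    (b := fun _ : Fin (m + 1) => 4 * π)) hclosed ?_
  rintro p ⟨h1, h2, h3, -, h5⟩
  have hmono : Monotone p := Fin.monotone_iff_le_succ.2 h3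
  constructor
  · intro j
    exact h1.trans (hmono (Fin.zero_le j))
  · intro j
    have := hmono (Fin.le_last j)
    show p j ≤ 4 * π
    linarith

/-- the area functional on finite sequences -/
noncomputable def GG (N : V → ℝ) (m : ℕ) (p : Fin (m + 1) → ℝ) : ℝ :=
  ∑ j : Fin m, FF N (p j.castSucc) (p j.succ)

theorem continuous_GG {N : V → ℝ} (hN : Nrm N) (m : ℕ) : Continuous (GG N m) := by
  unfold GG
  refine continuous_finset_sum _ fun j _ => ?_
  have h1 : Continuous fun p : Fin (m + 1) → ℝ => gam N (p j.castSucc) :=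
    (continuous_gam hN).comp (continuous_apply _)
  have h2 : Continuous fun p : Fin (m + 1) → ℝ => gam N (p j.succ) :=
    (continuous_gam hN).comp (continuous_apply _)
  have e : ∀ i : Fin 2, Continuous fun v : V => v i := fun i => by fun_prop
  show Continuous fun p : Fin (m + 1) → ℝ => cr (gam N (p j.castSucc)) (gam N (p j.succ))
  unfold cr
  exact (((e 0).comp h1).mul ((e 1).comp h2)).sub (((e 1).comp h1).mul ((e 0).comp h2))

theorem mem_PS {m : ℕ} {v : ℕ → ℝ} (h : Cyc m v) (h0 : 0 ≤ v 0) (h1 : v 0 ≤ 2 * π) :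
    (fun j : Fin (m + 1) => v j) ∈ PS m := by
  refine ⟨h0, h1, fun j => ?_, fun j => ?_, ?_⟩
  · simpa using h.mono j
  · simpa using h.arc j
  · have := h.per 0
    rw [zero_add] at this
    simpa using this

theorem GG_eq {N : V → ℝ} {m : ℕ} (v : ℕ → ℝ) : GG N m (fun j : Fin (m + 1) => v j) = AA N m v := by
  unfold GG AA
  rw [Finset.sum_range]
  simp

theorem exists_norm {N : V → ℝ} (hN : Nrm N) {m : ℕ} {v : ℕ → ℝ} (h : Cyc m v) :
    ∃ w, Cyc m w ∧ 0 ≤ w 0 ∧ w 0 ≤ 2 * π ∧ AA N m w = AA N m v := by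
  have hpi := Real.pi_pos
  refine ⟨fun j => v j + 2 * π * ((-⌊v 0 / (2 * π)⌋ : ℤ) : ℝ), h.add _, ?_, ?_,
    AA_add hN (-⌊v 0 / (2 * π)⌋)⟩
  · have := Int.floor_le (v 0 / (2 * π))
    rw [le_div_iff₀ (by positivity)] at this
    push_cast
    linarith
  · have := Int.lt_floor_add_one (v 0 / (2 * π))
    rw [div_lt_iff₀ (by positivity)] at this
    push_cast
    linarith

/-- maximisers exist -/
theorem exists_max {N : V → ℝ} (hN : Nrm N) {m : ℕ} (hm : 2 ≤ m) :
    ∃ u, Cyc m u ∧ ∀ v, Cyc m v → AA N m v ≤ AA N m u := by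
  obtain ⟨w, hw⟩ := exists_cyc hm
  obtain ⟨w', hw', h0, h1, -⟩ := exists_norm hN hw
  obtain ⟨p, hp, hmax⟩ := (PS_compact m).exists_isMaxOn ⟨_, mem_PS hw' h0 h1⟩
    (continuous_GG hN m).continuousOn
  let q : ℕ → ℝ := fun j => if h : j < m + 1 then p ⟨j, h⟩ else 0
  have hq : ∀ j (h : j < m + 1), q j = p ⟨j, h⟩ := fun j h => by simp only [q, dif_pos h]
  obtain ⟨-, -, h3, h4, h5⟩ := hp
  obtain ⟨u, hu, -, hA⟩ := exists_ext' (N := N) (show 1 ≤ m by omega) (p := q)
    (fun j hj => by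
      rw [hq j (by omega), hq (j + 1) (by omega)]
      exact h3 ⟨j, hj⟩)
    (fun j hj => by
      rw [hq j (by omega), hq (j + 1) (by omega)]
      exact h4 ⟨j, hj⟩)
    (by
      rw [hq m (by omega), hq 0 (by omega)]
      exact h5)
  have hAG : AA N m u = GG N m p := by
    rw [hA, Finset.sum_range]
    unfold GG
    apply Finset.sum_congr rfl
    intro j _
    rw [hq j (by omega), hq (j + 1) (by omega)]
    rfl
  refine ⟨u, hu, fun v hv => ?_⟩
  obtain ⟨v', hv', h0', h1', hA'⟩ := exists_norm hN hv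
  have := hmax (mem_PS hv' h0' h1')
  rw [Set.mem_setOf_eq, GG_eq, hA', ← hAG] at this
  exact this

/-- maximal area of inscribed polygons with `m` corners -/
noncomputable def sm (N : V → ℝ) (m : ℕ) : ℝ := sSup {a | ∃ u, Cyc m u ∧ AA N m u / 2 = a}

theorem sm_spec {N : V → ℝ} (hN : Nrm N) {m : ℕ} (hm : 2 ≤ m) :
    (∃ u, Cyc m u ∧ AA N m u / 2 = sm N m) ∧ ∀ v, Cyc m v → AA N m v / 2 ≤ sm N m := by
  obtain ⟨u, hu, hmax⟩ := exists_max hN hm
  have hg : IsGreatest {a | ∃ u, Cyc m u ∧ AA N m u / 2 = a} (AA N m u / 2) := by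
    refine ⟨⟨u, hu, rfl⟩, ?_⟩
    rintro a ⟨v, hv, rfl⟩
    have := hmax v hv
    linarith
  have he : sm N m = AA N m u / 2 := hg.csSup_eq
  refine ⟨⟨u, hu, he.symm⟩, fun v hv => ?_⟩
  rw [he]
  have := hmax v hv
  linarith

/-- DOWKER'S INEQUALITY. -/
theorem dowker {N : V → ℝ} (hN : Nrm N) {n : ℕ} (hn : 2 ≤ n) :
    sm N n + sm N (n + 2) ≤ 2 * sm N (n + 1) := by
  obtain ⟨⟨x, hx, hxA⟩, -⟩ := sm_spec hN hn
  obtain ⟨⟨y, hy, hyA⟩, -⟩ := sm_spec hN (show 2 ≤ n + 2 by omega)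
  obtain ⟨-, hle⟩ := sm_spec hN (show 2 ≤ n + 1 by omega)
  obtain ⟨P, Q, hP, hQ, hA, -⟩ := exchange hN hx hy
  have h1 := hle P hP
  have h2 := hle Q hQ
  linarith

theorem sm_mono {N : V → ℝ} (hN : Nrm N) {n : ℕ} (hn : 2 ≤ n) : sm N n ≤ sm N (n + 1) := by
  obtain ⟨⟨x, hx, hxA⟩, -⟩ := sm_spec hN hn
  obtain ⟨u, hu, hA, -, -, -⟩ := pad (N := N) hx
  have := (sm_spec hN (show 2 ≤ n + 1 by omega)).2 u hu
  rw [hA, hxA] at this
  exact this

theorem area_le_sm {N : V → ℝ} (hN : Nrm N) {m : ℕ} (hm : 2 ≤ m) {S : Finset V}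
    (hS : ∀ s ∈ S, N s ≤ 1) (hcard : S.card ≤ m) :
    (volume (convexHull ℝ (S : Set V))).toReal ≤ sm N m := by
  obtain ⟨u, hu, h⟩ := area_le_cyc hN hm hS hcard
  exact h.trans ((sm_spec hN hm).2 u hu)

/-- deletion of the corner `1` -/
theorem del {N : V → ℝ} {m : ℕ} (hm : 2 ≤ m) {u : ℕ → ℝ} (h : Cyc (m + 1) u)
    (harc : u 2 ≤ u 0 + π) :
    ∃ v, Cyc m v ∧ AA N m v = AA N (m + 1) u - FF N (u 0) (u 1) - FF N (u 1) (u 2) +
      FF N (u 0) (u 2) := by
  obtain ⟨m', rfl⟩ : ∃ m', m = m' + 1 := ⟨m - 1, by omega⟩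
  let p : ℕ → ℝ := fun j => if j = 0 then u 0 else u (j + 1)
  have p0 : p 0 = u 0 := by simp [p]
  have ps : ∀ j, p (j + 1) = u (j + 2) := fun j => by simp [p]
  have hstep : ∀ j < m' + 1, p j ≤ p (j + 1) ∧ p (j + 1) ≤ p j + π := by
    intro j _
    rcases Nat.eq_zero_or_pos j with rfl | hj
    · rw [p0, ps]
      exact ⟨h.le (by omega), harc⟩
    · obtain ⟨i, rfl⟩ : ∃ i, j = i + 1 := ⟨j - 1, by omega⟩
      rw [ps, ps]
      exact ⟨h.mono _, h.arc _⟩
  obtain ⟨v, hv, -, hA⟩ := exists_ext' (N := N) (show 1 ≤ m' + 1 by omega) (p := p)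
    (fun j hj => (hstep j hj).1) (fun j hj => (hstep j hj).2)
    (by
      rw [ps, p0]
      have := h.per 0
      rw [zero_add] at this
      exact this)
  refine ⟨v, hv, ?_⟩
  have h1 := Finset.sum_range_succ' (fun j => FF N (p j) (p (j + 1))) m'
  have h2 := Finset.sum_range_succ' (fun j => FF N (u j) (u (j + 1))) (m' + 1)
  have h3 := Finset.sum_range_succ' (fun j => FF N (u (j + 1)) (u (j + 1 + 1))) m'
  have h4 : ∑ j ∈ Finset.range m', FF N (p (j + 1)) (p (j + 1 + 1)) =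
      ∑ j ∈ Finset.range m', FF N (u (j + 1 + 1)) (u (j + 1 + 1 + 1)) :=
    Finset.sum_congr rfl fun j _ => by rw [ps, ps]
  simp only [zero_add] at h1 h2 h3
  have e01 : p 1 = u 2 := ps 0
  rw [p0, e01] at h1
  rw [hA]
  unfold AA
  linarith

/-- equal boundary points have angles differing by a multiple of a full turn -/
theorem gam_inj {N : V → ℝ} (hN : Nrm N) {s t : ℝ} (h : gam N s = gam N t) :
    ∃ k : ℤ, s - t = 2 * π * k := by
  have hs := uv_pos hN s
  have ht := uv_pos hN t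
  have h0 : (N (uv s))⁻¹ * cos s = (N (uv t))⁻¹ * cos t := by
    have := congrArg (fun v : V => v 0) h
    simpa only [gam, PiLp.smul_apply, smul_eq_mul, uv_zero] using this
  have h1 : (N (uv s))⁻¹ * sin s = (N (uv t))⁻¹ * sin t := by
    have := congrArg (fun v : V => v 1) h
    simpa only [gam, PiLp.smul_apply, smul_eq_mul, uv_one] using this
  have hsq : (N (uv s))⁻¹ ^ 2 = (N (uv t))⁻¹ ^ 2 := by
    have e1 : (N (uv s))⁻¹ ^ 2 =
        ((N (uv s))⁻¹ * cos s) ^ 2 + ((N (uv s))⁻¹ * sin s) ^ 2 := by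
      have := Real.sin_sq_add_cos_sq s
      calc (N (uv s))⁻¹ ^ 2 = (N (uv s))⁻¹ ^ 2 * (sin s ^ 2 + cos s ^ 2) := by rw [this, mul_one]
        _ = _ := by ring
    have e2 : (N (uv t))⁻¹ ^ 2 =
        ((N (uv t))⁻¹ * cos t) ^ 2 + ((N (uv t))⁻¹ * sin t) ^ 2 := by
      have := Real.sin_sq_add_cos_sq t
      calc (N (uv t))⁻¹ ^ 2 = (N (uv t))⁻¹ ^ 2 * (sin t ^ 2 + cos t ^ 2) := by rw [this, mul_one]
        _ = _ := by ring
    rw [e1, e2, h0, h1]
  have heq : (N (uv s))⁻¹ = (N (uv t))⁻¹ := by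
    have h2 : 0 < (N (uv s))⁻¹ := by positivity
    have h3 : 0 < (N (uv t))⁻¹ := by positivity
    exact (pow_left_inj₀ h2.le h3.le (by norm_num)).1 hsq
  have hne : (N (uv t))⁻¹ ≠ 0 := by positivity
  rw [heq] at h0 h1
  have hc : cos s = cos t := mul_left_cancel₀ hne h0
  have hs' : sin s = sin t := mul_left_cancel₀ hne h1
  exact Real.Angle.angle_eq_iff_two_pi_dvd_sub.1 (Real.Angle.cos_sin_inj hc hs')

theorem eq_of_gam {N : V → ℝ} (hN : Nrm N) {s t : ℝ} (h : gam N s = gam N t)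
    (h1 : s < t + 2 * π) (h2 : t < s + 2 * π) : s = t := by
  have hpi := Real.pi_pos
  obtain ⟨k, hk⟩ := gam_inj hN h
  have hk1 : k < 1 := by
    have : 2 * π * k < 2 * π * 1 := by linarith
    exact_mod_cast (mul_lt_mul_iff_right₀ (by positivity : (0 : ℝ) < 2 * π)).1 this
  have hk2 : -1 < k := by
    have : 2 * π * (-1) < 2 * π * k := by linarith
    have := (mul_lt_mul_iff_right₀ (by positivity : (0 : ℝ) < 2 * π)).1 this
    exact_mod_cast this
  have : k = 0 := by omega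
  rw [this] at hk
  simp at hk
  linarith

end C2305bH52.Dow
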