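import Pool.Agent.W_c2305b_h52.Dow5
import Pool.Agent.W_c2305b_h68.Lab3
import Pool.Agent.W_c2305b_h74.Order
import Pool.Agent.W_c2305b_h35.Area
import Pool.Agent.W82_c2305b.Gap

/-!
# Dowker's inequality, part 6: the gap for bodies with a unique maximal hexagon
-/

open MeasureTheory Set Real

namespace C2305bH52.Dow

open C2305b.TL (V cr)
open C2305b.Rig (Conv6 ar6 LeMax UniqHex edge)
open C2305bH52.DiscGap (uv uv_zero uv_one cr_uv)
open C2305bH68.Ord (Corners)

theorem rig_cr (u v : V) : C2305b.Rig.cr u v = cr u v := rfl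

/-! ### the gauge of a symmetric convex body -/

theorem nhds_zero {K : Set V} (hconv : Convex ℝ K) (hsym : ∀ v ∈ K, -v ∈ K)
    (hint : (interior K).Nonempty) : K ∈ nhds (0 : V) := by
  obtain ⟨x, hx⟩ := hint
  have hneg : -x ∈ interior K := by
    have h1 : (Homeomorph.neg V) '' (interior K) ⊆ K := by
      rintro _ ⟨y, hy, rfl⟩
      exact hsym y (interior_subset hy)
    have h2 : IsOpen ((Homeomorph.neg V) '' (interior K)) :=
      (Homeomorph.neg V).isOpenMap _ isOpen_interior
    exact interior_maximal h1 h2 ⟨x, hx, rfl⟩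
  have h3 := hconv.interior hx hneg (a := 1 / 2) (b := 1 / 2) (by norm_num) (by norm_num)
    (by norm_num)
  have e : (1 / 2 : ℝ) • x + (1 / 2 : ℝ) • -x = 0 := by module
  rw [e] at h3
  exact mem_interior_iff_mem_nhds.1 h3

theorem nrm_gauge {K : Set V} (hK : IsCompact K) (hconv : Convex ℝ K) (hsym : ∀ v ∈ K, -v ∈ K)
    (hint : (interior K).Nonempty) : Nrm (gauge K) := by
  have h0 := nhds_zero hconv hsym hint
  have habs : Absorbent ℝ K := absorbent_nhds_zero h0
  have hb : Bornology.IsVonNBounded ℝ K := by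
    rw [NormedSpace.isVonNBounded_iff]
    exact hK.isBounded
  refine ⟨fun x hx => (gauge_pos habs hb).2 hx, fun x y => gauge_add_le hconv habs x y, ?_,
    continuous_gauge hconv h0⟩
  intro c x
  rcases le_or_gt 0 c with hc | hc
  · rw [gauge_smul_of_nonneg hc, abs_of_nonneg hc, smul_eq_mul]
  · have e : c • x = -((-c) • x) := by rw [neg_smul, neg_neg]
    rw [e, gauge_neg hsym, gauge_smul_of_nonneg (by linarith), abs_of_neg hc, smul_eq_mul]

theorem gauge_le_one {K : Set V} (hK : IsCompact K) (hconv : Convex ℝ K)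
    (hsym : ∀ v ∈ K, -v ∈ K) (hint : (interior K).Nonempty) (x : V) : gauge K x ≤ 1 ↔ x ∈ K := by
  rw [gauge_le_one_iff_mem_closure hconv (nhds_zero hconv hsym hint), hK.isClosed.closure_eq]

/-! ### the area of a convex sextuple -/

/-- the fan triangles of a sextuple -/
def fan (q : Fin 6 → V) (i : Fin 4) : Set V :=
  convexHull ℝ {q 0, q i.succ.castSucc, q i.succ.succ}

open C2305b.Rig.O74 in
theorem fan_null {q : Fin 6 → V} (hq : Conv6 q) {i j : Fin 4} (hij : i < j) :
    volume (fan q i ∩ fan q j) = 0 := by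
  set u := q i.succ.succ - q 0 with hu
  have h1 : ∀ x ∈ fan q i, C2305b.Rig.cr u (x - q 0) ≤ 0 := by
    have hsub : fan q i ⊆ {x | C2305b.Rig.cr u (x - q 0) ≤ 0} := by
      refine convexHull_min ?_ ?_
      · intro x hx
        simp only [mem_insert_iff, mem_singleton_iff] at hx
        simp only [mem_setOf_eq]
        rcases hx with rfl | rfl | rfl
        · rw [sub_self, cr_zero_right]
        · rw [cr_anti]
          have := hq 0 i.succ.castSucc i.succ.succ (by
            rw [Fin.lt_def]; simp) (by rw [Fin.lt_def]; simp)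
          linarith
        · rw [hu, C2305b.Rig.O74.cr_self]
      · intro x hx y hy a b _ _ hab
        simp only [mem_setOf_eq] at hx hy ⊢
        have h2 : a • x + b • y - q 0 = a • (x - q 0) + b • (y - q 0) := by
          have : q 0 = (a + b) • q 0 := by rw [hab, one_smul]
          rw [smul_sub, smul_sub]
          nth_rewrite 1 [this]
          rw [add_smul]; abel
        rw [h2, C2305b.Rig.O74.cr_add_right, C2305b.Rig.O74.cr_smul_right,
          C2305b.Rig.O74.cr_smul_right]
        have := mul_nonneg ‹0 ≤ a› (neg_nonneg.2 hx)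
        have := mul_nonneg ‹0 ≤ b› (neg_nonneg.2 hy)
        linarith
    exact fun x hx => hsub hx
  have h2 : ∀ x ∈ fan q j, 0 ≤ C2305b.Rig.cr u (x - q 0) := by
    have hge : ∀ k : Fin 6, i.succ.succ ≤ k → 0 ≤ C2305b.Rig.cr u (q k - q 0) := by
      intro k hk
      rcases eq_or_lt_of_le hk with h | h
      · rw [← h, hu, C2305b.Rig.O74.cr_self]
      · exact hq 0 i.succ.succ k (by rw [Fin.lt_def]; simp) h
    have hsub : fan q j ⊆ {x | 0 ≤ C2305b.Rig.cr u (x - q 0)} := by
      refine convexHull_min ?_ ?_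
      · intro x hx
        simp only [mem_insert_iff, mem_singleton_iff] at hx
        simp only [mem_setOf_eq]
        rw [Fin.lt_def] at hij
        rcases hx with rfl | rfl | rfl
        · rw [sub_self, cr_zero_right]
        · exact hge _ (by rw [Fin.le_def]; simp; omega)
        · exact hge _ (by rw [Fin.le_def]; simp; omega)
      · intro x hx y hy a b ha hb hab
        simp only [mem_setOf_eq] at hx hy ⊢
        have h2 : a • x + b • y - q 0 = a • (x - q 0) + b • (y - q 0) := by
          have : q 0 = (a + b) • q 0 := by rw [hab, one_smul]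
          rw [smul_sub, smul_sub]
          nth_rewrite 1 [this]
          rw [add_smul]; abel
        rw [h2, C2305b.Rig.O74.cr_add_right, C2305b.Rig.O74.cr_smul_right,
          C2305b.Rig.O74.cr_smul_right]
        have := mul_nonneg ha hx
        have := mul_nonneg hb hy
        linarith
    exact fun x hx => hsub hx
  by_cases hu0 : u = 0
  · refine measure_mono_null inter_subset_left ?_
    have h3 := C2305b.TL.volume_triangle (q 0) (q i.succ.castSucc) (q i.succ.succ)
    rw [← hu, hu0, C2305b.TL.cr_zero_right, abs_zero, zero_div,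
      ENNReal.toReal_eq_zero_iff] at h3
    exact h3.resolve_right (C2305b.TL.volume_triangle_ne_top _ _ _)
  · refine measure_mono_null ?_ (C2305bH68.Tri.null_line hu0 (q 0))
    rintro x ⟨hx1, hx2⟩
    exact le_antisymm (h1 x hx1) (h2 x hx2)

open C2305b.Rig.O74 in
/-- the area of a weakly convex sextuple is at most the area of the hull -/
theorem ar6_le_volume {q : Fin 6 → V} (hq : Conv6 q) :
    ar6 q ≤ (volume (convexHull ℝ (range q))).toReal := by
  have hm : ∀ i, MeasurableSet (fan q i) := fun i =>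
    ((Set.toFinite _).isCompact_convexHull ℝ).isClosed.measurableSet
  have hpw : Pairwise (Function.onFun (AEDisjoint volume) (fan q)) := by
    intro i j hij
    rcases lt_or_gt_of_ne hij with h | h
    · exact fan_null hq h
    · have := fan_null hq h
      rw [inter_comm] at this
      exact this
  have h1 : volume (⋃ i, fan q i) = ∑' i, volume (fan q i) :=
    measure_iUnion₀ hpw fun i => (hm i).nullMeasurableSet
  have h2 : (⋃ i, fan q i) ⊆ convexHull ℝ (range q) := by
    refine iUnion_subset fun i => convexHull_mono ?_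
    intro x hx
    simp only [mem_insert_iff, mem_singleton_iff] at hx
    rcases hx with rfl | rfl | rfl <;> exact mem_range_self _
  have hfin : volume (convexHull ℝ (range q)) ≠ ⊤ :=
    ((Set.finite_range q).isCompact_convexHull ℝ).measure_lt_top.ne
  have h3 : (∑' i, volume (fan q i)).toReal ≤ (volume (convexHull ℝ (range q))).toReal := by
    rw [← h1]
    exact ENNReal.toReal_mono hfin (measure_mono h2)
  have hft : ∀ i ∈ (Finset.univ : Finset (Fin 4)), volume (fan q i) ≠ ⊤ :=
    fun i _ => C2305b.TL.volume_triangle_ne_top _ _ _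
  rw [tsum_fintype, ENNReal.toReal_sum hft] at h3
  have h4 : ∀ i : Fin 4, (volume (fan q i)).toReal =
      C2305b.Rig.cr (q i.succ.castSucc - q 0) (q i.succ.succ - q 0) / 2 := by
    intro i
    unfold fan
    rw [C2305b.TL.volume_triangle]
    congr 1
    exact abs_of_nonneg (hq 0 i.succ.castSucc i.succ.succ (by
            rw [Fin.lt_def]; simp) (by rw [Fin.lt_def]; simp))
  simp only [h4] at h3
  rw [Fin.sum_univ_four] at h3
  rw [ar6_eq]
  refine le_trans (le_of_eq ?_) h3
  have e0 : (0 : Fin 4).succ.castSucc = (1 : Fin 6) := by decide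
  have e0' : (0 : Fin 4).succ.succ = (2 : Fin 6) := by decide
  have e1 : (1 : Fin 4).succ.castSucc = (2 : Fin 6) := by decide
  have e1' : (1 : Fin 4).succ.succ = (3 : Fin 6) := by decide
  have e2 : (2 : Fin 4).succ.castSucc = (3 : Fin 6) := by decide
  have e2' : (2 : Fin 4).succ.succ = (4 : Fin 6) := by decide
  have e3 : (3 : Fin 4).succ.castSucc = (4 : Fin 6) := by decide
  have e3' : (3 : Fin 4).succ.succ = (5 : Fin 6) := by decide
  rw [e0, e0', e1, e1', e2, e2', e3, e3']
  ring

/-! ### cyclic sextuples -/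

theorem gam_add_int {N : V → ℝ} (hN : Nrm N) (t : ℝ) (c : ℤ) :
    gam N (t + 2 * π * c) = gam N t := by
  have h : Function.Periodic (gam N) (2 * π) := fun t => gam_add_two_pi hN t
  have := h.int_mul c t
  rwa [mul_comm] at this

section hexa

variable {N : V → ℝ} (hN : Nrm N) {u : ℕ → ℝ} (h : Cyc 6 u)

include hN h

theorem conv6_gam : Conv6 (fun k : Fin 6 => gam N (u k)) := by
  intro i j k hij hjk
  have h1 : (i : ℕ) ≤ j := Fin.le_def.1 hij.le
  have h2 : (j : ℕ) ≤ k := Fin.le_def.1 hjk.le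
  refine orient_cr hN (h.le h1) (h.le h2) ?_
  have h3 : u (k : ℕ) ≤ u 6 := h.le (by omega)
  have h4 : u 0 ≤ u (i : ℕ) := h.le (Nat.zero_le _)
  have h5 := h.per 0
  rw [zero_add] at h5
  linarith

theorem ar6_gam : ar6 (fun k : Fin 6 => gam N (u k)) = AA N 6 u / 2 := by
  unfold ar6 AA
  congr 1
  have h5 := h.per 0
  rw [zero_add] at h5
  have e6 : gam N (u 0) = gam N (u 6) := by rw [h5, gam_add_two_pi hN]
  rw [Finset.sum_range]
  rw [Fin.sum_univ_six, Fin.sum_univ_six]
  show C2305b.Rig.cr (gam N (u 0)) (gam N (u 1)) + C2305b.Rig.cr (gam N (u 1)) (gam N (u 2)) +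
    C2305b.Rig.cr (gam N (u 2)) (gam N (u 3)) + C2305b.Rig.cr (gam N (u 3)) (gam N (u 4)) +
    C2305b.Rig.cr (gam N (u 4)) (gam N (u 5)) + C2305b.Rig.cr (gam N (u 5)) (gam N (u 0)) =
    cr (gam N (u 0)) (gam N (u 1)) + cr (gam N (u 1)) (gam N (u 2)) +
    cr (gam N (u 2)) (gam N (u 3)) + cr (gam N (u 3)) (gam N (u 4)) +
    cr (gam N (u 4)) (gam N (u 5)) + cr (gam N (u 5)) (gam N (u 6))
  rw [← e6]
  rfl

end hexa

section main

variable {K0 : Set V} {H : Fin 6 → V} {t6 : ℝ} (U : UniqHex K0 H t6) (hK : IsCompact K0)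
  (hconv : Convex ℝ K0) (hint : (interior K0).Nonempty)

include U hK hconv hint

theorem uniq_gam {u : ℕ → ℝ} (h : Cyc 6 u) (he : AA (gauge K0) 6 u / 2 = t6) :
    ∃ j : Fin 6, ∀ k : Fin 6, gam (gauge K0) (u k) = H (k + j) := by
  have hN := nrm_gauge hK hconv U.sym hint
  refine U.uniq (fun k => gam (gauge K0) (u k)) (conv6_gam hN h) (fun k => ?_) ?_
  · rw [← gauge_le_one hK hconv U.sym hint]
    exact (N_gam hN _).le
  · rw [ar6_gam hN h]
    exact he

theorem sm_six : sm (gauge K0) 6 = t6 := by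
  classical
  have hN := nrm_gauge hK hconv U.sym hint
  apply le_antisymm
  · obtain ⟨⟨u, hu, hA⟩, -⟩ := sm_spec hN (show 2 ≤ 6 by norm_num)
    rw [← hA, ← ar6_gam hN hu]
    refine U.le _ (conv6_gam hN hu) fun k => ?_
    rw [← gauge_le_one hK hconv U.sym hint]
    exact (N_gam hN _).le
  · rw [← U.area]
    refine (ar6_le_volume U.conv).trans ?_
    have hcard : (Finset.univ.image H).card ≤ 6 := by
      refine Finset.card_image_le.trans ?_
      simp
    have := area_le_sm hN (show 2 ≤ 6 by norm_num) (S := Finset.univ.image H) (by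
      intro s hs
      obtain ⟨k, -, rfl⟩ := Finset.mem_image.1 hs
      exact (gauge_le_one hK hconv U.sym hint _).2 (U.mem k)) hcard
    rw [Finset.coe_image, Finset.coe_univ, image_univ] at this
    exact this

/-- STRICT DOWKER INEQUALITY at six -/
theorem strict_dowker : sm (gauge K0) 5 + sm (gauge K0) 7 < 2 * sm (gauge K0) 6 := by
  classical
  have hpi := Real.pi_pos
  have hN := nrm_gauge hK hconv U.sym hint
  have h6 := sm_six U hK hconv hint
  by_contra hcon
  push Not at hcon
  obtain ⟨⟨x, hx, hxA⟩, -⟩ := sm_spec hN (show 2 ≤ 5 by norm_num)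
  obtain ⟨⟨y, hy, hyA⟩, -⟩ := sm_spec hN (show 2 ≤ 7 by norm_num)
  obtain ⟨-, hle6⟩ := sm_spec hN (show 2 ≤ 6 by norm_num)
  obtain ⟨P, Q, hP, hQ, hA, k0, c, hmem, -⟩ := exchange hN hx hy
  have hP1 : AA (gauge K0) 6 P / 2 ≤ sm (gauge K0) 6 := hle6 P hP
  have hQ1 : AA (gauge K0) 6 Q / 2 ≤ sm (gauge K0) 6 := hle6 Q hQ
  have hA' : AA (gauge K0) 5 x + AA (gauge K0) 7 y ≤ AA (gauge K0) 6 P + AA (gauge K0) 6 Q := hA
  have hPe : AA (gauge K0) 6 P / 2 = t6 := by linarith
  have hQe : AA (gauge K0) 6 Q / 2 = t6 := by linarith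
  obtain ⟨jP, hjP⟩ := uniq_gam U hK hconv hint hP hPe
  obtain ⟨jQ, hjQ⟩ := uniq_gam U hK hconv hint hQ hQe
  -- the corners of y are among the corners of H
  have hyH : ∀ j : Fin 7, ∃ l : Fin 6, H l = gam (gauge K0) (y ((j : ℕ) + k0)) := by
    intro j
    obtain ⟨l, hl, hor⟩ := hmem j (by have := j.isLt; omega)
    have hg := gam_add_int hN (y ((j : ℕ) + k0)) c
    rcases hor with hor | hor
    · refine ⟨(⟨l, hl⟩ : Fin 6) + jP, ?_⟩
      rw [← hjP ⟨l, hl⟩, ← hg, ← hor]
    · refine ⟨(⟨l, hl⟩ : Fin 6) + jQ, ?_⟩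
      rw [← hjQ ⟨l, hl⟩, ← hg, ← hor]
  choose f hf using hyH
  obtain ⟨j1, j2, hne, hfe⟩ := Fintype.exists_ne_map_eq_of_card_lt f (by simp)
  -- two consecutive equal angles
  obtain ⟨i, hi⟩ : ∃ i, y i = y (i + 1) := by
    have key : ∀ a b : Fin 7, a < b → f a = f b → ∃ i, y i = y (i + 1) := by
      intro a b hab hfab
      have hg : gam (gauge K0) (y ((a : ℕ) + k0)) = gam (gauge K0) (y ((b : ℕ) + k0)) := by
        rw [← hf a, ← hf b, hfab]
      have hab' : (a : ℕ) < b := Fin.lt_def.1 hab
      have hb := b.isLt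
      have h1 : y ((a : ℕ) + k0) ≤ y ((a : ℕ) + k0 + 1) := hy.mono _
      have h2 : y ((a : ℕ) + k0 + 1) ≤ y ((b : ℕ) + k0) := hy.le (by omega)
      have h3 : y ((b : ℕ) + k0) ≤ y ((b : ℕ) + k0 + 1) := hy.mono _
      have h4 : y ((b : ℕ) + k0 + 1) ≤ y ((a : ℕ) + k0 + 7) := hy.le (by omega)
      have h5 : y ((a : ℕ) + k0 + 7) = y ((a : ℕ) + k0) + 2 * π := hy.per _
      rcases lt_or_ge (y ((b : ℕ) + k0)) (y ((a : ℕ) + k0) + 2 * π) with h6 | h6
      · have h7 := eq_of_gam hN hg (by linarith) h6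
        exact ⟨(a : ℕ) + k0, by linarith⟩
      · exact ⟨(b : ℕ) + k0, by linarith⟩
    rcases lt_or_gt_of_ne hne with h | h
    · exact key j1 j2 h hfe
    · exact key j2 j1 h hfe.symm
  -- delete a corner
  have hys := hy.shift i
  obtain ⟨v, hv, hvA⟩ := del (N := gauge K0) (m := 6) (by norm_num) (u := fun j => y (j + i)) hys
    (by
      have e0 : y (0 + i) = y (1 + i) := by
        rw [zero_add, add_comm 1 i]; exact hi
      have h2 := hys.arc 1
      show y (2 + i) ≤ y (0 + i) + π
      rw [e0]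
      exact h2)
  have hv7 : AA (gauge K0) 6 v = AA (gauge K0) 7 y := by
    rw [hvA]
    have e1 : AA (gauge K0) (6 + 1) (fun j => y (j + i)) = AA (gauge K0) 7 y := AA_shift hN hy i
    rw [e1]
    have e0 : y (0 + i) = y (1 + i) := by
      rw [zero_add, add_comm 1 i]; exact hi
    show AA (gauge K0) 7 y - FF (gauge K0) (y (0 + i)) (y (1 + i)) -
      FF (gauge K0) (y (1 + i)) (y (2 + i)) + FF (gauge K0) (y (0 + i)) (y (2 + i)) = _
    rw [e0, FF_self]
    ring
  have hv6 := hle6 v hv
  have h56 : AA (gauge K0) 5 x / 2 ≥ t6 := by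
    rw [hv7, hyA] at hv6
    linarith
  obtain ⟨x', hx', hx'A, hx0, hx1, -⟩ := pad (N := gauge K0) hx
  have hx'A' : AA (gauge K0) 6 x' = AA (gauge K0) 5 x := hx'A
  have hx'6 := hle6 x' hx'
  have hx'e : AA (gauge K0) 6 x' / 2 = t6 := by
    have h7 : AA (gauge K0) 6 x' / 2 ≤ sm (gauge K0) 6 := hx'6
    linarith
  obtain ⟨j, hj⟩ := uniq_gam U hK hconv hint hx' hx'e
  have g0 : gam (gauge K0) (x' 0) = H (0 + j) := hj 0
  have g1 : gam (gauge K0) (x' 1) = H (1 + j) := hj 1
  rw [hx0] at g0
  rw [hx1, g0] at g1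
  apply C2305bH68.Lab.edge_ne U (0 + j)
  unfold edge
  have e : (0 + j + 1 : Fin 6) = 1 + j := by
    rw [zero_add, add_comm]
  rw [e, ← g1, sub_self]

/-- the ears of a maximal hexagon -/
theorem six_ear : 6 * (sm (gauge K0) 6 - sm (gauge K0) 5) ≤ t6 := by
  have hpi := Real.pi_pos
  have hN := nrm_gauge hK hconv U.sym hint
  have h6 := sm_six U hK hconv hint
  obtain ⟨⟨u, hu, huA⟩, -⟩ := sm_spec hN (show 2 ≤ 6 by norm_num)
  obtain ⟨-, hle5⟩ := sm_spec hN (show 2 ≤ 5 by norm_num)
  obtain ⟨j, hj⟩ := uniq_gam U hK hconv hint hu (by rw [huA, h6])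
  have hper := hu.per 0
  rw [zero_add] at hper
  -- central symmetry
  have hsym : ∀ k < 3, u (k + 3) = u k + π := by
    intro k hk
    have e1 : gam (gauge K0) (u k) = H ((⟨k, by omega⟩ : Fin 6) + j) := hj ⟨k, by omega⟩
    have e2 : gam (gauge K0) (u (k + 3)) = H ((⟨k + 3, by omega⟩ : Fin 6) + j) :=
      hj ⟨k + 3, by omega⟩
    have e3 : (⟨k + 3, by omega⟩ : Fin 6) + j = ((⟨k, by omega⟩ : Fin 6) + j) + 3 := by
      have e4 : (⟨k + 3, by omega⟩ : Fin 6) = (⟨k, by omega⟩ : Fin 6) + 3 := by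
        interval_cases k <;> rfl
      rw [e4, add_right_comm]
    have e5 : gam (gauge K0) (u (k + 3)) = gam (gauge K0) (u k + π) := by
      rw [gam_add_pi hN, e1, e2, e3, C2305bH68.Lab.sym3 U]
    have h1 : u k ≤ u (k + 3) := hu.le (by omega)
    have h2 : u (k + 3) ≤ u k + 2 * π := by
      rw [← hu.per k]
      exact hu.le (by omega)
    exact eq_of_gam hN e5 (by linarith) (by linarith)
  have s3 : u 3 = u 0 + π := hsym 0 (by norm_num)
  have s4 : u 4 = u 1 + π := hsym 1 (by norm_num)
  have s5 : u 5 = u 2 + π := hsym 2 (by norm_num)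
  have m0 := hu.mono 0
  have m1 := hu.mono 1
  have m2 := hu.mono 2
  have m3 := hu.mono 3
  norm_num at m0 m1 m2 m3
  set a := FF (gauge K0) (u 0) (u 1) with ha
  set b := FF (gauge K0) (u 1) (u 2) with hb
  set c := FF (gauge K0) (u 0) (u 2) with hc
  have f23 : FF (gauge K0) (u 2) (u 3) = c := by
    rw [s3, FF_right_pi hN, FF_anti (u 0) (u 2), neg_neg]
  have f34 : FF (gauge K0) (u 3) (u 4) = a := by
    rw [s3, s4, FF_pi_pi hN]
  have f45 : FF (gauge K0) (u 4) (u 5) = b := by
    rw [s4, s5, FF_pi_pi hN]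
  have f56 : FF (gauge K0) (u 5) (u 6) = c := by
    have e : u 6 = u 3 + π := by rw [hper, s3]; ring
    rw [s5, e, FF_pi_pi hN, f23]
  have f13 : FF (gauge K0) (u 1) (u 3) = a := by
    rw [s3, FF_right_pi hN, FF_anti (u 0) (u 1), neg_neg]
  have f24 : FF (gauge K0) (u 2) (u 4) = b := by
    rw [s4, FF_right_pi hN, FF_anti (u 1) (u 2), neg_neg]
  have hsum : AA (gauge K0) 6 u = 2 * (a + b + c) := by
    unfold AA
    simp only [Finset.sum_range_succ, Finset.sum_range_zero, zero_add]
    norm_num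
    rw [f23, f34, f45, f56, ← ha, ← hb]
    ring
  have ear : ∀ k < 3, u (k + 2) ≤ u k + π →
      AA (gauge K0) 6 u - FF (gauge K0) (u k) (u (k + 1)) - FF (gauge K0) (u (k + 1)) (u (k + 2)) +
        FF (gauge K0) (u k) (u (k + 2)) ≤ 2 * sm (gauge K0) 5 := by
    intro k _ harc
    have hus := hu.shift k
    obtain ⟨v, hv, hvA⟩ := del (N := gauge K0) (m := 5) (by norm_num) (u := fun j => u (j + k)) hus
      (by
        show u (2 + k) ≤ u (0 + k) + π
        rw [zero_add, add_comm 2 k]
        exact harc)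
    have e1 : AA (gauge K0) (5 + 1) (fun j => u (j + k)) = AA (gauge K0) 6 u := AA_shift hN hu k
    rw [e1] at hvA
    have hvA' : AA (gauge K0) 5 v = AA (gauge K0) 6 u - FF (gauge K0) (u (0 + k)) (u (1 + k)) -
      FF (gauge K0) (u (1 + k)) (u (2 + k)) + FF (gauge K0) (u (0 + k)) (u (2 + k)) := hvA
    rw [zero_add, add_comm 1 k, add_comm 2 k] at hvA'
    have := hle5 v hv
    linarith
  have e0 := ear 0 (by norm_num) (by norm_num; linarith)
  have e1 := ear 1 (by norm_num) (by norm_num; linarith)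
  have e2 := ear 2 (by norm_num) (by norm_num; linarith)
  norm_num at e0 e1 e2
  rw [f23, f13] at e1
  rw [f23, f34, f24] at e2
  rw [hsum] at e0 e1 e2 huA
  rw [← ha, ← hb, ← hc] at e0
  rw [← hb] at e1
  linarith

/-- THE GAP for bodies with a unique maximal hexagon. -/
theorem gap_of_uniq : ∃ τ g, W82.Gap K0 t6 τ g := by
  classical
  have hN := nrm_gauge hK hconv U.sym hint
  have h6 := sm_six U hK hconv hint
  have hst := strict_dowker U hK hconv hint
  have hear := six_ear U hK hconv hint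
  have h67 := sm_mono hN (show 2 ≤ 6 by norm_num)
  have d2 := dowker hN (show 2 ≤ 2 by norm_num)
  have d3 := dowker hN (show 2 ≤ 3 by norm_num)
  have d4 := dowker hN (show 2 ≤ 4 by norm_num)
  norm_num at h67 d2 d3 d4
  set s := sm (gauge K0) with hs
  set d := s 6 - s 5 with hd
  set e := s 7 - s 6 with he
  have hed : e < d := by linarith
  have he0 : 0 ≤ e := by linarith
  refine ⟨(d + e) / 2, min ((d - e) / 2) (t6 - 6 * ((d + e) / 2)), by linarith,
    lt_min (by linarith) (by linarith), ?_⟩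
  intro S hSK _ hS6
  have hSN : ∀ p ∈ S, gauge K0 p ≤ 1 := fun p hp =>
    (gauge_le_one hK hconv U.sym hint p).2 (hSK hp)
  have g1 := min_le_left ((d - e) / 2) (t6 - 6 * ((d + e) / 2))
  have g2 := min_le_right ((d - e) / 2) (t6 - 6 * ((d + e) / 2))
  set g := min ((d - e) / 2) (t6 - 6 * ((d + e) / 2)) with hg
  rcases Nat.lt_or_ge S.card 2 with hc | hc
  · have hsub : S.card ≤ 1 := by omega
    have hvol : (volume (convexHull ℝ (S : Set V))).toReal = 0 := by
      have h1 : (S : Set V).Subsingleton := by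
        intro a ha b hb
        exact Finset.card_le_one.1 hsub a ha b hb
      have h2 : (convexHull ℝ (S : Set V)).Subsingleton := by
        rcases h1.eq_empty_or_singleton with h | ⟨a, h⟩
        · rw [h, convexHull_empty]; exact subsingleton_empty
        · rw [h, convexHull_singleton]; exact subsingleton_singleton
      rw [h2.measure_zero]
      rfl
    rw [hvol]
    have h0 : (0 : ℝ) ≤ S.card := Nat.cast_nonneg _
    have h1 : 0 < (d + e) / 2 := by linarith
    nlinarith
  · have harea := area_le_sm hN hc hSN le_rfl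
    rw [← hs] at harea
    rcases Nat.lt_or_ge S.card 7 with h7 | h7
    · have hcases : S.card = 2 ∨ S.card = 3 ∨ S.card = 4 ∨ S.card = 5 := by omega
      rcases hcases with h | h | h | h <;> rw [h] at harea ⊢ <;> push_cast <;> linarith
    · -- m ≥ 7
      have hdiff : ∀ m, 6 ≤ m → s (m + 1) - s m ≤ e := by
        intro m hm
        induction m, hm using Nat.le_induction with
        | base => exact le_rfl
        | succ m hm ih =>
          have := dowker hN (show 2 ≤ m by omega)
          rw [← hs] at this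
          have e2 : m + 1 + 1 = m + 2 := rfl
          rw [e2]
          linarith
      have hbig : ∀ m, 6 ≤ m → s m ≤ s 6 + ((m : ℝ) - 6) * e := by
        intro m hm
        induction m, hm using Nat.le_induction with
        | base => norm_num
        | succ m hm ih =>
          have := hdiff m hm
          push_cast
          linarith
      have hb := hbig S.card (by omega)
      have h7' : (7 : ℝ) ≤ S.card := by exact_mod_cast h7
      nlinarith

end main

end C2305bH52.Dow
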