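import Pool.Agent.W_c2305b_h68.Cyc2

/-!
# Marks: a direction is passed at most once around a tile

`marks_unique`: along the boundary cycle of a tile, at most one step `k < b` has
`cr u (e k) < 0 <= cr u (e (k+1))`.
`unmarked_close`: edge vectors without marks with respect to the `2M` rays
`(cos (j pi / M), L sin (j pi / M))` are nearly parallel.
-/

open Set C2305b.TL

namespace C2305bH52.Marks

/-- Pluecker relation. -/
theorem plucker (u z e f : V) :
    cr u z * cr e f = cr u f * cr e z - cr u e * cr f z := by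
  unfold cr; ring

section cycle

variable {ι : Type*} (T : Tiling ι)

/-- A marked vertex minimises `cr u` on the tile. -/
theorem marked_min (i : ι) (q : ℕ → V) (hE : ∀ k, T.E i (q k) (q (k + 1)))
    (hb : ∀ k, q (k + 2) ≠ q k) {u : V} {k : ℕ}
    (h1 : cr u (q (k + 1) - q k) < 0) (h2 : 0 ≤ cr u (q (k + 2) - q (k + 1))) :
    ∀ z ∈ T.P i, 0 ≤ cr u (z - q (k + 1)) := by
  intro z hz
  obtain ⟨hv, hw, hne, hs, hopen⟩ := hE k
  obtain ⟨hv', hw', hne', hs', hopen'⟩ := hE (k + 1)
  have e12 : k + 1 + 1 = k + 2 := rfl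
  rw [e12] at hw' hne' hs' hopen'
  set e := q (k + 1) - q k with he
  set f := q (k + 2) - q (k + 1) with hf
  have hez : 0 ≤ cr e (z - q (k + 1)) := by
    have h3 := hs z hz
    have h4 : z - q k = (z - q (k + 1)) + e := by rw [he]; abel
    rw [h4, cr_add_right, cr_self, add_zero] at h3
    exact h3
  have hfz : 0 ≤ cr f (z - q (k + 1)) := hs' z hz
  have hef : 0 ≤ cr e f := by
    have h3 := hs _ hw'.2
    have h4 : q (k + 2) - q k = f + e := by rw [he, hf]; abel
    rw [h4, cr_add_right, cr_self, add_zero] at h3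
    exact h3
  have hP := plucker u (z - q (k + 1)) e f
  rcases hef.lt_or_eq with hpos | h0
  · have h5 : 0 ≤ cr u (z - q (k + 1)) * cr e f := by
      rw [hP]
      have h6 : 0 ≤ cr u f * cr e (z - q (k + 1)) := mul_nonneg h2 hez
      have h7 : cr u e * cr f (z - q (k + 1)) ≤ 0 :=
        mul_nonpos_of_nonpos_of_nonneg h1.le hfz
      linarith
    exact nonneg_of_mul_nonneg_left h5 hpos
  · exfalso
    have he0 : e ≠ 0 := by
      rw [he]; exact sub_ne_zero.2 hne
    have hf0 : f ≠ 0 := by
      rw [hf]; exact sub_ne_zero.2 hne'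
    obtain ⟨t, ht⟩ := exists_smul_of_cr_eq_zero he0 h0.symm
    have ht0 : t ≠ 0 := by
      rintro rfl
      rw [zero_smul] at ht
      exact hf0 ht
    have htn : t < 0 := by
      rcases lt_or_gt_of_ne ht0 with h | h
      · exact h
      · exfalso
        rw [ht, cr_smul_right] at h2
        nlinarith
    -- q (k+2) = q (k+1) + t e
    have hq : q (k + 2) = q (k + 1) + t • e := by
      rw [← ht, hf]; abel
    rcases lt_trichotomy (-t) 1 with h | h | h
    · -- q (k+2) in the open segment (q k, q (k+1))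
      apply hopen _ hw'.1
      refine ⟨-t, 1 + t, by linarith, by linarith, by ring, ?_⟩
      rw [hq, he]
      ext j
      simp only [PiLp.add_apply, PiLp.smul_apply, PiLp.sub_apply, smul_eq_mul]
      ring
    · apply hb k
      rw [hq, he]
      have : t = -1 := by linarith
      rw [this]
      ext j
      simp only [PiLp.add_apply, PiLp.smul_apply, PiLp.sub_apply, smul_eq_mul]
      ring
    · -- q k in the open segment (q (k+1), q (k+2))
      apply hopen' _ hv.1
      have h8 : (0 : ℝ) < -t := by linarith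
      refine ⟨1 - 1 / (-t), 1 / (-t), ?_, by positivity, by ring, ?_⟩
      · have : 1 / (-t) < 1 := by
          rw [div_lt_one h8]; exact h
        linarith
      · rw [hq, he]
        ext j
        simp only [PiLp.add_apply, PiLp.smul_apply, PiLp.sub_apply, smul_eq_mul]
        field_simp
        ring

/-- (D1): at most one mark per direction around a tile. -/
theorem marks_unique (i : ι) (q : ℕ → V) (hE : ∀ k, T.E i (q k) (q (k + 1)))
    (hmod : ∀ j k, q j = q k ↔ j ≡ k [MOD (T.verts i).card])
    (hor : ∀ a j k, a < j → j < k → k < a + (T.verts i).card →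
      0 ≤ cr (q j - q a) (q k - q a))
    {u : V} (hu : u ≠ 0) {k k' : ℕ} (hk : k < (T.verts i).card) (hk' : k' < (T.verts i).card)
    (h1 : cr u (q (k + 1) - q k) < 0) (h2 : 0 ≤ cr u (q (k + 2) - q (k + 1)))
    (h1' : cr u (q (k' + 1) - q k') < 0) (h2' : 0 ≤ cr u (q (k' + 2) - q (k' + 1))) :
    k = k' := by
  wlog hlt : k < k' generalizing k k' with H
  · rcases lt_trichotomy k k' with h | h | h
    · exact absurd h hlt
    · exact h
    · exact (H hk' hk h1' h2' h1 h2 h).symm
  exfalso
  have h3 := C2305bH68.Cyc.three_le_card T i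
  set b := (T.verts i).card with hbdef
  have hb2 : ∀ k, q (k + 2) ≠ q k := by
    intro k h
    have h4 := (hmod (k + 2) k).1 h
    have h5 : (k + 2) ≡ (k + 0) [MOD b] := h4
    have h6 := Nat.ModEq.add_left_cancel' k h5
    unfold Nat.ModEq at h6
    rw [Nat.mod_eq_of_lt (by omega), Nat.zero_mod] at h6
    omega
  have hmem : ∀ n, q n ∈ T.P i := fun n => (hE n).1.2
  have m1 := marked_min T i q hE hb2 h1 h2
  have m2 := marked_min T i q hE hb2 h1' h2'
  have a1 := m1 _ (hmem (k' + 1))
  have a2 := m2 _ (hmem (k + 1))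
  have a3 : cr u (q (k' + 1) - q (k + 1)) = 0 := by
    have : q (k + 1) - q (k' + 1) = -(q (k' + 1) - q (k + 1)) := by abel
    rw [this, cr_neg_right] at a2
    linarith
  -- values
  have b1 : 0 < cr u (q k - q (k + 1)) := by
    have : q k - q (k + 1) = -(q (k + 1) - q k) := by abel
    rw [this, cr_neg_right]; linarith
  have b2 : 0 < cr u (q k' - q (k' + 1)) := by
    have : q k' - q (k' + 1) = -(q (k' + 1) - q k') := by abel
    rw [this, cr_neg_right]; linarith
  have b3 : 0 < cr u (q k' - q (k + 1)) := by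
    have : q k' - q (k + 1) = (q k' - q (k' + 1)) + (q (k' + 1) - q (k + 1)) := by abel
    rw [this, cr_add_right, a3, add_zero]; exact b2
  rcases Nat.lt_or_ge (k + 1) k' with hc | hc
  · obtain ⟨c, hc'⟩ := exists_smul_of_cr_eq_zero hu a3
    have c1 := hor (k + 1) k' (k' + 1) hc (Nat.lt_succ_self _) (by omega)
    rw [hc', cr_smul_right, cr_swap u (q k' - q (k + 1))] at c1
    have hcne : c ≠ 0 := by
      rintro rfl
      rw [zero_smul, sub_eq_zero] at hc'
      have h4 := (hmod (k' + 1) (k + 1)).1 hc'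
      have h5 := Nat.ModEq.add_right_cancel' 1 h4
      unfold Nat.ModEq at h5
      rw [Nat.mod_eq_of_lt hk', Nat.mod_eq_of_lt hk] at h5
      omega
    have hcneg : c < 0 := by
      rcases lt_or_gt_of_ne hcne with h | h
      · exact h
      · exfalso; nlinarith
    rcases Nat.lt_or_ge (k' + 1) (k + b) with hd | hd
    · have c2 := hor (k + 1) (k' + 1) (k + b) (by omega) hd (by omega)
      have c3 : q (k + b) = q k := (hmod (k + b) k).2 Nat.add_modEq_right
      rw [hc', c3, cr_smul_left] at c2
      nlinarith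
    · have hk0 : k' + 1 = k + b := by omega
      have c3 : q (k + b) = q k := (hmod (k + b) k).2 Nat.add_modEq_right
      rw [hk0, c3] at a3
      linarith
  · have hk0 : k' = k + 1 := by omega
    rw [hk0] at b3
    rw [sub_self, cr_zero_right] at b3
    exact lt_irrefl _ b3

/-- (D1) packaged with the cycle: the number of marks of one direction is at most one. -/
theorem marks_card_le_one (i : ι) (q : ℕ → V) (hE : ∀ k, T.E i (q k) (q (k + 1)))
    (hmod : ∀ j k, q j = q k ↔ j ≡ k [MOD (T.verts i).card])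
    (hor : ∀ a j k, a < j → j < k → k < a + (T.verts i).card →
      0 ≤ cr (q j - q a) (q k - q a))
    {u : V} (hu : u ≠ 0) :
    {k ∈ Finset.range (T.verts i).card | cr u (q (k + 1) - q k) < 0 ∧
      0 ≤ cr u (q (k + 2) - q (k + 1))}.card ≤ 1 := by
  rw [Finset.card_le_one]
  intro k hk k' hk'
  rw [Finset.mem_filter, Finset.mem_range] at hk hk'
  exact marks_unique T i q hE hmod hor hu hk.1 hk'.1 hk.2.1 hk.2.2 hk'.2.1 hk'.2.2

end cycle

/-! ## Rays -/

/-- the ray `(cos (j pi / M), L sin (j pi / M))` -/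
noncomputable def ray (L : ℝ) (M j : ℕ) : V :=
  !₂[Real.cos (j * (Real.pi / M)), L * Real.sin (j * (Real.pi / M))]

@[simp] theorem ray_zero (L : ℝ) (M j : ℕ) : ray L M j 0 = Real.cos (j * (Real.pi / M)) := by
  simp [ray]

@[simp] theorem ray_one (L : ℝ) (M j : ℕ) :
    ray L M j 1 = L * Real.sin (j * (Real.pi / M)) := by
  simp [ray]

theorem ray_add {L : ℝ} {M : ℕ} (hM : 0 < M) (j : ℕ) : ray L M (j + M) = -ray L M j := by
  have hM' : (M : ℝ) ≠ 0 := by positivity
  have h : ((j + M : ℕ) : ℝ) * (Real.pi / M) = j * (Real.pi / M) + Real.pi := by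
    push_cast; field_simp
  ext i
  fin_cases i
  · simp only [Fin.zero_eta, PiLp.neg_apply, ray_zero, h, Real.cos_add_pi]
  · simp only [Fin.mk_one, PiLp.neg_apply, ray_one, h, Real.sin_add_pi]
    ring

theorem ray_add_two {L : ℝ} {M : ℕ} (hM : 0 < M) (j : ℕ) : ray L M (j + 2 * M) = ray L M j := by
  have h : j + 2 * M = (j + M) + M := by ring
  rw [h, ray_add hM, ray_add hM, neg_neg]

theorem ray_mod {L : ℝ} {M : ℕ} (hM : 0 < M) (j : ℕ) : ray L M (j % (2 * M)) = ray L M j := by
  induction j using Nat.strong_induction_on with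
  | _ j ih =>
    rcases Nat.lt_or_ge j (2 * M) with h | h
    · rw [Nat.mod_eq_of_lt h]
    · have h1 := ih (j - 2 * M) (by omega)
      have h2 : j = (j - 2 * M) + 2 * M := by omega
      rw [h2, Nat.add_mod_right, ray_add_two hM]
      exact h1

theorem ray_ne_zero {L : ℝ} (hL : 0 < L) (M j : ℕ) : ray L M j ≠ 0 := by
  intro h
  have h0 := congrArg (fun v : V => v 0) h
  have h1 := congrArg (fun v : V => v 1) h
  simp only [ray_zero, ray_one, PiLp.zero_apply] at h0 h1
  have h2 : Real.sin (j * (Real.pi / M)) = 0 := by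
    rcases mul_eq_zero.1 h1 with h | h
    · exact absurd h hL.ne'
    · exact h
  have := Real.sin_sq_add_cos_sq (j * (Real.pi / M))
  rw [h0, h2] at this
  norm_num at this

theorem cr_ray_succ {L : ℝ} {M : ℕ} (j : ℕ) :
    cr (ray L M j) (ray L M (j + 1)) = L * Real.sin (Real.pi / M) := by
  unfold cr
  simp only [ray_zero, ray_one]
  have h : ((j + 1 : ℕ) : ℝ) * (Real.pi / M) = j * (Real.pi / M) + Real.pi / M := by
    push_cast; ring
  rw [h, Real.sin_add, Real.cos_add]
  have := Real.sin_sq_add_cos_sq (j * (Real.pi / M))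
  linear_combination (L * Real.sin (Real.pi / M)) * this

/-- the rescaled scalar product -/
noncomputable def X (L : ℝ) (e f : V) : ℝ := e 0 * f 0 + e 1 * f 1 / L ^ 2

theorem sin_pos_of {M : ℕ} (hM : 3 ≤ M) : 0 < Real.sin (Real.pi / M) := by
  have hM' : (3 : ℝ) ≤ M := by exact_mod_cast hM
  have hpi := Real.pi_pos
  apply Real.sin_pos_of_pos_of_lt_pi
  · positivity
  · rw [div_lt_iff₀ (by linarith)]; nlinarith

theorem cos_pos_of {M : ℕ} (hM : 3 ≤ M) : 0 < Real.cos (Real.pi / M) := by
  have hM' : (3 : ℝ) ≤ M := by exact_mod_cast hM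
  have hpi := Real.pi_pos
  apply Real.cos_pos_of_mem_Ioo
  constructor
  · have : 0 < Real.pi / M := by positivity
    linarith
  · rw [div_lt_iff₀ (by linarith)]; nlinarith

/-- coordinates with respect to two consecutive rays -/
theorem exists_coord {L : ℝ} (hL : 0 < L) {M : ℕ} (hM : 3 ≤ M) (j : ℕ) (e : V) :
    ∃ α β : ℝ, e = α • ray L M j + β • ray L M (j + 1) ∧
      cr (ray L M j) e = β * (L * Real.sin (Real.pi / M)) ∧
      cr (ray L M (j + 1)) e = -(α * (L * Real.sin (Real.pi / M))) := by
  have hs := sin_pos_of hM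
  have hd : 0 < L * Real.sin (Real.pi / M) := by positivity
  set d := L * Real.sin (Real.pi / M) with hd'
  have hcr := cr_ray_succ (L := L) (M := M) j
  rw [← hd'] at hcr
  have he : e = (-(cr (ray L M (j + 1)) e) / d) • ray L M j +
      (cr (ray L M j) e / d) • ray L M (j + 1) := by
    have hcr' : ray L M j 0 * ray L M (j + 1) 1 - ray L M j 1 * ray L M (j + 1) 0 = d := hcr
    ext i
    fin_cases i
    · simp only [Fin.zero_eta, PiLp.add_apply, PiLp.smul_apply, smul_eq_mul]
      field_simp
      unfold cr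
      linear_combination (-(e 0)) * hcr'
    · simp only [Fin.mk_one, PiLp.add_apply, PiLp.smul_apply, smul_eq_mul]
      field_simp
      unfold cr
      linear_combination (-(e 1)) * hcr'
  refine ⟨_, _, he, ?_, ?_⟩
  · field_simp
  · field_simp

/-- the half open sector -/
def Sec (L : ℝ) (M j : ℕ) (e : V) : Prop :=
  0 ≤ cr (ray L M j) e ∧ cr (ray L M (j + 1)) e < 0

theorem Sec.coord {L : ℝ} (hL : 0 < L) {M : ℕ} (hM : 3 ≤ M) {j : ℕ} {e : V}
    (h : Sec L M j e) : ∃ α β : ℝ, 0 < α ∧ 0 ≤ β ∧ e = α • ray L M j + β • ray L M (j + 1) := by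
  obtain ⟨α, β, he, h1, h2⟩ := exists_coord hL hM j e
  have hs := sin_pos_of hM
  have hd : 0 < L * Real.sin (Real.pi / M) := by positivity
  refine ⟨α, β, ?_, ?_, he⟩
  · have := h.2
    rw [h2] at this
    by_contra hc
    push Not at hc
    nlinarith
  · have := h.1
    rw [h1] at this
    exact nonneg_of_mul_nonneg_left this hd

/-- every nonzero vector lies in a sector -/
theorem exists_sec {L : ℝ} (hL : 0 < L) {M : ℕ} (hM : 3 ≤ M) {e : V} (he : e ≠ 0) :
    ∃ j, Sec L M j e := by
  have hM0 : 0 < M := by omega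
  have hanti : ∀ j, cr (ray L M (j + M)) e = -cr (ray L M j) e := by
    intro j; rw [ray_add hM0, cr_neg_left]
  -- some index with negative value
  obtain ⟨j0, hj0⟩ : ∃ j, cr (ray L M j) e < 0 := by
    by_contra hc
    push Not at hc
    have hz : ∀ j, cr (ray L M j) e = 0 := by
      intro j
      have h1 := hc j
      have h2 := hc (j + M)
      rw [hanti] at h2
      linarith
    obtain ⟨α, β, he', h1, h2⟩ := exists_coord hL hM 0 e
    rw [hz] at h1 h2
    have hs := sin_pos_of hM
    have hd : 0 < L * Real.sin (Real.pi / M) := by positivity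
    have hβ : β = 0 := by
      rcases mul_eq_zero.1 h1.symm with h | h
      · exact h
      · exact absurd h hd.ne'
    have hα : α = 0 := by
      have : α * (L * Real.sin (Real.pi / M)) = 0 := by linarith
      rcases mul_eq_zero.1 this with h | h
      · exact h
      · exact absurd h hd.ne'
    rw [hα, hβ, zero_smul, zero_smul, add_zero] at he'
    exact he he'
  have hpos : 0 ≤ cr (ray L M (j0 + M)) e := by rw [hanti]; linarith
  have hneg : cr (ray L M (j0 + M + M)) e < 0 := by rw [hanti, hanti]; linarith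
  by_contra hc
  push Not at hc
  have hall : ∀ n, 0 ≤ cr (ray L M (j0 + M + n)) e := by
    intro n
    induction n with
    | zero => exact hpos
    | succ n ih =>
      by_contra h
      push Not at h
      exact hc (j0 + M + n) ⟨ih, h⟩
  exact absurd (hall M) (not_le.2 hneg)

/-- two vectors of one sector -/
theorem Sec.close {L : ℝ} (hL : 0 < L) {M : ℕ} (hM : 3 ≤ M) {j : ℕ} {e f : V}
    (he : Sec L M j e) (hf : Sec L M j f) :
    0 < X L e f ∧ |cr e f| ≤ L * Real.tan (Real.pi / M) * X L e f := by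
  obtain ⟨α, β, hα, hβ, rfl⟩ := he.coord hL hM
  obtain ⟨α', β', hα', hβ', rfl⟩ := hf.coord hL hM
  have hs := sin_pos_of hM
  have hc := cos_pos_of hM
  set d := Real.pi / M with hd
  have hX : X L (α • ray L M j + β • ray L M (j + 1)) (α' • ray L M j + β' • ray L M (j + 1)) =
      α * α' + β * β' + (α * β' + β * α') * Real.cos d := by
    unfold X
    simp only [PiLp.add_apply, PiLp.smul_apply, smul_eq_mul, ray_zero, ray_one]
    have h : ((j + 1 : ℕ) : ℝ) * (Real.pi / M) = j * d + d := by
      push_cast; rw [hd]; ring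
    rw [← hd] at h
    rw [← hd, h, Real.sin_add, Real.cos_add]
    have h1 := Real.sin_sq_add_cos_sq ((j : ℝ) * d)
    have h2 := Real.sin_sq_add_cos_sq d
    set s := Real.sin ((j : ℝ) * d)
    set c := Real.cos ((j : ℝ) * d)
    set s' := Real.sin d
    set c' := Real.cos d
    have hL' : L ≠ 0 := hL.ne'
    field_simp
    linear_combination (α * α' + β * β' * (s' ^ 2 + c' ^ 2) +
      (α * β' + β * α') * c') * h1 + (β * β') * h2
  have hC : cr (α • ray L M j + β • ray L M (j + 1)) (α' • ray L M j + β' • ray L M (j + 1)) =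
      (α * β' - β * α') * (L * Real.sin d) := by
    rw [cr_add_left, cr_add_right, cr_add_right, cr_smul_left, cr_smul_left, cr_smul_left,
      cr_smul_left, cr_smul_right, cr_smul_right, cr_smul_right, cr_smul_right, cr_self, cr_self,
      cr_swap (ray L M j) (ray L M (j + 1)), cr_ray_succ]
    ring
  rw [hX, hC]
  have p1 : 0 < α * α' := mul_pos hα hα'
  have p2 : 0 ≤ β * β' := mul_nonneg hβ hβ'
  have p3 : 0 ≤ α * β' := mul_nonneg hα.le hβ'
  have p4 : 0 ≤ β * α' := mul_nonneg hβ hα'.le
  have p5 : 0 ≤ (α * β' + β * α') * Real.cos d := by positivity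
  refine ⟨by linarith, ?_⟩
  rw [abs_mul, abs_of_pos (show 0 < L * Real.sin d by positivity)]
  have ht : L * Real.tan d * (α * α' + β * β' + (α * β' + β * α') * Real.cos d) ≥
      (α * β' + β * α') * (L * Real.sin d) := by
    have htan : Real.tan d * Real.cos d = Real.sin d := Real.tan_mul_cos hc.ne'
    have htp : 0 < Real.tan d := by
      rw [Real.tan_eq_sin_div_cos]; positivity
    have h1 : 0 ≤ L * Real.tan d * (α * α' + β * β') := by positivity
    have h2 : L * Real.tan d * ((α * β' + β * α') * Real.cos d) =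
        (α * β' + β * α') * (L * Real.sin d) := by
      rw [← htan]; ring
    have h3 : L * Real.tan d * (α * α' + β * β' + (α * β' + β * α') * Real.cos d) =
        L * Real.tan d * (α * α' + β * β') +
          L * Real.tan d * ((α * β' + β * α') * Real.cos d) := by ring
    rw [h3, h2]
    linarith
  have habs : |α * β' - β * α'| ≤ α * β' + β * α' := by
    rw [abs_le]; constructor <;> linarith
  have h4 : |α * β' - β * α'| * (L * Real.sin d) ≤ (α * β' + β * α') * (L * Real.sin d) :=
    mul_le_mul_of_nonneg_right habs (by positivity)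
  linarith

/-- an unmarked step stays in the sector -/
theorem Sec.step {L : ℝ} (hL : 0 < L) {M : ℕ} (hM : 3 ≤ M) {j : ℕ} {e f : V}
    (he : Sec L M j e) (hef : 0 ≤ cr e f)
    (hun : ∀ j < 2 * M, ¬ (cr (ray L M j) e < 0 ∧ 0 ≤ cr (ray L M j) f)) : Sec L M j f := by
  have hM0 : 0 < M := by omega
  have h1 : cr (ray L M (j + 1)) f < 0 := by
    have h2 := hun ((j + 1) % (2 * M)) (Nat.mod_lt _ (by omega))
    rw [ray_mod hM0] at h2
    by_contra hc
    push Not at hc
    exact h2 ⟨he.2, hc⟩
  refine ⟨?_, h1⟩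
  obtain ⟨α, β, hα, hβ, rfl⟩ := he.coord hL hM
  obtain ⟨α', β', hf, h3, h4⟩ := exists_coord hL hM j f
  have hs := sin_pos_of hM
  have hd : 0 < L * Real.sin (Real.pi / M) := by positivity
  set d := L * Real.sin (Real.pi / M) with hd'
  have hα' : 0 < α' := by
    rw [h4] at h1
    by_contra hc
    push Not at hc
    nlinarith
  rw [h3]
  have h5 : cr (α • ray L M j + β • ray L M (j + 1)) f = (α * β' - β * α') * d := by
    rw [cr_add_left, cr_smul_left, cr_smul_left, h3, h4]
    ring
  rw [h5] at hef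
  have h6 : 0 ≤ α * β' - β * α' := nonneg_of_mul_nonneg_left hef hd
  have h7 : 0 ≤ β * α' := mul_nonneg hβ hα'.le
  have h8 : 0 ≤ α * β' := by linarith
  have h9 : 0 ≤ β' := nonneg_of_mul_nonneg_right h8 hα
  positivity

/-- (D2): unmarked edge vectors are nearly parallel. -/
theorem unmarked_close {L : ℝ} (hL : 0 < L) {M : ℕ} (hM : 3 ≤ M) {W : ℕ} (e : ℕ → V)
    (hne : ∀ k < W, e k ≠ 0) (hcr : ∀ k, k + 1 < W → 0 ≤ cr (e k) (e (k + 1)))
    (hun : ∀ k, k + 1 < W → ∀ j < 2 * M,
      ¬ (cr (ray L M j) (e k) < 0 ∧ 0 ≤ cr (ray L M j) (e (k + 1)))) :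
    ∀ k < W, ∀ k' < W, 0 < X L (e k) (e k') ∧
      |cr (e k) (e k')| ≤ L * Real.tan (Real.pi / M) * X L (e k) (e k') := by
  intro k hk k' hk'
  have hW : 0 < W := by omega
  obtain ⟨j, hj⟩ := exists_sec hL hM (hne 0 hW)
  have hall : ∀ n < W, Sec L M j (e n) := by
    intro n
    induction n with
    | zero => intro _; exact hj
    | succ n ih =>
      intro hn
      exact (ih (by omega)).step hL hM (hcr n hn) (hun n hn)
  exact (hall k hk).close hL hM (hall k' hk')

end C2305bH52.Marks
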