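import Pool.Agent.W_c2305b_h77.FatDefs2

/-!
# Packing of cells
-/

open MeasureTheory Set Module

namespace C2305bFat

open W82
open C2305b.TL (cr)

variable {ι : Type*} {D : Set V} {P : ι → Set V}

/-- the volume of a disc in the plane is at most the volume of the square around it -/
theorem vol_closedBall_le (c : V) {R : ℝ} (hR : 0 ≤ R) :
    (volume (Metric.closedBall c R)).toReal ≤ 4 * R ^ 2 := by
  have h : volume (Metric.closedBall c R) = ENNReal.ofReal R ^ 2 * ENNReal.ofReal Real.pi := by
    rw [EuclideanSpace.volume_closedBall_fin_two c R]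
  rw [h, ENNReal.toReal_mul, ENNReal.toReal_pow, ENNReal.toReal_ofReal hR,
    ENNReal.toReal_ofReal Real.pi_pos.le]
  nlinarith [Real.pi_le_four, sq_nonneg R]

/-- (P) packing. -/
theorem packing (h : Tiling D P) {a R : ℝ} (_ha : 0 < a) (hR : 0 ≤ R) (c : V) (s : Finset ι)
    (h1 : ∀ i ∈ s, a ≤ (volume (P i)).toReal) (h2 : ∀ i ∈ s, P i ⊆ Metric.closedBall c R) :
    (s.card : ℝ) * a ≤ 4 * R ^ 2 := by
  classical
  have hfin : ∀ i, volume (P i) ≠ ⊤ := fun i => (h.comp i).measure_lt_top.ne
  have hint : ∀ i, volume (interior (P i)) = volume (P i) := by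
    intro i
    have h3 : volume (frontier (P i)) = 0 := (h.conv i).addHaar_frontier volume
    have h4 : P i = interior (P i) ∪ frontier (P i) := by
      rw [← closure_eq_interior_union_frontier, (h.comp i).isClosed.closure_eq]
    apply le_antisymm (measure_mono interior_subset)
    calc volume (P i) = volume (interior (P i) ∪ frontier (P i)) := by rw [← h4]
      _ ≤ volume (interior (P i)) + volume (frontier (P i)) := measure_union_le _ _
      _ = volume (interior (P i)) := by rw [h3, add_zero]
  have hsum : ∑ i ∈ s, volume (P i) ≤ volume (Metric.closedBall c R) := by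
    calc ∑ i ∈ s, volume (P i) = ∑ i ∈ s, volume (interior (P i)) :=
          Finset.sum_congr rfl fun i _ => (hint i).symm
      _ = volume (⋃ i ∈ s, interior (P i)) := by
          rw [measure_biUnion_finset]
          · intro i _ j _ hij
            exact h.disj i j hij
          · intro i _
            exact isOpen_interior.measurableSet
      _ ≤ volume (Metric.closedBall c R) :=
          measure_mono (iUnion₂_subset fun i hi => interior_subset.trans (h2 i hi))
  have hball : volume (Metric.closedBall c R) ≠ ⊤ :=
    (isCompact_closedBall c R).measure_lt_top.ne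
  calc (s.card : ℝ) * a = ∑ i ∈ s, a := by rw [Finset.sum_const, nsmul_eq_mul]
    _ ≤ ∑ i ∈ s, (volume (P i)).toReal := Finset.sum_le_sum h1
    _ = (∑ i ∈ s, volume (P i)).toReal := (ENNReal.toReal_sum fun i _ => hfin i).symm
    _ ≤ (volume (Metric.closedBall c R)).toReal := ENNReal.toReal_mono hball hsum
    _ ≤ 4 * R ^ 2 := vol_closedBall_le c hR

end C2305bFat
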