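import Pool.Agent.W_c2305b_h52.Dow6

/-!
# Symmetric maximal hexagons and the gap from a strict inequality
-/

open MeasureTheory Set Real

namespace C2305bH52.Dow

open C2305b.TL (V cr)
open C2305b.Rig (Conv6 ar6 LeMax UniqHex edge)
open C2305bH52.DiscGap (uv uv_zero uv_one cr_uv)
open C2305bH68.Ord (Corners)

/-- supremum and infimum of two cyclic sequences -/
theorem supinf {N : V → ℝ} (hN : Nrm N) {m : ℕ} {x y : ℕ → ℝ} (hx : Cyc m x) (hy : Cyc m y) :
    Cyc m (fun j => max (x j) (y j)) ∧ Cyc m (fun j => min (x j) (y j)) ∧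
      AA N m x + AA N m y ≤
        AA N m (fun j => max (x j) (y j)) + AA N m (fun j => min (x j) (y j)) := by
  refine ⟨⟨fun j => max_le_max (hx.mono j) (hy.mono j), fun j => ?_, fun j => ?_⟩,
    ⟨fun j => min_le_min (hx.mono j) (hy.mono j), fun j => ?_, fun j => ?_⟩, ?_⟩
  · have := hx.arc j
    have := hy.arc j
    rw [← max_add_add_right]
    exact max_le_max (hx.arc j) (hy.arc j)
  · show max (x (j + m)) (y (j + m)) = max (x j) (y j) + 2 * π
    rw [hx.per, hy.per, max_add_add_right]
  · show min (x (j + 1)) (y (j + 1)) ≤ min (x j) (y j) + π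
    rw [← min_add_add_right]
    exact min_le_min (hx.arc j) (hy.arc j)
  · show min (x (j + m)) (y (j + m)) = min (x j) (y j) + 2 * π
    rw [hx.per, hy.per, min_add_add_right]
  · unfold AA
    rw [← Finset.sum_add_distrib, ← Finset.sum_add_distrib]
    apply Finset.sum_le_sum
    intro j _
    show FF N (x j) (x (j + 1)) + FF N (y j) (y (j + 1)) ≤
      FF N (max (x j) (y j)) (max (x (j + 1)) (y (j + 1))) +
      FF N (min (x j) (y j)) (min (x (j + 1)) (y (j + 1)))
    rcases le_total (x j) (y j) with h1 | h1 <;> rcases le_total (x (j + 1)) (y (j + 1)) with h2 | h2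
    · rw [max_eq_right h1, max_eq_right h2, min_eq_left h1, min_eq_left h2]
      linarith
    · rw [max_eq_right h1, max_eq_left h2, min_eq_left h1, min_eq_right h2]
      have := monge hN h1 (hy.mono j) h2 (hx.arc j)
      linarith
    · rw [max_eq_left h1, max_eq_right h2, min_eq_right h1, min_eq_left h2]
      have := monge hN h1 (hx.mono j) h2 (hy.arc j)
      linarith
    · rw [max_eq_left h1, max_eq_left h2, min_eq_right h1, min_eq_right h2]

/-- the opposite sequence -/
theorem Cyc.opp {u : ℕ → ℝ} (h : Cyc 6 u) : Cyc 6 (fun j => u (j + 3) + -π) :=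
  (h.shift 3).add _

theorem AA_opp {N : V → ℝ} (hN : Nrm N) {u : ℕ → ℝ} (h : Cyc 6 u) :
    AA N 6 (fun j => u (j + 3) + -π) = AA N 6 u := by
  rw [← AA_shift hN h 3]
  unfold AA
  apply Finset.sum_congr rfl
  intro j _
  rw [← FF_pi_pi hN (u (j + 3) + -π)]
  simp only [neg_add_cancel_right]

/-- a centrally symmetric maximal hexagon -/
theorem exists_symm {N : V → ℝ} (hN : Nrm N) :
    ∃ u, Cyc 6 u ∧ AA N 6 u / 2 = sm N 6 ∧ ∀ k, u (k + 3) = u k + π := by
  obtain ⟨⟨x, hx, hxA⟩, hle⟩ := sm_spec hN (show 2 ≤ 6 by norm_num)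
  have hy := hx.opp
  have hyA := AA_opp hN hx
  obtain ⟨h1, h2, h3⟩ := supinf hN hx hy
  rw [hyA] at h3
  have e1 := hle _ h1
  have e2 := hle _ h2
  refine ⟨_, h1, by linarith, fun k => ?_⟩
  show max (x (k + 3)) (x (k + 3 + 3) + -π) = max (x k) (x (k + 3) + -π) + π
  have e3 : x (k + 3 + 3) = x k + 2 * π := hx.per k
  rw [e3, ← max_add_add_right, max_comm]
  congr 1 <;> ring

/-- the ears of a maximal hexagon -/
theorem six_ear' {N : V → ℝ} (hN : Nrm N) : 6 * (sm N 6 - sm N 5) ≤ sm N 6 := by
  have hpi := Real.pi_pos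
  obtain ⟨-, hle5⟩ := sm_spec hN (show 2 ≤ 5 by norm_num)
  obtain ⟨u, hu, huA, hsym⟩ := exists_symm hN
  have hper := hu.per 0
  rw [zero_add] at hper
  have s3 : u 3 = u 0 + π := hsym 0
  have s4 : u 4 = u 1 + π := hsym 1
  have s5 : u 5 = u 2 + π := hsym 2
  have m0 := hu.mono 0
  have m1 := hu.mono 1
  have m2 := hu.mono 2
  have m3 := hu.mono 3
  norm_num at m0 m1 m2 m3
  set a := FF N (u 0) (u 1) with ha
  set b := FF N (u 1) (u 2) with hb
  set c := FF N (u 0) (u 2) with hc
  have f23 : FF N (u 2) (u 3) = c := by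
    rw [s3, FF_right_pi hN, FF_anti (u 0) (u 2), neg_neg]
  have f34 : FF N (u 3) (u 4) = a := by
    rw [s3, s4, FF_pi_pi hN]
  have f45 : FF N (u 4) (u 5) = b := by
    rw [s4, s5, FF_pi_pi hN]
  have f56 : FF N (u 5) (u 6) = c := by
    have e : u 6 = u 3 + π := by rw [hper, s3]; ring
    rw [s5, e, FF_pi_pi hN, f23]
  have f13 : FF N (u 1) (u 3) = a := by
    rw [s3, FF_right_pi hN, FF_anti (u 0) (u 1), neg_neg]
  have f24 : FF N (u 2) (u 4) = b := by
    rw [s4, FF_right_pi hN, FF_anti (u 1) (u 2), neg_neg]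
  have hsum : AA N 6 u = 2 * (a + b + c) := by
    unfold AA
    simp only [Finset.sum_range_succ, Finset.sum_range_zero, zero_add]
    norm_num
    rw [f23, f34, f45, f56, ← ha, ← hb]
    ring
  have ear : ∀ k < 3, u (k + 2) ≤ u k + π →
      AA N 6 u - FF N (u k) (u (k + 1)) - FF N (u (k + 1)) (u (k + 2)) +
        FF N (u k) (u (k + 2)) ≤ 2 * sm N 5 := by
    intro k _ harc
    have hus := hu.shift k
    obtain ⟨v, hv, hvA⟩ := del (N := N) (m := 5) (by norm_num) (u := fun j => u (j + k)) hus
      (by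
        show u (2 + k) ≤ u (0 + k) + π
        rw [zero_add, add_comm 2 k]
        exact harc)
    have e1 : AA N (5 + 1) (fun j => u (j + k)) = AA N 6 u := AA_shift hN hu k
    rw [e1] at hvA
    have hvA' : AA N 5 v = AA N 6 u - FF N (u (0 + k)) (u (1 + k)) -
      FF N (u (1 + k)) (u (2 + k)) + FF N (u (0 + k)) (u (2 + k)) := hvA
    rw [zero_add, add_comm 1 k, add_comm 2 k] at hvA'
    have := hle5 v hv
    linarith
  have e0 := ear 0 (by norm_num) (by norm_num; linarith)
  have e1 := ear 1 (by norm_num) (by norm_num; linarith)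
  have e2 := ear 2 (by norm_num) (by norm_num; linarith)
  norm_num at e0 e1 e2
  rw [f23, f13] at e1
  rw [f23, f34, f24] at e2
  rw [hsum] at e0 e1 e2 huA
  rw [← ha, ← hb, ← hc] at e0
  rw [← hb] at e1
  linarith

section body

variable {K0 : Set V} (hsym : ∀ v ∈ K0, -v ∈ K0) (hK : IsCompact K0)
  (hconv : Convex ℝ K0) (hint : (interior K0).Nonempty)

include hsym hK hconv hint

/-- THE GAP from the strict Dowker inequality at six, for symmetric convex bodies. -/
theorem gap_of_lt (hst : sm (gauge K0) 5 + sm (gauge K0) 7 < 2 * sm (gauge K0) 6) :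
    ∃ τ g, W82.Gap K0 (sm (gauge K0) 6) τ g := by
  classical
  have hN := nrm_gauge hK hconv hsym hint
  have hear := six_ear' hN
  have h67 := sm_mono hN (show 2 ≤ 6 by norm_num)
  have d2 := dowker hN (show 2 ≤ 2 by norm_num)
  have d3 := dowker hN (show 2 ≤ 3 by norm_num)
  have d4 := dowker hN (show 2 ≤ 4 by norm_num)
  norm_num at h67 d2 d3 d4
  set s := sm (gauge K0) with hs
  set d := s 6 - s 5 with hd
  set e := s 7 - s 6 with he
  have hed : e < d := by linarith
  have he0 : 0 ≤ e := by linarith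
  refine ⟨(d + e) / 2, min ((d - e) / 2) (s 6 - 6 * ((d + e) / 2)), by linarith,
    lt_min (by linarith) (by linarith), ?_⟩
  intro S hSK _ hS6
  have hSN : ∀ p ∈ S, gauge K0 p ≤ 1 := fun p hp =>
    (gauge_le_one hK hconv hsym hint p).2 (hSK hp)
  have g1 := min_le_left ((d - e) / 2) (s 6 - 6 * ((d + e) / 2))
  have g2 := min_le_right ((d - e) / 2) (s 6 - 6 * ((d + e) / 2))
  set g := min ((d - e) / 2) (s 6 - 6 * ((d + e) / 2)) with hg
  rcases Nat.lt_or_ge S.card 2 with hc | hc
  · have hsub : S.card ≤ 1 := by omega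
    have hvol : (volume (convexHull ℝ (S : Set V))).toReal = 0 := by
      have h1 : (S : Set V).Subsingleton := by
        intro a ha b hb
        exact Finset.card_le_one.1 hsub a ha b hb
      have h2 : (convexHull ℝ (S : Set V)).Subsingleton := by
        rcases h1.eq_empty_or_singleton with h | ⟨a, h⟩
        · rw [h, convexHull_empty]; exact subsingleton_empty
        · rw [h, convexHull_singleton]; exact subsingleton_singleton
      rw [h2.measure_zero]
      rfl
    rw [hvol]
    have h0 : (0 : ℝ) ≤ S.card := Nat.cast_nonneg _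
    have h1 : 0 < (d + e) / 2 := by linarith
    nlinarith
  · have harea := area_le_sm hN hc hSN le_rfl
    rw [← hs] at harea
    rcases Nat.lt_or_ge S.card 7 with h7 | h7
    · have hcases : S.card = 2 ∨ S.card = 3 ∨ S.card = 4 ∨ S.card = 5 := by omega
      rcases hcases with h | h | h | h <;> rw [h] at harea ⊢ <;> push_cast <;> linarith
    · have hdiff : ∀ m, 6 ≤ m → s (m + 1) - s m ≤ e := by
        intro m hm
        induction m, hm using Nat.le_induction with
        | base => exact le_rfl
        | succ m hm ih =>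
          have := dowker hN (show 2 ≤ m by omega)
          rw [← hs] at this
          have e2 : m + 1 + 1 = m + 2 := rfl
          rw [e2]
          linarith
      have hbig : ∀ m, 6 ≤ m → s m ≤ s 6 + ((m : ℝ) - 6) * e := by
        intro m hm
        induction m, hm using Nat.le_induction with
        | base => norm_num
        | succ m hm ih =>
          have := hdiff m hm
          push_cast
          linarith
      have hb := hbig S.card (by omega)
      have h7' : (7 : ℝ) ≤ S.card := by exact_mod_cast h7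
      nlinarith

/-- the shoelace area of a convex sextuple in the body is at most `sm 6`; if one of its points
is redundant, at most `sm 5`. -/
theorem ar6_le_sm {q : Fin 6 → V} (hq : Conv6 q) (hqK : ∀ k, q k ∈ K0) :
    ar6 q ≤ sm (gauge K0) 6 := by
  classical
  have hN := nrm_gauge hK hconv hsym hint
  refine (ar6_le_volume hq).trans ?_
  have hcard : (Finset.univ.image q).card ≤ 6 := by
    refine Finset.card_image_le.trans ?_
    simp
  have := area_le_sm hN (show 2 ≤ 6 by norm_num) (S := Finset.univ.image q) (by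
    intro s hs
    obtain ⟨k, -, rfl⟩ := Finset.mem_image.1 hs
    exact (gauge_le_one hK hconv hsym hint _).2 (hqK k)) hcard
  rw [Finset.coe_image, Finset.coe_univ, image_univ] at this
  exact this

theorem ar6_le_sm5 {q : Fin 6 → V} (hq : Conv6 q) (hqK : ∀ k, q k ∈ K0) {S : Finset V}
    (hS : (S : Set V) ⊆ range q) (hSq : range q ⊆ convexHull ℝ (S : Set V)) (hc : S.card ≤ 5) :
    ar6 q ≤ sm (gauge K0) 5 := by
  classical
  have hN := nrm_gauge hK hconv hsym hint
  refine (ar6_le_volume hq).trans ?_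
  have := area_le_sm hN (show 2 ≤ 5 by norm_num) (S := S) (by
    intro s hs
    obtain ⟨k, rfl⟩ := hS hs
    exact (gauge_le_one hK hconv hsym hint _).2 (hqK k)) hc
  refine le_trans (le_of_eq ?_) this
  congr 2
  exact Subset.antisymm (convexHull_min hSq (convex_convexHull ℝ _)) (convexHull_mono hS)

theorem exists_ar6 : ∃ q : Fin 6 → V, Conv6 q ∧ (∀ k, q k ∈ K0) ∧ ar6 q = sm (gauge K0) 6 ∧
    ∀ k, q (k + 3) = -q k := by
  have hN := nrm_gauge hK hconv hsym hint
  obtain ⟨u, hu, huA, hs⟩ := exists_symm hN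
  refine ⟨fun k : Fin 6 => gam (gauge K0) (u k), conv6_gam hN hu, fun k => ?_, ?_, ?_⟩
  · rw [← gauge_le_one hK hconv hsym hint]
    exact (N_gam hN _).le
  · rw [ar6_gam hN hu]
    exact huA
  · intro k
    have h0 : ∀ j, gam (gauge K0) (u (j + 3)) = -gam (gauge K0) (u j) := fun j => by
      rw [hs j, gam_add_pi hN]
    have h6 : ∀ j, gam (gauge K0) (u (j + 6)) = gam (gauge K0) (u j) := fun j => by
      rw [hu.per j, gam_add_two_pi hN]
    fin_cases k
    · exact h0 0
    · exact h0 1
    · exact h0 2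
    · show gam (gauge K0) (u 0) = -gam (gauge K0) (u 3)
      rw [h0 0, neg_neg]
    · show gam (gauge K0) (u 1) = -gam (gauge K0) (u 4)
      rw [h0 1, neg_neg]
    · show gam (gauge K0) (u 2) = -gam (gauge K0) (u 5)
      rw [h0 2, neg_neg]

end body

end C2305bH52.Dow
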