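import Pool.Agent.W_c2305b_h52.Smooth1

/-!
# Smooth strictly convex bodies: maximal polygons are determined by two consecutive corners
-/

open MeasureTheory Set Real

namespace C2305bH52.Dow

open C2305b.TL (V cr)
open C2305b.Rig (Conv6 ar6 LeMax UniqHex edge)
open C2305bH52.DiscGap (uv uv_zero uv_one cr_uv exists_polar)
open C2305bH68.Ord (Corners)

/-- strict convexity of the norm -/
def SC (N : V → ℝ) : Prop :=
  ∀ p q : V, N p ≤ 1 → N q ≤ 1 → p ≠ q → ∀ a b : ℝ, 0 < a → 0 < b → a + b = 1 →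
    N (a • p + b • q) < 1

/-- `w` is a supporting direction at `x` -/
def Sup (N : V → ℝ) (x w : V) : Prop := w ≠ 0 ∧ ∀ y, N y ≤ 1 → 0 ≤ cr w (y - x)

/-- supporting directions are unique -/
def Smo (N : V → ℝ) : Prop :=
  ∀ x w w' : V, N x = 1 → Sup N x w → Sup N x w' → ∃ c : ℝ, 0 < c ∧ w' = c • w

/-- replacement of the corner `1` -/
theorem repl {N : V → ℝ} {m : ℕ} (hm : 2 ≤ m) {u : ℕ → ℝ} (h : Cyc m u) {t : ℝ}
    (h0 : u 0 ≤ t) (h2 : t ≤ u 2) (h0' : t ≤ u 0 + π) (h2' : u 2 ≤ t + π) :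
    ∃ v, Cyc m v ∧ AA N m v = AA N m u - FF N (u 0) (u 1) - FF N (u 1) (u 2) +
      FF N (u 0) t + FF N t (u 2) := by
  obtain ⟨m', rfl⟩ : ∃ m', m = m' + 2 := ⟨m - 2, by omega⟩
  let p : ℕ → ℝ := fun j => if j = 1 then t else u j
  have p0 : p 0 = u 0 := by simp [p]
  have p1 : p 1 = t := by simp [p]
  have ps : ∀ j, p (j + 2) = u (j + 2) := fun j => by simp [p]
  have hstep : ∀ j < m' + 2, p j ≤ p (j + 1) ∧ p (j + 1) ≤ p j + π := by
    intro j _
    match j with
    | 0 => rw [p0, zero_add, p1]; exact ⟨h0, h0'⟩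
    | 1 => rw [p1]; rw [show p (1 + 1) = u 2 from ps 0]; exact ⟨h2, h2'⟩
    | j + 2 =>
      rw [ps, show p (j + 2 + 1) = u (j + 1 + 2) from ps (j + 1)]
      exact ⟨h.mono _, h.arc _⟩
  obtain ⟨v, hv, -, hA⟩ := exists_ext' (N := N) (show 1 ≤ m' + 2 by omega) (p := p)
    (fun j hj => (hstep j hj).1) (fun j hj => (hstep j hj).2)
    (by
      rw [ps, p0]
      have := h.per 0
      rw [zero_add] at this
      exact this)
  refine ⟨v, hv, ?_⟩
  have h1 := Finset.sum_range_succ' (fun j => FF N (p j) (p (j + 1))) (m' + 1)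
  have h2 := Finset.sum_range_succ' (fun j => FF N (p (j + 1)) (p (j + 1 + 1))) m'
  have h3 := Finset.sum_range_succ' (fun j => FF N (u j) (u (j + 1))) (m' + 1)
  have h4 := Finset.sum_range_succ' (fun j => FF N (u (j + 1)) (u (j + 1 + 1))) m'
  have h5 : ∑ j ∈ Finset.range m', FF N (p (j + 1 + 1)) (p (j + 1 + 1 + 1)) =
      ∑ j ∈ Finset.range m', FF N (u (j + 1 + 1)) (u (j + 1 + 1 + 1)) :=
    Finset.sum_congr rfl fun j _ => by
      rw [show p (j + 1 + 1) = u (j + 1 + 1) from ps j,
        show p (j + 1 + 1 + 1) = u (j + 1 + 1 + 1) from ps (j + 1)]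
  simp only [zero_add] at h1 h2 h3 h4
  have p2 : p (1 + 1) = u (1 + 1) := ps 0
  rw [p0, p1] at h1
  rw [p1, p2] at h2
  rw [hA]
  unfold AA
  have e1 : (1 + 1 : ℕ) = 2 := rfl
  rw [e1] at h2 h4
  linarith

section norm

variable {N : V → ℝ} (hN : Nrm N)
include hN

theorem ineq1 {u v w : ℝ} (h1 : u ≤ v) (h2 : v ≤ w) (h3 : w ≤ u + π) :
    FF N v w ≤ FF N u w + FF N u v := by
  have := triA hN (a := w) (b := u + π) (c := v + π) (by linarith) (by linarith) (by linarith)
    (by linarith)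
  rw [FF_right_pi hN, FF_right_pi hN, FF_pi_pi hN] at this
  rw [FF_anti v w, FF_anti u w] at this
  linarith

theorem ineq3 {u w z : ℝ} (h1 : u ≤ w) (h2 : w ≤ z) (h3 : z ≤ u + π) :
    FF N u w ≤ FF N w z + FF N u z := by
  have := triA hN (a := w) (b := z) (c := u + π) h2 (by linarith) h3 (by linarith)
  rw [FF_right_pi hN, FF_right_pi hN] at this
  rw [FF_anti u w, FF_anti u z] at this
  linarith

/-- FIRST ORDER CONDITION: the chord between the neighbours supports the body at a corner of a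
maximal polygon. -/
theorem foc0 {m : ℕ} (hm : 2 ≤ m) {u : ℕ → ℝ} (h : Cyc m u)
    (hmax : ∀ v, Cyc m v → AA N m v ≤ AA N m u) {y : V} (hy : N y ≤ 1) :
    0 ≤ cr (gam N (u 2) - gam N (u 0)) (y - gam N (u 1)) := by
  have hpi := Real.pi_pos
  have m0 := h.mono 0
  have m1 := h.mono 1
  have a0 := h.arc 0
  have a1 := h.arc 1
  norm_num at m0 m1 a0 a1
  -- admissible angles
  have hadm : ∀ t, u 0 ≤ t → t ≤ u 2 → t ≤ u 0 + π → u 2 ≤ t + π →
      FF N (u 0) t + FF N t (u 2) ≤ FF N (u 0) (u 1) + FF N (u 1) (u 2) := by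
    intro t h1 h2 h3 h4
    obtain ⟨v, hv, hvA⟩ := repl (N := N) hm h h1 h2 h3 h4
    have := hmax v hv
    linarith
  -- all angles between the neighbours
  have hin : ∀ t, u 0 ≤ t → t ≤ u 2 →
      FF N (u 0) t + FF N t (u 2) ≤ FF N (u 0) (u 1) + FF N (u 1) (u 2) := by
    intro t h1 h2
    rcases le_or_gt t (u 0 + π) with h3 | h3
    · rcases le_or_gt (u 2) (t + π) with h4 | h4
      · exact hadm t h1 h2 h3 h4
      · have h5 := hadm (u 2 - π) (by linarith) (by linarith) (by linarith) (by linarith)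
        have h6 : FF N (u 2 - π) (u 2) = 0 := by
          have := FF_pi hN (u 2 - π)
          rwa [sub_add_cancel] at this
        have h7 : FF N t (u 2) = -FF N t (u 2 - π) := by
          have := FF_right_pi hN t (u 2 - π)
          rwa [sub_add_cancel] at this
        have h8 := ineq3 hN (u := u 0) (w := t) (z := u 2 - π) h1 (by linarith) (by linarith)
        linarith
    · have h5 := hadm (u 0 + π) (by linarith) (by linarith) le_rfl (by linarith)
      have h6 := FF_pi hN (u 0)
      have h7 := ineq1 hN (u := u 0 + π) (v := t) (w := u 2) h3.le h2 (by linarith)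
      have h8 : FF N (u 0 + π) t = -FF N (u 0) t := by
        unfold FF
        rw [gam_add_pi hN, C2305b.TL.cr_neg_left]
      linarith
  -- all angles
  have hall : ∀ t, u 0 ≤ t → t < u 0 + 2 * π →
      FF N (u 0) t + FF N t (u 2) ≤ FF N (u 0) (u 1) + FF N (u 1) (u 2) := by
    intro t h1 h2
    rcases le_or_gt t (u 2) with h3 | h3
    · exact hin t h1 h3
    · have h4 := orient hN (a := u 0) (b := u 2) (c := t) (by linarith) h3.le h2.le
      have h5 := orient hN (a := u 0) (b := u 1) (c := u 2) m0 m1 (by linarith)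
      rw [FF_anti (u 0) (u 2)] at h5
      rw [FF_anti t (u 2), FF_anti (u 0) t] at h4
      linarith
  obtain ⟨t, ht, r, hr0, -, hyr⟩ := exists_polar y (u 0)
  have hNt := uv_pos hN t
  have hyg : y = (r * N (uv t)) • gam N t := by
    rw [hyr]
    unfold gam
    rw [smul_smul]
    congr 1
    field_simp
  have hρ0 : 0 ≤ r * N (uv t) := by positivity
  have hρ1 : r * N (uv t) ≤ 1 := by
    rw [hyg, hN.smul, N_gam hN, abs_of_nonneg hρ0, mul_one] at hy
    exact hy
  have h1 := hall t ht.1 ht.2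
  have h2 := FF_nonneg hN m0 a0
  have h3 := FF_nonneg hN m1 a1
  set ρ := r * N (uv t) with hρ
  rw [hyg]
  have e : cr (gam N (u 2) - gam N (u 0)) (ρ • gam N t - gam N (u 1)) =
      (FF N (u 0) (u 1) + FF N (u 1) (u 2)) - ρ * (FF N (u 0) t + FF N t (u 2)) := by
    unfold FF cr
    simp only [PiLp.sub_apply, PiLp.smul_apply, smul_eq_mul]
    ring
  rw [e]
  rcases le_or_gt 0 (FF N (u 0) t + FF N t (u 2)) with h4 | h4
  · nlinarith
  · nlinarith

/-- first order condition at any corner -/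
theorem foc {m : ℕ} (hm : 2 ≤ m) {u : ℕ → ℝ} (h : Cyc m u) (hA : AA N m u / 2 = sm N m) (k : ℕ)
    {y : V} (hy : N y ≤ 1) :
    0 ≤ cr (gam N (u (k + 2)) - gam N (u k)) (y - gam N (u (k + 1))) := by
  have h1 := foc0 hN hm (h.shift k) (fun v hv => by
    rw [AA_shift hN h k]
    have := (sm_spec hN hm).2 v hv
    linarith) hy
  have e0 : 0 + k = k := zero_add k
  have e1 : 1 + k = k + 1 := add_comm 1 k
  have e2 : 2 + k = k + 2 := add_comm 2 k
  simp only [e0, e1, e2] at h1
  exact h1

variable (hS : SC N)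
include hS

theorem tri_lt {p q r : V} (hp : N p ≤ 1) (hr : N r ≤ 1) (hq : 1 ≤ N q) (h1 : 0 < cr p q)
    (h2 : 0 < cr q r) : cr p r < cr p q + cr q r := by
  rcases le_or_gt (cr p r) 0 with h | h
  · linarith
  by_contra hcon
  push Not at hcon
  have hid : cr p r • q = cr q r • p + cr p q • r := by
    ext i
    fin_cases i
    · simp only [Fin.zero_eta, PiLp.add_apply, PiLp.smul_apply, smul_eq_mul, cr]; ring
    · simp only [Fin.mk_one, PiLp.add_apply, PiLp.smul_apply, smul_eq_mul, cr]; ring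
  have hne : p ≠ r := by
    rintro rfl
    rw [C2305b.TL.cr_self] at h
    exact lt_irrefl _ h
  set A := cr q r with hA
  set B := cr p q with hB
  have hAB : 0 < A + B := by linarith
  have h3 := hS p r hp hr hne (A / (A + B)) (B / (A + B)) (by positivity) (by positivity)
    (by field_simp)
  have h4 : (A / (A + B)) • p + (B / (A + B)) • r = (cr p r / (A + B)) • q := by
    rw [div_eq_inv_mul, div_eq_inv_mul, div_eq_inv_mul, mul_smul, mul_smul, mul_smul, ← smul_add,
      hid]
  rw [h4, hN.smul, abs_of_pos (by positivity)] at h3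
  have h5 : 1 ≤ cr p r / (A + B) := by
    rw [le_div_iff₀ hAB]; linarith
  nlinarith

theorem triA_lt {a b c : ℝ} (h1 : a < b) (h2 : b < a + π) (h3 : b < c) (h4 : c < b + π) :
    FF N a c < FF N a b + FF N b c := by
  have hpos : ∀ s t, s < t → t < s + π → 0 < cr (gam N s) (gam N t) := by
    intro s t hs ht
    have e := FF_eq hN s t
    unfold FF at e
    rw [e]
    have := Real.sin_pos_of_pos_of_lt_pi (show 0 < t - s by linarith) (by linarith)
    have := uv_pos hN s
    have := uv_pos hN t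
    positivity
  exact tri_lt hN hS (N_gam hN a).le (N_gam hN c).le (N_gam hN b).ge (hpos a b h1 h2)
    (hpos b c h3 h4)

/-- the maximal area increases strictly with the number of corners -/
theorem sm_lt {m : ℕ} (hm : 2 ≤ m) : sm N m < sm N (m + 1) := by
  have hpi := Real.pi_pos
  obtain ⟨⟨x, hx, hxA⟩, -⟩ := sm_spec hN hm
  -- a proper arc
  obtain ⟨k, hk⟩ : ∃ k, x k < x (k + 1) := by
    by_contra hcon
    push Not at hcon
    have hle : ∀ j, x j ≤ x 0 := by
      intro j
      induction j with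
      | zero => exact le_rfl
      | succ j ih => exact (hcon j).trans ih
    have h1 := hx.per 0
    have h2 := hle (0 + m)
    linarith
  have hxs := hx.shift k
  obtain ⟨u, hu, huA, hu0, hu1, hus⟩ := pad (N := N) hxs
  have e2 : u 2 = x (1 + k) := hus 1 (by omega)
  have e0 : u 0 = x k := by rw [hu0]; simp
  have e1 : u 1 = x k := by rw [hu1]; simp
  have hk1 : x (1 + k) = x (k + 1) := by rw [add_comm]
  rw [hk1] at e2
  have harc := hx.arc k
  set t := (x k + x (k + 1)) / 2 with ht
  obtain ⟨v, hv, hvA⟩ := repl (N := N) (show 2 ≤ m + 1 by omega) hu (t := t)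
    (by rw [e0]; linarith) (by rw [e2]; linarith) (by rw [e0]; linarith) (by rw [e2]; linarith)
  rw [huA, AA_shift hN hx k, e0, e1, e2, FF_self] at hvA
  have h1 := triA_lt hN hS (a := x k) (b := t) (c := x (k + 1)) (by linarith) (by linarith)
    (by linarith) (by linarith)
  have h2 := (sm_spec hN (show 2 ≤ m + 1 by omega)).2 v hv
  linarith

/-- consecutive angles of a maximal polygon are different -/
theorem max_lt {m : ℕ} (hm : 3 ≤ m) {u : ℕ → ℝ} (h : Cyc m u) (hA : AA N m u / 2 = sm N m)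
    (k : ℕ) : u k < u (k + 1) := by
  obtain ⟨n, rfl⟩ : ∃ n, m = n + 1 := ⟨m - 1, by omega⟩
  refine lt_of_le_of_ne (h.mono k) fun hcon => ?_
  have hs := h.shift k
  obtain ⟨v, hv, hvA⟩ := del (N := N) (m := n) (by omega) (u := fun j => u (j + k)) hs
    (by
      have e0 : u (0 + k) = u (1 + k) := by rw [zero_add, add_comm 1 k]; exact hcon
      have h2 := hs.arc 1
      show u (2 + k) ≤ u (0 + k) + π
      rw [e0]
      exact h2)
  have hv7 : AA N n v = AA N (n + 1) u := by
    rw [hvA, AA_shift hN h k]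
    have e0 : u (0 + k) = u (1 + k) := by
      rw [zero_add, add_comm 1 k]; exact hcon
    show AA N (n + 1) u - FF N (u (0 + k)) (u (1 + k)) -
      FF N (u (1 + k)) (u (2 + k)) + FF N (u (0 + k)) (u (2 + k)) = _
    rw [e0, FF_self]
    ring
  have h1 := (sm_spec hN (show 2 ≤ n by omega)).2 v hv
  have h2 := sm_lt hN hS (show 2 ≤ n by omega)
  rw [hv7, hA] at h1
  linarith

/-- neighbours of a corner are different points -/
theorem max_ne {m : ℕ} (hm : 3 ≤ m) {u : ℕ → ℝ} (h : Cyc m u) (hA : AA N m u / 2 = sm N m)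
    (k : ℕ) : u k < u (k + 2) ∧ u (k + 2) < u k + 2 * π ∧
      gam N (u (k + 2)) - gam N (u k) ≠ 0 := by
  have h1 := max_lt hN hS hm h hA k
  have h2 := max_lt hN hS hm h hA (k + 1)
  have h3 := max_lt hN hS hm h hA (k + 2)
  have h4 : u (k + 2 + 1) ≤ u (k + m) := h.le (by omega)
  have h5 := h.per k
  have e1 : k + 1 + 1 = k + 2 := rfl
  rw [e1] at h2
  refine ⟨by linarith, by linarith, ?_⟩
  intro hc
  have := eq_of_gam hN (sub_eq_zero.1 hc) (by linarith) (by linarith)
  linarith

/-- uniqueness of the supporting point -/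
theorem sup_unique {p p' w : V} (hp : N p = 1) (hp' : N p' = 1) (h : Sup N p w)
    (h' : Sup N p' w) : p = p' := by
  by_contra hne
  have h1 := h.2 p' hp'.le
  have h2 := h'.2 p hp.le
  have h3 := hS p p' hp.le hp'.le hne (1 / 2) (1 / 2) (by norm_num) (by norm_num) (by norm_num)
  set z := (1 / 2 : ℝ) • p + (1 / 2 : ℝ) • p' with hz
  let v : V := !₂[w 1, -w 0]
  have hv : cr w v < 0 := by
    have hw : 0 < w 0 ^ 2 + w 1 ^ 2 := by
      by_contra hcon
      push Not at hcon
      apply h.1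
      have i0 := sq_nonneg (w 0)
      have i1 := sq_nonneg (w 1)
      have z0 : w 0 = 0 := pow_eq_zero_iff (two_ne_zero) |>.1 (by linarith)
      have z1 : w 1 = 0 := pow_eq_zero_iff (two_ne_zero) |>.1 (by linarith)
      ext i; fin_cases i
      · exact z0
      · exact z1
    have e : cr w v = -(w 0 ^ 2 + w 1 ^ 2) := by
      unfold cr
      simp only [v, PiLp.toLp_apply, Matrix.cons_val_zero, Matrix.cons_val_one]
      ring
    rw [e]; linarith
  have hNv := hN.nonneg v
  set δ := (1 - N z) / (N v + 1) with hδ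
  have hδ0 : 0 < δ := by
    rw [hδ]
    have : 0 < 1 - N z := by linarith
    positivity
  have hδ1 : δ * N v ≤ 1 - N z := by
    have e : δ * (N v + 1) = 1 - N z := by rw [hδ]; field_simp
    nlinarith
  have hy : N (z + δ • v) ≤ 1 := by
    have := hN.add z (δ • v)
    rw [hN.smul, abs_of_pos hδ0] at this
    linarith
  have h4 := h.2 _ hy
  have h5 : cr w (z + δ • v - p) = (1 / 2) * cr w (p' - p) + δ * cr w v := by
    rw [hz]
    unfold cr
    simp only [PiLp.sub_apply, PiLp.add_apply, PiLp.smul_apply, smul_eq_mul]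
    ring
  have h6 : cr w (p' - p) = -cr w (p - p') := by
    unfold cr
    simp only [PiLp.sub_apply]
    ring
  have h7 : cr w (p' - p) ≤ 0 := by rw [h6]; linarith
  rw [h5] at h4
  nlinarith

variable (hM : Smo N)
include hM

/-- DETERMINISM: two maximal polygons with two common consecutive corners agree afterwards. -/
theorem det {m m' : ℕ} (hm : 3 ≤ m) (hm' : 3 ≤ m') {x y : ℕ → ℝ} (hx : Cyc m x) (hy : Cyc m' y)
    (hxA : AA N m x / 2 = sm N m) (hyA : AA N m' y / 2 = sm N m') {i j : ℕ} (h0 : x i = y j)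
    (h1 : x (i + 1) = y (j + 1)) : x (i + 2) = y (j + 2) := by
  obtain ⟨x1, x2, x3⟩ := max_ne hN hS hm hx hxA i
  obtain ⟨y1, y2, y3⟩ := max_ne hN hS hm' hy hyA j
  have sx : Sup N (gam N (x (i + 1))) (gam N (x (i + 2)) - gam N (x i)) :=
    ⟨x3, fun z hz => foc hN (by omega) hx hxA i hz⟩
  have sy : Sup N (gam N (x (i + 1))) (gam N (y (j + 2)) - gam N (y j)) := by
    rw [h1]
    exact ⟨y3, fun z hz => foc hN (by omega) hy hyA j hz⟩
  obtain ⟨c, hc, hcw⟩ := hM _ _ _ (N_gam hN _) sx sy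
  rw [← h0] at hcw y1 y2
  set a := gam N (x i) with ha
  set p := gam N (x (i + 2)) with hp
  set q := gam N (y (j + 2)) with hq
  have hNa : N a = 1 := N_gam hN _
  have hNp : N p = 1 := N_gam hN _
  have hNq : N q = 1 := N_gam hN _
  have hpa : p ≠ a := sub_ne_zero.1 x3
  have hqe : q = c • p + (1 - c) • a := by
    have : q = a + c • (p - a) := by rw [← hcw]; abel
    rw [this]; module
  have hpq : p = q := by
    rcases lt_trichotomy c 1 with h | h | h
    · exfalso
      have := hS p a hNp.le hNa.le hpa c (1 - c) hc (by linarith) (by ring)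
      rw [← hqe, hNq] at this
      exact lt_irrefl _ this
    · rw [hqe, h]; simp
    · exfalso
      have hqa : q ≠ a := by
        intro hqa
        have : c • (p - a) = 0 := by rw [← hcw, hqa, sub_self]
        rcases smul_eq_zero.1 this with h' | h'
        · exact hc.ne' h'
        · exact x3 h'
      have hpe : p = c⁻¹ • q + (1 - c⁻¹) • a := by
        rw [hqe, smul_add, smul_smul, smul_smul, inv_mul_cancel₀ hc.ne', one_smul]
        have : c⁻¹ * (1 - c) = -(1 - c⁻¹) := by field_simp; ring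
        rw [this]; module
      have hcinv : c⁻¹ < 1 := inv_lt_one_of_one_lt₀ h
      have := hS q a hNq.le hNa.le hqa c⁻¹ (1 - c⁻¹) (by positivity) (by linarith) (by ring)
      rw [← hpe, hNp] at this
      exact lt_irrefl _ this
  exact eq_of_gam hN hpq (by linarith) (by linarith)

theorem det_all {m m' : ℕ} (hm : 3 ≤ m) (hm' : 3 ≤ m') {x y : ℕ → ℝ} (hx : Cyc m x)
    (hy : Cyc m' y) (hxA : AA N m x / 2 = sm N m) (hyA : AA N m' y / 2 = sm N m') {i j : ℕ}
    (h0 : x i = y j) (h1 : x (i + 1) = y (j + 1)) (n : ℕ) :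
    x (i + n) = y (j + n) ∧ x (i + n + 1) = y (j + n + 1) := by
  induction n with
  | zero => exact ⟨h0, h1⟩
  | succ n ih =>
    refine ⟨ih.2, ?_⟩
    exact det hN hS hM hm hm' hx hy hxA hyA ih.1 ih.2

/-- STRICT DOWKER INEQUALITY for smooth strictly convex bodies. -/
theorem dowker_lt {n : ℕ} (hn : 3 ≤ n) : sm N n + sm N (n + 2) < 2 * sm N (n + 1) := by
  by_contra hcon
  push Not at hcon
  obtain ⟨⟨x, hx, hxA⟩, -⟩ := sm_spec hN (show 2 ≤ n by omega)
  obtain ⟨⟨y, hy, hyA⟩, -⟩ := sm_spec hN (show 2 ≤ n + 2 by omega)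
  obtain ⟨-, hle⟩ := sm_spec hN (show 2 ≤ n + 1 by omega)
  obtain ⟨P, Q, hP, hQ, hA, k, c, -, j, l, hsh⟩ := exchange hN hx hy
  have h1 := hle P hP
  have h2 := hle Q hQ
  have hPA : AA N (n + 1) P / 2 = sm N (n + 1) := by linarith
  have hQA : AA N (n + 1) Q / 2 = sm N (n + 1) := by linarith
  have hy' : Cyc (n + 2) (fun j => y (j + k) + 2 * π * c) := (hy.shift k).add _
  have hyA' : AA N (n + 2) (fun j => y (j + k) + 2 * π * c) / 2 = sm N (n + 2) := by
    have e1 : AA N (n + 2) (fun j => y (j + k) + 2 * π * c) = AA N (n + 2) y := by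
      rw [← AA_shift hN hy k]
      exact AA_add hN (u := fun j => y (j + k)) c
    rw [e1, hyA]
  set y' : ℕ → ℝ := fun j => y (j + k) + 2 * π * c with hy'def
  have key : ∀ R, Cyc (n + 1) R → AA N (n + 1) R / 2 = sm N (n + 1) → R l = y' j →
      R (l + 1) = y' (j + 1) → False := by
    intro R hR hRA h0 h1
    have h3 := (det_all hN hS hM (show 3 ≤ n + 1 by omega) (show 3 ≤ n + 2 by omega) hR hy' hRA
      hyA' h0 h1 (n + 1)).1
    have h4 := hR.per l
    have h5 := hy'.per j
    have h6 := max_lt hN hS (show 3 ≤ n + 2 by omega) hy' hyA' (j + (n + 1))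
    have e : j + (n + 1) + 1 = j + (n + 2) := by ring
    rw [e, h5, ← h3, h4, h0] at h6
    exact lt_irrefl _ h6
  rcases hsh with ⟨a, b⟩ | ⟨a, b⟩
  · exact key P hP hPA a b
  · exact key Q hQ hQA a b

/-- CENTRAL SYMMETRY of the maximal hexagons of a smooth strictly convex body. -/
theorem max_symm {x : ℕ → ℝ} (hx : Cyc 6 x) (hxA : AA N 6 x / 2 = sm N 6) (k : ℕ) :
    x (k + 3) = x k + π := by
  have hpi := Real.pi_pos
  have hy := hx.opp
  have hyA' := AA_opp hN hx
  set y : ℕ → ℝ := fun j => x (j + 3) + -π with hydef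
  have hyA : AA N 6 y / 2 = sm N 6 := by rw [hyA']; exact hxA
  obtain ⟨hMx, hmn, hsum⟩ := supinf hN hx hy
  obtain ⟨-, hle⟩ := sm_spec hN (show 2 ≤ 6 by norm_num)
  have e1 := hle _ hMx
  have e2 := hle _ hmn
  set M : ℕ → ℝ := fun j => max (x j) (y j) with hMdef
  have hMA : AA N 6 M / 2 = sm N 6 := by linarith
  have y3 : ∀ j, y (j + 3) = x j + π := by
    intro j
    show x (j + 3 + 3) + -π = x j + π
    have : x (j + 3 + 3) = x j + 2 * π := hx.per j
    rw [this]; ring
  have x3 : ∀ j, x (j + 3) = y j + π := by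
    intro j
    show x (j + 3) = x (j + 3) + -π + π
    ring
  have M3 : ∀ j, M (j + 3) = M j + π := by
    intro j
    show max (x (j + 3)) (y (j + 3)) = max (x j) (y j) + π
    rw [y3, x3, ← max_add_add_right, max_comm]
  -- the two easy cases
  have caseX : ∀ i, M i = x i → M (i + 1) = x (i + 1) → ∀ j, x (j + 3) = x j + π := by
    intro i h0 h1 j
    have hall := fun n => (det_all hN hS hM (by norm_num) (by norm_num) hMx hx hMA hxA h0 h1 n).1
    have h2 := hall (j + 5 * i)
    have h3 := hall (j + 5 * i + 3)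
    have e3 : i + (j + 5 * i) = j + 6 * i := by ring
    have e4 : i + (j + 5 * i + 3) = j + 6 * i + 3 := by ring
    rw [e3] at h2
    rw [e4, M3, h2] at h3
    have hper : ∀ a n, x (a + 6 * n) = x a + 2 * π * n := by
      intro a n
      induction n with
      | zero => simp
      | succ n ih =>
        have e : a + 6 * (n + 1) = a + 6 * n + 6 := by ring
        rw [e, hx.per, ih]
        push_cast; ring
    have e5 : j + 6 * i + 3 = (j + 3) + 6 * i := by ring
    rw [e5, hper, hper] at h3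
    linarith
  have caseY : ∀ i, M i = y i → M (i + 1) = y (i + 1) → ∀ j, x (j + 3) = x j + π := by
    intro i h0 h1 j
    have hall := fun n => (det_all hN hS hM (by norm_num) (by norm_num) hMx hy hMA hyA h0 h1 n).1
    have h2 := hall (j + 5 * i)
    have h3 := hall (j + 5 * i + 3)
    have e3 : i + (j + 5 * i) = j + 6 * i := by ring
    have e4 : i + (j + 5 * i + 3) = j + 6 * i + 3 := by ring
    rw [e3] at h2
    rw [e4, M3, h2] at h3
    have hper : ∀ a n, y (a + 6 * n) = y a + 2 * π * n := by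
      intro a n
      induction n with
      | zero => simp
      | succ n ih =>
        have e : a + 6 * (n + 1) = a + 6 * n + 6 := by ring
        rw [e, hy.per, ih]
        push_cast; ring
    have e5 : j + 6 * i + 3 = (j + 3) + 6 * i := by ring
    rw [e5, hper, hper, y3] at h3
    have := x3 j
    linarith
  by_contra hcon
  have nX : ∀ i, ¬ (M i = x i ∧ M (i + 1) = x (i + 1)) := fun i h => hcon (caseX i h.1 h.2 k)
  have nY : ∀ i, ¬ (M i = y i ∧ M (i + 1) = y (i + 1)) := fun i h => hcon (caseY i h.1 h.2 k)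
  have hor : ∀ i, M i = x i ∨ M i = y i := fun i => max_choice _ _
  have hbd : x 1 < y 1 + 2 * π ∧ y 1 < x 1 + 2 * π := by
    have h1 : x 1 ≤ x 4 := hx.le (by norm_num)
    have h2 : x 4 ≤ x 7 := hx.le (by norm_num)
    have h3 : x 7 = x 1 + 2 * π := hx.per 1
    have h4 : x 4 = y 1 + π := x3 1
    constructor <;> linarith
  obtain ⟨-, -, wx⟩ := max_ne hN hS (by norm_num) hx hxA 0
  obtain ⟨-, -, wy⟩ := max_ne hN hS (by norm_num) hy hyA 0
  have fx : ∀ z, N z ≤ 1 → 0 ≤ cr (gam N (x 2) - gam N (x 0)) (z - gam N (x 1)) :=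
    fun z hz => foc hN (by norm_num) hx hxA 0 hz
  have fy : ∀ z, N z ≤ 1 → 0 ≤ cr (gam N (y 2) - gam N (y 0)) (z - gam N (y 1)) :=
    fun z hz => foc hN (by norm_num) hy hyA 0 hz
  have fM : ∀ z, N z ≤ 1 → 0 ≤ cr (gam N (M 2) - gam N (M 0)) (z - gam N (M 1)) :=
    fun z hz => foc hN (by norm_num) hMx hMA 0 hz
  rcases hor 0 with h0 | h0
  · have h1 : M 1 = y 1 := by
      rcases hor 1 with h | h
      · exact absurd ⟨h0, h⟩ (nX 0)
      · exact h
    have h2 : M 2 = x 2 := by
      rcases hor 2 with h | h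
      · exact h
      · exact absurd ⟨h1, h⟩ (nY 1)
    rw [h0, h1, h2] at fM
    have := sup_unique hN hS (N_gam hN _) (N_gam hN _) ⟨wx, fx⟩ ⟨wx, fM⟩
    have he := eq_of_gam hN this hbd.1 hbd.2
    exact nX 0 ⟨h0, by rw [zero_add, h1, he]⟩
  · have h1 : M 1 = x 1 := by
      rcases hor 1 with h | h
      · exact h
      · exact absurd ⟨h0, h⟩ (nY 0)
    have h2 : M 2 = y 2 := by
      rcases hor 2 with h | h
      · exact absurd ⟨h1, h⟩ (nX 1)
      · exact h
    rw [h0, h1, h2] at fM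
    have := sup_unique hN hS (N_gam hN _) (N_gam hN _) ⟨wy, fy⟩ ⟨wy, fM⟩
    have he := eq_of_gam hN this hbd.2 hbd.1
    exact nY 0 ⟨h0, by rw [zero_add, h1, he]⟩

end norm

end C2305bH52.Dow
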