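import Pool.Agent.W_c2305b_h52.Smooth2
import Pool.Agent.W_c2305b_h73.Natural
import Pool.Agent.W_c2305b_h72.NearSym

/-!
# Smooth strictly convex bodies: gap and central symmetry of all maximal convex sextuples
-/

open MeasureTheory Set Real Filter Topology

namespace C2305bH52.Dow

open C2305b.TL (V cr)
open C2305b.Rig (Conv6 ar6 LeMax UniqHex edge)
open C2305bH52.DiscGap (uv uv_zero uv_one cr_uv exists_polar)
open C2305bH68.Ord (Corners)

/-- A smooth body: the supporting lines are unique. -/
def SmoothBody (K : Set V) : Prop :=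
  ∀ x ∈ K, ∀ f g : V →L[ℝ] ℝ, f ≠ 0 → g ≠ 0 → (∀ y ∈ K, f y ≤ f x) → (∀ y ∈ K, g y ≤ g x) →
    ∃ c : ℝ, 0 < c ∧ g = c • f

/-- the functional of a direction -/
noncomputable def fw (w : V) : V →L[ℝ] ℝ :=
  (w 1) • (EuclideanSpace.proj 0 : V →L[ℝ] ℝ) - (w 0) • (EuclideanSpace.proj 1 : V →L[ℝ] ℝ)

theorem fw_apply (w y : V) : fw w y = -cr w y := by
  unfold fw cr
  simp

theorem fw_inj {w w' : V} {c : ℝ} (h : fw w' = c • fw w) : w' = c • w := by
  have h0 := congrArg (fun f : V →L[ℝ] ℝ => f (EuclideanSpace.single 0 1)) h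
  have h1 := congrArg (fun f : V →L[ℝ] ℝ => f (EuclideanSpace.single 1 1)) h
  simp only [ContinuousLinearMap.smul_apply, fw_apply, smul_eq_mul, cr] at h0 h1
  simp at h0 h1
  ext i; fin_cases i
  · simp only [Fin.zero_eta, PiLp.smul_apply, smul_eq_mul]; linarith
  · simp only [Fin.mk_one, PiLp.smul_apply, smul_eq_mul]; linarith

theorem fw_ne {w : V} (h : w ≠ 0) : fw w ≠ 0 := by
  intro h0
  apply h
  have h1 : fw w = (0 : ℝ) • fw w := by rw [h0, smul_zero]
  have := fw_inj h1
  rw [this, zero_smul]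

section body

variable {K0 : Set V} (hsym : ∀ v ∈ K0, -v ∈ K0) (hK : IsCompact K0)
  (hconv : Convex ℝ K0) (hint : (interior K0).Nonempty)

include hsym hK hconv hint

theorem sc_gauge (hSC : StrictConvex ℝ K0) : SC (gauge K0) := by
  intro p q hp hq hne a b ha hb hab
  rw [gauge_le_one hK hconv hsym hint] at hp hq
  exact interior_subset_gauge_lt_one K0 (hSC hp hq hne ha hb hab)

theorem smo_gauge (hsm : SmoothBody K0) : Smo (gauge K0) := by
  intro x w w' hx hw hw'
  have hxK : x ∈ K0 := (gauge_le_one hK hconv hsym hint x).1 hx.le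
  obtain ⟨c, hc, he⟩ := hsm x hxK (fw w) (fw w') (fw_ne hw.1) (fw_ne hw'.1)
    (fun y hy => by
      have h1 := hw.2 y ((gauge_le_one hK hconv hsym hint y).2 hy)
      rw [fw_apply, fw_apply]
      have e : cr w (y - x) = cr w y - cr w x := by unfold cr; simp only [PiLp.sub_apply]; ring
      rw [e] at h1
      linarith)
    (fun y hy => by
      have h1 := hw'.2 y ((gauge_le_one hK hconv hsym hint y).2 hy)
      rw [fw_apply, fw_apply]
      have e : cr w' (y - x) = cr w' y - cr w' x := by unfold cr; simp only [PiLp.sub_apply]; ring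
      rw [e] at h1
      linarith)
  exact ⟨c, hc, fw_inj he⟩

variable (h56 : sm (gauge K0) 5 < sm (gauge K0) 6) {q : Fin 6 → V} (hq : Conv6 q)
  (hqK : ∀ k, q k ∈ K0) (hqA : ar6 q = sm (gauge K0) 6)

section five
include h56 hq hqK hqA

theorem not_mem_hull (k : Fin 6) : q k ∉ convexHull ℝ (q '' {k}ᶜ) := by
  classical
  intro hk
  have hcoe : (((Finset.univ.erase k).image q : Finset V) : Set V) = q '' {k}ᶜ := by
    rw [Finset.coe_image, Finset.coe_erase, Finset.coe_univ]
    congr 1
    ext x; simp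
  have := ar6_le_sm5 hsym hK hconv hint hq hqK (S := (Finset.univ.erase k).image q)
    (by rw [hcoe]; exact image_subset_range _ _)
    (by
      rw [hcoe]
      rintro _ ⟨j, rfl⟩
      by_cases hj : j = k
      · rw [hj]; exact hk
      · exact subset_convexHull ℝ _ ⟨j, hj, rfl⟩)
    (by
      refine Finset.card_image_le.trans ?_
      rw [Finset.card_erase_of_mem (Finset.mem_univ k)]
      simp)
  rw [hqA] at this
  linarith

theorem q_inj : Function.Injective q := by
  intro i j hij
  by_contra hne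
  apply not_mem_hull hsym hK hconv hint h56 hq hqK hqA i
  rw [hij]
  exact subset_convexHull ℝ _ ⟨j, fun h => hne h.symm, rfl⟩

open Classical in
theorem q_corners : Corners (Finset.univ.image q) := by
  intro p hp
  rw [Finset.mem_image] at hp
  obtain ⟨k, _, rfl⟩ := hp
  intro hcon
  apply not_mem_hull hsym hK hconv hint h56 hq hqK hqA k
  refine convexHull_mono ?_ hcon
  rintro x ⟨hx, hxk⟩
  rw [Finset.coe_image, Finset.coe_univ, image_univ] at hx
  obtain ⟨j, rfl⟩ := hx
  exact ⟨j, fun h => hxk (by rw [mem_singleton_iff.1 h]; rfl), rfl⟩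

theorem q_cr_ne {i j k : Fin 6} (hij : i ≠ j) (hik : i ≠ k) (hjk : j ≠ k) :
    C2305b.Rig.cr (q j - q i) (q k - q i) ≠ 0 := by
  classical
  have hinj := q_inj hsym hK hconv hint h56 hq hqK hqA
  exact (q_corners hsym hK hconv hint h56 hq hqK hqA).cr_ne
    (Finset.mem_image_of_mem _ (Finset.mem_univ _))
    (Finset.mem_image_of_mem _ (Finset.mem_univ _)) (Finset.mem_image_of_mem _ (Finset.mem_univ _))
    (fun h => hij (hinj h)) (fun h => hik (hinj h)) (fun h => hjk (hinj h))

theorem q_cr_pos {i j k : Fin 6} (hij : i < j) (hjk : j < k) :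
    0 < C2305b.Rig.cr (q j - q i) (q k - q i) :=
  lt_of_le_of_ne (hq i j k hij hjk)
    (Ne.symm (q_cr_ne hsym hK hconv hint h56 hq hqK hqA hij.ne (hij.trans hjk).ne hjk.ne))

/-- the corners are on the boundary -/
theorem q_bdry (k : Fin 6) : gauge K0 (q k) = 1 := by
  classical
  have hN := nrm_gauge hK hconv hsym hint
  have hle : gauge K0 (q k) ≤ 1 := (gauge_le_one hK hconv hsym hint _).2 (hqK k)
  refine le_antisymm hle ?_
  by_contra hcon
  push Not at hcon
  -- the direction
  set w := q (k - 1) - q (k + 1) with hw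
  have hinj := q_inj hsym hK hconv hint h56 hq hqK hqA
  have hkk : ∀ k : Fin 6, k - 1 ≠ k + 1 := by decide
  have hw0 : w ≠ 0 := by
    intro h
    exact hkk k (hinj (sub_eq_zero.1 h))
  let v : V := !₂[-w 1, w 0]
  have hv : 0 < C2305b.Rig.cr w v := by
    have hpos : 0 < w 0 ^ 2 + w 1 ^ 2 := by
      by_contra hcon
      push Not at hcon
      apply hw0
      have i0 := sq_nonneg (w 0)
      have i1 := sq_nonneg (w 1)
      have z0 : w 0 = 0 := pow_eq_zero_iff (two_ne_zero) |>.1 (by linarith)
      have z1 : w 1 = 0 := pow_eq_zero_iff (two_ne_zero) |>.1 (by linarith)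
      ext i; fin_cases i
      · exact z0
      · exact z1
    have e : C2305b.Rig.cr w v = w 0 ^ 2 + w 1 ^ 2 := by
      unfold C2305b.Rig.cr
      simp [v]
      ring
    rw [e]; exact hpos
  -- the perturbed sextuple
  let Q : ℝ → Fin 6 → V := fun ε j => if j = k then q k + ε • v else q j
  have hQ0 : ∀ j, Q 0 j = q j := by
    intro j
    simp only [Q]
    split_ifs with h
    · rw [h, zero_smul, add_zero]
    · rfl
  have hQc : ∀ j, Continuous fun ε => Q ε j := by
    intro j
    simp only [Q]
    split_ifs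
    · fun_prop
    · fun_prop
  have hNk : ∀ᶠ ε in 𝓝 (0 : ℝ), gauge K0 (Q ε k) < 1 := by
    have hc : Continuous fun ε => gauge K0 (Q ε k) := hN.cont.comp (hQc k)
    have := hc.tendsto 0
    rw [hQ0] at this
    exact this.eventually_lt_const hcon
  have hcr : ∀ᶠ ε in 𝓝 (0 : ℝ), ∀ a b c : Fin 6, a < b → b < c →
      0 < C2305b.Rig.cr (Q ε b - Q ε a) (Q ε c - Q ε a) := by
    rw [eventually_all]
    intro a
    rw [eventually_all]
    intro b
    rw [eventually_all]
    intro c
    by_cases hab : a < b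
    · by_cases hbc : b < c
      · have hc : Continuous fun ε => C2305b.Rig.cr (Q ε b - Q ε a) (Q ε c - Q ε a) := by
          have e : ∀ i : Fin 2, Continuous fun v : V => v i := fun i => by fun_prop
          unfold C2305b.Rig.cr
          exact (((e 0).comp ((hQc b).sub (hQc a))).mul ((e 1).comp ((hQc c).sub (hQc a)))).sub
            (((e 1).comp ((hQc b).sub (hQc a))).mul ((e 0).comp ((hQc c).sub (hQc a))))
        have h1 := hc.tendsto 0
        simp only [hQ0] at h1
        have h2 := h1.eventually_const_lt (q_cr_pos hsym hK hconv hint h56 hq hqK hqA hab hbc)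
        filter_upwards [h2] with ε hε _ _
        exact hε
      · exact Eventually.of_forall fun ε _ h => absurd h hbc
    · exact Eventually.of_forall fun ε h => absurd h hab
  obtain ⟨ε, ⟨h1, h2⟩, h3⟩ := (((hNk.and hcr).filter_mono nhdsWithin_le_nhds).and
    (self_mem_nhdsWithin : Ioi (0 : ℝ) ∈ 𝓝[>] 0)).exists
  have h3' : 0 < ε := h3
  have hQconv : Conv6 (Q ε) := fun a b c hab hbc => (h2 a b c hab hbc).le
  have hQK : ∀ j, Q ε j ∈ K0 := by
    intro j
    by_cases hj : j = k
    · rw [hj]
      exact (gauge_le_one hK hconv hsym hint _).1 h1.le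
    · have : Q ε j = q j := by simp only [Q, if_neg hj]
      rw [this]; exact hqK j
  have h4 := ar6_le_sm hsym hK hconv hint hQconv hQK
  have h5 : ar6 (Q ε) = ar6 q + ε * C2305b.Rig.cr w v / 2 := by
    have e0 : (0 : Fin 6) + 1 = 1 := by decide
    have e1 : (1 : Fin 6) + 1 = 2 := by decide
    have e2 : (2 : Fin 6) + 1 = 3 := by decide
    have e3 : (3 : Fin 6) + 1 = 4 := by decide
    have e4 : (4 : Fin 6) + 1 = 5 := by decide
    have e5 : (5 : Fin 6) + 1 = 0 := by decide
    have hQk : Q ε k = q k + ε • v := by simp only [Q, if_pos]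
    have hQj : ∀ j, j ≠ k → Q ε j = q j := fun j hj => by simp only [Q, if_neg hj]
    clear_value Q v
    unfold ar6
    rw [Fin.sum_univ_six, Fin.sum_univ_six, e0, e1, e2, e3, e4, e5, hw]
    fin_cases k
    · rw [hQj 1 (by decide), hQj 2 (by decide), hQj 3 (by decide), hQj 4 (by decide),
        hQj 5 (by decide)]
      have : Q ε 0 = q 0 + ε • v := hQk
      have m : (0 : Fin 6) - 1 = 5 := by decide
      simp only [Fin.zero_eta]
      rw [this, m, e0]
      simp only [C2305b.Rig.cr, PiLp.sub_apply, PiLp.add_apply, PiLp.smul_apply, smul_eq_mul]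
      ring
    · rw [hQj 0 (by decide), hQj 2 (by decide), hQj 3 (by decide), hQj 4 (by decide),
        hQj 5 (by decide)]
      have : Q ε 1 = q 1 + ε • v := hQk
      have m : (1 : Fin 6) - 1 = 0 := by decide
      simp only [Fin.mk_one]
      rw [this, m, e1]
      simp only [C2305b.Rig.cr, PiLp.sub_apply, PiLp.add_apply, PiLp.smul_apply, smul_eq_mul]
      ring
    · rw [hQj 0 (by decide), hQj 1 (by decide), hQj 3 (by decide), hQj 4 (by decide),
        hQj 5 (by decide)]
      have : Q ε 2 = q 2 + ε • v := hQk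
      have m : (2 : Fin 6) - 1 = 1 := by decide
      simp only [Fin.reduceFinMk]
      rw [this, m, e2]
      simp only [C2305b.Rig.cr, PiLp.sub_apply, PiLp.add_apply, PiLp.smul_apply, smul_eq_mul]
      ring
    · rw [hQj 0 (by decide), hQj 1 (by decide), hQj 2 (by decide), hQj 4 (by decide),
        hQj 5 (by decide)]
      have : Q ε 3 = q 3 + ε • v := hQk
      have m : (3 : Fin 6) - 1 = 2 := by decide
      simp only [Fin.reduceFinMk]
      rw [this, m, e3]
      simp only [C2305b.Rig.cr, PiLp.sub_apply, PiLp.add_apply, PiLp.smul_apply, smul_eq_mul]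
      ring
    · rw [hQj 0 (by decide), hQj 1 (by decide), hQj 2 (by decide), hQj 3 (by decide),
        hQj 5 (by decide)]
      have : Q ε 4 = q 4 + ε • v := hQk
      have m : (4 : Fin 6) - 1 = 3 := by decide
      simp only [Fin.reduceFinMk]
      rw [this, m, e4]
      simp only [C2305b.Rig.cr, PiLp.sub_apply, PiLp.add_apply, PiLp.smul_apply, smul_eq_mul]
      ring
    · rw [hQj 0 (by decide), hQj 1 (by decide), hQj 2 (by decide), hQj 3 (by decide),
        hQj 4 (by decide)]
      have : Q ε 5 = q 5 + ε • v := hQk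
      have m : (5 : Fin 6) - 1 = 4 := by decide
      simp only [Fin.reduceFinMk]
      rw [this, m, e5]
      simp only [C2305b.Rig.cr, PiLp.sub_apply, PiLp.add_apply, PiLp.smul_apply, smul_eq_mul]
      ring
  have h6 : 0 < ε * C2305b.Rig.cr w v / 2 := by positivity
  linarith

/-- the centre is in the hull -/
theorem q_centre (hSC : StrictConvex ℝ K0) : (0 : V) ∈ convexHull ℝ (range q) := by
  classical
  have hN := nrm_gauge hK hconv hsym hint
  have hS := sc_gauge hsym hK hconv hint hSC
  obtain ⟨s0, hs0, hs1⟩ := exists_centre hN (S := Finset.univ.image q)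
    ⟨q 0, Finset.mem_image_of_mem _ (Finset.mem_univ _)⟩ (by
      intro s hs
      obtain ⟨k, -, rfl⟩ := Finset.mem_image.1 hs
      exact (gauge_le_one hK hconv hsym hint _).2 (hqK k))
  rw [Finset.coe_image, Finset.coe_univ, image_univ] at hs0
  by_cases h0 : s0 = 0
  · rw [h0] at hs0; exact hs0
  exfalso
  let z : Fin 6 → V := fun k => (1 / 2 : ℝ) • q k + (1 / 2 : ℝ) • (q k - s0)
  have hz : ∀ k, gauge K0 (z k) < 1 := by
    intro k
    refine hS (q k) (q k - s0) ((gauge_le_one hK hconv hsym hint _).2 (hqK k))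
      (hs1 _ (Finset.mem_image_of_mem _ (Finset.mem_univ _))) ?_ _ _ (by norm_num) (by norm_num)
      (by norm_num)
    intro h
    apply h0
    have : q k - (q k - s0) = 0 := by rw [← h, sub_self]
    simpa using this
  have hev : ∀ᶠ l in 𝓝 (1 : ℝ), ∀ k, gauge K0 (l • z k) < 1 := by
    rw [eventually_all]
    intro k
    have hc : Continuous fun l : ℝ => gauge K0 (l • z k) :=
      hN.cont.comp (continuous_id.smul continuous_const)
    have := hc.tendsto 1
    simp only [one_smul] at this
    exact this.eventually_lt_const (hz k)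
  obtain ⟨l, h1, h2⟩ := ((hev.filter_mono nhdsWithin_le_nhds).and
    (self_mem_nhdsWithin : Ioi (1 : ℝ) ∈ 𝓝[>] 1)).exists
  have h2' : 1 < l := h2
  have hcr : ∀ i j k, C2305b.Rig.cr (l • z j - l • z i) (l • z k - l • z i) =
      l ^ 2 * C2305b.Rig.cr (q j - q i) (q k - q i) := by
    intro i j k
    simp only [z, C2305b.Rig.cr, PiLp.sub_apply, PiLp.add_apply, PiLp.smul_apply, smul_eq_mul]
    ring
  have hconv6 : Conv6 (fun k => l • z k) := by
    intro i j k hij hjk
    rw [hcr]
    have := hq i j k hij hjk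
    positivity
  have h3 := ar6_le_sm hsym hK hconv hint hconv6 (fun k =>
    (gauge_le_one hK hconv hsym hint _).1 (h1 k).le)
  have h4 : ar6 (fun k => l • z k) = l ^ 2 * ar6 q := by
    rw [C2305b.Rig.O74.ar6_eq, C2305b.Rig.O74.ar6_eq, hcr, hcr, hcr, hcr]
    ring
  have h5 : 0 < sm (gauge K0) 6 := by
    obtain ⟨⟨x, hx, hxA⟩, -⟩ := sm_spec hN (show 2 ≤ 5 by norm_num)
    have := AA_nonneg hN hx
    linarith
  rw [h4, hqA] at h3
  have h6 : 1 < l ^ 2 := by nlinarith
  have h7 : sm (gauge K0) 6 * 1 < sm (gauge K0) 6 * l ^ 2 := mul_lt_mul_of_pos_left h6 h5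
  linarith

end five

include hq hqK hqA in
/-- CENTRAL SYMMETRY of all maximal convex sextuples of a smooth strictly convex body. -/
theorem sym6 (hSC : StrictConvex ℝ K0) (hsm : SmoothBody K0) (k : Fin 6) : q (k + 3) = -q k := by
  classical
  have hN := nrm_gauge hK hconv hsym hint
  have hS := sc_gauge hsym hK hconv hint hSC
  have hM := smo_gauge hsym hK hconv hint hsm
  have h56 : sm (gauge K0) 5 < sm (gauge K0) 6 := sm_lt hN hS (by norm_num)
  have hinj := q_inj hsym hK hconv hint h56 hq hqK hqA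
  have h0 := q_centre hsym hK hconv hint h56 hq hqK hqA hSC
  have hcard : (Finset.univ.image q).card ≤ 6 := by
    refine Finset.card_image_le.trans ?_
    simp
  have hcoe : ((Finset.univ.image q : Finset V) : Set V) = range q := by
    rw [Finset.coe_image, Finset.coe_univ, image_univ]
  obtain ⟨u, hu, huv, hrad⟩ := area_le_cyc0 hN (show 2 ≤ 6 by norm_num)
    (S := Finset.univ.image q) (by
      intro s hs
      obtain ⟨k, -, rfl⟩ := Finset.mem_image.1 hs
      exact (gauge_le_one hK hconv hsym hint _).2 (hqK k)) (by rw [hcoe]; exact h0) hcard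
  rw [hcoe] at huv hrad
  have huA : AA (gauge K0) 6 u / 2 = sm (gauge K0) 6 := by
    apply le_antisymm ((sm_spec hN (show 2 ≤ 6 by norm_num)).2 u hu)
    rw [← hqA]
    exact (ar6_le_volume hq).trans huv
  -- every corner is a boundary point of the sequence
  have hcor : ∀ i : Fin 6, ∃ j : Fin 6, gam (gauge K0) (u j) = q i := by
    intro i
    obtain ⟨j, hj, ρ, hρ0, -, hρ⟩ := hrad (q i) (mem_range_self i)
    have h1 := q_bdry hsym hK hconv hint h56 hq hqK hqA i
    rw [hρ, hN.smul, N_gam hN, mul_one, abs_of_nonneg hρ0] at h1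
    refine ⟨⟨j, hj⟩, ?_⟩
    rw [hρ, h1, one_smul]
  let p : Fin 6 → V := fun j => gam (gauge K0) (u j)
  have hrange : range p = range q := by
    have h1 : range q ⊆ range p := by
      rintro _ ⟨i, rfl⟩
      obtain ⟨j, hj⟩ := hcor i
      exact ⟨j, hj⟩
    have h2 : (Finset.univ.image q) ⊆ (Finset.univ.image p) := by
      intro x hx
      obtain ⟨i, -, rfl⟩ := Finset.mem_image.1 hx
      obtain ⟨j, hj⟩ := hcor i
      exact Finset.mem_image.2 ⟨j, Finset.mem_univ _, hj⟩
    have h3 : (Finset.univ.image p).card ≤ (Finset.univ.image q).card := by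
      rw [Finset.card_image_of_injective _ hinj]
      exact Finset.card_image_le
    have h4 := Finset.eq_of_subset_of_card_le h2 h3
    have h5 : ((Finset.univ.image p : Finset V) : Set V) = range p := by
      rw [Finset.coe_image, Finset.coe_univ, image_univ]
    rw [← h5, ← hcoe, h4]
  obtain ⟨m, hm⟩ := C2305b.Nat73.shift_of_range hq (conv6_gam hN hu) hinj
    (fun i j k hij hik hjk => q_cr_ne hsym hK hconv hint h56 hq hqK hqA hij hik hjk) hrange
  have hps : ∀ k : Fin 6, p (k + 3) = -p k := by
    have hs := max_symm hN hS hM hu huA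
    have h0 : ∀ j, gam (gauge K0) (u (j + 3)) = -gam (gauge K0) (u j) := fun j => by
      rw [hs j, gam_add_pi hN]
    intro k
    fin_cases k
    · exact h0 0
    · exact h0 1
    · exact h0 2
    · show gam (gauge K0) (u 0) = -gam (gauge K0) (u 3)
      rw [h0 0, neg_neg]
    · show gam (gauge K0) (u 1) = -gam (gauge K0) (u 4)
      rw [h0 1, neg_neg]
    · show gam (gauge K0) (u 2) = -gam (gauge K0) (u 5)
      rw [h0 2, neg_neg]
  have h1 := hps (k - m)
  have h2 : p (k - m + 3) = q (k - m + 3 + m) := hm _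
  have h3 : p (k - m) = q (k - m + m) := hm _
  rw [h2, h3] at h1
  have e1 : k - m + m = k := sub_add_cancel k m
  have e2 : k - m + 3 + m = k + 3 := by
    rw [add_right_comm, e1]
  rw [e1, e2] at h1
  exact h1

/-- SMOOTH STRICTLY CONVEX BODIES: gap and symmetry. -/
theorem gap_of_smooth (hSC : StrictConvex ℝ K0) (hsm : SmoothBody K0) :
    (∃ τ g, W82.Gap K0 (sm (gauge K0) 6) τ g) ∧ C2305b.Rig.Sym6 K0 (sm (gauge K0) 6) ∧
      LeMax K0 (sm (gauge K0) 6) := by
  have hN := nrm_gauge hK hconv hsym hint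
  have hS := sc_gauge hsym hK hconv hint hSC
  have hM := smo_gauge hsym hK hconv hint hsm
  refine ⟨gap_of_lt hsym hK hconv hint (dowker_lt hN hS hM (by norm_num)), ?_, ?_⟩
  · intro q hq hqK hqA k
    exact sym6 hsym hK hconv hint hq hqK hqA hSC hsm k
  · intro q hq hqK
    exact ar6_le_sm hsym hK hconv hint hq hqK

end body

end C2305bH52.Dow
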