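import Pool.Agent.W_c2305b_h52.Smooth3
import Pool.Agent.W_c2305b_h73.Vol

/-!
# The value `t6` of a symmetric convex body
-/

open MeasureTheory Set Real Filter Topology

namespace C2305bH52.Dow

open C2305b.TL (V cr)
open C2305b.Rig (Conv6 ar6 LeMax UniqHex edge)

section body

variable {K0 : Set V} (hsym : ∀ v ∈ K0, -v ∈ K0) (hK : IsCompact K0)
  (hconv : Convex ℝ K0) (hint : (interior K0).Nonempty)

include hsym hK hconv hint

/-- the value `t6` in terms of inscribed polygons -/
theorem t6_eq : C2305b.t6 K0 = ENNReal.ofReal (sm (gauge K0) 6) := by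
  classical
  have hN := nrm_gauge hK hconv hsym hint
  apply le_antisymm
  · refine iSup_le fun p => iSup_le fun hp => ?_
    have hfin : volume (convexHull ℝ (range p)) ≠ ⊤ :=
      ((Set.finite_range p).isCompact_convexHull ℝ).measure_lt_top.ne
    rw [← ENNReal.ofReal_toReal hfin]
    apply ENNReal.ofReal_le_ofReal
    have hcard : (Finset.univ.image p).card ≤ 6 := by
      refine Finset.card_image_le.trans ?_
      simp
    have := area_le_sm hN (show 2 ≤ 6 by norm_num) (S := Finset.univ.image p) (by
      intro s hs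
      obtain ⟨k, -, rfl⟩ := Finset.mem_image.1 hs
      exact (gauge_le_one hK hconv hsym hint _).2 (hp k)) hcard
    rw [Finset.coe_image, Finset.coe_univ, image_univ] at this
    exact this
  · obtain ⟨q, hq, hqK, hqA, -⟩ := exists_ar6 hsym hK hconv hint
    have hfin : volume (convexHull ℝ (range q)) ≠ ⊤ :=
      ((Set.finite_range q).isCompact_convexHull ℝ).measure_lt_top.ne
    refine le_trans ?_ (C2305b.le_t6 hqK)
    rw [← hqA, ← ENNReal.ofReal_toReal hfin]
    exact ENNReal.ofReal_le_ofReal (ar6_le_volume hq)

theorem sm_pos : 0 < sm (gauge K0) 6 := by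
  have h1 := C2305b.t6_pos hint
  rw [t6_eq hsym hK hconv hint] at h1
  exact ENNReal.ofReal_pos.1 h1

end body

end C2305bH52.Dow
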