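import Mathlib

/-!
# Algebra of the pentagon inequality
-/

namespace C2305bH52.Stat

theorem pentA {u s t p G : ℝ} (hu0 : 0 ≤ u) (hG : G < 1 / 10)
    (hs : s < 0) (ht : t < 0) (hp : -G ≤ p)
    (e04 : u - s ≤ u * t + p * s + G) : u ≤ G := by
  have h1 : u * (1 - t) ≤ s * (1 + p) + G := by linarith
  have h3 : s * (1 + p) ≤ 0 := mul_nonpos_of_nonpos_of_nonneg hs.le (by linarith)
  have h4 : 0 ≤ u * (-t) := mul_nonneg hu0 (by linarith)
  linarith

/-- the case `t < 0 <= s` -/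
theorem pentB {u v s t p q δ G : ℝ} (hu0 : 0 ≤ u) (hu1 : u ≤ 1) (hv0 : 0 ≤ v)
    (hv1 : v ≤ 1) (hδ0 : 0 ≤ δ) (hδ : δ < 1 / 4) (hG0 : 0 ≤ G) (hG : G < 1 / 10)
    (hs : 0 ≤ s) (ht : t < 0) (hs1 : s ≤ 1 + δ) (hp1 : p ≤ 1 + δ) (hq : -G ≤ q)
    (hA1 : s * v + t * q ≤ 1)
    (g0 : u * v - p * q + p ≤ v + G) (g4 : q * (1 - t) + (1 - v) * s ≤ G)
    (e13 : v - t ≤ s * v + t * q + G) :
    (u * t + p * s) + (s * v + t * q) + u + v + 1 ≤ 4 * (1 + δ) + 10 * G := by
  have hvs : 0 ≤ (1 - v) * s := mul_nonneg (by linarith) hs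
  have hqle : q ≤ G := by
    rcases le_or_gt q 0 with h | h
    · linarith
    · have : 0 ≤ q * (-t) := mul_nonneg h.le (by linarith)
      linarith
  have hsv : s * v ≤ v + δ := by
    have h1 : s * v ≤ (1 + δ) * v := mul_le_mul_of_nonneg_right hs1 hv0
    have h2 : δ * v ≤ δ * 1 := mul_le_mul_of_nonneg_left hv1 hδ0
    linarith
  have ht1 : -t ≤ 1 := by
    have h1 : (-t) * (9 / 10) ≤ (-t) * (1 + q) :=
      mul_le_mul_of_nonneg_left (by linarith) (by linarith)
    linarith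
  have htq : t * q ≤ G := by
    rcases le_or_gt q 0 with h | h
    · have h1 : (-t) * (-q) ≤ 1 * (-q) := mul_le_mul_of_nonneg_right ht1 (by linarith)
      linarith
    · have h1 : 0 ≤ (-t) * q := mul_nonneg (by linarith) h.le
      linarith
  have hut : u * t ≤ 0 := mul_nonpos_of_nonneg_of_nonpos hu0 ht.le
  rcases le_or_gt p 0 with hp | hp
  · have h9 : p * s ≤ 0 := mul_nonpos_of_nonpos_of_nonneg hp hs
    linarith
  · have hpq : p * q ≤ 5 / 4 * G := by
      have h1 : p * q ≤ p * G := mul_le_mul_of_nonneg_left hqle hp.le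
      have h2 : p * G ≤ (5 / 4) * G := mul_le_mul_of_nonneg_right (by linarith) hG0
      linarith
    have hvu : v * (1 - u) ≤ 1 * (1 - u) := mul_le_mul_of_nonneg_right hv1 (by linarith)
    have h10 : p ≤ (1 - u) + 9 / 4 * G := by linarith
    have h11 : p * s ≤ (1 - u) + δ + 3 * G := by
      have a1 : p * s ≤ p * (1 + δ) := mul_le_mul_of_nonneg_left hs1 hp.le
      have a2 : p * (1 + δ) ≤ ((1 - u) + 9 / 4 * G) * (1 + δ) :=
        mul_le_mul_of_nonneg_right h10 (by linarith)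
      have a3 : (1 - u) * δ ≤ 1 * δ := mul_le_mul_of_nonneg_right (by linarith) hδ0
      have a4 : G * δ ≤ G * (1 / 4) := mul_le_mul_of_nonneg_left hδ.le hG0
      linarith
    linarith

/-- the case of two small coordinates -/
theorem pentC {u v s t p q δ G : ℝ} (hu1 : u ≤ 1) (hv1 : v ≤ 1) (hδ0 : 0 ≤ δ) (hG0 : 0 ≤ G)
    (hs : 0 ≤ s) (ht : 0 ≤ t) (hs3 : s ≤ 3 / 4) (ht3 : t ≤ 3 / 4)
    (g1 : s + t ≤ 1 + G) (hp' : p * (1 - s) ≤ G) (hq' : q * (1 - t) ≤ G) :
    (u * t + p * s) + (s * v + t * q) + u + v + 1 ≤ 4 * (1 + δ) + 10 * G := by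
  have hut : u * t ≤ 1 * t := mul_le_mul_of_nonneg_right hu1 ht
  have hvs : s * v ≤ s * 1 := mul_le_mul_of_nonneg_left hv1 hs
  have h14 : p * s ≤ 3 * G := by
    rcases le_or_gt p 0 with h | h
    · have := mul_nonpos_of_nonpos_of_nonneg h hs
      linarith
    · have h1 : p * s ≤ p * (3 * (1 - s)) := mul_le_mul_of_nonneg_left (by linarith) h.le
      linarith
  have h15 : t * q ≤ 3 * G := by
    rcases le_or_gt q 0 with h | h
    · have := mul_nonpos_of_nonneg_of_nonpos ht h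
      linarith
    · have h1 : q * t ≤ q * (3 * (1 - t)) := mul_le_mul_of_nonneg_left (by linarith) h.le
      linarith
  linarith

/-- the case `s > 3/4` -/
theorem pentD {u v s t p q δ G : ℝ} (hu0 : 0 ≤ u) (hu1 : u ≤ 1) (hv1 : v ≤ 1) (hδ0 : 0 ≤ δ) (hδ : δ < 1 / 4) (hG0 : 0 ≤ G) (hG : G < 1 / 10)
    (ht : 0 ≤ t) (hs3 : 3 / 4 < s) (hs1 : s ≤ 1 + δ) (hp1 : p ≤ 1 + δ)
    (g1 : s + t ≤ 1 + G) (g0 : u * v - p * q + p ≤ v + G) (hq' : q * (1 - t) ≤ G) :
    (u * t + p * s) + (s * v + t * q) + u + v + 1 ≤ 4 * (1 + δ) + 10 * G := by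
  have ht4 : t < 35 / 100 := by linarith
  have hut : u * t ≤ 1 * t := mul_le_mul_of_nonneg_right hu1 ht
  have hvs : s * v ≤ s * 1 := mul_le_mul_of_nonneg_left hv1 (by linarith)
  have hqle : q ≤ 8 / 5 * G := by
    rcases le_or_gt q 0 with h | h
    · linarith
    · have h1 : q * (65 / 100) ≤ q * (1 - t) := mul_le_mul_of_nonneg_left (by linarith) h.le
      linarith
  have hqt : t * q ≤ 7 / 10 * G := by
    rcases le_or_gt q 0 with h | h
    · have := mul_nonpos_of_nonneg_of_nonpos ht h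
      linarith
    · have h1 : t * q ≤ (35 / 100) * q := mul_le_mul_of_nonneg_right ht4.le h.le
      linarith
  rcases le_or_gt p 0 with hp | hp
  · have h9 : p * s ≤ 0 := mul_nonpos_of_nonpos_of_nonneg hp (by linarith)
    linarith
  · have hpq : p * q ≤ 2 * G := by
      have h1 : p * q ≤ p * (8 / 5 * G) := mul_le_mul_of_nonneg_left hqle hp.le
      have h2 : p * (8 / 5 * G) ≤ (5 / 4) * (8 / 5 * G) :=
        mul_le_mul_of_nonneg_right (by linarith) (by linarith)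
      linarith
    have hvu : v * (1 - u) ≤ 1 * (1 - u) := mul_le_mul_of_nonneg_right hv1 (by linarith)
    have h10 : p ≤ (1 - u) + 3 * G := by linarith
    have h11 : p * s ≤ (1 - u) + δ + 15 / 4 * G := by
      have a1 : p * s ≤ p * (1 + δ) := mul_le_mul_of_nonneg_left hs1 hp.le
      have a2 : p * (1 + δ) ≤ ((1 - u) + 3 * G) * (1 + δ) :=
        mul_le_mul_of_nonneg_right h10 (by linarith)
      have a3 : (1 - u) * δ ≤ 1 * δ := mul_le_mul_of_nonneg_right (by linarith) hδ0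
      have a4 : G * δ ≤ G * (1 / 4) := mul_le_mul_of_nonneg_left hδ.le hG0
      linarith
    linarith

/-- the normalised inequality -/
theorem pent1 {u v s t p q δ G A0 A1 B0 : ℝ} (hu0 : 0 ≤ u) (hu1 : u ≤ 1) (hv0 : 0 ≤ v)
    (hv1 : v ≤ 1) (hδ0 : 0 ≤ δ) (hG0 : 0 ≤ G)
    (hs1 : s ≤ 1 + δ) (ht1 : t ≤ 1 + δ) (hp1 : p ≤ 1 + δ) (hq1 : q ≤ 1 + δ)
    (hA0 : A0 = u * t + p * s) (hA1 : A1 = s * v + t * q) (hB0 : B0 = u * v - p * q)
    (hA01 : A0 ≤ 1) (hA11 : A1 ≤ 1)
    (g1 : s + t ≤ 1 + G) (g0 : B0 + p ≤ v + G) (g2 : q + B0 ≤ u + G) (g3 : p + t ≤ A0 + G)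
    (g4 : s + q ≤ A1 + G) (e24 : 1 - q ≤ v + G) (e43 : 1 - p ≤ u + G) (e13 : v - t ≤ A1 + G)
    (e04 : u - s ≤ A0 + G) : A0 + A1 + u + v + 1 ≤ 4 * (1 + δ) + 10 * G := by
  by_contra hcon
  push Not at hcon
  have hδ : δ < 1 / 4 := by linarith
  have hG : G < 1 / 10 := by linarith
  have huv : 1 < u + v := by linarith
  have hqG : -G ≤ q := by linarith
  have hpG : -G ≤ p := by linarith
  subst hA0 hA1 hB0
  have g3' : p * (1 - s) + (1 - u) * t ≤ G := by linarith
  have g4' : q * (1 - t) + (1 - v) * s ≤ G := by linarith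
  rcases lt_or_ge t 0 with ht | ht
  · rcases lt_or_ge s 0 with hs | hs
    · have h5 : u ≤ G := pentA hu0 hG hs ht hpG e04
      have h6 : v ≤ G := pentA hv0 hG ht hs hqG (by linarith)
      linarith
    · have := pentB hu0 hu1 hv0 hv1 hδ0 hδ hG0 hG hs ht hs1 hp1 hqG hA11 (by linarith) g4' e13
      linarith
  · rcases lt_or_ge s 0 with hs | hs
    · have := pentB hv0 hv1 hu0 hu1 hδ0 hδ hG0 hG ht hs ht1 hq1 hpG (by linarith) (by linarith)
        g3' (by linarith)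
      linarith
    · have hut : 0 ≤ (1 - u) * t := mul_nonneg (by linarith) ht
      have hvs : 0 ≤ (1 - v) * s := mul_nonneg (by linarith) hs
      rcases le_or_gt s (3 / 4) with hs3 | hs3
      · rcases le_or_gt t (3 / 4) with ht3 | ht3
        · have := pentC (p := p) (q := q) (δ := δ) hu1 hv1 hδ0 hG0 hs ht hs3 ht3 g1
            (by linarith) (by linarith)
          linarith
        · have := pentD (p := q) (q := p) hv0 hv1 hu1 hδ0 hδ hG0 hG hs ht3 ht1 hq1
            (by linarith) (by linarith) (by linarith)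
          linarith
      · have := pentD (p := p) (q := q) hu0 hu1 hv1 hδ0 hδ hG0 hG ht hs3 hs1 hp1 g1
          (by linarith) (by linarith)
        linarith

/-- the inequality for the crosses of five points -/
theorem pent {a0 a1 a2 a3 a4 b0 b1 b2 b3 b4 c G : ℝ} (h3 : 0 < a3) (hG0 : 0 ≤ G)
    (p2 : 0 ≤ a2) (p4 : 0 ≤ a4)
    (m0 : a0 ≤ a3) (m1 : a1 ≤ a3) (m2 : a2 ≤ a3) (m4 : a4 ≤ a3) (hc : a3 ≤ c)
    (c1 : b1 ≤ c) (c2 : b2 ≤ c) (c3 : b3 ≤ c) (c4 : b4 ≤ c)
    (P0 : a3 * a0 = a4 * b1 + b3 * b4) (P1 : a3 * a1 = b4 * a2 + b1 * b2)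
    (P2 : a3 * b0 = a4 * a2 - b3 * b2)
    (g1 : b4 + b1 ≤ a3 + G) (g0 : b0 + b3 ≤ a2 + G) (g2 : b2 + b0 ≤ a4 + G)
    (g3 : b3 + b1 ≤ a0 + G) (g4 : b4 + b2 ≤ a1 + G) (e24 : a3 - b2 ≤ a2 + G)
    (e43 : a3 - b3 ≤ a4 + G) (e13 : a2 - b1 ≤ a1 + G) (e04 : a4 - b4 ≤ a0 + G) :
    a0 + a1 + a2 + a3 + a4 ≤ 4 * c + 10 * G := by
  have h3' : a3 ≠ 0 := h3.ne'
  have hd : ∀ x : ℝ, x / a3 * a3 = x := fun x => div_mul_cancel₀ x h3'
  have hle : ∀ {x y : ℝ}, x ≤ y → x / a3 ≤ y / a3 := fun h => div_le_div_of_nonneg_right h h3.le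
  have key := pent1 (u := a4 / a3) (v := a2 / a3) (s := b4 / a3) (t := b1 / a3) (p := b3 / a3)
    (q := b2 / a3) (δ := c / a3 - 1) (G := G / a3) (A0 := a0 / a3) (A1 := a1 / a3)
    (B0 := b0 / a3) (div_nonneg p4 h3.le) ((div_le_one h3).2 m4) (div_nonneg p2 h3.le)
    ((div_le_one h3).2 m2) (by rw [sub_nonneg]; exact (one_le_div h3).2 hc)
    (div_nonneg hG0 h3.le)
    (by have := hle c4; linarith) (by have := hle c1; linarith) (by have := hle c3; linarith)
    (by have := hle c2; linarith)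
    (by field_simp; linarith) (by field_simp; linarith) (by field_simp; linarith)
    ((div_le_one h3).2 m0) ((div_le_one h3).2 m1)
    (by have := hle g1; rw [add_div, add_div, div_self h3'] at this; exact this)
    (by have := hle g0; rw [add_div, add_div] at this; exact this)
    (by have := hle g2; rw [add_div, add_div] at this; exact this)
    (by have := hle g3; rw [add_div, add_div] at this; exact this)
    (by have := hle g4; rw [add_div, add_div] at this; exact this)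
    (by have := hle e24; rw [sub_div, add_div, div_self h3'] at this; exact this)
    (by have := hle e43; rw [sub_div, add_div, div_self h3'] at this; exact this)
    (by have := hle e13; rw [sub_div, add_div] at this; exact this)
    (by have := hle e04; rw [sub_div, add_div] at this; exact this)
  have k2 := mul_le_mul_of_nonneg_right key h3.le
  have e1 : (a0 / a3 + a1 / a3 + a4 / a3 + a2 / a3 + 1) * a3 = a0 + a1 + a4 + a2 + a3 := by
    simp only [add_mul, hd, one_mul]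
  have e2 : (4 * (1 + (c / a3 - 1)) + 10 * (G / a3)) * a3 = 4 * c + 10 * G := by
    have := hd c
    have := hd G
    linear_combination 4 * hd c + 10 * hd G
  rw [e1, e2] at k2
  linarith

end C2305bH52.Stat
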