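import Pool.Agent.W_c2305b_h52.Stat1
import Pool.Agent.W_c2305b_h52.Line

/-!
# The pentagon inequality for centrally symmetric norms
-/

open MeasureTheory Set Real Filter Topology

namespace C2305bH52.Stat

open C2305b.TL (V cr)
open C2305b.Rig (Conv6 ar6)
open C2305bH52.Dow

theorem cr_expand (x y p : V) : cr (x - p) (y - p) = cr x y - cr x p - cr p y := by
  unfold cr
  simp only [PiLp.sub_apply]
  ring

/-- a new corner over an edge of a pentagon -/
theorem ins {N : V → ℝ} (hN : Nrm N) {u : ℕ → ℝ} (h : Cyc 5 u) {z : V} (hz : N z ≤ 1)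
    {j : ℕ} (hj : j < 5) :
    AA N 5 u + (cr (gam N (u j)) z + cr z (gam N (u (j + 1))) - FF N (u j) (u (j + 1))) ≤
      2 * sm N 6 := by
  classical
  set p : ℕ → V := fun k => gam N (u k) with hp
  have h5 : AA N 5 u / 2 ≤ sm N 5 := (sm_spec hN (show 2 ≤ 5 by norm_num)).2 u h
  have h56 : sm N 5 ≤ sm N 6 := sm_mono hN (show 2 ≤ 5 by norm_num)
  set g := cr (p j) z + cr z (p (j + 1)) - FF N (u j) (u (j + 1)) with hg
  have hgw : cr (z - p j) (p (j + 1) - p j) = g := by
    rw [cr_expand, hg, C2305b.TL.cr_swap (p j) z]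
    show _ = _ - cr (p j) (p (j + 1))
    ring
  rcases le_or_gt g 0 with hg0 | hg0
  · linarith
  set w := p (j + 1) - p j with hw
  have hw0 : w ≠ 0 := by
    intro h0
    rw [h0, C2305b.TL.cr_zero_right] at hgw
    linarith
  set Q := convexHull ℝ (range fun k : Fin 5 => p k) with hQ
  set T := convexHull ℝ ({p j, z, p (j + 1)} : Set V) with hT
  have hcv : ∀ x y : V, ∀ a b : ℝ, a + b = 1 →
      cr w (a • x + b • y - p j) = a * cr w (x - p j) + b * cr w (y - p j) := by
    intro x y a b hab
    have hb' : b = 1 - a := by linarith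
    subst hb'
    unfold cr
    simp only [PiLp.sub_apply, PiLp.add_apply, PiLp.smul_apply, smul_eq_mul]
    ring
  have hper : ∀ k, p (k + 5) = p k := fun k => by
    show gam N (u (k + 5)) = gam N (u k)
    rw [h.per, gam_add_two_pi hN]
  have hQle : ∀ x ∈ Q, 0 ≤ cr w (x - p j) := by
    have hsub : Q ⊆ {x | 0 ≤ cr w (x - p j)} := by
      refine convexHull_min ?_ ?_
      · rintro _ ⟨k, rfl⟩
        have hk := k.isLt
        show 0 ≤ cr (p (j + 1) - p j) (p k - p j)
        rcases le_or_gt (j + 1) (k : ℕ) with hk1 | hk1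
        · have h7 : u (k : ℕ) ≤ u (j + 5) := h.le (by omega)
          rw [h.per] at h7
          exact orient_cr hN (h.mono j) (h.le hk1) h7
        · have h7 : u ((k : ℕ) + 5) ≤ u (j + 5) := h.le (by omega)
          rw [h.per j] at h7
          have := orient_cr hN (h.mono j) (h.le (show j + 1 ≤ (k : ℕ) + 5 by omega)) h7
          rw [← hper k]
          exact this
      · intro x hx y hy a b ha hb hab
        simp only [mem_setOf_eq] at hx hy ⊢
        rw [hcv x y a b hab]
        have := mul_nonneg ha hx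
        have := mul_nonneg hb hy
        linarith
    exact fun x hx => hsub hx
  have hTle : ∀ x ∈ T, cr w (x - p j) ≤ 0 := by
    have hsub : T ⊆ {x | cr w (x - p j) ≤ 0} := by
      refine convexHull_min ?_ ?_
      · intro x hx
        simp only [mem_insert_iff, mem_singleton_iff] at hx
        simp only [mem_setOf_eq]
        rcases hx with rfl | rfl | rfl
        · rw [sub_self, C2305b.TL.cr_zero_right]
        · rw [C2305b.TL.cr_swap, hgw]
          linarith
        · rw [← hw, C2305b.TL.cr_self]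
      · intro x hx y hy a b ha hb hab
        simp only [mem_setOf_eq] at hx hy ⊢
        rw [hcv x y a b hab]
        have := mul_nonneg ha (neg_nonneg.2 hx)
        have := mul_nonneg hb (neg_nonneg.2 hy)
        linarith
    exact fun x hx => hsub hx
  have hnull : volume (Q ∩ T) = 0 := by
    refine measure_mono_null ?_ (C2305bH68.Tri.null_line hw0 (p j))
    rintro x ⟨hx1, hx2⟩
    exact le_antisymm (hTle x hx2) (hQle x hx1)
  have hQfin : volume Q ≠ ⊤ := ((Set.finite_range _).isCompact_convexHull ℝ).measure_lt_top.ne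
  have hTfin : volume T ≠ ⊤ := C2305b.TL.volume_triangle_ne_top _ _ _
  have hTm : MeasurableSet T := ((Set.toFinite _).isCompact_convexHull ℝ).isClosed.measurableSet
  have hU : volume (Q ∪ T) = volume Q + volume T :=
    measure_union₀ hTm.nullMeasurableSet hnull
  set S : Finset V := insert z (Finset.univ.image fun k : Fin 5 => p k) with hS
  have hScard : S.card ≤ 6 := by
    refine (Finset.card_insert_le _ _).trans ?_
    have : (Finset.univ.image fun k : Fin 5 => p k).card ≤ 5 := by
      refine Finset.card_image_le.trans ?_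
      simp
    omega
  have hSN : ∀ s ∈ S, N s ≤ 1 := by
    intro s hs
    rw [hS, Finset.mem_insert, Finset.mem_image] at hs
    rcases hs with rfl | ⟨k, -, rfl⟩
    · exact hz
    · exact (N_gam hN _).le
  have hmemS : ∀ k, p k ∈ convexHull ℝ (S : Set V) := by
    intro k
    have hk : p k = p (k % 5) := by
      have hP : Function.Periodic p 5 := hper
      exact (hP.map_mod_nat k).symm
    rw [hk]
    apply subset_convexHull
    rw [hS, Finset.coe_insert, Finset.coe_image]
    exact Or.inr ⟨⟨k % 5, Nat.mod_lt _ (by norm_num)⟩, by simp, rfl⟩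
  have hQS : Q ∪ T ⊆ convexHull ℝ (S : Set V) := by
    refine union_subset ?_ ?_
    · refine convexHull_min ?_ (convex_convexHull ℝ _)
      rintro _ ⟨k, rfl⟩
      exact hmemS k
    · refine convexHull_min ?_ (convex_convexHull ℝ _)
      intro x hx
      simp only [mem_insert_iff, mem_singleton_iff] at hx
      rcases hx with rfl | rfl | rfl
      · exact hmemS j
      · exact subset_convexHull ℝ _ (by rw [hS]; exact Finset.mem_coe.2 (Finset.mem_insert_self _ _))
      · exact hmemS (j + 1)
  have hSfin : volume (convexHull ℝ (S : Set V)) ≠ ⊤ :=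
    (S.finite_toSet.isCompact_convexHull ℝ).measure_lt_top.ne
  have h1 : (volume Q).toReal + (volume T).toReal ≤ sm N 6 := by
    rw [← ENNReal.toReal_add hQfin hTfin, ← hU]
    exact (ENNReal.toReal_mono hSfin (measure_mono hQS)).trans
      (area_le_sm hN (by norm_num) hSN hScard)
  have h2 : AA N 5 u / 2 ≤ (volume Q).toReal := AA_le_volume hN h
  have h3 : (volume T).toReal = g / 2 := by
    rw [hT, C2305b.TL.volume_triangle, hgw, abs_of_pos hg0]
  linarith

/-- THE PENTAGON INEQUALITY: `t5 - t4 <= 10 (t6 - t5)`. -/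
theorem pentagon_le {N : V → ℝ} (hN : Nrm N) {c : ℝ}
    (hc : ∀ x y, N x ≤ 1 → N y ≤ 1 → cr x y ≤ c) :
    sm N 5 ≤ 2 * c + 10 * (sm N 6 - sm N 5) := by
  obtain ⟨⟨x, hx, hxA⟩, -⟩ := sm_spec hN (show 2 ≤ 5 by norm_num)
  have h56 : sm N 5 ≤ sm N 6 := sm_mono hN (show 2 ≤ 5 by norm_num)
  have hc0 : 0 ≤ c := by
    have := hc 0 0 (by rw [hN.zero]; norm_num) (by rw [hN.zero]; norm_num)
    rwa [C2305b.TL.cr_self] at this
  obtain ⟨k0, -, hk0⟩ := Finset.exists_max_image (Finset.range 5)
    (fun k => FF N (x k) (x (k + 1))) ⟨0, by simp⟩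
  have hApe : Function.Periodic (fun k => FF N (x k) (x (k + 1))) 5 := by
    intro k
    show FF N (x (k + 5)) (x (k + 5 + 1)) = _
    have e : k + 5 + 1 = k + 1 + 5 := by ring
    rw [e, hx.per, hx.per, FF_both hN]
  have hmax : ∀ k, FF N (x k) (x (k + 1)) ≤ FF N (x k0) (x (k0 + 1)) := by
    intro k
    have h1 : FF N (x (k % 5)) (x (k % 5 + 1)) = FF N (x k) (x (k + 1)) := hApe.map_mod_nat k
    rw [← h1]
    exact hk0 (k % 5) (Finset.mem_range.2 (Nat.mod_lt _ (by norm_num)))
  set u : ℕ → ℝ := fun j => x (j + (k0 + 2)) with hu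
  have hcyc : Cyc 5 u := hx.shift (k0 + 2)
  have hA : AA N 5 u = AA N 5 x := AA_shift hN hx (k0 + 2)
  have hmu : ∀ k, FF N (u k) (u (k + 1)) ≤ FF N (u 3) (u 4) := by
    intro k
    have h1 : FF N (u 3) (u 4) = FF N (x k0) (x (k0 + 1)) := by
      have e3 : u 3 = x (k0 + 5) := by rw [hu]; simp only; congr 1; ring
      have e4 : u 4 = x (k0 + 1 + 5) := by rw [hu]; simp only; congr 1; ring
      rw [e3, e4, hx.per, hx.per, FF_both hN]
    rw [h1]
    have e : u (k + 1) = x (k + (k0 + 2) + 1) := by rw [hu]; simp only; congr 1; ring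
    rw [e]
    exact hmax _
  have hsum : AA N 5 u = FF N (u 0) (u 1) + FF N (u 1) (u 2) + FF N (u 2) (u 3) +
      FF N (u 3) (u 4) + FF N (u 4) (u 5) := by
    unfold AA
    simp only [Finset.sum_range_succ, Finset.sum_range_zero, zero_add]
  have hu5 : u 5 = u 0 + 2 * π := by
    have := hcyc.per 0
    rwa [zero_add] at this
  have hN1 : ∀ t, N (gam N t) ≤ 1 := fun t => (N_gam hN t).le
  have hNm : ∀ t, N (-gam N t) ≤ 1 := fun t => by rw [hN.neg]; exact hN1 t
  have hA2 : AA N 5 u = 2 * sm N 5 := by rw [hA]; linarith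
  -- the insertions
  have hins : ∀ k j, j < 5 → FF N (u k) (u j) - FF N (u k) (u (j + 1)) ≤
      FF N (u j) (u (j + 1)) + 2 * (sm N 6 - sm N 5) := by
    intro k j hj
    have h1 := ins hN hcyc (hNm (u k)) hj
    have e1 : cr (gam N (u j)) (-gam N (u k)) = FF N (u k) (u j) := by
      unfold FF cr
      simp only [PiLp.neg_apply]
      ring
    have e2 : cr (-gam N (u k)) (gam N (u (j + 1))) = -FF N (u k) (u (j + 1)) := by
      unfold FF cr
      simp only [PiLp.neg_apply]
      ring
    rw [e1, e2] at h1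
    linarith
  have hcr : ∀ s t, FF N s t ≤ c := fun s t => hc _ _ (hN1 s) (hN1 t)
  rcases le_or_gt (FF N (u 3) (u 4)) 0 with h0 | h0
  · have := hmu 0
    have := hmu 1
    have := hmu 2
    have := hmu 4
    linarith
  have hanti : ∀ s t, FF N s t = -FF N t s := fun s t => FF_anti t s
  have i1 := hins 1 3 (by norm_num)
  have i0 := hins 0 2 (by norm_num)
  have i2 := hins 2 4 (by norm_num)
  have i3 := hins 3 0 (by norm_num)
  have i4 := hins 4 1 (by norm_num)
  have i42 := hins 4 2 (by norm_num)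
  have i34 := hins 3 4 (by norm_num)
  have i31 := hins 3 1 (by norm_num)
  have i40 := hins 4 0 (by norm_num)
  norm_num at i1 i0 i2 i3 i4 i42 i34 i31 i40
  have m0 := hmu 0
  have m1 := hmu 1
  have m2 := hmu 2
  have m4 := hmu 4
  norm_num at m0 m1 m2 m4
  have hF5 : ∀ s, FF N s (u 0 + 2 * π) = FF N s (u 0) := fun s => FF_right hN s _
  rw [hu5] at hsum i2 i34 m4
  simp only [hF5] at hsum i2 i34 m4
  have p2 : 0 ≤ FF N (u 2) (u 3) := FF_nonneg hN (hcyc.mono 2) (hcyc.arc 2)
  have p4 : 0 ≤ FF N (u 4) (u 0) := by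
    have := FF_nonneg hN (hcyc.mono 4) (hcyc.arc 4)
    norm_num at this
    rw [hu5, FF_right hN] at this
    exact this
  have key := pent (a0 := FF N (u 0) (u 1)) (a1 := FF N (u 1) (u 2)) (a2 := FF N (u 2) (u 3))
    (a3 := FF N (u 3) (u 4)) (a4 := FF N (u 4) (u 0)) (b0 := FF N (u 0) (u 2))
    (b1 := FF N (u 1) (u 3)) (b2 := FF N (u 2) (u 4)) (b3 := FF N (u 3) (u 0))
    (b4 := FF N (u 4) (u 1)) (c := c) (G := 2 * (sm N 6 - sm N 5)) h0 (by linarith) p2 p4
    m0 m1 m2 m4 (hcr _ _) (hcr _ _) (hcr _ _) (hcr _ _) (hcr _ _)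
    (by unfold FF cr; ring) (by unfold FF cr; ring) (by unfold FF cr; ring)
    (by have := hanti (u 1) (u 4); linarith)
    (by have := hanti (u 0) (u 3); linarith)
    (by have := hanti (u 2) (u 0); linarith)
    (by have := hanti (u 3) (u 1); linarith)
    (by have := hanti (u 4) (u 2); linarith)
    (by have := hanti (u 4) (u 2); have := hanti (u 4) (u 3); linarith)
    (by linarith)
    (by have := hanti (u 3) (u 1); have := hanti (u 3) (u 2); linarith)
    (by linarith)
  linarith

end C2305bH52.Stat
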