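import Pool.Agent.W_c2305b_h52.Stat2

/-!
# The frame of a centrally symmetric body with `t6 - t5` small
-/

open MeasureTheory Set Real Filter Topology

namespace C2305bH52.Stat

open C2305b.TL (V cr)
open C2305b.Rig (Conv6 ar6)
open C2305bH52.Dow

/-- the symmetric hexagon `p, z, q, -p, -z, -q` -/
def sHex (p z q : V) : Fin 6 → V := ![p, z, q, -p, -z, -q]

theorem sHex_conv {p q : V} {s t : ℝ} (hc : 0 ≤ cr p q) (hs0 : 0 ≤ s) (hs1 : s ≤ 1)
    (ht0 : 0 ≤ t) (ht1 : t ≤ 1) (hst : 1 ≤ s + t) : Conv6 (sHex p (s • p + t • q) q) := by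
  have e0 : 0 ≤ (p 0 * q 1 - p 1 * q 0) := hc
  have e1 : 0 ≤ (p 0 * q 1 - p 1 * q 0) * s := mul_nonneg e0 hs0
  have e2 : 0 ≤ (p 0 * q 1 - p 1 * q 0) * t := mul_nonneg e0 ht0
  have e3 : 0 ≤ (p 0 * q 1 - p 1 * q 0) * (1 - s) := mul_nonneg e0 (by linarith)
  have e4 : 0 ≤ (p 0 * q 1 - p 1 * q 0) * (1 - t) := mul_nonneg e0 (by linarith)
  have e5 : 0 ≤ (p 0 * q 1 - p 1 * q 0) * (s + t - 1) := mul_nonneg e0 (by linarith)
  intro i j k hij hjk
  fin_cases i <;> fin_cases j <;> first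
    | exact absurd hij (by decide)
    | (fin_cases k <;> first
        | exact absurd hjk (by decide)
        | (simp only [sHex, C2305b.Rig.cr, Fin.zero_eta, Fin.mk_one, Fin.reduceFinMk,
            Matrix.cons_val, PiLp.sub_apply, PiLp.add_apply, PiLp.smul_apply, PiLp.neg_apply,
            smul_eq_mul]
           linarith))

theorem sHex_area (p z q : V) : ar6 (sHex p z q) = cr p z + cr z q + cr p q := by
  unfold ar6
  rw [Fin.sum_univ_six]
  have e0 : (0 : Fin 6) + 1 = 1 := rfl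
  have e1 : (1 : Fin 6) + 1 = 2 := rfl
  have e2 : (2 : Fin 6) + 1 = 3 := rfl
  have e3 : (3 : Fin 6) + 1 = 4 := rfl
  have e4 : (4 : Fin 6) + 1 = 5 := rfl
  have e5 : (5 : Fin 6) + 1 = 0 := rfl
  rw [e0, e1, e2, e3, e4, e5]
  simp only [sHex, C2305b.Rig.cr, cr, Matrix.cons_val, PiLp.neg_apply]
  ring

theorem hexS {N : V → ℝ} (hN : Nrm N) {p q : V} (hp : N p ≤ 1) (hq : N q ≤ 1) {s t : ℝ}
    (hz : N (s • p + t • q) ≤ 1) (hc : 0 ≤ cr p q) (hs0 : 0 ≤ s) (hs1 : s ≤ 1)
    (ht0 : 0 ≤ t) (ht1 : t ≤ 1) (hst : 1 ≤ s + t) : cr p q * (1 + s + t) ≤ sm N 6 := by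
  classical
  have h1 := ar6_le_volume (sHex_conv hc hs0 hs1 ht0 ht1 hst)
  rw [sHex_area] at h1
  have e : cr p (s • p + t • q) + cr (s • p + t • q) q + cr p q = cr p q * (1 + s + t) := by
    unfold cr
    simp only [PiLp.add_apply, PiLp.smul_apply, smul_eq_mul]
    ring
  rw [e] at h1
  refine h1.trans ?_
  have h2 := area_le_sm hN (show 2 ≤ 6 by norm_num)
    (S := Finset.univ.image (sHex p (s • p + t • q) q)) (by
      intro x hx
      obtain ⟨k, -, rfl⟩ := Finset.mem_image.1 hx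
      fin_cases k
      · exact hp
      · exact hz
      · exact hq
      · show N (-p) ≤ 1
        rw [hN.neg]; exact hp
      · show N (-(s • p + t • q)) ≤ 1
        rw [hN.neg]; exact hz
      · show N (-q) ≤ 1
        rw [hN.neg]; exact hq) (by
      refine Finset.card_image_le.trans ?_
      simp)
  rw [Finset.coe_image, Finset.coe_univ, image_univ] at h2
  exact h2

section body

variable {K0 : Set V} (hsym : ∀ v ∈ K0, -v ∈ K0) (hK : IsCompact K0)
  (hconv : Convex ℝ K0) (hint : (interior K0).Nonempty)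

include hsym hK hconv hint

/-- the maximal inscribed parallelogram -/
theorem exists_par : ∃ p ∈ K0, ∃ q ∈ K0, 0 < cr p q ∧ ∀ x ∈ K0, ∀ y ∈ K0, cr x y ≤ cr p q := by
  obtain ⟨x0, hx0⟩ := hint
  have hx0' := interior_subset hx0
  have hcont : Continuous fun z : V × V => cr z.1 z.2 := by
    unfold cr
    fun_prop
  obtain ⟨⟨p, q⟩, ⟨hp, hq⟩, hmax⟩ := (hK.prod hK).exists_isMaxOn ⟨(x0, x0), hx0', hx0'⟩
    hcont.continuousOn
  have hle : ∀ x ∈ K0, ∀ y ∈ K0, cr x y ≤ cr p q := fun x hx y hy => hmax (mk_mem_prod hx hy)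
  refine ⟨p, hp, q, hq, ?_, hle⟩
  by_contra hcon
  push Not at hcon
  -- all crosses vanish
  have h0 : ∀ x ∈ K0, ∀ y ∈ K0, cr x y = 0 := by
    intro x hx y hy
    have h1 := hle x hx y hy
    have h2 := hle (-x) (hsym x hx) y hy
    have e : cr (-x) y = -cr x y := by unfold cr; simp only [PiLp.neg_apply]; ring
    rw [e] at h2
    linarith
  have hnear := nhds_zero hconv hsym ⟨x0, hx0⟩
  obtain ⟨r, hr, hball⟩ := Metric.mem_nhds_iff.1 hnear
  have hmem : ∀ v : V, ‖v‖ < r → v ∈ K0 := fun v hv => hball (by simpa using hv)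
  have h3 := h0 ((r / 2) • EuclideanSpace.single 0 1) (hmem _ (by
    rw [norm_smul, EuclideanSpace.norm_single]
    simp only [norm_one, mul_one, Real.norm_eq_abs]
    rw [abs_of_pos (by linarith)]; linarith))
    ((r / 2) • EuclideanSpace.single 1 1) (hmem _ (by
    rw [norm_smul, EuclideanSpace.norm_single]
    simp only [norm_one, mul_one, Real.norm_eq_abs]
    rw [abs_of_pos (by linarith)]; linarith))
  unfold cr at h3
  simp at h3
  linarith

/-- `t6 <= 2 c + 11 (t6 - t5)`, `c` the largest cross. -/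
theorem six_le {c : ℝ} (hc : ∀ x ∈ K0, ∀ y ∈ K0, cr x y ≤ c) :
    sm (gauge K0) 6 ≤ 2 * c + 11 * (sm (gauge K0) 6 - sm (gauge K0) 5) := by
  have hN := nrm_gauge hK hconv hsym hint
  have := pentagon_le hN (c := c) (fun x y hx hy => hc x
    ((gauge_le_one hK hconv hsym hint _).1 hx) y ((gauge_le_one hK hconv hsym hint _).1 hy))
  linarith

/-- the box in the coordinates of the maximal parallelogram -/
theorem box {p q : V} (hp : p ∈ K0) (hq : q ∈ K0) (hpq : 0 < cr p q)
    (hmax : ∀ x ∈ K0, ∀ y ∈ K0, cr x y ≤ cr p q) {z : V} (hz : z ∈ K0) :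
    ∃ s t : ℝ, z = s • p + t • q ∧ |s| ≤ 1 ∧ |t| ≤ 1 ∧
      |s| + |t| ≤ 1 + 11 * (sm (gauge K0) 6 - sm (gauge K0) 5) / cr p q := by
  have hN := nrm_gauge hK hconv hsym hint
  have hsig := sig_nonneg hsym hK hconv hint
  have h6 := six_le hsym hK hconv hint hmax
  have hle1 : ∀ x ∈ K0, gauge K0 x ≤ 1 := fun x hx => (gauge_le_one hK hconv hsym hint _).2 hx
  set c := cr p q with hc
  set s := cr z q / c with hs
  set t := cr p z / c with ht
  have hzst : z = s • p + t • q := (decomp hpq.ne').symm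
  have hneg1 : ∀ x y : V, cr (-x) y = -cr x y := fun x y => by
    unfold cr; simp only [PiLp.neg_apply]; ring
  have hneg2 : ∀ x y : V, cr x (-y) = -cr x y := fun x y => by
    unfold cr; simp only [PiLp.neg_apply]; ring
  have hs1 : |s| ≤ 1 := by
    rw [hs, abs_div, abs_of_pos hpq, div_le_one hpq, abs_le]
    have a1 := hmax z hz q hq
    have a2 := hmax (-z) (hsym z hz) q hq
    rw [hneg1] at a2
    constructor <;> linarith
  have ht1 : |t| ≤ 1 := by
    rw [ht, abs_div, abs_of_pos hpq, div_le_one hpq, abs_le]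
    have a1 := hmax p hp z hz
    have a2 := hmax p hp (-z) (hsym z hz)
    rw [hneg2] at a2
    constructor <;> linarith
  refine ⟨s, t, hzst, hs1, ht1, ?_⟩
  rcases le_or_gt (|s| + |t|) 1 with hst | hst
  · have : 0 ≤ 11 * (sm (gauge K0) 6 - sm (gauge K0) 5) / c := by positivity
    linarith
  · -- the hexagon with corners `±p`, `±q`, `±z`
    have key : c * (1 + |s| + |t|) ≤ sm (gauge K0) 6 := by
      have hgen : ∀ P Q : V, P ∈ K0 → Q ∈ K0 → cr P Q = c → z = |s| • P + |t| • Q →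
          c * (1 + |s| + |t|) ≤ sm (gauge K0) 6 := by
        intro P Q hP hQ hPQ hzPQ
        have := hexS hN (hle1 P hP) (hle1 Q hQ) (s := |s|) (t := |t|)
          (by rw [← hzPQ]; exact hle1 z hz) (by rw [hPQ]; exact hpq.le) (abs_nonneg _) hs1
          (abs_nonneg _) ht1 hst.le
        rw [hPQ] at this
        exact this
      have hgen' : ∀ P Q : V, P ∈ K0 → Q ∈ K0 → cr P Q = c → z = |t| • P + |s| • Q →
          c * (1 + |s| + |t|) ≤ sm (gauge K0) 6 := by
        intro P Q hP hQ hPQ hzPQ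
        have := hexS hN (hle1 P hP) (hle1 Q hQ) (s := |t|) (t := |s|)
          (by rw [← hzPQ]; exact hle1 z hz) (by rw [hPQ]; exact hpq.le) (abs_nonneg _) ht1
          (abs_nonneg _) hs1 (by linarith)
        rw [hPQ] at this
        linarith
      have hqp : cr q p = -c := by rw [C2305b.TL.cr_swap]
      rcases le_or_gt 0 s with h1 | h1
      · rcases le_or_gt 0 t with h2 | h2
        · exact hgen p q hp hq rfl (by rw [abs_of_nonneg h1, abs_of_nonneg h2]; exact hzst)
        · refine hgen' (-q) p (hsym q hq) hp (by rw [hneg1, hqp, neg_neg]) ?_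
          rw [abs_of_nonneg h1, abs_of_neg h2, hzst]
          simp only [neg_smul, smul_neg, neg_neg]
          abel
      · rcases le_or_gt 0 t with h2 | h2
        · refine hgen' q (-p) hq (hsym p hp) (by rw [hneg2, hqp, neg_neg]) ?_
          rw [abs_of_neg h1, abs_of_nonneg h2, hzst]
          simp only [neg_smul, smul_neg, neg_neg]
          abel
        · refine hgen (-p) (-q) (hsym p hp) (hsym q hq) (by rw [hneg1, hneg2, neg_neg]) ?_
          rw [abs_of_neg h1, abs_of_neg h2, hzst]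
          simp only [neg_smul, smul_neg, neg_neg]
    rw [add_div' _ _ _ hpq.ne', le_div_iff₀ hpq]
    nlinarith

end body

end C2305bH52.Stat
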